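import Pool.Agent.H49.AB.VFacts

/-!
# JOB AB-34. Atypical compositions

All three are Markov's inequality with `sum_bin` (`p = (S.a.1)⁻¹`, `q = (S.b.1)⁻¹`, `W1`, `W2`).
`atyp1`: if `|W|_1 < exp(6.24 o)` then `1 ≤ exp(3.12 o) |W|_1^(-1/2) = exp(3.12 o) x^a y^b`, `x = α^(-1/2) ≤ 0.8994`, `y = β^(-1/2) ≤ 0.4375`; the sum is at most
`exp(3.12 o) (p x + q y)^(16 o) ≤ exp(3.12 o) * 0.8112^(16 o)` (`p x + q y ≤ 0.8088 * 0.8994 + 0.1914 * 0.4375 ≤ 0.8112`; numerically the value is `0.81094`;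
`ln 0.8112 = -0.20924`, `3.12 - 16 * 0.20924 = -0.2279`), so `≤ exp(-o/5)`.
`atyp2`: `1 ≤ exp(o/25) ‖W‖_2²`, sum `≤ (exp(1/25) * 0.945)^o ≤ 0.984^o` (`S.kap`).
`atyp3`: `1 ≤ 0.878^o ‖W‖_2⁻¹`, sum `≤ (0.878 (p/‖a2‖ + q/‖b2‖))^o ≤ 0.998^o` (`‖a2‖ ≥ 1.0503`, `‖b2‖ ≥ 0.5236` from `a2l`, `b2l`; `pu`, `qu`).
-/

set_option autoImplicit false

namespace Pool.Agent.H49.AB

open Pool.Agent.H67.Tent Finset

/-- Markov's inequality for the binomial weights -/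
theorem Atyp_markov (S : Sys2) (n : ℕ) (P : ℕ × ℕ → Prop) [DecidablePred P] (c x y : ℝ)
    (hc : 0 ≤ c) (hx : 0 ≤ x) (hy : 0 ≤ y)
    (h : ∀ u : ℕ × ℕ, ¬ P u → 1 ≤ c * (x ^ u.1 * y ^ u.2)) :
    ∑ u ∈ AD n, (if P u then 0 else bin (S.a.1)⁻¹ (S.b.1)⁻¹ u.1 u.2) ≤
      c * ((S.a.1)⁻¹ * x + (S.b.1)⁻¹ * y) ^ n := by
  rw [← sum_bin, Finset.mul_sum]
  refine Finset.sum_le_sum fun u _ => ?_
  have hb := bin_nonneg (inv_nonneg.2 (ap S).le) (inv_nonneg.2 (bp S).le) u.1 u.2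
  split_ifs with hP
  · positivity
  · calc bin (S.a.1)⁻¹ (S.b.1)⁻¹ u.1 u.2 = bin (S.a.1)⁻¹ (S.b.1)⁻¹ u.1 u.2 * 1 := (mul_one _).symm
      _ ≤ bin (S.a.1)⁻¹ (S.b.1)⁻¹ u.1 u.2 * (c * (x ^ u.1 * y ^ u.2)) :=
        mul_le_mul_of_nonneg_left (h u hP) hb
      _ = _ := by ring

theorem Atyp_exp : Real.exp 0.01 ≤ 100 / 99 := by
  have h := Real.exp_bound_div_one_sub_of_interval (x := 0.01) (by norm_num) (by norm_num)
  refine h.trans (by norm_num)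

open Classical in
theorem atyp1 (S : Sys2) (o : ℕ) :
    ∑ x ∈ AD (16 * o), (if Real.exp (6.24 * o) ≤ |(W S x.1 x.2).1| then 0 else
      bin (S.a.1)⁻¹ (S.b.1)⁻¹ x.1 x.2) ≤ Real.exp (-(o : ℝ) / 5) := by
  have ha : 0 < (S.a.1)⁻¹ := inv_pos.2 (ap S)
  have hb : 0 < (S.b.1)⁻¹ := inv_pos.2 (bp S)
  refine (Atyp_markov S (16 * o) (fun x => Real.exp (6.24 * o) ≤ |(W S x.1 x.2).1|)
    (Real.exp (3.12 * o)) (Real.sqrt (S.a.1)⁻¹) (Real.sqrt (S.b.1)⁻¹) (Real.exp_pos _).le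
    (Real.sqrt_nonneg _) (Real.sqrt_nonneg _) ?_).trans ?_
  · intro u hu
    push Not at hu
    have h0 : 0 ≤ Real.exp (3.12 * o) * (Real.sqrt (S.a.1)⁻¹ ^ u.1 * Real.sqrt (S.b.1)⁻¹ ^ u.2) := by
      positivity
    have h1 : (Real.exp (3.12 * o) * (Real.sqrt (S.a.1)⁻¹ ^ u.1 * Real.sqrt (S.b.1)⁻¹ ^ u.2)) ^ 2 =
        Real.exp (6.24 * o) * |(W S u.1 u.2).1|⁻¹ := by
      rw [W1, mul_pow, mul_pow, ← pow_mul, ← pow_mul, mul_comm u.1 2, mul_comm u.2 2, pow_mul,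
        pow_mul, Real.sq_sqrt ha.le, Real.sq_sqrt hb.le, ← Real.exp_nat_mul, inv_pow, inv_pow,
        mul_inv]
      congr 2
      push_cast
      ring
    have h2 : 1 ≤ Real.exp (6.24 * o) * |(W S u.1 u.2).1|⁻¹ := by
      rw [← div_eq_mul_inv, one_le_div (W1_pos S _ _)]
      exact hu.le
    rw [← h1] at h2
    nlinarith
  · have hx : Real.sqrt (S.a.1)⁻¹ ≤ 0.8994 := by
      rw [Real.sqrt_le_left (by norm_num)]
      exact (pu S).trans (by norm_num)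
    have hy : Real.sqrt (S.b.1)⁻¹ ≤ 0.4375 := by
      rw [Real.sqrt_le_left (by norm_num)]
      exact (qu S).trans (by norm_num)
    have h1 : (S.a.1)⁻¹ * Real.sqrt (S.a.1)⁻¹ + (S.b.1)⁻¹ * Real.sqrt (S.b.1)⁻¹ ≤ 0.8112 := by
      have h3 := mul_le_mul (pu S) hx (Real.sqrt_nonneg _) (by norm_num)
      have h4 := mul_le_mul (qu S) hy (Real.sqrt_nonneg _) (by norm_num)
      norm_num at h3 h4 ⊢
      linarith
    have h2 : Real.exp (3.12 * o) * ((S.a.1)⁻¹ * Real.sqrt (S.a.1)⁻¹ +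
        (S.b.1)⁻¹ * Real.sqrt (S.b.1)⁻¹) ^ (16 * o) ≤
        Real.exp (3.12 * o) * 0.8112 ^ (16 * o) := by
      gcongr
    refine h2.trans ?_
    have h5 : Real.exp 3.32 * 0.8112 ^ 16 ≤ 1 := by
      have e1 : Real.exp 3.32 = Real.exp 1 ^ 3 * Real.exp 0.01 ^ 32 := by
        rw [← Real.exp_nat_mul, ← Real.exp_nat_mul, ← Real.exp_add]
        congr 1
        norm_num
      have e2 : Real.exp 1 ^ 3 ≤ 2.7182818286 ^ 3 := by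
        gcongr
        exact Real.exp_one_lt_d9.le
      have e3 : Real.exp 0.01 ^ 32 ≤ (100 / 99) ^ 32 := by
        gcongr
        exact Atyp_exp
      rw [e1]
      calc Real.exp 1 ^ 3 * Real.exp 0.01 ^ 32 * 0.8112 ^ 16
          ≤ 2.7182818286 ^ 3 * (100 / 99) ^ 32 * 0.8112 ^ 16 := by gcongr
        _ ≤ 1 := by norm_num
    have h6 : Real.exp (3.12 * o) * 0.8112 ^ (16 * o) =
        (Real.exp 3.32 * 0.8112 ^ 16) ^ o * Real.exp (-(o : ℝ) / 5) := by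
      rw [mul_pow, ← pow_mul, ← Real.exp_nat_mul, mul_right_comm, ← Real.exp_add]
      congr 2
      norm_num
      ring
    rw [h6]
    calc (Real.exp 3.32 * 0.8112 ^ 16) ^ o * Real.exp (-(o : ℝ) / 5)
        ≤ 1 * Real.exp (-(o : ℝ) / 5) := by
          gcongr
          exact pow_le_one₀ (by positivity) h5
      _ = _ := one_mul _

open Classical in
theorem atyp2 (S : Sys2) (o : ℕ) :
    ∑ x ∈ AD o, (if ‖(W S x.1 x.2).2.1‖ ≤ Real.exp (-(o : ℝ) / 50) then 0 else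
      bin (S.a.1)⁻¹ (S.b.1)⁻¹ x.1 x.2) ≤ 0.984 ^ o := by
  have ha : 0 < (S.a.1)⁻¹ := inv_pos.2 (ap S)
  have hb : 0 < (S.b.1)⁻¹ := inv_pos.2 (bp S)
  refine (Atyp_markov S o (fun x => ‖(W S x.1 x.2).2.1‖ ≤ Real.exp (-(o : ℝ) / 50))
    (Real.exp ((o : ℝ) / 25)) (‖S.a.2.1‖ ^ 2) (‖S.b.2.1‖ ^ 2) (Real.exp_pos _).le
    (by positivity) (by positivity) ?_).trans ?_
  · intro u hu
    push Not at hu
    have h1 : (‖S.a.2.1‖ ^ 2) ^ u.1 * (‖S.b.2.1‖ ^ 2) ^ u.2 = ‖(W S u.1 u.2).2.1‖ ^ 2 := by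
      rw [W2]
      ring
    rw [h1]
    have h2 : Real.exp (-(o : ℝ) / 50) ^ 2 ≤ ‖(W S u.1 u.2).2.1‖ ^ 2 := by
      gcongr
    have h3 : Real.exp ((o : ℝ) / 25) * Real.exp (-(o : ℝ) / 50) ^ 2 = 1 := by
      rw [← Real.exp_nat_mul, ← Real.exp_add, Real.exp_eq_one_iff]
      push_cast
      ring
    rw [← h3]
    gcongr
  · have h1 : Real.exp ((o : ℝ) / 25) = (Real.exp 0.01 ^ 4) ^ o := by
      rw [← pow_mul, ← Real.exp_nat_mul]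
      congr 1
      push_cast
      ring
    have h2 : (S.a.1)⁻¹ * ‖S.a.2.1‖ ^ 2 + (S.b.1)⁻¹ * ‖S.b.2.1‖ ^ 2 ≤ 0.945 :=
      S.kap.trans (by norm_num)
    rw [h1, ← mul_pow]
    have h3 : Real.exp 0.01 ^ 4 ≤ (100 / 99) ^ 4 := by
      gcongr
      exact Atyp_exp
    have h4 : Real.exp 0.01 ^ 4 * ((S.a.1)⁻¹ * ‖S.a.2.1‖ ^ 2 + (S.b.1)⁻¹ * ‖S.b.2.1‖ ^ 2) ≤
        0.984 := by
      calc _ ≤ (100 / 99 : ℝ) ^ 4 * 0.945 := by gcongr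
        _ ≤ 0.984 := by norm_num
    exact pow_le_pow_left₀ (by positivity) h4 o

open Classical in
theorem atyp3 (S : Sys2) (o : ℕ) :
    ∑ x ∈ AD o, (if 0.878 ^ o ≤ ‖(W S x.1 x.2).2.1‖ then 0 else
      bin (S.a.1)⁻¹ (S.b.1)⁻¹ x.1 x.2) ≤ 0.998 ^ o := by
  have ha : 0 < (S.a.1)⁻¹ := inv_pos.2 (ap S)
  have hb : 0 < (S.b.1)⁻¹ := inv_pos.2 (bp S)
  refine (Atyp_markov S o (fun x => 0.878 ^ o ≤ ‖(W S x.1 x.2).2.1‖)
    (0.878 ^ o) (‖S.a.2.1‖⁻¹) (‖S.b.2.1‖⁻¹) (by positivity)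
    (by positivity) (by positivity) ?_).trans ?_
  · intro u hu
    push Not at hu
    rw [inv_pow, inv_pow, ← mul_inv, ← W2, ← div_eq_mul_inv, one_le_div (W2_pos S _ _)]
    exact hu.le
  · have h1 : (1.0503 : ℝ) ≤ ‖S.a.2.1‖ := by
      have := S.a2l
      have h0 := norm_nonneg S.a.2.1
      by_contra hc
      push Not at hc
      nlinarith
    have h2 : (0.5236 : ℝ) ≤ ‖S.b.2.1‖ := by
      have := b2l S
      have h0 := norm_nonneg S.b.2.1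
      by_contra hc
      push Not at hc
      nlinarith
    have h3 : ‖S.a.2.1‖⁻¹ ≤ (1.0503 : ℝ)⁻¹ := by gcongr
    have h4 : ‖S.b.2.1‖⁻¹ ≤ (0.5236 : ℝ)⁻¹ := by gcongr
    have h5 := mul_le_mul (pu S) h3 (by positivity) (by norm_num)
    have h6 := mul_le_mul (qu S) h4 (by positivity) (by norm_num)
    rw [← mul_pow]
    refine pow_le_pow_left₀ (by positivity) ?_ o
    calc (0.878 : ℝ) * ((S.a.1)⁻¹ * ‖S.a.2.1‖⁻¹ + (S.b.1)⁻¹ * ‖S.b.2.1‖⁻¹)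
        ≤ 0.878 * (0.8088 * (1.0503 : ℝ)⁻¹ + 0.1914 * (0.5236 : ℝ)⁻¹) := by gcongr
      _ ≤ 0.998 := by norm_num

end Pool.Agent.H49.AB
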