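import Pool.Agent.H49.AB.VFacts

/-!
# JOB AB-07. Point masses of a binomial distribution are `O(1/√n)` (pure)

`b(j) = bin p q (n-j) j = C(n,j) p^(n-j) q^j`, `p + q = 1`, `p, q > 0` fixed. Any proof is fine. For example: `b(j+1)/b(j) =
(n-j) q/((j+1) p)`. Let `b(j0)` be the maximum. Then for `j0 ≤ j ≤ j0 + √n`, one has `b(j+1) ≥ (1 - c/√n) b(j)` for `n` large (`j0` is within `1`
of `n q`; if `j0 ≥ ...`), so `b(j) ≥ c' b(j0)` for `√n` values of `j`, and the sum of the `b(j)` is `1`. Or: Fourier,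
`|p + q e^{iθ}|² = 1 - 2 p q (1 - cos θ) ≤ exp(-4 p q θ²/π²)` for `|θ| ≤ π` and `b(j) ≤ (1/2π) ∫ |p + q e^{iθ}|^n`. Or: Stirling bounds.
(Compare `H30/PD/Bin.lean`, `H89/ND/Bin.lean` for the symmetric case `p = q = 1/2`: `bin n k ≤ 1/√n`. A reduction: for `q ≤ 1/2`,
`Bin(n, q)` is obtained from a `Bin(n, 2q)` number `M` of fair coins: `b(j) = ∑_m C(n,m) (2q)^m (1-2q)^(n-m) C(m,j) 2^(-m)`, and
`E min(1, 1/√M) ≤ C/√n` by `E 1/(M+1) ≤ 1/((n+1) 2q)` and Cauchy-Schwarz. This is short.)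
-/

set_option autoImplicit false

namespace Pool.Agent.H49.AB

open Pool.Agent.H67.Tent Finset

theorem BinPt_central (h : ℕ) : (h.centralBinom : ℝ) ^ 2 * (3 * h + 1) ≤ 16 ^ h := by
  induction h with
  | zero => simp
  | succ h ih =>
    have e : ((h + 1 : ℕ) : ℝ) * ((h + 1).centralBinom : ℝ) =
        2 * (2 * h + 1) * (h.centralBinom : ℝ) := by
      exact_mod_cast Nat.succ_mul_centralBinom_succ h
    generalize (h.centralBinom : ℝ) = c at *
    generalize ((h + 1).centralBinom : ℝ) = d at *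
    have hx0 : (0 : ℝ) ≤ h := Nat.cast_nonneg h
    push_cast at e ⊢
    generalize (h : ℝ) = x at *
    have hpos : 0 < (x + 1) ^ 2 := by positivity
    have h1 : (x + 1) ^ 2 * d ^ 2 = (2 * (2 * x + 1)) ^ 2 * c ^ 2 := by
      rw [← mul_pow, e, mul_pow]
    have h4 : (2 * (2 * x + 1)) ^ 2 * (3 * x + 4) ≤ 16 * (x + 1) ^ 2 * (3 * x + 1) := by
      nlinarith
    have h5 : (x + 1) ^ 2 * (d ^ 2 * (3 * (x + 1) + 1)) ≤ (x + 1) ^ 2 * 16 ^ (h + 1) := by
      calc (x + 1) ^ 2 * (d ^ 2 * (3 * (x + 1) + 1))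
          = ((x + 1) ^ 2 * d ^ 2) * (3 * x + 4) := by ring
        _ = c ^ 2 * ((2 * (2 * x + 1)) ^ 2 * (3 * x + 4)) := by rw [h1]; ring
        _ ≤ c ^ 2 * (16 * (x + 1) ^ 2 * (3 * x + 1)) := by gcongr
        _ = 16 * (x + 1) ^ 2 * (c ^ 2 * (3 * x + 1)) := by ring
        _ ≤ 16 * (x + 1) ^ 2 * 16 ^ h := by gcongr
        _ = (x + 1) ^ 2 * 16 ^ (h + 1) := by ring
    exact le_of_mul_le_mul_left h5 hpos

theorem BinPt_choose (m j : ℕ) : (m.choose j : ℝ) ^ 2 * (m + 1) ≤ 4 ^ m := by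
  rcases Nat.even_or_odd' m with ⟨h, rfl | rfl⟩
  · have h1 : ((2 * h).choose j : ℝ) ≤ (h.centralBinom : ℝ) := by
      exact_mod_cast Nat.choose_le_centralBinom j h
    have h2 := BinPt_central h
    have h3 : (0 : ℝ) ≤ h := Nat.cast_nonneg h
    calc ((2 * h).choose j : ℝ) ^ 2 * (((2 * h : ℕ) : ℝ) + 1)
        ≤ (h.centralBinom : ℝ) ^ 2 * (3 * h + 1) := by
          push_cast
          gcongr
          norm_num
      _ ≤ 16 ^ h := h2
      _ = 4 ^ (2 * h) := by rw [pow_mul]; norm_num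
  · have h1 : ((2 * h + 1).choose j : ℝ) ≤ ((2 * h + 1).choose h : ℝ) := by
      have := Nat.choose_le_middle j (2 * h + 1)
      have e : (2 * h + 1) / 2 = h := by omega
      rw [e] at this
      exact_mod_cast this
    have h2 := BinPt_central (h + 1)
    have h3 : (0 : ℝ) ≤ h := Nat.cast_nonneg h
    have h4 : ((h + 1).centralBinom : ℝ) = 2 * ((2 * h + 1).choose h : ℝ) := by
      have : (h + 1).centralBinom = 2 * (2 * h + 1).choose h := by
        rw [Nat.centralBinom_eq_two_mul_choose]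
        have e : 2 * (h + 1) = (2 * h + 1) + 1 := by ring
        rw [e, Nat.choose_succ_succ, Nat.choose_symm_half]
        ring
      exact_mod_cast this
    rw [h4] at h2
    have h5 : ((2 * h + 1).choose j : ℝ) ^ 2 * (((2 * h + 1 : ℕ) : ℝ) + 1) ≤
        ((2 * h + 1).choose h : ℝ) ^ 2 * (3 * h + 4) := by
      push_cast
      have h7 : (2 : ℝ) * h + 1 + 1 ≤ 3 * h + 4 := by linarith
      gcongr
    push_cast at h2
    have h6 : (16 : ℝ) ^ (h + 1) = 4 * 4 ^ (2 * h + 1) := by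
      rw [pow_succ 4 (2 * h), pow_mul, pow_succ]
      norm_num
      ring
    rw [h6] at h2
    nlinarith

theorem BinPt_choose' (m j : ℕ) (t : ℝ) (ht : 0 < t) :
    (m.choose j : ℝ) * (1 / 2) ^ m ≤ (t / (m + 1) + 1 / t) / 2 := by
  have h := BinPt_choose m j
  have hm : (0 : ℝ) < m + 1 := by positivity
  have h1 : ((m.choose j : ℝ) * (1 / 2) ^ m) ^ 2 * (m + 1) ≤ 1 := by
    have e : ((1 / 2 : ℝ) ^ m) ^ 2 * 4 ^ m = 1 := by
      rw [← pow_mul, mul_comm m 2, pow_mul, ← mul_pow]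
      norm_num
    have h0 : (0 : ℝ) ≤ ((1 / 2 : ℝ) ^ m) ^ 2 := by positivity
    calc ((m.choose j : ℝ) * (1 / 2) ^ m) ^ 2 * (m + 1)
        = ((1 / 2 : ℝ) ^ m) ^ 2 * ((m.choose j : ℝ) ^ 2 * (m + 1)) := by ring
      _ ≤ ((1 / 2 : ℝ) ^ m) ^ 2 * 4 ^ m := by gcongr
      _ = 1 := e
  have hx0 : 0 ≤ (m.choose j : ℝ) * (1 / 2) ^ m := by positivity
  generalize (m.choose j : ℝ) * (1 / 2) ^ m = x at *
  generalize ((m : ℝ) + 1) = y at *
  rw [div_add_div _ _ hm.ne' ht.ne', div_div, le_div_iff₀ (by positivity)]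
  have h2 : (t - x * y) ^ 2 ≥ 0 := sq_nonneg _
  nlinarith

/-- `E 1/(M+1) ≤ 1/((n+1)s)` -/
theorem BinPt_inv (n : ℕ) (s : ℝ) (hs : 0 < s) (hs1 : s ≤ 1) :
    ∑ m ∈ range (n + 1), (n.choose m : ℝ) * s ^ m * (1 - s) ^ (n - m) * (1 / (m + 1)) ≤
      1 / ((n + 1) * s) := by
  have h1 : ∀ m ∈ range (n + 1), (n.choose m : ℝ) * s ^ m * (1 - s) ^ (n - m) * (1 / (m + 1)) =
      1 / ((n + 1) * s) * (s ^ (m + 1) * (1 - s) ^ (n + 1 - (m + 1)) * ((n + 1).choose (m + 1))) := by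
    intro m hm
    have e : ((n + 1 : ℕ) : ℝ) * (n.choose m : ℝ) = ((n + 1).choose (m + 1) : ℝ) * ((m + 1 : ℕ) : ℝ) := by
      exact_mod_cast Nat.add_one_mul_choose_eq n m
    push_cast at e
    have e2 : n + 1 - (m + 1) = n - m := by omega
    rw [e2]
    have h3 : (0 : ℝ) < m + 1 := by positivity
    have h4 : (0 : ℝ) < n + 1 := by positivity
    have e3 : ((n + 1).choose (m + 1) : ℝ) = (n + 1) * (n.choose m : ℝ) / (m + 1) := by
      rw [eq_div_iff h3.ne', ← e]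
    rw [e3]
    field_simp
    ring
  rw [Finset.sum_congr rfl h1, ← Finset.mul_sum]
  have h2 : ∑ m ∈ range (n + 1), s ^ (m + 1) * (1 - s) ^ (n + 1 - (m + 1)) *
      ((n + 1).choose (m + 1) : ℝ) ≤ 1 := by
    have h3 := add_pow s (1 - s) (n + 1)
    rw [Finset.sum_range_succ'] at h3
    have h4 : s + (1 - s) = 1 := by ring
    rw [h4, one_pow] at h3
    have h5 : 0 ≤ s ^ 0 * (1 - s) ^ (n + 1 - 0) * ((n + 1).choose 0 : ℝ) := by
      have : 0 ≤ 1 - s := by linarith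
      positivity
    linarith
  have h6 : 0 ≤ 1 / (((n : ℝ) + 1) * s) := by positivity
  calc 1 / (((n : ℝ) + 1) * s) * _ ≤ 1 / (((n : ℝ) + 1) * s) * 1 := by gcongr
    _ = _ := mul_one _

/-- thinning -/
theorem BinPt_thin (i j : ℕ) (q : ℝ) :
    bin (1 - q) q i j = ∑ k ∈ range (i + 1), ((i + j).choose (j + k) : ℝ) * (2 * q) ^ (j + k) *
      (1 - 2 * q) ^ (i + j - (j + k)) * (((j + k).choose j : ℝ) * (1 / 2) ^ (j + k)) := by
  have h1 : ∀ k ∈ range (i + 1), ((i + j).choose (j + k) : ℝ) * (2 * q) ^ (j + k) *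
      (1 - 2 * q) ^ (i + j - (j + k)) * (((j + k).choose j : ℝ) * (1 / 2) ^ (j + k)) =
      ((i + j).choose j : ℝ) * q ^ j * (q ^ k * (1 - 2 * q) ^ (i - k) * (i.choose k : ℝ)) := by
    intro k hk
    rw [Finset.mem_range] at hk
    have e1 : i + j - (j + k) = i - k := by omega
    have e2 : ((i + j).choose (j + k) : ℝ) * ((j + k).choose j : ℝ) =
        ((i + j).choose j : ℝ) * (i.choose k : ℝ) := by
      have := Nat.choose_mul (n := i + j) (k := j + k) (s := j) (by omega)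
      have e3 : i + j - j = i := by omega
      have e4 : j + k - j = k := by omega
      rw [e3, e4] at this
      exact_mod_cast this
    have e5 : (2 * q) ^ (j + k) * (1 / 2) ^ (j + k) = q ^ j * q ^ k := by
      rw [← mul_pow, ← pow_add]
      congr 1
      ring
    rw [e1]
    calc ((i + j).choose (j + k) : ℝ) * (2 * q) ^ (j + k) *
      (1 - 2 * q) ^ (i - k) * (((j + k).choose j : ℝ) * (1 / 2) ^ (j + k))
        = (((i + j).choose (j + k) : ℝ) * ((j + k).choose j : ℝ)) *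
          ((2 * q) ^ (j + k) * (1 / 2) ^ (j + k)) * (1 - 2 * q) ^ (i - k) := by ring
      _ = _ := by rw [e2, e5]; ring
  rw [Finset.sum_congr rfl h1, ← Finset.mul_sum, ← add_pow]
  unfold bin
  have e : q + (1 - 2 * q) = 1 - q := by ring
  rw [e]
  ring

theorem BinPt_half (q : ℝ) (hq : 0 < q) (hq2 : q ≤ 1 / 2) (i j : ℕ) :
    bin (1 - q) q i j ≤ ((1 / (2 * q) + 1) / 2) / Real.sqrt ((i + j : ℕ) + 1) := by
  have ht : 0 < Real.sqrt (((i + j : ℕ) : ℝ) + 1) := by
    apply Real.sqrt_pos.mpr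
    positivity
  have ht2 : Real.sqrt (((i + j : ℕ) : ℝ) + 1) ^ 2 = ((i + j : ℕ) : ℝ) + 1 :=
    Real.sq_sqrt (by positivity)
  generalize Real.sqrt (((i + j : ℕ) : ℝ) + 1) = t at *
  have h0 : 0 ≤ 1 - 2 * q := by linarith
  set F : ℕ → ℝ := fun m => ((i + j).choose m : ℝ) * (2 * q) ^ m * (1 - 2 * q) ^ (i + j - m) with hF
  have hF0 : ∀ m, 0 ≤ F m := fun m => by
    simp only [hF]
    positivity
  have h1 : bin (1 - q) q i j ≤ ∑ m ∈ range (i + j + 1), F m * ((t / (m + 1) + 1 / t) / 2) := by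
    rw [BinPt_thin]
    calc _ ≤ ∑ k ∈ range (i + 1), F (j + k) * ((t / ((j + k : ℕ) + 1) + 1 / t) / 2) := by
          apply Finset.sum_le_sum
          intro k _
          exact mul_le_mul_of_nonneg_left (BinPt_choose' (j + k) j t ht) (hF0 (j + k))
      _ ≤ _ := by
          have e : i + j + 1 = j + (i + 1) := by ring
          rw [e, Finset.sum_range_add (fun m => F m * ((t / ((m : ℝ) + 1) + 1 / t) / 2)) j (i + 1)]
          have h2 : 0 ≤ ∑ x ∈ range j, F x * ((t / ((x : ℝ) + 1) + 1 / t) / 2) := by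
            apply Finset.sum_nonneg
            intro x _
            have := hF0 x
            positivity
          linarith
  have h2 : ∑ m ∈ range (i + j + 1), F m * ((t / (m + 1) + 1 / t) / 2) =
      t / 2 * (∑ m ∈ range (i + j + 1), F m * (1 / (m + 1))) + 1 / (2 * t) *
        ∑ m ∈ range (i + j + 1), F m := by
    rw [Finset.mul_sum, Finset.mul_sum, ← Finset.sum_add_distrib]
    apply Finset.sum_congr rfl
    intro m _
    have hm : (0 : ℝ) < m + 1 := by positivity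
    field_simp
  have h3 : ∑ m ∈ range (i + j + 1), F m = 1 := by
    have h4 := add_pow (2 * q) (1 - 2 * q) (i + j)
    have h5 : 2 * q + (1 - 2 * q) = 1 := by ring
    rw [h5, one_pow] at h4
    rw [h4]
    apply Finset.sum_congr rfl
    intro m _
    simp only [hF]
    ring
  have h4 := BinPt_inv (i + j) (2 * q) (by linarith) (by linarith)
  rw [h2, h3] at h1
  have h5 : t / 2 * (∑ m ∈ range (i + j + 1), F m * (1 / (m + 1))) ≤
      t / 2 * (1 / ((((i + j : ℕ) : ℝ) + 1) * (2 * q))) := by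
    gcongr
  rw [← ht2] at h5
  have h6 : t / 2 * (1 / (t ^ 2 * (2 * q))) + 1 / (2 * t) * 1 = ((1 / (2 * q) + 1) / 2) / t := by
    field_simp
  linarith

theorem BinPt_symm (p q : ℝ) (i j : ℕ) : bin p q i j = bin q p j i := by
  unfold bin
  have e : (i + j).choose j = (j + i).choose i := by
    rw [Nat.add_comm i j]
    exact Nat.choose_symm_of_eq_add (by ring)
  rw [e]
  ring

theorem bin_le_sqrt (p q : ℝ) (hp : 0 < p) (hq : 0 < q) (hpq : p + q = 1) :
    ∃ C : ℝ, 0 < C ∧ ∀ i j : ℕ, bin p q i j ≤ C / Real.sqrt ((i + j : ℕ) + 1) := by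
  rcases le_total q (1 / 2) with h | h
  · refine ⟨(1 / (2 * q) + 1) / 2, by positivity, fun i j => ?_⟩
    have e : p = 1 - q := by linarith
    rw [e]
    exact BinPt_half q hq h i j
  · refine ⟨(1 / (2 * p) + 1) / 2, by positivity, fun i j => ?_⟩
    have e : q = 1 - p := by linarith
    rw [BinPt_symm, e]
    have := BinPt_half p hp (by linarith) j i
    rw [Nat.add_comm j i] at this
    exact this

end Pool.Agent.H49.AB
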