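import Pool.Agent.H49.AB.VFacts

/-!
# JOB AB-06. First exit from a down-set (pure)

A monotone path in `ℕ × ℕ` starting at the origin makes the step `(1,0)` with weight `p` and `(0,1)` with weight `q`. `P` is a down-set, so a
path to `(i,j) ∈ P` stays in `P`, and its total weight is `bin p q i j`; `ex p q P i j` is the total weight of the paths whose first
point outside `P` is `(i, j)`.

`bin_rec` is Pascal's rule. `ex_le_bin`, `ex_nonneg` follow. `exit_le`: induction on `n`. `n = 0`: both sides are `v 0 0`. Step: for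
`(i,j) ∈ AD n` with `P i j` use `hv`; collect the terms at `(i', j') ∈ AD (n+1)`: the coefficient of `v i' j'` is
`(if 1 ≤ i' ∧ P (i'-1) j' then p bin (i'-1) j') + (if 1 ≤ j' ∧ P i' (j'-1) then q bin i' (j'-1))`, which is `bin i' j'` if `P i' j'`
(down-set, `bin_rec`) and `ex p q P i' j'` otherwise. (Useful: sum over `AD (n+1)` of a function vanishing at `i' = 0` is the sum over `AD n`
of the shifted function: `Finset.Nat.antidiagonal_succ`, `antidiagonal_succ'`.) `exit_ge`: the same with reversed inequalities.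
`sum_ex_le_one`: `exit_ge` with `g = 1`.
-/

set_option autoImplicit false

namespace Pool.Agent.H49.AB

open Pool.Agent.H67.Tent Finset

theorem bin_rec (p q : ℝ) (i j : ℕ) (h : 1 ≤ i + j) : bin p q i j =
    (if 1 ≤ i then p * bin p q (i - 1) j else 0) + (if 1 ≤ j then q * bin p q i (j - 1) else 0) := by
  rcases i with _ | i
  · rcases j with _ | j
    · omega
    · simp [bin, pow_succ]
      ring
  · rcases j with _ | j
    · simp [bin, pow_succ]
      ring
    · have h1 : i + 1 + (j + 1) = (i + (j + 1)) + 1 := by omega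
      have h2 : i + 1 + j = i + (j + 1) := by omega
      simp only [bin, Nat.le_add_left, if_true, Nat.add_sub_cancel]
      rw [h1, Nat.choose_succ_succ, h2]
      push_cast
      ring

theorem exit_bin_nonneg {p q : ℝ} (hp : 0 ≤ p) (hq : 0 ≤ q) (i j : ℕ) : 0 ≤ bin p q i j :=
  mul_nonneg (mul_nonneg (Nat.cast_nonneg _) (pow_nonneg hp _)) (pow_nonneg hq _)

theorem ex_nonneg {p q : ℝ} (hp : 0 ≤ p) (hq : 0 ≤ q) (P : ℕ → ℕ → Prop) (i j : ℕ) :
    0 ≤ ex p q P i j := by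
  unfold ex
  have h1 := mul_nonneg hp (exit_bin_nonneg hp hq (i - 1) j)
  have h2 := mul_nonneg hq (exit_bin_nonneg hp hq i (j - 1))
  split_ifs <;> linarith

theorem ex_le_bin {p q : ℝ} (hp : 0 ≤ p) (hq : 0 ≤ q) {P : ℕ → ℕ → Prop} (hP : DownSet P)
    (i j : ℕ) : ex p q P i j ≤ bin p q i j := by
  classical
  by_cases hPij : P i j
  · have : ex p q P i j = 0 := by
      unfold ex
      rw [if_pos hPij]
    rw [this]
    exact exit_bin_nonneg hp hq i j
  · have hij : 1 ≤ i + j := by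
      by_contra h
      have h1 : i = 0 := by omega
      have h2 : j = 0 := by omega
      rw [h1, h2] at hPij
      exact hPij hP.1
    have h1 := mul_nonneg hp (exit_bin_nonneg hp hq (i - 1) j)
    have h2 := mul_nonneg hq (exit_bin_nonneg hp hq i (j - 1))
    unfold ex
    rw [if_neg hPij, bin_rec p q i j hij]
    refine add_le_add ?_ ?_
    · by_cases h : 1 ≤ i
      · rw [if_pos h]
        split_ifs
        · exact le_refl _
        · exact h1
      · rw [if_neg h, if_neg (fun h' => h h'.1)]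
    · by_cases h : 1 ≤ j
      · rw [if_pos h]
        split_ifs
        · exact le_refl _
        · exact h2
      · rw [if_neg h, if_neg (fun h' => h h'.1)]

/-- An exit is outside `P` and has a predecessor in `P`. -/
theorem ex_ne_zero {p q : ℝ} {P : ℕ → ℕ → Prop} {i j : ℕ} (h : ex p q P i j ≠ 0) :
    ¬ P i j ∧ ((1 ≤ i ∧ P (i - 1) j) ∨ (1 ≤ j ∧ P i (j - 1))) := by
  unfold ex at h
  by_cases hPij : P i j
  · rw [if_pos hPij] at h
    exact absurd rfl h
  · rw [if_neg hPij] at h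
    refine ⟨hPij, ?_⟩
    by_contra hcon
    push Not at hcon
    rw [if_neg (fun h' => hcon.1 h'.1 h'.2), if_neg (fun h' => hcon.2 h'.1 h'.2)] at h
    exact h (add_zero 0)

open Classical in
theorem exit_split {p q : ℝ} {P : ℕ → ℕ → Prop} (hP : DownSet P) (i j : ℕ) (h : 1 ≤ i + j) :
    ex p q P i j + (if P i j then bin p q i j else 0) =
      (if 1 ≤ i ∧ P (i - 1) j then p * bin p q (i - 1) j else 0) +
      (if 1 ≤ j ∧ P i (j - 1) then q * bin p q i (j - 1) else 0) := by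
  by_cases hPij : P i j
  · have h1 : (1 ≤ i ∧ P (i - 1) j) ↔ 1 ≤ i := by
      refine ⟨fun h => h.1, fun h => ⟨h, hP.2.1 (i - 1) j ?_⟩⟩
      rw [Nat.sub_add_cancel h]
      exact hPij
    have h2 : (1 ≤ j ∧ P i (j - 1)) ↔ 1 ≤ j := by
      refine ⟨fun h => h.1, fun h => ⟨h, hP.2.2 i (j - 1) ?_⟩⟩
      rw [Nat.sub_add_cancel h]
      exact hPij
    have h3 : ex p q P i j = 0 := by
      unfold ex
      rw [if_pos hPij]
    rw [h3, if_pos hPij, zero_add, bin_rec p q i j h]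
    simp only [h1, h2]
  · rw [if_neg hPij, add_zero]
    unfold ex
    rw [if_neg hPij]

open Classical in
theorem exit_step {p q : ℝ} {P : ℕ → ℕ → Prop} (hP : DownSet P) (v : ℕ → ℕ → ℝ) (n : ℕ) :
    ∑ x ∈ AD (n + 1), ex p q P x.1 x.2 * v x.1 x.2 +
      ∑ x ∈ AD (n + 1), (if P x.1 x.2 then bin p q x.1 x.2 * v x.1 x.2 else 0) =
    ∑ x ∈ AD n, (if P x.1 x.2 then
      bin p q x.1 x.2 * (p * v (x.1 + 1) x.2 + q * v x.1 (x.2 + 1)) else 0) := by
  have h1 : ∑ x ∈ AD (n + 1), ex p q P x.1 x.2 * v x.1 x.2 +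
      ∑ x ∈ AD (n + 1), (if P x.1 x.2 then bin p q x.1 x.2 * v x.1 x.2 else 0) =
      ∑ x ∈ AD (n + 1), (if 1 ≤ x.1 ∧ P (x.1 - 1) x.2 then p * bin p q (x.1 - 1) x.2 else 0) * v x.1 x.2 +
      ∑ x ∈ AD (n + 1), (if 1 ≤ x.2 ∧ P x.1 (x.2 - 1) then q * bin p q x.1 (x.2 - 1) else 0) * v x.1 x.2 := by
    rw [← Finset.sum_add_distrib, ← Finset.sum_add_distrib]
    refine Finset.sum_congr rfl fun x hx => ?_
    have hx' : x.1 + x.2 = n + 1 := Finset.HasAntidiagonal.mem_antidiagonal.1 hx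
    have h2 := exit_split (p := p) (q := q) hP x.1 x.2 (by omega)
    have h3 : (if P x.1 x.2 then bin p q x.1 x.2 * v x.1 x.2 else 0) =
        (if P x.1 x.2 then bin p q x.1 x.2 else 0) * v x.1 x.2 := by
      split_ifs <;> simp
    rw [h3, ← add_mul, h2, add_mul]
  rw [h1, Finset.Nat.sum_antidiagonal_succ
    (f := fun x : ℕ × ℕ => (if 1 ≤ x.1 ∧ P (x.1 - 1) x.2 then p * bin p q (x.1 - 1) x.2 else 0) * v x.1 x.2),
    Finset.Nat.sum_antidiagonal_succ'
    (f := fun x : ℕ × ℕ => (if 1 ≤ x.2 ∧ P x.1 (x.2 - 1) then q * bin p q x.1 (x.2 - 1) else 0) * v x.1 x.2)]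
  have e1 : (if 1 ≤ (0, n + 1).1 ∧ P ((0, n + 1).1 - 1) (0, n + 1).2 then
      p * bin p q ((0, n + 1).1 - 1) (0, n + 1).2 else 0) * v (0, n + 1).1 (0, n + 1).2 = 0 := by
    rw [if_neg (fun h => by simpa using h.1), zero_mul]
  have e2 : (if 1 ≤ (n + 1, 0).2 ∧ P (n + 1, 0).1 ((n + 1, 0).2 - 1) then
      q * bin p q (n + 1, 0).1 ((n + 1, 0).2 - 1) else 0) * v (n + 1, 0).1 (n + 1, 0).2 = 0 := by
    rw [if_neg (fun h => by simpa using h.1), zero_mul]
  rw [e1, e2, zero_add, zero_add, ← Finset.sum_add_distrib]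
  refine Finset.sum_congr rfl fun x _ => ?_
  by_cases hx : P x.1 x.2
  · simp only [Nat.le_add_left, Nat.add_sub_cancel, true_and, if_pos hx]
    ring
  · simp only [Nat.le_add_left, Nat.add_sub_cancel, true_and, if_neg hx]
    ring

open Classical in
theorem exit_zero {p q : ℝ} {P : ℕ → ℕ → Prop} (hP : DownSet P) (v : ℕ → ℕ → ℝ) :
    ∑ m ∈ range (0 + 1), ∑ x ∈ AD m, ex p q P x.1 x.2 * v x.1 x.2 +
      ∑ x ∈ AD 0, (if P x.1 x.2 then bin p q x.1 x.2 * v x.1 x.2 else 0) = v 0 0 := by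
  have h3 : ex p q P 0 0 = 0 := by
    unfold ex
    rw [if_pos hP.1]
  simp [h3, hP.1, bin]

open Classical in
theorem exit_le {p q : ℝ} (hp : 0 ≤ p) (hq : 0 ≤ q) {P : ℕ → ℕ → Prop} (hP : DownSet P)
    (v : ℕ → ℕ → ℝ) (n : ℕ)
    (hv : ∀ i j, i + j < n → P i j → v i j ≤ p * v (i + 1) j + q * v i (j + 1)) :
    v 0 0 ≤ ∑ m ∈ range (n + 1), ∑ x ∈ AD m, ex p q P x.1 x.2 * v x.1 x.2 +
      ∑ x ∈ AD n, if P x.1 x.2 then bin p q x.1 x.2 * v x.1 x.2 else 0 := by
  induction n with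
  | zero => exact (exit_zero hP v).ge
  | succ n ih =>
    refine (ih fun i j hij => hv i j (by omega)).trans ?_
    rw [Finset.sum_range_succ (fun m => ∑ x ∈ AD m, ex p q P x.1 x.2 * v x.1 x.2) (n + 1), add_assoc,
      exit_step hP v n]
    refine add_le_add (le_refl _) (Finset.sum_le_sum fun x hx => ?_)
    have hx' : x.1 + x.2 = n := Finset.HasAntidiagonal.mem_antidiagonal.1 hx
    by_cases h : P x.1 x.2
    · rw [if_pos h, if_pos h]
      exact mul_le_mul_of_nonneg_left (hv _ _ (by omega) h) (exit_bin_nonneg hp hq _ _)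
    · rw [if_neg h, if_neg h]

open Classical in
theorem exit_ge {p q : ℝ} (hp : 0 ≤ p) (hq : 0 ≤ q) {P : ℕ → ℕ → Prop} (hP : DownSet P)
    (g : ℕ → ℕ → ℝ) (n : ℕ)
    (hg : ∀ i j, i + j < n → P i j → p * g (i + 1) j + q * g i (j + 1) ≤ g i j) :
    ∑ m ∈ range (n + 1), ∑ x ∈ AD m, ex p q P x.1 x.2 * g x.1 x.2 +
      ∑ x ∈ AD n, (if P x.1 x.2 then bin p q x.1 x.2 * g x.1 x.2 else 0) ≤ g 0 0 := by
  induction n with
  | zero => exact (exit_zero hP g).le
  | succ n ih =>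
    refine le_trans ?_ (ih fun i j hij => hg i j (by omega))
    rw [Finset.sum_range_succ (fun m => ∑ x ∈ AD m, ex p q P x.1 x.2 * g x.1 x.2) (n + 1), add_assoc,
      exit_step hP g n]
    refine add_le_add (le_refl _) (Finset.sum_le_sum fun x hx => ?_)
    have hx' : x.1 + x.2 = n := Finset.HasAntidiagonal.mem_antidiagonal.1 hx
    by_cases h : P x.1 x.2
    · rw [if_pos h, if_pos h]
      exact mul_le_mul_of_nonneg_left (hg _ _ (by omega) h) (exit_bin_nonneg hp hq _ _)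
    · rw [if_neg h, if_neg h]

/-- only the exit part, for a nonnegative `g` -/
theorem exit_ge' {p q : ℝ} (hp : 0 ≤ p) (hq : 0 ≤ q) {P : ℕ → ℕ → Prop} (hP : DownSet P)
    (g : ℕ → ℕ → ℝ) (n : ℕ) (hg0 : ∀ i j, i + j ≤ n → 0 ≤ g i j)
    (hg : ∀ i j, i + j < n → P i j → p * g (i + 1) j + q * g i (j + 1) ≤ g i j) :
    ∑ m ∈ range (n + 1), ∑ x ∈ AD m, ex p q P x.1 x.2 * g x.1 x.2 ≤ g 0 0 := by
  classical
  have h1 := exit_ge hp hq hP g n hg
  have h2 : 0 ≤ ∑ x ∈ AD n, (if P x.1 x.2 then bin p q x.1 x.2 * g x.1 x.2 else 0) := by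
    refine Finset.sum_nonneg fun x hx => ?_
    have hx' : x.1 + x.2 = n := Finset.HasAntidiagonal.mem_antidiagonal.1 hx
    split_ifs
    · exact mul_nonneg (exit_bin_nonneg hp hq _ _) (hg0 _ _ hx'.le)
    · exact le_refl _
  linarith

theorem sum_ex_le_one {p q : ℝ} (hp : 0 ≤ p) (hq : 0 ≤ q) (hpq : p + q = 1) {P : ℕ → ℕ → Prop}
    (hP : DownSet P) (n : ℕ) :
    ∑ m ∈ range (n + 1), ∑ x ∈ AD m, ex p q P x.1 x.2 ≤ 1 := by
  have h := exit_ge' hp hq hP (fun _ _ => 1) n (fun _ _ _ => zero_le_one)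
    (fun _ _ _ _ => by simp only [mul_one]; exact hpq.le)
  simpa using h

end Pool.Agent.H49.AB
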