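import Pool.Agent.H49.AB.Sep
import Pool.Agent.H49.AB.Exit
import Pool.Agent.H49.AB.BinPt

/-!
# JOB AB-11. Bad exits of one kind have small weight

`P i j := |e.1| * |(W S i j).1| ≤ 1/100`. An exit `(i,j)` is bad (of kind `(s,t)` and height `h`) if some `e'` is near `ξ W_{i+s,j+t}` and
`|e'.1| α^h ≤ 1/100`.

`cluster_card`: put `k = (x - lo)/g ∈ [0, Y/g]`; elements with the same `k` differ by less than `g`, so by at most `d`, so there are at most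
`d + 1` of them.

`bad_mass`: let `X = 1/(100 |e.1|)`. An exit satisfies `X < |W_{ij}|_1 ≤ b.1 X` (`ex_ne_zero`; a predecessor is in `P` and one letter multiplies by
`α` or `β ≤ b.1`). Let `T` be the set of the `j` such that some exit `(i,j)` satisfies the condition in the sum. If `j < j1` are in `T`, `j1 - j ≤ g`,
then `20 (j1 - j + 1) ≤ h`, `sep_pair` and `sep_far` give `(1/2) (1/3)^(L+1) ≤ (53/100)^(j1-j)`, hence `j1 - j ≤ 2 L + 4`
(`(0.53²)^k ≤ 0.281^k`; if `j1 - j ≥ 2 L + 5 ≥ 2 (L+2)` then `(0.53)^(2(L+2)) = 0.2809^(L+2) < (1/2)(1/3)^(L+1)`). So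
`T.card ≤ (2 L + 5) (Y/g + 1)` by `cluster_card`. For fixed `j` there are at most `9` exits `(i, j)` (`X < α^i β^j ≤ β X`, `β ≤ α^8`). Each has
`ex ≤ bin ≤ C/√(i+j+1) ≤ C/√(n2+1)`.
-/

set_option autoImplicit false

namespace Pool.Agent.H49.AB

open Pool.Agent.H67.Tent Finset

theorem bm_card_le (A : Finset ℕ) (d : ℕ) (h : ∀ x ∈ A, ∀ y ∈ A, x < y → y - x ≤ d) :
    A.card ≤ d + 1 := by
  rcases A.eq_empty_or_nonempty with h0 | h0
  · subst h0
    simp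
  · have h1 : A ⊆ Icc (A.min' h0) (A.min' h0 + d) := by
      intro y hy
      have h2 := A.min'_le y hy
      have h3 := A.min'_mem h0
      rw [mem_Icc]
      rcases h2.eq_or_lt with h4 | h4
      · omega
      · have := h _ h3 y hy h4
        omega
    refine (card_le_card h1).trans ?_
    rw [Nat.card_Icc]
    omega

theorem cluster_card (T : Finset ℕ) (lo Y g d : ℕ) (hg : 1 ≤ g)
    (h : ∀ x ∈ T, ∀ y ∈ T, x < y → y - x ≤ g → y - x ≤ d) (hT : ∀ x ∈ T, lo ≤ x ∧ x ≤ lo + Y) :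
    T.card ≤ (d + 1) * (Y / g + 1) := by
  have h1 : T.card ≤ (d + 1) * (T.image fun x => (x - lo) / g).card := by
    refine card_le_mul_card_image T (d + 1) fun k _ => bm_card_le _ d fun x hx y hy hxy => ?_
    rw [mem_filter] at hx hy
    refine h x hx.1 y hy.1 hxy ?_
    have h2 := hT x hx.1
    have h3 := hT y hy.1
    have h4 := Nat.div_add_mod (x - lo) g
    have h5 := Nat.div_add_mod (y - lo) g
    have h6 := Nat.mod_lt (y - lo) (show g > 0 by omega)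
    rw [hx.2] at h4
    rw [hy.2] at h5
    omega
  refine h1.trans (Nat.mul_le_mul_left _ ?_)
  have h2 : (T.image fun x => (x - lo) / g) ⊆ range (Y / g + 1) := by
    intro k hk
    obtain ⟨x, hx, rfl⟩ := mem_image.1 hk
    have h3 := hT x hx
    rw [mem_range, Nat.lt_succ_iff]
    exact Nat.div_le_div_right (by omega)
  simpa using card_le_card h2

/-- The numerical comparison. -/
theorem bm_num (L k : ℕ) (h : 1 / 2 * (1 / 3 : ℝ) ^ (L + 1) ≤ (53 / 100) ^ k) : k ≤ 2 * L + 4 := by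
  by_contra hk
  push Not at hk
  have h1 : (53 / 100 : ℝ) ^ k ≤ (53 / 100) ^ (2 * (L + 2)) :=
    pow_le_pow_of_le_one (by norm_num) (by norm_num) (by omega)
  have h2 : (53 / 100 : ℝ) ^ (2 * (L + 2)) = (2809 / 10000) * (2809 / 10000) ^ (L + 1) := by
    rw [pow_mul, show L + 2 = (L + 1) + 1 by ring, pow_succ _ (L + 1)]
    norm_num
    ring
  have h3 : (2809 / 10000 : ℝ) ^ (L + 1) ≤ (1 / 3) ^ (L + 1) :=
    pow_le_pow_left₀ (by norm_num) (by norm_num) _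
  have h4 : (0 : ℝ) < (1 / 3) ^ (L + 1) := by positivity
  nlinarith

theorem bm_W_left (S : Sys2) (i j : ℕ) : |(W S (i + 1) j).1| = S.a.1 * |(W S i j).1| := by
  rw [W1, W1, pow_succ]
  ring

theorem bm_W_right (S : Sys2) (i j : ℕ) : |(W S i (j + 1)).1| = S.b.1 * |(W S i j).1| := by
  rw [W1, W1, pow_succ]
  ring

theorem bm_downSet (S : Sys2) {e : E} (he : |e.1| ≤ 1 / 100) :
    DownSet (fun i j => |e.1| * |(W S i j).1| ≤ 1 / 100) := by
  have h1 := S.a1l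
  have h2 := b1l S
  refine ⟨by simpa using he, fun i j h => ?_, fun i j h => ?_⟩
  · beta_reduce at h ⊢
    rw [bm_W_left] at h
    have h3 := W1_pos S i j
    have h4 := abs_nonneg e.1
    refine le_trans (mul_le_mul_of_nonneg_left ?_ h4) h
    nlinarith
  · beta_reduce at h ⊢
    rw [bm_W_right] at h
    have h3 := W1_pos S i j
    have h4 := abs_nonneg e.1
    refine le_trans (mul_le_mul_of_nonneg_left ?_ h4) h
    nlinarith

/-- The slope at an exit. -/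
theorem bm_exit (S : Sys2) {e : E} {p q : ℝ} {i j : ℕ}
    (h : ex p q (fun i j => |e.1| * |(W S i j).1| ≤ 1 / 100) i j ≠ 0) :
    1 / 100 < |e.1| * |(W S i j).1| ∧ |e.1| * |(W S i j).1| ≤ S.b.1 * (1 / 100) := by
  have h1 := S.a1u
  have h1' := S.a1l
  have h2 := b1l S
  obtain ⟨h3, h4⟩ := ex_ne_zero h
  refine ⟨not_le.1 h3, ?_⟩
  rcases h4 with ⟨h5, h6⟩ | ⟨h5, h6⟩
  · obtain ⟨k, rfl⟩ : ∃ k, i = k + 1 := ⟨i - 1, by omega⟩
    rw [Nat.add_sub_cancel] at h6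
    rw [bm_W_left]
    have h7 : 0 ≤ |e.1| * |(W S k j).1| := mul_nonneg (abs_nonneg _) (abs_nonneg _)
    nlinarith
  · obtain ⟨k, rfl⟩ : ∃ k, j = k + 1 := ⟨j - 1, by omega⟩
    rw [Nat.add_sub_cancel] at h6
    rw [bm_W_right]
    have h7 : 0 ≤ |e.1| * |(W S i k).1| := mul_nonneg (abs_nonneg _) (abs_nonneg _)
    nlinarith

/-- Exits in one column. -/
theorem bm_column (S : Sys2) {X : ℝ} {i i' j : ℕ} (hX : 0 < X) (h : i < i') (h1 : X < |(W S i j).1|)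
    (h2 : |(W S i' j).1| ≤ S.b.1 * X) : i' - i ≤ 8 := by
  by_contra hc
  push Not at hc
  obtain ⟨k, rfl⟩ : ∃ k, i' = i + 8 + k := ⟨i' - i - 8, by omega⟩
  have h3 : |(W S (i + 8 + k) j).1| = S.a.1 ^ 8 * S.a.1 ^ k * |(W S i j).1| := by
    rw [W1, W1, pow_add, pow_add]
    ring
  have h4 := S.a1l
  have h5 : 1 ≤ S.a.1 ^ k := one_le_pow₀ (by linarith)
  have h6 : (1.2365 : ℝ) ^ 8 ≤ S.a.1 ^ 8 := pow_le_pow_left₀ (by norm_num) h4 8
  have h7 : (5.4 : ℝ) ≤ 1.2365 ^ 8 := by norm_num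
  have h8 := b1u S
  have h9 : 5.4 ≤ S.a.1 ^ 8 * S.a.1 ^ k := by nlinarith
  rw [h3] at h2
  nlinarith

open Classical in
theorem bad_mass (S : Sys2) : ∃ C : ℝ, 0 < C ∧
    ∀ (ξ : ℂ) (e : E) (L h g Y lo n2 n s t : ℕ), Near S e ξ → e.1 ≠ 0 → s + t ≤ L →
      20 * (g + 1) ≤ h → 1 ≤ g →
      (∀ i j, 1 / 100 < |e.1| * |(W S i j).1| → n2 ≤ i + j) →
      ∑ m ∈ range (n + 1), ∑ x ∈ AD m,
        (if (∃ e', Near S e' (ξ * (W S (x.1 + s) (x.2 + t)).2.2) ∧ |e'.1| * S.a.1 ^ h ≤ 1 / 100) ∧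
          ‖(W S x.1 x.2).2.1‖ ≤ (1 / 6) ^ (L + 1) ∧ lo ≤ x.2 ∧ x.2 ≤ lo + Y then
          ex (S.a.1)⁻¹ (S.b.1)⁻¹ (fun i j => |e.1| * |(W S i j).1| ≤ 1 / 100) x.1 x.2 else 0) ≤
      C * (L + 1) * ((Y / g : ℕ) + 1) / Real.sqrt ((n2 : ℝ) + 1) := by
  have hp : 0 < (S.a.1)⁻¹ := inv_pos.2 (ap S)
  have hq : 0 < (S.b.1)⁻¹ := inv_pos.2 (bp S)
  obtain ⟨C0, hC0, hC⟩ := bin_le_sqrt _ _ hp hq (pq S)
  refine ⟨45 * C0, by positivity, fun ξ e L h g Y lo n2 n s t he he0 hst hh hg hn2 => ?_⟩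
  set P : ℕ → ℕ → Prop := fun i j => |e.1| * |(W S i j).1| ≤ 1 / 100 with hP
  set ex' : ℕ × ℕ → ℝ := fun x => ex (S.a.1)⁻¹ (S.b.1)⁻¹ P x.1 x.2 with hex'
  set cond : ℕ × ℕ → Prop := fun x =>
    (∃ e', Near S e' (ξ * (W S (x.1 + s) (x.2 + t)).2.2) ∧ |e'.1| * S.a.1 ^ h ≤ 1 / 100) ∧
      ‖(W S x.1 x.2).2.1‖ ≤ (1 / 6) ^ (L + 1) ∧ lo ≤ x.2 ∧ x.2 ≤ lo + Y with hcond
  have hDS : DownSet P := bm_downSet S he.2.1
  set U : Finset (ℕ × ℕ) := (range (n + 1)).biUnion AD with hU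
  set B : Finset (ℕ × ℕ) := U.filter fun x => cond x ∧ ex' x ≠ 0 with hB
  have e1 : (∑ m ∈ range (n + 1), ∑ x ∈ AD m, if cond x then ex' x else 0) = ∑ x ∈ B, ex' x := by
    rw [← Finset.sum_biUnion]
    · rw [hB, Finset.sum_filter]
      refine Finset.sum_congr rfl fun x _ => ?_
      by_cases h1 : cond x
      · by_cases h2 : ex' x = 0
        · simp [h1, h2]
        · simp [h1, h2]
      · simp [h1]
    · intro a _ b _ hab
      rw [Function.onFun, Finset.disjoint_left]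
      intro x h1 h2
      rw [mem_AD] at h1 h2
      exact hab (h1.symm.trans h2)
  have hs : 0 < Real.sqrt ((n2 : ℝ) + 1) := Real.sqrt_pos.2 (by positivity)
  have hval : ∀ x ∈ B, ex' x ≤ C0 / Real.sqrt ((n2 : ℝ) + 1) := by
    intro x hx
    obtain ⟨-, -, h1⟩ := mem_filter.1 hx
    have h2 := (bm_exit S h1).1
    have h3 : ((n2 : ℕ) : ℝ) ≤ ((x.1 + x.2 : ℕ) : ℝ) := by exact_mod_cast hn2 _ _ h2
    refine ((ex_le_bin hp.le hq.le hDS x.1 x.2).trans (hC x.1 x.2)).trans ?_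
    exact div_le_div_of_nonneg_left hC0.le hs (Real.sqrt_le_sqrt (by linarith))
  have he1 : 0 < |e.1| := abs_pos.2 he0
  set X : ℝ := 1 / (100 * |e.1|) with hX
  have hX0 : 0 < X := by positivity
  have hXe : |e.1| * X = 1 / 100 := by
    rw [hX]
    field_simp
  have hBX : ∀ x ∈ B, X < |(W S x.1 x.2).1| ∧ |(W S x.1 x.2).1| ≤ S.b.1 * X := by
    intro x hx
    obtain ⟨-, -, h1⟩ := mem_filter.1 hx
    obtain ⟨h2, h3⟩ := bm_exit S h1
    constructor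
    · rw [← hXe] at h2
      exact lt_of_mul_lt_mul_left h2 he1.le
    · rw [← hXe, mul_left_comm] at h3
      exact le_of_mul_le_mul_left h3 he1
  have hcol : B.card ≤ 9 * (B.image Prod.snd).card := by
    refine card_le_mul_card_image B 9 fun j _ => ?_
    have h1 : ((B.filter fun x => x.2 = j).image Prod.fst).card = (B.filter fun x => x.2 = j).card := by
      refine card_image_of_injOn fun x hx y hy hxy => ?_
      have hx' := (mem_filter.1 (mem_coe.1 hx)).2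
      have hy' := (mem_filter.1 (mem_coe.1 hy)).2
      exact Prod.ext hxy (hx'.trans hy'.symm)
    rw [← h1]
    refine bm_card_le _ 8 fun a ha b hb hab => ?_
    obtain ⟨x, hx, rfl⟩ := mem_image.1 ha
    obtain ⟨y, hy, rfl⟩ := mem_image.1 hb
    obtain ⟨hx1, hx2⟩ := mem_filter.1 hx
    obtain ⟨hy1, hy2⟩ := mem_filter.1 hy
    have h3 := (hBX x hx1).1
    have h4 := (hBX y hy1).2
    rw [hx2] at h3
    rw [hy2] at h4
    exact bm_column S hX0 hab h3 h4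
  have hT : (B.image Prod.snd).card ≤ (2 * L + 4 + 1) * (Y / g + 1) := by
    refine cluster_card _ lo Y g (2 * L + 4) hg ?_ ?_
    · intro j hj j1 hj1 hlt hle
      obtain ⟨x, hx, rfl⟩ := mem_image.1 hj
      obtain ⟨y, hy, rfl⟩ := mem_image.1 hj1
      obtain ⟨-, ⟨⟨e', he', hh'⟩, -⟩, -⟩ := mem_filter.1 hx
      obtain ⟨-, ⟨⟨e1', he1', hh1'⟩, hW2, -⟩, hex1⟩ := mem_filter.1 hy
      obtain ⟨h1, h2⟩ := hBX x hx
      obtain ⟨h3, h4⟩ := hBX y hy
      have h5 := sep_pair S ξ X e' e1' x.1 x.2 y.1 y.2 s t h hlt hX0 h1 h2 h3 h4 he' he1' hh' hh1'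
        (by omega)
      obtain ⟨h6, h7⟩ := bm_exit S hex1
      have h8 := sep_far S ξ e e1' y.1 y.2 s t L he h6 h7 hW2 hst he1'
      exact bm_num L _ (h8.trans h5)
    · intro j hj
      obtain ⟨x, hx, rfl⟩ := mem_image.1 hj
      obtain ⟨-, ⟨-, -, h1⟩, -⟩ := mem_filter.1 hx
      exact h1
  show (∑ m ∈ range (n + 1), ∑ x ∈ AD m, if cond x then ex' x else 0) ≤ _
  rw [e1]
  have h1 : ∑ x ∈ B, ex' x ≤ B.card * (C0 / Real.sqrt ((n2 : ℝ) + 1)) := by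
    have := Finset.sum_le_card_nsmul B ex' _ hval
    rwa [nsmul_eq_mul] at this
  have h2 : (B.card : ℝ) ≤ 45 * ((L : ℝ) + 1) * ((Y / g : ℕ) + 1) := by
    have h3 : B.card ≤ 9 * ((2 * L + 4 + 1) * (Y / g + 1)) :=
      hcol.trans (Nat.mul_le_mul_left _ hT)
    have h4 : (B.card : ℝ) ≤ 9 * ((2 * L + 4 + 1) * ((Y / g : ℕ) + 1)) := by exact_mod_cast h3
    refine h4.trans ?_
    have h5 : (0 : ℝ) ≤ ((Y / g : ℕ) : ℝ) + 1 := by positivity
    have h6 : (0 : ℝ) ≤ (L : ℝ) := Nat.cast_nonneg _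
    nlinarith [mul_nonneg h6 h5]
  refine h1.trans ?_
  rw [← mul_div_assoc]
  refine div_le_div_of_nonneg_right ?_ hs.le
  calc (B.card : ℝ) * C0 ≤ (45 * ((L : ℝ) + 1) * ((Y / g : ℕ) + 1)) * C0 :=
        mul_le_mul_of_nonneg_right h2 hC0.le
    _ = 45 * C0 * (L + 1) * ((Y / g : ℕ) + 1) := by ring

end Pool.Agent.H49.AB
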