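import Pool.Agent.H49.AB.Exit

/-!
# JOB AB-12. Tails of the exit distribution

`P i j := |e.1| * |(W S i j).1| ≤ 1/100`, `DownSet` by `downset` (`W1`, `α, β ≥ 1`).

`exit_bounds`: `ex_ne_zero`; a predecessor is in `P` and one letter multiplies by `α` or `β`, both `≤ b.1`.

`tail_two`: `exit_ge'` with `g i j = ‖(W S i j).2.1‖² (200/189)^(i+j)`: `p g(i+1,j) + q g(i,j+1) = (200/189) (p ‖a2‖² + q ‖b2‖²) g ≤ g` (`S.kap`), `g 0 0 = 1`; exits
have `i + j ≥ n2`, so `1_{‖W‖ > k} ≤ k⁻² ‖W‖² ≤ k⁻² (189/200)^(n2) g`.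

`tail_window`: `exit_ge'` with `g i j = (q i - p j)² + p q (n - i - j)` (`p + q = 1`: `p (x+q)² + q (x-p)² = x² + p q`), `g 0 0 = p q n ≤ n`.

`window`: put `x = q i - p j`. From `X < |W_{ij}|_1 = α^i β^j ≤ β X` (`X = 1/(100 |e.1|)`): `log X < (x/q) log α + j (p log α + q log β)/q ≤ log X + log β`; so with
`j0 = q log X/(p log α + q log β)`: `|j - j0| ≤ |x| log α/(p log α + q log β) + q log β/(p log α + q log β) ≤ |x| + 1`.
-/

set_option autoImplicit false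

namespace Pool.Agent.H49.AB

open Pool.Agent.H67.Tent Finset

theorem tails_a1 (S : Sys2) : 1 ≤ S.a.1 := le_trans (by norm_num) S.a1l

theorem tails_b1 (S : Sys2) : 1 ≤ S.b.1 := le_trans (by norm_num) (b1l S)

theorem tails_left (S : Sys2) (i j : ℕ) :
    |(W S (i + 1) j).1| = S.a.1 * |(W S i j).1| := by
  rw [W1, W1, pow_succ]
  ring

theorem tails_right (S : Sys2) (i j : ℕ) :
    |(W S i (j + 1)).1| = S.b.1 * |(W S i j).1| := by
  rw [W1, W1, pow_succ]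
  ring

theorem downset (S : Sys2) (e : E) (he : |e.1| ≤ 1 / 100) :
    DownSet (fun i j => |e.1| * |(W S i j).1| ≤ 1 / 100) := by
  refine ⟨?_, ?_, ?_⟩
  · show |e.1| * |(W S 0 0).1| ≤ 1 / 100
    rw [W1, pow_zero, pow_zero, mul_one, mul_one]
    exact he
  · intro i j h
    show |e.1| * |(W S i j).1| ≤ 1 / 100
    have h' : |e.1| * |(W S (i + 1) j).1| ≤ 1 / 100 := h
    rw [tails_left] at h'
    refine le_trans (mul_le_mul_of_nonneg_left ?_ (abs_nonneg _)) h'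
    exact le_mul_of_one_le_left (abs_nonneg _) (tails_a1 S)
  · intro i j h
    show |e.1| * |(W S i j).1| ≤ 1 / 100
    have h' : |e.1| * |(W S i (j + 1)).1| ≤ 1 / 100 := h
    rw [tails_right] at h'
    refine le_trans (mul_le_mul_of_nonneg_left ?_ (abs_nonneg _)) h'
    exact le_mul_of_one_le_left (abs_nonneg _) (tails_b1 S)

theorem exit_bounds (S : Sys2) (e : E) {i j : ℕ}
    (h : ex (S.a.1)⁻¹ (S.b.1)⁻¹ (fun i j => |e.1| * |(W S i j).1| ≤ 1 / 100) i j ≠ 0) :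
    1 / 100 < |e.1| * |(W S i j).1| ∧ |e.1| * |(W S i j).1| ≤ S.b.1 * (1 / 100) := by
  obtain ⟨h1, h2⟩ := ex_ne_zero h
  refine ⟨not_le.1 h1, ?_⟩
  rcases h2 with ⟨hi, h2⟩ | ⟨hj, h2⟩
  · obtain ⟨i', rfl⟩ : ∃ i', i = i' + 1 := ⟨i - 1, by omega⟩
    rw [Nat.add_sub_cancel] at h2
    rw [tails_left]
    calc |e.1| * (S.a.1 * |(W S i' j).1|) = S.a.1 * (|e.1| * |(W S i' j).1|) := by ring
      _ ≤ S.a.1 * (1 / 100) := mul_le_mul_of_nonneg_left h2 (ap S).le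
      _ ≤ S.b.1 * (1 / 100) := by
        have h3 : S.a.1 ≤ S.b.1 := S.a1u.trans (le_trans (by norm_num) (b1l S))
        linarith
  · obtain ⟨j', rfl⟩ : ∃ j', j = j' + 1 := ⟨j - 1, by omega⟩
    rw [Nat.add_sub_cancel] at h2
    rw [tails_right]
    calc |e.1| * (S.b.1 * |(W S i j').1|) = S.b.1 * (|e.1| * |(W S i j').1|) := by ring
      _ ≤ S.b.1 * (1 / 100) := mul_le_mul_of_nonneg_left h2 (bp S).le

open Classical in
theorem tail_two (S : Sys2) (e : E) (he : |e.1| ≤ 1 / 100) (n n2 : ℕ) (k : ℝ) (hk : 0 < k)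
    (h2 : ∀ i j, 1 / 100 < |e.1| * |(W S i j).1| → n2 ≤ i + j) :
    ∑ m ∈ range (n + 1), ∑ x ∈ AD m, (if k < ‖(W S x.1 x.2).2.1‖ then
      ex (S.a.1)⁻¹ (S.b.1)⁻¹ (fun i j => |e.1| * |(W S i j).1| ≤ 1 / 100) x.1 x.2 else 0) ≤
      (1 / k) ^ 2 * (189 / 200) ^ n2 := by
  have hp : 0 ≤ (S.a.1)⁻¹ := (inv_pos.2 (ap S)).le
  have hq : 0 ≤ (S.b.1)⁻¹ := (inv_pos.2 (bp S)).le
  have hP := downset S e he
  have key := exit_ge' hp hq hP (fun i j => ‖(W S i j).2.1‖ ^ 2 * (200 / 189) ^ (i + j)) n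
    (fun i j _ => by positivity) (fun i j _ _ => by
      show (S.a.1)⁻¹ * (‖(W S (i + 1) j).2.1‖ ^ 2 * (200 / 189) ^ (i + 1 + j)) +
        (S.b.1)⁻¹ * (‖(W S i (j + 1)).2.1‖ ^ 2 * (200 / 189) ^ (i + (j + 1))) ≤
        ‖(W S i j).2.1‖ ^ 2 * (200 / 189) ^ (i + j)
      have e1 : ‖(W S (i + 1) j).2.1‖ = ‖S.a.2.1‖ * ‖(W S i j).2.1‖ := by
        rw [W2, W2, pow_succ]
        ring
      have e2 : ‖(W S i (j + 1)).2.1‖ = ‖S.b.2.1‖ * ‖(W S i j).2.1‖ := by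
        rw [W2, W2, pow_succ]
        ring
      have e3 : ((200 : ℝ) / 189) ^ (i + 1 + j) = 200 / 189 * (200 / 189) ^ (i + j) := by
        rw [← pow_succ']
        congr 1
        omega
      have e4 : ((200 : ℝ) / 189) ^ (i + (j + 1)) = 200 / 189 * (200 / 189) ^ (i + j) := by
        rw [← pow_succ']
        congr 1
      rw [e1, e2, e3, e4]
      have h3 : 0 ≤ ‖(W S i j).2.1‖ ^ 2 * (200 / 189) ^ (i + j) := by positivity
      have h4 := mul_le_mul_of_nonneg_left S.kap h3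
      calc _ = 200 / 189 * (‖(W S i j).2.1‖ ^ 2 * (200 / 189) ^ (i + j) *
            ((S.a.1)⁻¹ * ‖S.a.2.1‖ ^ 2 + (S.b.1)⁻¹ * ‖S.b.2.1‖ ^ 2)) := by ring
        _ ≤ 200 / 189 * (‖(W S i j).2.1‖ ^ 2 * (200 / 189) ^ (i + j) * (189 / 200)) := by
          linarith
        _ = _ := by ring)
  have h0 : ‖(W S 0 0).2.1‖ ^ 2 * (200 / 189 : ℝ) ^ (0 + 0) = 1 := by
    rw [W2]
    simp
  have key' : ∑ m ∈ range (n + 1), ∑ x ∈ AD m,
      ex (S.a.1)⁻¹ (S.b.1)⁻¹ (fun i j => |e.1| * |(W S i j).1| ≤ 1 / 100) x.1 x.2 *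
        (‖(W S x.1 x.2).2.1‖ ^ 2 * (200 / 189) ^ (x.1 + x.2)) ≤ 1 := le_trans key h0.le
  have hc : 0 ≤ (1 / k) ^ 2 * (189 / 200 : ℝ) ^ n2 := by positivity
  calc _ ≤ ∑ m ∈ range (n + 1), ∑ x ∈ AD m, ((1 / k) ^ 2 * (189 / 200 : ℝ) ^ n2) *
        (ex (S.a.1)⁻¹ (S.b.1)⁻¹ (fun i j => |e.1| * |(W S i j).1| ≤ 1 / 100) x.1 x.2 *
        (‖(W S x.1 x.2).2.1‖ ^ 2 * (200 / 189) ^ (x.1 + x.2))) := by
        refine Finset.sum_le_sum fun m _ => Finset.sum_le_sum fun x _ => ?_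
        have hex := ex_nonneg hp hq (fun i j => |e.1| * |(W S i j).1| ≤ 1 / 100) x.1 x.2
        by_cases hex0 : ex (S.a.1)⁻¹ (S.b.1)⁻¹ (fun i j => |e.1| * |(W S i j).1| ≤ 1 / 100) x.1 x.2
            = 0
        · rw [hex0]
          simp
        · have hn2 := h2 x.1 x.2 (exit_bounds S e hex0).1
          split_ifs with hcond
          · have h5 : 1 ≤ (1 / k) ^ 2 * ‖(W S x.1 x.2).2.1‖ ^ 2 := by
              rw [← mul_pow]
              refine one_le_pow₀ ?_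
              rw [one_div, inv_mul_eq_div, le_div_iff₀ hk, one_mul]
              exact hcond.le
            have h6 : 1 ≤ (189 / 200 : ℝ) ^ n2 * (200 / 189) ^ (x.1 + x.2) := by
              obtain ⟨d, hd⟩ := Nat.exists_eq_add_of_le hn2
              rw [hd, pow_add, ← mul_assoc, ← mul_pow]
              have : (189 / 200 * (200 / 189) : ℝ) = 1 := by norm_num
              rw [this, one_pow, one_mul]
              exact one_le_pow₀ (by norm_num)
            have h7 := mul_le_mul h5 h6 zero_le_one (by positivity)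
            calc ex (S.a.1)⁻¹ (S.b.1)⁻¹ (fun i j => |e.1| * |(W S i j).1| ≤ 1 / 100) x.1 x.2
                = (1 * 1) * ex (S.a.1)⁻¹ (S.b.1)⁻¹
                  (fun i j => |e.1| * |(W S i j).1| ≤ 1 / 100) x.1 x.2 := by ring
              _ ≤ _ := mul_le_mul_of_nonneg_right h7 hex
              _ = _ := by ring
          · positivity
    _ = ((1 / k) ^ 2 * (189 / 200 : ℝ) ^ n2) * ∑ m ∈ range (n + 1), ∑ x ∈ AD m,
        (ex (S.a.1)⁻¹ (S.b.1)⁻¹ (fun i j => |e.1| * |(W S i j).1| ≤ 1 / 100) x.1 x.2 *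
        (‖(W S x.1 x.2).2.1‖ ^ 2 * (200 / 189) ^ (x.1 + x.2))) := by
        rw [Finset.mul_sum]
        exact Finset.sum_congr rfl fun m _ => (Finset.mul_sum _ _ _).symm
    _ ≤ ((1 / k) ^ 2 * (189 / 200 : ℝ) ^ n2) * 1 := mul_le_mul_of_nonneg_left key' hc
    _ = _ := mul_one _

open Classical in
theorem tail_window (S : Sys2) (e : E) (he : |e.1| ≤ 1 / 100) (n : ℕ) (ω : ℝ) (hω : 0 < ω)
    (hn : 1 ≤ n) :
    ∑ m ∈ range (n + 1), ∑ x ∈ AD m,
      (if ω * Real.sqrt n < |(S.b.1)⁻¹ * (x.1 : ℝ) - (S.a.1)⁻¹ * (x.2 : ℝ)| then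
        ex (S.a.1)⁻¹ (S.b.1)⁻¹ (fun i j => |e.1| * |(W S i j).1| ≤ 1 / 100) x.1 x.2 else 0) ≤
      1 / ω ^ 2 := by
  have hp : 0 ≤ (S.a.1)⁻¹ := (inv_pos.2 (ap S)).le
  have hq : 0 ≤ (S.b.1)⁻¹ := (inv_pos.2 (bp S)).le
  have hpq := pq S
  have hP := downset S e he
  have hn' : (0 : ℝ) < n := by exact_mod_cast hn
  set p := (S.a.1)⁻¹ with hpdef
  set q := (S.b.1)⁻¹ with hqdef
  have key := exit_ge' hp hq hP
    (fun i j => (q * (i : ℝ) - p * (j : ℝ)) ^ 2 + p * q * ((n : ℝ) - i - j)) n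
    (fun i j hij => by
      have h1 : ((i : ℝ) + j) ≤ n := by exact_mod_cast hij
      have h2 : 0 ≤ (n : ℝ) - i - j := by linarith
      have h3 := mul_nonneg (mul_nonneg hp hq) h2
      have h4 := sq_nonneg (q * (i : ℝ) - p * (j : ℝ))
      show 0 ≤ (q * (i : ℝ) - p * (j : ℝ)) ^ 2 + p * q * ((n : ℝ) - i - j)
      linarith)
    (fun i j _ _ => by
      show p * ((q * ((i + 1 : ℕ) : ℝ) - p * (j : ℝ)) ^ 2 + p * q * ((n : ℝ) - ((i + 1 : ℕ) : ℝ) - j)) +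
        q * ((q * (i : ℝ) - p * ((j + 1 : ℕ) : ℝ)) ^ 2 + p * q * ((n : ℝ) - i - ((j + 1 : ℕ) : ℝ))) ≤
        (q * (i : ℝ) - p * (j : ℝ)) ^ 2 + p * q * ((n : ℝ) - i - j)
      have hq' : q = 1 - p := by linarith
      rw [hq']
      push_cast
      apply le_of_eq
      ring)
  have key' : ∑ m ∈ range (n + 1), ∑ x ∈ AD m,
      ex p q (fun i j => |e.1| * |(W S i j).1| ≤ 1 / 100) x.1 x.2 *
        ((q * (x.1 : ℝ) - p * (x.2 : ℝ)) ^ 2 + p * q * ((n : ℝ) - x.1 - x.2)) ≤ n := by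
    refine le_trans key ?_
    show (q * ((0 : ℕ) : ℝ) - p * ((0 : ℕ) : ℝ)) ^ 2 + p * q * ((n : ℝ) - ((0 : ℕ) : ℝ) - ((0 : ℕ) : ℝ)) ≤ n
    have h1 : p * q ≤ 1 := by nlinarith
    have h2 : p * q * (n : ℝ) ≤ 1 * n := mul_le_mul_of_nonneg_right h1 hn'.le
    simp only [Nat.cast_zero, mul_zero, sub_zero]
    nlinarith
  have hc : 0 ≤ 1 / (ω ^ 2 * (n : ℝ)) := by positivity
  calc _ ≤ ∑ m ∈ range (n + 1), ∑ x ∈ AD m, (1 / (ω ^ 2 * (n : ℝ))) *
        (ex p q (fun i j => |e.1| * |(W S i j).1| ≤ 1 / 100) x.1 x.2 *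
        ((q * (x.1 : ℝ) - p * (x.2 : ℝ)) ^ 2 + p * q * ((n : ℝ) - x.1 - x.2))) := by
        refine Finset.sum_le_sum fun m hm => Finset.sum_le_sum fun x hx => ?_
        have hx1 : x.1 + x.2 = m := mem_AD.1 hx
        have hm1 : m < n + 1 := Finset.mem_range.1 hm
        have h1 : ((x.1 : ℝ) + x.2) ≤ n := by
          have : x.1 + x.2 ≤ n := by omega
          exact_mod_cast this
        have h2 : 0 ≤ p * q * ((n : ℝ) - x.1 - x.2) :=
          mul_nonneg (mul_nonneg hp hq) (by linarith)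
        have hex := ex_nonneg hp hq (fun i j => |e.1| * |(W S i j).1| ≤ 1 / 100) x.1 x.2
        split_ifs with hcond
        · have h3 : 1 ≤ (1 / (ω ^ 2 * (n : ℝ))) *
              ((q * (x.1 : ℝ) - p * (x.2 : ℝ)) ^ 2 + p * q * ((n : ℝ) - x.1 - x.2)) := by
            rw [one_div, inv_mul_eq_div, le_div_iff₀ (by positivity), one_mul]
            have h4 : (ω * Real.sqrt n) ^ 2 ≤ |q * (x.1 : ℝ) - p * (x.2 : ℝ)| ^ 2 :=
              pow_le_pow_left₀ (by positivity) hcond.le 2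
            rw [mul_pow, Real.sq_sqrt hn'.le, sq_abs] at h4
            linarith
          calc ex p q (fun i j => |e.1| * |(W S i j).1| ≤ 1 / 100) x.1 x.2
              = 1 * ex p q (fun i j => |e.1| * |(W S i j).1| ≤ 1 / 100) x.1 x.2 := by ring
            _ ≤ _ := mul_le_mul_of_nonneg_right h3 hex
            _ = _ := by ring
        · refine mul_nonneg hc (mul_nonneg hex ?_)
          have := sq_nonneg (q * (x.1 : ℝ) - p * (x.2 : ℝ))
          linarith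
    _ = (1 / (ω ^ 2 * (n : ℝ))) * ∑ m ∈ range (n + 1), ∑ x ∈ AD m,
        (ex p q (fun i j => |e.1| * |(W S i j).1| ≤ 1 / 100) x.1 x.2 *
        ((q * (x.1 : ℝ) - p * (x.2 : ℝ)) ^ 2 + p * q * ((n : ℝ) - x.1 - x.2))) := by
        rw [Finset.mul_sum]
        exact Finset.sum_congr rfl fun m _ => (Finset.mul_sum _ _ _).symm
    _ ≤ (1 / (ω ^ 2 * (n : ℝ))) * n := mul_le_mul_of_nonneg_left key' hc
    _ = 1 / ω ^ 2 := by
      field_simp

theorem window (S : Sys2) (e : E) (he0 : e.1 ≠ 0) : ∃ j0 : ℝ, ∀ i j : ℕ,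
    1 / 100 < |e.1| * |(W S i j).1| → |e.1| * |(W S i j).1| ≤ S.b.1 * (1 / 100) →
      |(j : ℝ) - j0| ≤ |(S.b.1)⁻¹ * (i : ℝ) - (S.a.1)⁻¹ * (j : ℝ)| + 1 := by
  have hpq := pq S
  have hp : 0 < (S.a.1)⁻¹ := inv_pos.2 (ap S)
  have hq : 0 < (S.b.1)⁻¹ := inv_pos.2 (bp S)
  have hA : 0 < Real.log S.a.1 := Real.log_pos (lt_of_lt_of_le (by norm_num) S.a1l)
  have hAB : Real.log S.a.1 ≤ Real.log S.b.1 := by
    refine Real.log_le_log (ap S) ?_
    exact S.a1u.trans (le_trans (by norm_num) (b1l S))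
  have he1 : 0 < |e.1| := abs_pos.2 he0
  set p := (S.a.1)⁻¹
  set q := (S.b.1)⁻¹
  set A := Real.log S.a.1
  set B := Real.log S.b.1
  have hB : 0 < B := lt_of_lt_of_le hA hAB
  have hD : 0 < p * A + q * B := by positivity
  set L := -Real.log (100 * |e.1|) with hL
  refine ⟨q * L / (p * A + q * B), fun i j h1 h2 => ?_⟩
  have hWlog : Real.log |(W S i j).1| = i * A + j * B := by
    rw [W1, Real.log_mul (pow_pos (ap S) _).ne' (pow_pos (bp S) _).ne', Real.log_pow, Real.log_pow]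
  have hWp := W1_pos S i j
  have h3 : L ≤ i * A + j * B := by
    have h4 : (1 : ℝ) ≤ 100 * |e.1| * |(W S i j).1| := by linarith
    have h5 := Real.log_nonneg h4
    rw [Real.log_mul (by positivity) hWp.ne', hWlog] at h5
    linarith
  have h3' : i * A + j * B ≤ L + B := by
    have h4 : 100 * |e.1| * |(W S i j).1| ≤ S.b.1 := by linarith
    have h5 := Real.log_le_log (by positivity) h4
    rw [Real.log_mul (by positivity) hWp.ne', hWlog] at h5
    linarith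
  set x := q * (i : ℝ) - p * (j : ℝ) with hx
  -- `q (i A + j B) = x A + j D`
  have h6 : q * (i * A + j * B) = x * A + j * (p * A + q * B) := by
    rw [hx]
    ring
  have h7 : q * L ≤ x * A + j * (p * A + q * B) := by
    rw [← h6]
    exact mul_le_mul_of_nonneg_left h3 hq.le
  have h8 : x * A + j * (p * A + q * B) ≤ q * L + q * B := by
    rw [← h6, ← mul_add]
    exact mul_le_mul_of_nonneg_left h3' hq.le
  have hAD : A ≤ p * A + q * B := by nlinarith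
  have hBD : q * B ≤ p * A + q * B := by nlinarith
  have hxA : |x * A| ≤ |x| * (p * A + q * B) := by
    rw [abs_mul, abs_of_pos hA]
    exact mul_le_mul_of_nonneg_left hAD (abs_nonneg _)
  have hxA1 := abs_le.1 hxA
  have hj : (j : ℝ) - q * L / (p * A + q * B) =
      (j * (p * A + q * B) - q * L) / (p * A + q * B) := by
    field_simp
  rw [hj, abs_div, abs_of_pos hD, div_le_iff₀ hD, abs_le]
  constructor <;> nlinarith

end Pool.Agent.H49.AB
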