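import Pool.Agent.H49.AB.BadMass
import Pool.Agent.H49.AB.Tails

/-!
# JOB AB-13. All bad exits together have small weight

`exists_seq`: recursion (compare `badW_seq` in `H30/PD/BadW.lean`; `Ls H i` depends only on `H 0, …, H (i-1)`).

`n2 = ⌊e1 n⌋/8`: if `1/100 < |e.1| |W_{ij}|_1` then, as `|e.1| α^⌊e1 n⌋ ≤ 1/100` and `|W_{ij}|_1 = α^i β^j ≤ α^(8(i+j))` (`β ≤ 5.2285 ≤
1.2365^8`), `8 (i + j) > ⌊e1 n⌋`.

Three kinds of bad exits (weights: file `Tails`):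
(α) `‖W_{ij}‖_2 > (1/6)^(L+1)`, `L = Ls H J`: `tail_two`, weight `≤ 36^(L+1) (189/200)^(n2)`.
(β) `|q i - p j| > ω √n`: `tail_window`, weight `≤ 1/ω²`.
(γ) the others: by `window` `|j - j0| ≤ ω √n + 1`, so `j ∈ [lo, lo + Y]` with `lo = ⌊j0 - ω √n - 1⌋₊`, `Y = ⌈2 ω √n⌉₊ + 4`. By `bad_mass` (for kind `r` with
   `L = Ls H r`, `h = H r`, `g = H r/20 - 1`; `(1/6)^(Ls H J + 1) ≤ (1/6)^(Ls H r + 1)`) the weight is at most
   `∑_{r<J} ∑_{s+t ≤ Ls H r} C (Ls H r + 1) (Y/g_r + 1)/√(n2+1)`.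
Choose `ω` with `1/ω² ≤ x/4`. `√(n2 + 1) ≥ c √n` (`c > 0` depending on `e1`). Choose (`exists_seq`) `H r` so large in terms of `Ls H r` that
`(Ls H r + 1)² C (Ls H r + 1) (2 ω + 6)/(g_r c) ≤ x/(4 (J+1))`. Then `n0` so large that the rest is `≤ x/2`.
-/

set_option autoImplicit false

namespace Pool.Agent.H49.AB

open Pool.Agent.H67.Tent Finset

theorem exists_seq (f : ℕ → ℕ) : ∃ H : ℕ → ℕ, ∀ i, H i = f (Ls H i) := by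
  let p : ℕ → ℕ := fun i => Nat.rec 0 (fun _ q => q + f q + 8) i
  refine ⟨fun i => f (p i), fun i => ?_⟩
  have key : ∀ i, Ls (fun i => f (p i)) i = p i := by
    intro i
    induction i with
    | zero => rfl
    | succ i ih =>
      show Ls (fun i => f (p i)) i + f (p i) + 8 = p i + f (p i) + 8
      rw [ih]
  rw [key]

theorem badTotal_beta (S : Sys2) : S.b.1 ≤ S.a.1 ^ 8 := by
  have h1 := b1u S
  have h2 : (1.2365 : ℝ) ^ 8 ≤ S.a.1 ^ 8 := pow_le_pow_left₀ (by norm_num) S.a1l 8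
  have h3 : (5.2285 : ℝ) ≤ 1.2365 ^ 8 := by norm_num
  linarith

theorem badTotal_n2 (S : Sys2) {e : E} {m : ℕ} (h : |e.1| * S.a.1 ^ m ≤ 1 / 100) (i j : ℕ)
    (hij : 1 / 100 < |e.1| * |(W S i j).1|) : m / 8 ≤ i + j := by
  by_contra hc
  push Not at hc
  have h1 : i + 8 * j ≤ m := by omega
  have ha1 : (1 : ℝ) ≤ S.a.1 := by have := S.a1l; linarith
  have ha0 : (0 : ℝ) < S.a.1 := by linarith
  have hb0 := bp S
  have h2 : |(W S i j).1| ≤ S.a.1 ^ m := by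
    rw [W1]
    calc S.a.1 ^ i * S.b.1 ^ j ≤ S.a.1 ^ i * (S.a.1 ^ 8) ^ j :=
          mul_le_mul_of_nonneg_left (pow_le_pow_left₀ hb0.le (badTotal_beta S) j) (by positivity)
      _ = S.a.1 ^ (i + 8 * j) := by rw [← pow_mul, ← pow_add]
      _ ≤ S.a.1 ^ m := pow_le_pow_right₀ ha1 h1
  have h3 : |e.1| * |(W S i j).1| ≤ |e.1| * S.a.1 ^ m :=
    mul_le_mul_of_nonneg_left h2 (abs_nonneg _)
  linarith

theorem badTotal_mono (H : ℕ → ℕ) {i j : ℕ} (hij : i ≤ j) : Ls H i ≤ Ls H j := by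
  induction hij with
  | refl => exact le_rfl
  | step _ ih => exact ih.trans (by simp only [Ls]; omega)

/-- the pairs with sum at most `L` -/
def badTotal_T (L : ℕ) : Finset (ℕ × ℕ) :=
  ((range (L + 1)) ×ˢ (range (L + 1))).filter (fun u => u.1 + u.2 ≤ L)

theorem badTotal_T_mem {L : ℕ} {s t : ℕ} (h : s + t ≤ L) : (s, t) ∈ badTotal_T L := by
  unfold badTotal_T
  rw [mem_filter, mem_product, mem_range, mem_range]
  exact ⟨⟨by omega, by omega⟩, h⟩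

theorem badTotal_T_le {L : ℕ} {u : ℕ × ℕ} (h : u ∈ badTotal_T L) : u.1 + u.2 ≤ L := by
  unfold badTotal_T at h
  rw [mem_filter] at h
  exact h.2

theorem badTotal_T_card (L : ℕ) : ((badTotal_T L).card : ℝ) ≤ ((L : ℝ) + 1) ^ 2 := by
  have h1 : (badTotal_T L).card ≤ (L + 1) * (L + 1) := by
    unfold badTotal_T
    refine (card_filter_le _ _).trans ?_
    rw [card_product, card_range]
  have h2 : ((badTotal_T L).card : ℝ) ≤ (((L + 1) * (L + 1) : ℕ) : ℝ) := by exact_mod_cast h1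
  push_cast at h2
  rw [sq]
  exact h2

theorem badTotal_arith {L g Y : ℕ} {C c ω D X2 : ℝ} (hC : 0 < C) (hc : 0 < c) (hω : 0 < ω)
    (hD : 0 < D) (hX : c * D ≤ X2) (hg : 1 ≤ g) (hY : (Y : ℝ) ≤ 2 * ω * D + 5) :
    ((L : ℝ) + 1) ^ 2 * (C * (L + 1) * ((Y / g : ℕ) + 1) / X2) ≤
      ((L : ℝ) + 1) ^ 3 * C / c * (2 * ω) / g + ((L : ℝ) + 1) ^ 3 * C / c * 6 / D := by
  have hg1 : (1 : ℝ) ≤ g := by exact_mod_cast hg
  have hg0 : (0 : ℝ) < g := by linarith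
  have h1 : ((Y / g : ℕ) : ℝ) ≤ (Y : ℝ) / g := Nat.cast_div_le
  have h2 : (Y : ℝ) / g ≤ 2 * ω * D / g + 5 := by
    rw [div_le_iff₀ hg0, add_mul, div_mul_cancel₀ _ hg0.ne']
    nlinarith
  have h3 : ((Y / g : ℕ) : ℝ) + 1 ≤ 2 * ω * D / g + 6 := by linarith
  have hcD : 0 < c * D := by positivity
  have h4 : C * (L + 1) * ((Y / g : ℕ) + 1) / X2 ≤ C * (L + 1) * (2 * ω * D / g + 6) / (c * D) := by
    apply div_le_div₀ _ _ hcD hX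
    · positivity
    · exact mul_le_mul_of_nonneg_left h3 (by positivity)
  calc ((L : ℝ) + 1) ^ 2 * (C * (L + 1) * ((Y / g : ℕ) + 1) / X2)
      ≤ ((L : ℝ) + 1) ^ 2 * (C * (L + 1) * (2 * ω * D / g + 6) / (c * D)) :=
        mul_le_mul_of_nonneg_left h4 (by positivity)
    _ = _ := by field_simp

open Classical in
theorem badTotal_pointwise (S : Sys2) (ξ : ℂ) (e : E) (H : ℕ → ℕ) (J n lo Y : ℕ) (j0 ω : ℝ)
    (hj0 : ∀ i j : ℕ,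
      1 / 100 < |e.1| * |(W S i j).1| → |e.1| * |(W S i j).1| ≤ S.b.1 * (1 / 100) →
      |(j : ℝ) - j0| ≤ |(S.b.1)⁻¹ * (i : ℝ) - (S.a.1)⁻¹ * (j : ℝ)| + 1)
    (hlo : lo = ⌊j0 - ω * Real.sqrt n - 1⌋₊) (hY : Y = ⌈2 * ω * Real.sqrt n⌉₊ + 4)
    (y : ℕ × ℕ) :
    (if ∃ r < J, ∃ s t, s + t ≤ Ls H r ∧
            ∃ e', Near S e' (ξ * (W S (y.1 + s) (y.2 + t)).2.2) ∧ |e'.1| * S.a.1 ^ H r ≤ 1 / 100
          then ex (S.a.1)⁻¹ (S.b.1)⁻¹ (fun i j => |e.1| * |(W S i j).1| ≤ 1 / 100) y.1 y.2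
          else 0) ≤
      (if (1 / 6) ^ (Ls H J + 1) < ‖(W S y.1 y.2).2.1‖ then
        ex (S.a.1)⁻¹ (S.b.1)⁻¹ (fun i j => |e.1| * |(W S i j).1| ≤ 1 / 100) y.1 y.2 else 0) +
      (if ω * Real.sqrt n < |(S.b.1)⁻¹ * (y.1 : ℝ) - (S.a.1)⁻¹ * (y.2 : ℝ)| then
        ex (S.a.1)⁻¹ (S.b.1)⁻¹ (fun i j => |e.1| * |(W S i j).1| ≤ 1 / 100) y.1 y.2 else 0) +
      ∑ r ∈ range J, ∑ u ∈ badTotal_T (Ls H r),
        (if (∃ e', Near S e' (ξ * (W S (y.1 + u.1) (y.2 + u.2)).2.2) ∧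
            |e'.1| * S.a.1 ^ (H r) ≤ 1 / 100) ∧
          ‖(W S y.1 y.2).2.1‖ ≤ (1 / 6) ^ (Ls H r + 1) ∧ lo ≤ y.2 ∧ y.2 ≤ lo + Y then
          ex (S.a.1)⁻¹ (S.b.1)⁻¹ (fun i j => |e.1| * |(W S i j).1| ≤ 1 / 100) y.1 y.2 else 0) := by
  have hex : 0 ≤ ex (S.a.1)⁻¹ (S.b.1)⁻¹ (fun i j => |e.1| * |(W S i j).1| ≤ 1 / 100) y.1 y.2 :=
    ex_nonneg (inv_nonneg.mpr (ap S).le) (inv_nonneg.mpr (bp S).le) _ _ _
  have hz := exit_bounds S e (i := y.1) (j := y.2)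
  generalize ex (S.a.1)⁻¹ (S.b.1)⁻¹ (fun i j => |e.1| * |(W S i j).1| ≤ 1 / 100) y.1 y.2 = X
    at hex hz ⊢
  have h1 : 0 ≤ (if (1 / 6) ^ (Ls H J + 1) < ‖(W S y.1 y.2).2.1‖ then X else 0) := by
    split_ifs <;> simp [hex]
  have h2 : 0 ≤ (if ω * Real.sqrt n < |(S.b.1)⁻¹ * (y.1 : ℝ) - (S.a.1)⁻¹ * (y.2 : ℝ)| then X
      else 0) := by
    split_ifs <;> simp [hex]
  have hB : ∀ (r : ℕ) (u : ℕ × ℕ), 0 ≤
      (if (∃ e', Near S e' (ξ * (W S (y.1 + u.1) (y.2 + u.2)).2.2) ∧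
            |e'.1| * S.a.1 ^ (H r) ≤ 1 / 100) ∧
          ‖(W S y.1 y.2).2.1‖ ≤ (1 / 6) ^ (Ls H r + 1) ∧ lo ≤ y.2 ∧ y.2 ≤ lo + Y then X
          else 0) := by
    intro r u
    split_ifs <;> simp [hex]
  have h3 : 0 ≤ ∑ r ∈ range J, ∑ u ∈ badTotal_T (Ls H r),
        (if (∃ e', Near S e' (ξ * (W S (y.1 + u.1) (y.2 + u.2)).2.2) ∧
            |e'.1| * S.a.1 ^ (H r) ≤ 1 / 100) ∧
          ‖(W S y.1 y.2).2.1‖ ≤ (1 / 6) ^ (Ls H r + 1) ∧ lo ≤ y.2 ∧ y.2 ≤ lo + Y then X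
          else 0) := Finset.sum_nonneg fun r _ => Finset.sum_nonneg fun u _ => hB r u
  by_cases hbad : ∃ r < J, ∃ s t, s + t ≤ Ls H r ∧
      ∃ e', Near S e' (ξ * (W S (y.1 + s) (y.2 + t)).2.2) ∧ |e'.1| * S.a.1 ^ H r ≤ 1 / 100
  swap
  · rw [if_neg hbad]
    linarith
  rw [if_pos hbad]
  by_cases hX0 : X = 0
  · linarith
  obtain ⟨hb1, hb2⟩ := hz hX0
  by_cases ha : (1 / 6 : ℝ) ^ (Ls H J + 1) < ‖(W S y.1 y.2).2.1‖
  · rw [if_pos ha]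
    linarith
  by_cases hb : ω * Real.sqrt n < |(S.b.1)⁻¹ * (y.1 : ℝ) - (S.a.1)⁻¹ * (y.2 : ℝ)|
  · rw [if_pos hb]
    linarith
  push Not at ha hb
  have hw := hj0 y.1 y.2 hb1 hb2
  have hw2 : |(y.2 : ℝ) - j0| ≤ ω * Real.sqrt n + 1 := by linarith
  rw [abs_le] at hw2
  have hlo1 : lo ≤ y.2 := by
    rw [hlo]
    apply Nat.floor_le_of_le
    linarith [hw2.1]
  have hlo2 : y.2 ≤ lo + Y := by
    have e1 := Nat.lt_floor_add_one (j0 - ω * Real.sqrt n - 1)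
    rw [← hlo] at e1
    have e2 := Nat.le_ceil (2 * ω * Real.sqrt n)
    have e3 : (Y : ℝ) = (⌈2 * ω * Real.sqrt n⌉₊ : ℝ) + 4 := by rw [hY]; push_cast; ring
    have e4 : (y.2 : ℝ) ≤ ((lo + Y : ℕ) : ℝ) := by
      push_cast
      linarith [hw2.2]
    exact_mod_cast e4
  obtain ⟨r, hr, s, t, hst, hnear⟩ := hbad
  have hk : ‖(W S y.1 y.2).2.1‖ ≤ (1 / 6 : ℝ) ^ (Ls H r + 1) := by
    refine ha.trans (pow_le_pow_of_le_one (by norm_num) (by norm_num) ?_)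
    have := badTotal_mono H hr.le
    omega
  have h4 : X ≤ ∑ r ∈ range J, ∑ u ∈ badTotal_T (Ls H r),
        (if (∃ e', Near S e' (ξ * (W S (y.1 + u.1) (y.2 + u.2)).2.2) ∧
            |e'.1| * S.a.1 ^ (H r) ≤ 1 / 100) ∧
          ‖(W S y.1 y.2).2.1‖ ≤ (1 / 6) ^ (Ls H r + 1) ∧ lo ≤ y.2 ∧ y.2 ≤ lo + Y then X
          else 0) := by
    refine le_trans ?_ (Finset.single_le_sum (f := fun r => ∑ u ∈ badTotal_T (Ls H r),
        (if (∃ e', Near S e' (ξ * (W S (y.1 + u.1) (y.2 + u.2)).2.2) ∧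
            |e'.1| * S.a.1 ^ (H r) ≤ 1 / 100) ∧
          ‖(W S y.1 y.2).2.1‖ ≤ (1 / 6) ^ (Ls H r + 1) ∧ lo ≤ y.2 ∧ y.2 ≤ lo + Y then X
          else 0)) (fun r _ => Finset.sum_nonneg fun u _ => hB r u) (mem_range.mpr hr))
    refine le_trans ?_ (Finset.single_le_sum (f := fun u : ℕ × ℕ =>
        (if (∃ e', Near S e' (ξ * (W S (y.1 + u.1) (y.2 + u.2)).2.2) ∧
            |e'.1| * S.a.1 ^ (H r) ≤ 1 / 100) ∧
          ‖(W S y.1 y.2).2.1‖ ≤ (1 / 6) ^ (Ls H r + 1) ∧ lo ≤ y.2 ∧ y.2 ≤ lo + Y then X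
          else 0)) (fun u _ => hB r u) (badTotal_T_mem hst))
    dsimp only
    rw [if_pos ⟨hnear, hk, hlo1, hlo2⟩]
  linarith


open Classical in
theorem bad_total (S : Sys2) (e1 : ℝ) (he1 : 0 < e1) (J : ℕ) (x : ℝ) (hx : 0 < x) :
    ∃ (H : ℕ → ℕ) (n0 : ℕ), ∀ n ≥ n0, ∀ (ξ : ℂ) (e : E), Near S e ξ → e.1 ≠ 0 →
      |e.1| * S.a.1 ^ ⌊e1 * n⌋₊ ≤ 1 / 100 →
      ∑ m ∈ range (n + 1), ∑ y ∈ AD m,
        (if ∃ r < J, ∃ s t, s + t ≤ Ls H r ∧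
            ∃ e', Near S e' (ξ * (W S (y.1 + s) (y.2 + t)).2.2) ∧ |e'.1| * S.a.1 ^ H r ≤ 1 / 100
          then ex (S.a.1)⁻¹ (S.b.1)⁻¹ (fun i j => |e.1| * |(W S i j).1| ≤ 1 / 100) y.1 y.2
          else 0) ≤ x := by
  obtain ⟨C, hC, hmass⟩ := bad_mass S
  obtain ⟨ω, hω, hωx⟩ : ∃ ω : ℝ, 0 < ω ∧ 1 / ω ^ 2 ≤ x / 4 := by
    refine ⟨2 / Real.sqrt x, by positivity, ?_⟩
    rw [div_pow, Real.sq_sqrt hx.le]
    apply le_of_eq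
    field_simp
    norm_num
  obtain ⟨c, hc⟩ : ∃ c, c = Real.sqrt (e1 / 8) := ⟨_, rfl⟩
  have hc0 : 0 < c := by rw [hc]; exact Real.sqrt_pos.mpr (by positivity)
  have hG : ∀ L : ℕ, ∃ g : ℕ, 1 ≤ g ∧
      ((L : ℝ) + 1) ^ 3 * C / c * (2 * ω) / g ≤ x / (4 * (J + 1)) := by
    intro L
    obtain ⟨g, hg⟩ := exists_nat_ge (((L : ℝ) + 1) ^ 3 * C / c * (2 * ω) / (x / (4 * (J + 1))))
    refine ⟨g + 1, by omega, ?_⟩
    rw [div_le_iff₀ (by positivity)] at hg ⊢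
    have h1 : 0 < x / (4 * ((J : ℝ) + 1)) := by positivity
    push_cast
    nlinarith
  choose Gf hG1 hG2 using hG
  obtain ⟨H, hH⟩ := exists_seq (fun L => 20 * (Gf L + 1))
  have hgr : ∀ r, 20 * (Gf (Ls H r) + 1) ≤ H r := by
    intro r
    have h5 : H r = 20 * (Gf (Ls H r) + 1) := hH r
    omega
  obtain ⟨K0, hK0⟩ : ∃ K0 : ℝ, K0 = (1 / ((1 / 6 : ℝ) ^ (Ls H J + 1))) ^ 2 := ⟨_, rfl⟩
  have hK0p : 0 < K0 := by rw [hK0]; positivity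
  obtain ⟨m0, hm0⟩ := exists_pow_lt_of_lt_one (show (0 : ℝ) < x / 4 / K0 by positivity)
    (show (189 / 200 : ℝ) < 1 by norm_num)
  obtain ⟨A, hA⟩ : ∃ A : ℝ, A = ∑ r ∈ range J, ((Ls H r : ℝ) + 1) ^ 3 * C / c * 6 := ⟨_, rfl⟩
  have hA0 : 0 ≤ A := by
    rw [hA]
    exact Finset.sum_nonneg fun r _ => by positivity
  obtain ⟨n1, hn1⟩ := exists_nat_ge ((A / (x / 4)) ^ 2)
  obtain ⟨n3, hn3⟩ := exists_nat_ge (8 * ((m0 : ℝ) + 1) / e1)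
  refine ⟨H, n1 + n3 + 1, fun n hn ξ e hN he0 hle => ?_⟩
  have hn' : (n1 : ℝ) + n3 + 1 ≤ n := by exact_mod_cast hn
  have hn1' : (1 : ℝ) ≤ n := by
    have : (0 : ℝ) ≤ n1 := by positivity
    have : (0 : ℝ) ≤ n3 := by positivity
    linarith
  have hnN : 1 ≤ n := by omega
  have hD0 : 0 < Real.sqrt n := Real.sqrt_pos.mpr (by linarith)
  obtain ⟨n2, hn2⟩ : ∃ n2, n2 = ⌊e1 * n⌋₊ / 8 := ⟨_, rfl⟩
  have h8 : e1 * n < 8 * ((n2 : ℝ) + 1) := by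
    have h1 := Nat.lt_floor_add_one (e1 * n)
    have h2 : ⌊e1 * n⌋₊ + 1 ≤ 8 * (n2 + 1) := by omega
    have h3 : ((⌊e1 * n⌋₊ + 1 : ℕ) : ℝ) ≤ ((8 * (n2 + 1) : ℕ) : ℝ) := by exact_mod_cast h2
    push_cast at h3
    linarith
  have hX2 : c * Real.sqrt n ≤ Real.sqrt ((n2 : ℝ) + 1) := by
    rw [hc, ← Real.sqrt_mul (by positivity)]
    apply Real.sqrt_le_sqrt
    linarith
  have hn2m : m0 ≤ n2 := by
    have h1 : 8 * ((m0 : ℝ) + 1) ≤ e1 * n := by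
      have h2 : 8 * ((m0 : ℝ) + 1) / e1 ≤ n := by
        have : (0 : ℝ) ≤ n1 := by positivity
        linarith
      rw [div_le_iff₀ he1] at h2
      linarith
    have h3 : (m0 : ℝ) < n2 := by linarith
    exact le_of_lt (by exact_mod_cast h3)
  have hexit : ∀ i j, 1 / 100 < |e.1| * |(W S i j).1| → n2 ≤ i + j := by
    intro i j hij
    rw [hn2]
    exact badTotal_n2 S hle i j hij
  obtain ⟨j0, hj0⟩ := window S e he0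
  obtain ⟨lo, hlo⟩ : ∃ lo, lo = ⌊j0 - ω * Real.sqrt n - 1⌋₊ := ⟨_, rfl⟩
  obtain ⟨Y, hY⟩ : ∃ Y, Y = ⌈2 * ω * Real.sqrt n⌉₊ + 4 := ⟨_, rfl⟩
  have hY5 : (Y : ℝ) ≤ 2 * ω * Real.sqrt n + 5 := by
    have h1 := Nat.ceil_lt_add_one (show 0 ≤ 2 * ω * Real.sqrt n by positivity)
    rw [hY]
    push_cast
    linarith
  have hsum := Finset.sum_le_sum fun m (_ : m ∈ range (n + 1)) =>
    Finset.sum_le_sum fun y (_ : y ∈ AD m) =>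
      badTotal_pointwise S ξ e H J n lo Y j0 ω hj0 hlo hY y
  refine hsum.trans ?_
  simp only [Finset.sum_add_distrib]
  have hα := tail_two S e hN.2.1 n n2 ((1 / 6 : ℝ) ^ (Ls H J + 1)) (by positivity) hexit
  have hβ := tail_window S e hN.2.1 n ω hω hnN
  have hα2 : (1 / ((1 / 6 : ℝ) ^ (Ls H J + 1))) ^ 2 * (189 / 200) ^ n2 ≤ x / 4 := by
    rw [← hK0]
    have h1 : (189 / 200 : ℝ) ^ n2 ≤ (189 / 200) ^ m0 :=
      pow_le_pow_of_le_one (by norm_num) (by norm_num) hn2m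
    have h2 : (189 / 200 : ℝ) ^ n2 ≤ x / 4 / K0 := h1.trans hm0.le
    rw [le_div_iff₀ hK0p] at h2
    linarith
  have hγ : ∑ m ∈ range (n + 1), ∑ y ∈ AD m, ∑ r ∈ range J, ∑ u ∈ badTotal_T (Ls H r),
        (if (∃ e', Near S e' (ξ * (W S (y.1 + u.1) (y.2 + u.2)).2.2) ∧
            |e'.1| * S.a.1 ^ (H r) ≤ 1 / 100) ∧
          ‖(W S y.1 y.2).2.1‖ ≤ (1 / 6) ^ (Ls H r + 1) ∧ lo ≤ y.2 ∧ y.2 ≤ lo + Y then
          ex (S.a.1)⁻¹ (S.b.1)⁻¹ (fun i j => |e.1| * |(W S i j).1| ≤ 1 / 100) y.1 y.2 else 0) ≤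
      x / 2 := by
    have hswap : ∑ m ∈ range (n + 1), ∑ y ∈ AD m, ∑ r ∈ range J, ∑ u ∈ badTotal_T (Ls H r),
        (if (∃ e', Near S e' (ξ * (W S (y.1 + u.1) (y.2 + u.2)).2.2) ∧
            |e'.1| * S.a.1 ^ (H r) ≤ 1 / 100) ∧
          ‖(W S y.1 y.2).2.1‖ ≤ (1 / 6) ^ (Ls H r + 1) ∧ lo ≤ y.2 ∧ y.2 ≤ lo + Y then
          ex (S.a.1)⁻¹ (S.b.1)⁻¹ (fun i j => |e.1| * |(W S i j).1| ≤ 1 / 100) y.1 y.2 else 0) =
        ∑ r ∈ range J, ∑ u ∈ badTotal_T (Ls H r), ∑ m ∈ range (n + 1), ∑ y ∈ AD m,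
        (if (∃ e', Near S e' (ξ * (W S (y.1 + u.1) (y.2 + u.2)).2.2) ∧
            |e'.1| * S.a.1 ^ (H r) ≤ 1 / 100) ∧
          ‖(W S y.1 y.2).2.1‖ ≤ (1 / 6) ^ (Ls H r + 1) ∧ lo ≤ y.2 ∧ y.2 ≤ lo + Y then
          ex (S.a.1)⁻¹ (S.b.1)⁻¹ (fun i j => |e.1| * |(W S i j).1| ≤ 1 / 100) y.1 y.2 else 0) := by
      have e1 : ∀ m ∈ range (n + 1), ∑ y ∈ AD m, ∑ r ∈ range J, ∑ u ∈ badTotal_T (Ls H r),
        (if (∃ e', Near S e' (ξ * (W S (y.1 + u.1) (y.2 + u.2)).2.2) ∧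
            |e'.1| * S.a.1 ^ (H r) ≤ 1 / 100) ∧
          ‖(W S y.1 y.2).2.1‖ ≤ (1 / 6) ^ (Ls H r + 1) ∧ lo ≤ y.2 ∧ y.2 ≤ lo + Y then
          ex (S.a.1)⁻¹ (S.b.1)⁻¹ (fun i j => |e.1| * |(W S i j).1| ≤ 1 / 100) y.1 y.2 else 0) =
          ∑ r ∈ range J, ∑ u ∈ badTotal_T (Ls H r), ∑ y ∈ AD m,
        (if (∃ e', Near S e' (ξ * (W S (y.1 + u.1) (y.2 + u.2)).2.2) ∧
            |e'.1| * S.a.1 ^ (H r) ≤ 1 / 100) ∧
          ‖(W S y.1 y.2).2.1‖ ≤ (1 / 6) ^ (Ls H r + 1) ∧ lo ≤ y.2 ∧ y.2 ≤ lo + Y then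
          ex (S.a.1)⁻¹ (S.b.1)⁻¹ (fun i j => |e.1| * |(W S i j).1| ≤ 1 / 100) y.1 y.2 else 0) := by
        intro m _
        rw [Finset.sum_comm]
        exact Finset.sum_congr rfl fun r _ => Finset.sum_comm
      rw [Finset.sum_congr rfl e1, Finset.sum_comm]
      exact Finset.sum_congr rfl fun r _ => Finset.sum_comm
    rw [hswap]
    have hr : ∀ r ∈ range J, ∑ u ∈ badTotal_T (Ls H r), ∑ m ∈ range (n + 1), ∑ y ∈ AD m,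
        (if (∃ e', Near S e' (ξ * (W S (y.1 + u.1) (y.2 + u.2)).2.2) ∧
            |e'.1| * S.a.1 ^ (H r) ≤ 1 / 100) ∧
          ‖(W S y.1 y.2).2.1‖ ≤ (1 / 6) ^ (Ls H r + 1) ∧ lo ≤ y.2 ∧ y.2 ≤ lo + Y then
          ex (S.a.1)⁻¹ (S.b.1)⁻¹ (fun i j => |e.1| * |(W S i j).1| ≤ 1 / 100) y.1 y.2 else 0) ≤
        x / (4 * (J + 1)) + ((Ls H r : ℝ) + 1) ^ 3 * C / c * 6 / Real.sqrt n := by
      intro r _
      have h1 : ∀ u ∈ badTotal_T (Ls H r), ∑ m ∈ range (n + 1), ∑ y ∈ AD m,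
        (if (∃ e', Near S e' (ξ * (W S (y.1 + u.1) (y.2 + u.2)).2.2) ∧
            |e'.1| * S.a.1 ^ (H r) ≤ 1 / 100) ∧
          ‖(W S y.1 y.2).2.1‖ ≤ (1 / 6) ^ (Ls H r + 1) ∧ lo ≤ y.2 ∧ y.2 ≤ lo + Y then
          ex (S.a.1)⁻¹ (S.b.1)⁻¹ (fun i j => |e.1| * |(W S i j).1| ≤ 1 / 100) y.1 y.2 else 0) ≤
          C * ((Ls H r : ℝ) + 1) * ((Y / Gf (Ls H r) : ℕ) + 1) / Real.sqrt ((n2 : ℝ) + 1) :=
        fun u hu => hmass ξ e (Ls H r) (H r) (Gf (Ls H r)) Y lo n2 n u.1 u.2 hN he0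
          (badTotal_T_le hu) (hgr r) (hG1 _) hexit
      refine (Finset.sum_le_card_nsmul _ _ _ h1).trans ?_
      rw [nsmul_eq_mul]
      have h2 : ((badTotal_T (Ls H r)).card : ℝ) *
          (C * ((Ls H r : ℝ) + 1) * ((Y / Gf (Ls H r) : ℕ) + 1) / Real.sqrt ((n2 : ℝ) + 1)) ≤
          ((Ls H r : ℝ) + 1) ^ 2 *
          (C * ((Ls H r : ℝ) + 1) * ((Y / Gf (Ls H r) : ℕ) + 1) / Real.sqrt ((n2 : ℝ) + 1)) :=
        mul_le_mul_of_nonneg_right (badTotal_T_card _) (by positivity)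
      refine h2.trans ((badTotal_arith hC hc0 hω hD0 hX2 (hG1 _) hY5).trans ?_)
      have h3 := hG2 (Ls H r)
      linarith
    refine (Finset.sum_le_sum hr).trans ?_
    rw [Finset.sum_add_distrib, Finset.sum_const, card_range, nsmul_eq_mul, ← Finset.sum_div, ← hA]
    have h1 : (J : ℝ) * (x / (4 * (J + 1))) ≤ x / 4 := by
      rw [mul_div_assoc', div_le_div_iff₀ (by positivity) (by norm_num)]
      have : (0 : ℝ) ≤ J := by positivity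
      nlinarith
    have h2 : A / Real.sqrt n ≤ x / 4 := by
      rw [div_le_iff₀ hD0]
      have h3 : A / (x / 4) ≤ Real.sqrt n := by
        apply Real.le_sqrt_of_sq_le
        have : (0 : ℝ) ≤ n3 := by positivity
        linarith
      rw [div_le_iff₀ (by positivity)] at h3
      linarith
    linarith
  linarith

end Pool.Agent.H49.AB
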