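import Pool.Agent.H49.AB.Defs

/-!
# AB: basic lemmas
-/

set_option autoImplicit false

namespace Pool.Agent.H49.AB

open Pool.Agent.H67.Tent Finset

section W

variable (S : Sys2)

@[simp] theorem W_zero : W S 0 0 = 1 := by simp [W]

theorem W_add (i j i' j' : ℕ) : W S (i + i') (j + j') = W S i j * W S i' j' := by
  unfold W
  rw [pow_add, pow_add]
  ring

theorem W_succ_left (i j : ℕ) : W S (i + 1) j = S.a * W S i j := by
  unfold W
  rw [pow_succ]
  ring

theorem W_succ_right (i j : ℕ) : W S i (j + 1) = -S.b * W S i j := by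
  unfold W
  rw [pow_succ]
  ring

theorem mul_eq_W (w : List Bool) : mul S.toSys w = W S (w.count false) (w.count true) := by
  induction w with
  | nil => simp [mul, W]
  | cons c v ih =>
    rw [mul, ih]
    cases c
    · simp only [letr, List.count_cons_self, Bool.false_eq_true, if_false]
      rw [List.count_cons_of_ne (by simp), W_succ_left]
      ring
    · simp only [letr, List.count_cons_self, if_true]
      rw [List.count_cons_of_ne (by simp), W_succ_right]
      ring

theorem W_mul_mem (i j : ℕ) {z : E} (hz : z ∈ S.Lam) : W S i j * z ∈ S.Lam := by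
  have h := mul_mul_mem S.toSys (List.replicate i false ++ List.replicate j true) hz
  rw [mul_eq_W] at h
  simpa [List.count_append, List.count_replicate] using h

theorem ap : 0 < S.a.1 := a1_pos S.toSys

theorem bp : 0 < S.b.1 := b1_pos S.toSys

theorem W1 (i j : ℕ) : |(W S i j).1| = S.a.1 ^ i * S.b.1 ^ j := by
  have h : (W S i j).1 = S.a.1 ^ i * (-S.b.1) ^ j := rfl
  rw [h, abs_mul, abs_pow, abs_pow, abs_neg, abs_of_pos (ap S), abs_of_pos (bp S)]

theorem W2 (i j : ℕ) : ‖(W S i j).2.1‖ = ‖S.a.2.1‖ ^ i * ‖S.b.2.1‖ ^ j := by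
  have h : (W S i j).2.1 = S.a.2.1 ^ i * (-S.b.2.1) ^ j := rfl
  rw [h, norm_mul, norm_pow, norm_pow, norm_neg]

theorem W3 (i j : ℕ) : ‖(W S i j).2.2‖ = ‖S.a.2.2‖ ^ i * ‖S.b.2.2‖ ^ j := by
  have h : (W S i j).2.2 = S.a.2.2 ^ i * (-S.b.2.2) ^ j := rfl
  rw [h, norm_mul, norm_pow, norm_pow, norm_neg]

theorem W1_pos (i j : ℕ) : 0 < |(W S i j).1| := by
  rw [W1]
  exact mul_pos (pow_pos (ap S) _) (pow_pos (bp S) _)

theorem W2_pos (i j : ℕ) : 0 < ‖(W S i j).2.1‖ := by
  rw [W2]
  exact mul_pos (pow_pos (a2_pos S.toSys) _) (pow_pos (b2_pos S.toSys) _)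

theorem W3_pos (i j : ℕ) : 0 < ‖(W S i j).2.2‖ := by
  rw [W3]
  exact mul_pos (pow_pos (a3_pos S.toSys) _) (pow_pos (b3_pos S.toSys) _)

theorem W_prod (i j : ℕ) :
    |(W S i j).1| * ‖(W S i j).2.1‖ ^ 2 * ‖(W S i j).2.2‖ ^ 2 = 1 := by
  rw [W1, W2, W3]
  calc _ = (S.a.1 * ‖S.a.2.1‖ ^ 2 * ‖S.a.2.2‖ ^ 2) ^ i *
        (S.b.1 * ‖S.b.2.1‖ ^ 2 * ‖S.b.2.2‖ ^ 2) ^ j := by
        simp only [mul_pow, ← pow_mul]
        ring
    _ = 1 := by rw [S.prod_a, S.prod_b, one_pow, one_pow, one_mul]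

theorem pq : (S.a.1)⁻¹ + (S.b.1)⁻¹ = 1 := S.inv_add

/-- A nonzero lattice element has norm at least `1`. -/
theorem norm_ge' {z : E} (hz : z ∈ S.Lam) (h : z ≠ 0) :
    1 ≤ |z.1| * ‖z.2.1‖ ^ 2 * ‖z.2.2‖ ^ 2 := S.norm_ge z hz h

theorem b_eq1 : S.b.1 * (S.a.1 - 1) = S.a.1 := congrArg Prod.fst S.b_mul

theorem b_eq2 : S.b.2.1 * (S.a.2.1 - 1) = S.a.2.1 := congrArg (fun z : E => z.2.1) S.b_mul

theorem b_eq3 : S.b.2.2 * (S.a.2.2 - 1) = S.a.2.2 := congrArg (fun z : E => z.2.2) S.b_mul

theorem b1l : (5.226 : ℝ) ≤ S.b.1 := by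
  have h := b_eq1 S
  have h1 := S.a1l
  have h2 := S.a1u
  have h3 := bp S
  by_contra hc
  push Not at hc
  nlinarith

theorem b1u : S.b.1 ≤ 5.2285 := by
  have h := b_eq1 S
  have h1 := S.a1l
  have h2 := S.a1u
  have h3 := bp S
  by_contra hc
  push Not at hc
  nlinarith

theorem b2_mul : ‖S.b.2.1‖ ^ 2 * ‖S.a.2.1 - 1‖ ^ 2 = ‖S.a.2.1‖ ^ 2 := by
  rw [← mul_pow, ← norm_mul, b_eq2]

theorem b3_mul : ‖S.b.2.2‖ ^ 2 * ‖S.a.2.2 - 1‖ ^ 2 = ‖S.a.2.2‖ ^ 2 := by
  rw [← mul_pow, ← norm_mul, b_eq3]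

theorem b2l : 0.2742 ≤ ‖S.b.2.1‖ ^ 2 := by
  have := b2_mul S
  have := S.a2l
  have := S.c2u
  nlinarith [sq_nonneg ‖S.b.2.1‖]

theorem b2u : ‖S.b.2.1‖ ^ 2 ≤ 0.2745 := by
  have := b2_mul S
  have := S.a2u
  have := S.c2l
  nlinarith [sq_nonneg ‖S.b.2.1‖]

theorem b3l : 0.6966 ≤ ‖S.b.2.2‖ ^ 2 := by
  have := b3_mul S
  have := S.a3l
  have := S.c3u
  nlinarith [sq_nonneg ‖S.b.2.2‖]

theorem b3u : ‖S.b.2.2‖ ^ 2 ≤ 0.6977 := by
  have := b3_mul S
  have := S.a3u
  have := S.c3l
  nlinarith [sq_nonneg ‖S.b.2.2‖]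

theorem pl : (0.8086 : ℝ) ≤ (S.a.1)⁻¹ := by
  rw [le_inv_comm₀ (by norm_num) (ap S)]
  exact S.a1u.trans (by norm_num)

theorem pu : (S.a.1)⁻¹ ≤ 0.8088 := by
  rw [inv_le_comm₀ (ap S) (by norm_num)]
  exact le_trans (by norm_num) S.a1l

theorem ql : (0.1912 : ℝ) ≤ (S.b.1)⁻¹ := by
  have := pq S
  have := pu S
  linarith

theorem qu : (S.b.1)⁻¹ ≤ 0.1914 := by
  have := pq S
  have := pl S
  linarith

theorem a_ne : S.a * S.a⁻¹ = 1 := by
  refine Prod.ext ?_ (Prod.ext ?_ ?_)
  · exact mul_inv_cancel₀ (ap S).ne'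
  · exact mul_inv_cancel₀ (norm_pos_iff.1 (a2_pos S.toSys))
  · exact mul_inv_cancel₀ (norm_pos_iff.1 (a3_pos S.toSys))

theorem b_ne : S.b * S.b⁻¹ = 1 := by
  refine Prod.ext ?_ (Prod.ext ?_ ?_)
  · exact mul_inv_cancel₀ (bp S).ne'
  · exact mul_inv_cancel₀ (norm_pos_iff.1 (b2_pos S.toSys))
  · exact mul_inv_cancel₀ (norm_pos_iff.1 (b3_pos S.toSys))

theorem a_inv : S.a⁻¹ = S.a ^ 4 - S.a ^ 2 := by
  have h : S.a * (S.a ^ 4 - S.a ^ 2) = 1 := by linear_combination S.a5
  calc S.a⁻¹ = S.a⁻¹ * (S.a * (S.a ^ 4 - S.a ^ 2)) := by rw [h, mul_one]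
    _ = (S.a * S.a⁻¹) * (S.a ^ 4 - S.a ^ 2) := by ring
    _ = _ := by rw [a_ne, one_mul]

theorem b_inv : S.b⁻¹ = 1 - S.a⁻¹ := by
  calc S.b⁻¹ = S.b⁻¹ * (S.a * S.a⁻¹) := by rw [a_ne, mul_one]
    _ = S.b⁻¹ * ((S.b * (S.a - 1)) * S.a⁻¹) := by rw [S.b_mul]
    _ = (S.b * S.b⁻¹) * (S.a * S.a⁻¹ - S.a⁻¹) := by ring
    _ = _ := by rw [a_ne, b_ne, one_mul]

theorem ainv_mem {z : E} (hz : z ∈ S.Lam) : S.a⁻¹ * z ∈ S.Lam := by
  have h2 : S.a ^ 2 * z ∈ S.Lam := by
    have := S.a_mul_mem _ (S.a_mul_mem _ hz)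
    rwa [← mul_assoc, ← sq] at this
  have h4 : S.a ^ 4 * z ∈ S.Lam := by
    have := S.a_mul_mem _ (S.a_mul_mem _ h2)
    have e : S.a * (S.a * (S.a ^ 2 * z)) = S.a ^ 4 * z := by ring
    rwa [e] at this
  rw [a_inv, sub_mul]
  exact S.Lam.sub_mem h4 h2

theorem binv_mem {z : E} (hz : z ∈ S.Lam) : S.b⁻¹ * z ∈ S.Lam := by
  rw [b_inv, sub_mul, one_mul]
  exact S.Lam.sub_mem hz (ainv_mem S hz)

instance instCountableG (N : ℕ) : Countable {z : E // G S.toSys N z} := by
  have h : ({z : E | G S.toSys N z}).Countable := S.cnt.mono fun z hz => hz.1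
  exact h.to_subtype

end W

section words

theorem mem_AD {n : ℕ} {p : ℕ × ℕ} : p ∈ AD n ↔ p.1 + p.2 = n :=
  Finset.HasAntidiagonal.mem_antidiagonal

theorem mem_words {n : ℕ} {w : List Bool} : w ∈ words n ↔ w.length = n := by
  induction n generalizing w with
  | zero => simp [words]
  | succ n ih =>
    simp only [words, mem_union, mem_image]
    constructor
    · rintro (⟨v, hv, rfl⟩ | ⟨v, hv, rfl⟩) <;> simp [ih.1 hv]
    · intro h
      rcases w with _ | ⟨c, v⟩
      · simp at h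
      · have hv : v ∈ words n := ih.2 (by simpa using h)
        cases c
        · exact Or.inl ⟨v, hv, rfl⟩
        · exact Or.inr ⟨v, hv, rfl⟩

theorem mem_cls {a b : ℕ} {w : List Bool} : w ∈ cls a b ↔ w.count false = a ∧ w.count true = b := by
  have h := count_add w
  simp only [cls, mem_filter, mem_words]
  constructor
  · rintro ⟨h1, h2⟩
    exact ⟨by omega, h2⟩
  · rintro ⟨h1, h2⟩
    exact ⟨by omega, h2⟩

theorem mul_cls (S : Sys2) {a b : ℕ} {w : List Bool} (h : w ∈ cls a b) :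
    mul S.toSys w = W S a b := by
  rw [mul_eq_W, (mem_cls.1 h).1, (mem_cls.1 h).2]

variable {M : Type*} [AddCommMonoid M]

theorem sum_words_succ (n : ℕ) (f : List Bool → M) :
    ∑ w ∈ words (n + 1), f w = ∑ w ∈ words n, f (false :: w) + ∑ w ∈ words n, f (true :: w) := by
  rw [words, Finset.sum_union]
  · rw [Finset.sum_image (fun x _ y _ h => (List.cons.inj h).2),
      Finset.sum_image (fun x _ y _ h => (List.cons.inj h).2)]
  · rw [Finset.disjoint_left]
    rintro w h1 h2
    obtain ⟨v, -, rfl⟩ := mem_image.1 h1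
    obtain ⟨v', -, h⟩ := mem_image.1 h2
    simp at h

theorem sum_words_eq (n : ℕ) (f : List Bool → M) :
    ∑ w ∈ words n, f w = ∑ p ∈ AD n, ∑ w ∈ cls p.1 p.2, f w := by
  rw [← Finset.sum_fiberwise_of_maps_to (s := words n) (t := AD n)
    (g := fun w => (w.count false, w.count true)) (f := f)]
  · refine Finset.sum_congr rfl fun p hp => Finset.sum_congr ?_ fun _ _ => rfl
    ext w
    rw [mem_filter, mem_cls, mem_words, Prod.ext_iff]
    have := count_add w
    rw [mem_AD] at hp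
    constructor
    · rintro ⟨-, h⟩
      exact h
    · rintro ⟨h1, h2⟩
      exact ⟨by omega, h1, h2⟩
  · intro w hw
    rw [mem_words] at hw
    rw [mem_AD, count_add, hw]

theorem sum_cls_head (a b : ℕ) (hab : 1 ≤ a + b) (f : List Bool → M) :
    ∑ w ∈ cls a b, f w = (if 1 ≤ a then ∑ w ∈ cls (a - 1) b, f (false :: w) else 0) +
      (if 1 ≤ b then ∑ w ∈ cls a (b - 1), f (true :: w) else 0) := by
  classical
  have key : cls a b = (if 1 ≤ a then (cls (a - 1) b).image (List.cons false) else ∅) ∪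
      (if 1 ≤ b then (cls a (b - 1)).image (List.cons true) else ∅) := by
    ext w
    rw [mem_union, mem_cls]
    constructor
    · rintro ⟨h1, h2⟩
      rcases w with _ | ⟨c, v⟩
      · simp at h1 h2
        omega
      · cases c
        · left
          rw [List.count_cons_self] at h1
          rw [List.count_cons_of_ne (by simp)] at h2
          rw [if_pos (by omega), mem_image]
          exact ⟨v, mem_cls.2 ⟨by omega, h2⟩, rfl⟩
        · right
          rw [List.count_cons_self] at h2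
          rw [List.count_cons_of_ne (by simp)] at h1
          rw [if_pos (by omega), mem_image]
          exact ⟨v, mem_cls.2 ⟨h1, by omega⟩, rfl⟩
    · rintro (h | h)
      · by_cases ha : 1 ≤ a
        · rw [if_pos ha, mem_image] at h
          obtain ⟨v, hv, rfl⟩ := h
          obtain ⟨h1, h2⟩ := mem_cls.1 hv
          rw [List.count_cons_self, List.count_cons_of_ne (by simp)]
          exact ⟨by omega, h2⟩
        · rw [if_neg ha] at h
          simp at h
      · by_cases hb : 1 ≤ b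
        · rw [if_pos hb, mem_image] at h
          obtain ⟨v, hv, rfl⟩ := h
          obtain ⟨h1, h2⟩ := mem_cls.1 hv
          rw [List.count_cons_self, List.count_cons_of_ne (by simp)]
          exact ⟨h1, by omega⟩
        · rw [if_neg hb] at h
          simp at h
  rw [key, Finset.sum_union]
  · congr 1
    · split_ifs
      · rw [Finset.sum_image (fun x _ y _ h => (List.cons.inj h).2)]
      · simp
    · split_ifs
      · rw [Finset.sum_image (fun x _ y _ h => (List.cons.inj h).2)]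
      · simp
  · rw [Finset.disjoint_left]
    rintro w h1 h2
    split_ifs at h1 h2
    · obtain ⟨v, -, rfl⟩ := mem_image.1 h1
      obtain ⟨v', -, h⟩ := mem_image.1 h2
      simp at h
    all_goals simp at h1 h2

/-- Splitting off the last `l` letters. -/
theorem sum_cls_split (a b l : ℕ) (hl : l ≤ a + b) (f : List Bool → M) :
    ∑ w ∈ cls a b, f w = ∑ p ∈ AD l, if p.1 ≤ a ∧ p.2 ≤ b then
      ∑ v ∈ cls (a - p.1) (b - p.2), ∑ w ∈ cls p.1 p.2, f (v ++ w) else 0 := by
  classical
  rw [← Finset.sum_filter]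
  rw [Finset.sum_congr rfl (g := fun p : ℕ × ℕ => ∑ x ∈ cls (a - p.1) (b - p.2) ×ˢ cls p.1 p.2,
    f (x.1 ++ x.2)) (fun p _ => (Finset.sum_product _ _ _).symm)]
  rw [Finset.sum_sigma']
  symm
  refine Finset.sum_bij' (fun (x : (_ : ℕ × ℕ) × (List Bool × List Bool)) _ => x.2.1 ++ x.2.2)
    (fun w _ => ⟨((w.drop (w.length - l)).count false, (w.drop (w.length - l)).count true),
      (w.take (w.length - l), w.drop (w.length - l))⟩) ?_ ?_ ?_ ?_ ?_
  · rintro ⟨p, v, w⟩ hx
    rw [Finset.mem_sigma, mem_filter, mem_AD, mem_product, mem_cls, mem_cls] at hx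
    obtain ⟨⟨h1, h2, h3⟩, ⟨h4, h5⟩, h6, h7⟩ := hx
    rw [mem_cls, List.count_append, List.count_append]
    dsimp only at *
    omega
  · intro w hw
    rw [mem_cls] at hw
    have hlen := count_add w
    have hlen2 := count_add (w.drop (w.length - l))
    have hlen3 : (w.drop (w.length - l)).length = l := by
      rw [List.length_drop]; omega
    have e1 : (w.take (w.length - l)).count false + (w.drop (w.length - l)).count false =
        w.count false := by rw [← List.count_append, List.take_append_drop]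
    have e2 : (w.take (w.length - l)).count true + (w.drop (w.length - l)).count true =
        w.count true := by rw [← List.count_append, List.take_append_drop]
    rw [Finset.mem_sigma, mem_filter, mem_AD, mem_product, mem_cls, mem_cls]
    dsimp only
    omega
  · rintro ⟨p, v, w⟩ hx
    rw [Finset.mem_sigma, mem_filter, mem_AD, mem_product, mem_cls, mem_cls] at hx
    obtain ⟨⟨h1, h2, h3⟩, ⟨h4, h5⟩, h6, h7⟩ := hx
    dsimp only at h1 h2 h3 h4 h5 h6 h7
    have hw : w.length = l := by rw [← count_add w]; omega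
    have hv : (v ++ w).length - l = v.length := by rw [List.length_append]; omega
    dsimp only
    have e1 : (v ++ w).drop ((v ++ w).length - l) = w := by rw [hv, List.drop_left]
    have e2 : (v ++ w).take ((v ++ w).length - l) = v := by rw [hv, List.take_left]
    rw [e1, e2, h6, h7]
  · intro w _
    exact List.take_append_drop _ _
  · rintro ⟨p, v, w⟩ _
    rfl

theorem cls_zero : cls 0 0 = {[]} := by
  ext w
  rw [mem_cls, mem_singleton]
  constructor
  · rintro ⟨h1, h2⟩
    have := count_add w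
    exact List.length_eq_zero_iff.1 (by omega)
  · rintro rfl
    simp

theorem card_cls (a b : ℕ) : (cls a b).card = (a + b).choose b := by
  obtain ⟨n, hn⟩ : ∃ n, n = a + b := ⟨_, rfl⟩
  induction n generalizing a b with
  | zero =>
    have h1 : a = 0 := by omega
    have h2 : b = 0 := by omega
    subst h1 h2
    rw [cls_zero]
    simp
  | succ n ih =>
    have h := sum_cls_head a b (by omega) (fun _ => (1 : ℕ))
    rw [Finset.sum_const, smul_eq_mul, mul_one] at h
    rw [h]
    rcases a with _ | a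
    · rcases b with _ | b
      · omega
      · simp only [Finset.sum_const, smul_eq_mul, mul_one]
        rw [if_neg (by omega), if_pos (by omega), Nat.add_sub_cancel, ih 0 b (by omega)]
        simp
    · rcases b with _ | b
      · simp only [Finset.sum_const, smul_eq_mul, mul_one]
        rw [if_pos (by omega), if_neg (by omega), Nat.add_sub_cancel, ih a 0 (by omega)]
        simp
      · simp only [Finset.sum_const, smul_eq_mul, mul_one]
        rw [if_pos (by omega), if_pos (by omega), Nat.add_sub_cancel, Nat.add_sub_cancel,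
          ih a (b + 1) (by omega), ih (a + 1) b (by omega)]
        have e1 : a + 1 + (b + 1) = (a + b + 1) + 1 := by ring
        have e2 : a + (b + 1) = a + b + 1 := by ring
        have e3 : a + 1 + b = a + b + 1 := by ring
        rw [e1, e2, e3, Nat.choose_succ_succ' (a + b + 1) b, add_comm]

end words

section ec

theorem norm_ec (x : ℝ) : ‖ec x‖ = 1 := Complex.norm_exp_ofReal_mul_I _

theorem ec_zero : ec 0 = 1 := by simp [ec]

theorem ec_add (x y : ℝ) : ec (x + y) = ec x * ec y := by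
  unfold ec
  rw [← Complex.exp_add]
  congr 1
  push_cast
  ring

theorem conj_ec (x : ℝ) : (starRingEnd ℂ) (ec x) = ec (-x) := by
  unfold ec
  rw [← Complex.exp_conj]
  congr 1
  rw [map_mul, Complex.conj_ofReal, Complex.conj_I]
  push_cast
  ring

theorem off_append (S : Sys) (N : ℕ) (v w : List Bool) :
    off S N (v ++ w) = off S N w + mul S w * off S N v := by
  induction v with
  | nil => simp [off]
  | cons c v ih =>
    rw [List.cons_append, off, off, ih, mul_append]
    ring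

theorem off_eq (S : Sys) (N : ℕ) (w : List Bool) : off S N w = (N : E) * off S 1 w := by
  induction w with
  | nil => simp [off]
  | cons c w ih =>
    rw [off, off, ih]
    unfold loff
    cases c
    · simp
    · simp
      ring

theorem chi_N (S : Sys2) (N : ℕ) (ξ : ℂ) (a b : ℕ) : chi S N ξ a b = chi S 1 (N * ξ) a b := by
  unfold chi
  refine Finset.sum_congr rfl fun w _ => ?_
  congr 2
  rw [off_eq S.toSys N w]
  show ξ * ((N : ℂ) * (off S.toSys 1 w).2.2) = _
  ring

theorem V_N (S : Sys2) (N : ℕ) (ξ : ℂ) (a b : ℕ) : V S N ξ a b = V S 1 (N * ξ) a b := by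
  unfold V
  rw [chi_N]

theorem V_nonneg (S : Sys2) (N : ℕ) (ξ : ℂ) (a b : ℕ) : 0 ≤ V S N ξ a b := by
  unfold V
  have := ap S
  have := bp S
  positivity

/-- `chi` for a composed word: the last `l` letters first. -/
theorem chi_split (S : Sys2) (N : ℕ) (ξ : ℂ) (a b l : ℕ) (hl : l ≤ a + b) :
    chi S N ξ a b = ∑ p ∈ AD l, if p.1 ≤ a ∧ p.2 ≤ b then
      chi S N ξ p.1 p.2 * chi S N (ξ * (W S p.1 p.2).2.2) (a - p.1) (b - p.2) else 0 := by
  unfold chi
  rw [sum_cls_split a b l hl]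
  refine Finset.sum_congr rfl fun p _ => ?_
  split_ifs
  · rw [Finset.sum_comm, Finset.sum_mul_sum]
    refine Finset.sum_congr rfl fun w hw => Finset.sum_congr rfl fun v _ => ?_
    rw [off_append, mul_cls S hw, ← ec_add]
    congr 1
    show (ξ * ((off S.toSys N w).2.2 + (W S p.1 p.2).2.2 * (off S.toSys N v).2.2)).re = _
    rw [← Complex.add_re]
    congr 1
    ring
  · rfl

end ec

end Pool.Agent.H49.AB
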