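import Pool.Agent.H49.AB.VFacts

/-!
# JOB AB-04. One block of six letters with a gain

`V_conv` with `l = 6`: `AD 6` is the set of the `(6 - t, t)`, `t ≤ 6`. For `t ≠ 1` use `V_le_bin` for the first factor, and the bound `B` for
the second one. For `t = 1`, `V S 1 ξ 5 1 = ‖∑_{j=0}^{5} ec(θ_j)‖ / (a1⁵ b1)` with `θ_j = Re (ξ a3^j b3)`: the words of `cls 5 1` are
`replicate (5-j) false ++ true :: replicate j false`, with offset `a^j b` (`N = 1`) (one can decide `cls 5 1` explicitly, `decide`/`rfl`, or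
use `sum_cls_head` repeatedly). By `b (a - 1) = a`, `θ_(j+1) - θ_j = Re (ξ a3^(j+1))`, `j ≤ 4`. White: for one `j ≤ 4` this number `x` has
distance `> 1/800` from the integers, so `‖ec θ_j + ec θ_(j+1)‖ = 2 |cos (π x)| ≤ 2 cos (π/800)`; hence
`V S 1 ξ 5 1 ≤ (4 + 2 cos (π/800)) p⁵ q`. Sum: `∑_t bin p q (6-t) t = 1` (`sum_bin` with `x = y = 1`), so
`V ≤ (1 - 2 p⁵ q (1 - cos (π/800))) B`. Numerically `2 p⁵ q (1 - cos(π/800)) ≥ 1.01e-6` (`pl`, `ql`; `1 - cos x ≥ x²/2 - x⁴/24` or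
`Real.cos_le_one_sub_mul_cos_sq`/`Real.one_sub_sq_div_two_le_cos`-type bounds: `cos x ≤ 1 - x²/2 + x⁴/24`,
mathlib `Real.cos_le_...`; also `1 - cos x = 2 sin²(x/2)` and `sin y ≥ y - y³/4`, `Real.sin_gt_sub_cube`).
-/

set_option autoImplicit false

namespace Pool.Agent.H49.AB

open Pool.Agent.H67.Tent Finset

private theorem block_off (S : Sys2) (N : ℕ) :
    ∀ w : List Bool, w.count true = 0 → off S.toSys N w = 0
  | [], _ => rfl
  | c :: w, h => by
    cases c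
    · rw [List.count_cons_of_ne (by simp)] at h
      rw [off, block_off S N w h, loff]
      simp
    · rw [List.count_cons_self] at h
      omega

private theorem block_last (S : Sys2) (ξ : ℂ) (n : ℕ) :
    ∑ w ∈ cls n 0, ec (ξ * (off S.toSys 1 (true :: w)).2.2).re =
      ec (ξ * (S.a.2.2 ^ n * S.b.2.2)).re := by
  have h1 : ∀ w ∈ cls n 0, ec (ξ * (off S.toSys 1 (true :: w)).2.2).re =
      ec (ξ * (S.a.2.2 ^ n * S.b.2.2)).re := by
    intro w hw
    rw [off, block_off S 1 w (mem_cls.1 hw).2, mul_cls S hw]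
    congr 3
    have e : (0 : E) + W S n 0 * loff S.toSys 1 true = S.a ^ n * S.b := by
      unfold W loff
      simp
    rw [e]
    rfl
  rw [Finset.sum_congr rfl h1, Finset.sum_const, card_cls, Nat.choose_zero_right, one_smul]

private theorem block_chi (S : Sys2) (ξ : ℂ) (n : ℕ) :
    chi S 1 ξ n 1 = ∑ j ∈ range (n + 1), ec (ξ * (S.a.2.2 ^ j * S.b.2.2)).re := by
  induction n with
  | zero =>
    unfold chi
    rw [sum_cls_head 0 1 (by norm_num), if_neg (by norm_num), if_pos le_rfl, zero_add,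
      Nat.sub_self, block_last, Finset.sum_range_one]
  | succ n ih =>
    unfold chi
    rw [sum_cls_head (n + 1) 1 (by omega), if_pos (by omega), if_pos le_rfl, Nat.sub_self,
      Nat.add_sub_cancel, block_last, Finset.sum_range_succ, ← ih]
    congr 1
    unfold chi
    refine Finset.sum_congr rfl fun w _ => ?_
    congr 4
    rw [off, loff]
    simp

private theorem block_norm (f : ℕ → ℂ) (hf : ∀ i, ‖f i‖ = 1) (j : ℕ) (hj : j < 5) :
    ‖∑ i ∈ range 6, f i‖ ≤ 4 + ‖f j + f (j + 1)‖ := by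
  have h1 : j ∈ range 6 := mem_range.2 (by omega)
  have h2 : j + 1 ∈ (range 6).erase j := mem_erase.2 ⟨by omega, mem_range.2 (by omega)⟩
  rw [← Finset.add_sum_erase _ _ h1, ← Finset.add_sum_erase _ _ h2, ← add_assoc]
  have h3 : ‖∑ i ∈ ((range 6).erase j).erase (j + 1), f i‖ ≤ 4 := by
    refine (norm_sum_le _ _).trans ?_
    rw [Finset.sum_congr rfl (fun i _ => hf i), Finset.sum_const, Finset.card_erase_of_mem h2,
      Finset.card_erase_of_mem h1, Finset.card_range]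
    norm_num
  calc _ ≤ ‖f j + f (j + 1)‖ + ‖∑ i ∈ ((range 6).erase j).erase (j + 1), f i‖ := norm_add_le _ _
    _ ≤ ‖f j + f (j + 1)‖ + 4 := by gcongr
    _ = _ := add_comm _ _

private theorem block_cos (x : ℝ) (hx : 1 / 800 < |x - round x|) :
    Real.cos (2 * Real.pi * x) ≤ 1 - 2 * (3.14 / 800 - (3.14 / 800) ^ 3 / 4) ^ 2 := by
  have hpi := Real.pi_gt_d2
  have hpi2 := Real.pi_lt_d2
  have e1 : Real.cos (2 * Real.pi * x) = Real.cos (2 * (Real.pi * |x - round x|)) := by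
    rw [show 2 * (Real.pi * |x - round x|) = |2 * Real.pi * (x - round x)| by
      rw [abs_mul, abs_of_pos (by positivity : (0 : ℝ) < 2 * Real.pi)]; ring, Real.cos_abs,
      show 2 * Real.pi * (x - round x) = 2 * Real.pi * x - (round x : ℤ) * (2 * Real.pi) by ring,
      Real.cos_sub_int_mul_two_pi]
  have h1 : |x - round x| ≤ 1 / 2 := abs_sub_round x
  have h2 : Real.cos (2 * (Real.pi * |x - round x|)) ≤ Real.cos (2 * (3.14 / 800)) := by
    refine Real.cos_le_cos_of_nonneg_of_le_pi (by norm_num) ?_ ?_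
    · nlinarith
    · nlinarith
  have h3 : 3.14 / 800 - (3.14 / 800) ^ 3 / 4 < Real.sin (3.14 / 800) :=
    lt_of_le_of_lt (by norm_num) (Real.sin_gt_sub_cube (by norm_num : (0 : ℝ) < 3.14 / 800))
  have h4 : (0 : ℝ) ≤ 3.14 / 800 - (3.14 / 800) ^ 3 / 4 := by norm_num
  have h5 := pow_le_pow_left₀ h4 h3.le 2
  have h6 : Real.cos (2 * (3.14 / 800)) = 1 - 2 * Real.sin (3.14 / 800) ^ 2 := by
    rw [Real.cos_two_mul, Real.cos_sq']
    ring
  rw [e1]
  refine h2.trans ?_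
  rw [h6]
  linarith

private theorem block_one (x : ℝ) (hx : 1 / 800 < |x - round x|) :
    ‖1 + ec x‖ ≤ 2 - 153 / 10000000 := by
  have h1 : ‖1 + ec x‖ ^ 2 = 2 + 2 * Real.cos (2 * Real.pi * x) := by
    rw [← Complex.normSq_eq_norm_sq, Complex.normSq_apply]
    unfold ec
    rw [Complex.add_re, Complex.add_im, Complex.exp_ofReal_mul_I_re, Complex.exp_ofReal_mul_I_im,
      Complex.one_re, Complex.one_im]
    have := Real.sin_sq_add_cos_sq (2 * Real.pi * x)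
    nlinarith
  have h2 := block_cos x hx
  have h3 : ‖1 + ec x‖ ^ 2 ≤ (2 - 153 / 10000000) ^ 2 := by
    rw [h1]
    refine (add_le_add_right (mul_le_mul_of_nonneg_left h2 (by norm_num)) 2).trans ?_
    norm_num
  exact le_of_sq_le_sq h3 (by norm_num)

private theorem block_V (S : Sys2) (ξ : ℂ) (hw : White S ξ) :
    V S 1 ξ 5 1 ≤ bin (S.a.1)⁻¹ (S.b.1)⁻¹ 5 1 - 1 / 1000000 := by
  obtain ⟨j, hj, hx⟩ := hw
  have h1 : ‖chi S 1 ξ 5 1‖ ≤ 6 - 153 / 10000000 := by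
    rw [block_chi]
    refine (block_norm (fun j => ec (ξ * (S.a.2.2 ^ j * S.b.2.2)).re) (fun i => norm_ec _)
      j hj).trans ?_
    have e : (ξ * (S.a.2.2 ^ (j + 1) * S.b.2.2)).re =
        (ξ * (S.a.2.2 ^ j * S.b.2.2)).re + (ξ * S.a.2.2 ^ (j + 1)).re := by
      rw [← Complex.add_re]
      congr 1
      have h := b_eq3 S
      rw [pow_succ]
      linear_combination (ξ * S.a.2.2 ^ j) * h
    show 4 + ‖ec (ξ * (S.a.2.2 ^ j * S.b.2.2)).re + ec (ξ * (S.a.2.2 ^ (j + 1) * S.b.2.2)).re‖ ≤ _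
    rw [e, ec_add, ← mul_one_add, norm_mul, norm_ec, one_mul]
    have := block_one _ hx
    linarith
  have hp := pl S
  have hq := ql S
  have hp0 : 0 < (S.a.1)⁻¹ := inv_pos.2 (ap S)
  have hq0 : 0 < (S.b.1)⁻¹ := inv_pos.2 (bp S)
  have e2 : V S 1 ξ 5 1 = ‖chi S 1 ξ 5 1‖ * ((S.a.1)⁻¹ ^ 5 * (S.b.1)⁻¹) := by
    unfold V
    rw [div_eq_mul_inv, mul_inv, pow_one, inv_pow]
  have e3 : bin (S.a.1)⁻¹ (S.b.1)⁻¹ 5 1 = 6 * ((S.a.1)⁻¹ ^ 5 * (S.b.1)⁻¹) := by
    unfold bin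
    norm_num
    ring
  have h5 : (0.8086 : ℝ) ^ 5 ≤ (S.a.1)⁻¹ ^ 5 := pow_le_pow_left₀ (by norm_num) hp 5
  have h6 : (0.8086 : ℝ) ^ 5 * 0.1912 ≤ (S.a.1)⁻¹ ^ 5 * (S.b.1)⁻¹ :=
    mul_le_mul h5 hq (by norm_num) (by positivity)
  have h7 : ‖chi S 1 ξ 5 1‖ * ((S.a.1)⁻¹ ^ 5 * (S.b.1)⁻¹) ≤
      (6 - 153 / 10000000) * ((S.a.1)⁻¹ ^ 5 * (S.b.1)⁻¹) :=
    mul_le_mul_of_nonneg_right h1 (by positivity)
  have h8 : (1 : ℝ) / 1000000 ≤ 153 / 10000000 * ((0.8086 : ℝ) ^ 5 * 0.1912) := by norm_num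
  rw [e2, e3]
  linarith

theorem V_block (S : Sys2) (ξ : ℂ) (a b : ℕ) (hab : 6 ≤ a + b) (hw : White S ξ) {B : ℝ}
    (hB : 0 ≤ B) (hv : ∀ t ≤ 6, 6 - t ≤ a → t ≤ b →
      V S 1 (ξ * (W S (6 - t) t).2.2) (a - (6 - t)) (b - t) ≤ B) :
    V S 1 ξ a b ≤ (1 - 1 / 1000000) * B := by
  have key : ∀ u : ℕ × ℕ, V S 1 ξ u.1 u.2 ≤ bin (S.a.1)⁻¹ (S.b.1)⁻¹ u.1 u.2 -
      (if u = (5, 1) then 1 / 1000000 else 0) := by
    rintro ⟨i, j⟩
    split_ifs with h
    · obtain ⟨rfl, rfl⟩ := Prod.mk.inj h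
      exact block_V S ξ hw
    · rw [sub_zero]
      exact V_le_bin S 1 ξ i j
  have hsum : ∑ u ∈ AD 6, bin (S.a.1)⁻¹ (S.b.1)⁻¹ u.1 u.2 = 1 := by
    have h := sum_bin (S.a.1)⁻¹ (S.b.1)⁻¹ 1 1 6
    simp only [one_pow, mul_one] at h
    rw [h, pq S, one_pow]
  have hmem : ((5, 1) : ℕ × ℕ) ∈ AD 6 := mem_AD.2 rfl
  calc V S 1 ξ a b ≤ ∑ p ∈ AD 6, if p.1 ≤ a ∧ p.2 ≤ b then
        V S 1 ξ p.1 p.2 * V S 1 (ξ * (W S p.1 p.2).2.2) (a - p.1) (b - p.2) else 0 :=
        V_conv S 1 ξ a b 6 hab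
    _ ≤ ∑ u ∈ AD 6, (bin (S.a.1)⁻¹ (S.b.1)⁻¹ u.1 u.2 -
        (if u = (5, 1) then 1 / 1000000 else 0)) * B := by
        refine Finset.sum_le_sum fun u hu => ?_
        rw [mem_AD] at hu
        have h0 := V_nonneg S 1 ξ u.1 u.2
        split_ifs with h1 h2 h2
        · have h3 := hv u.2 (by omega) (by omega) h1.2
          rw [show 6 - u.2 = u.1 by omega] at h3
          have h4 := key u
          rw [if_pos h2] at h4
          exact mul_le_mul h4 h3 (V_nonneg _ _ _ _ _) (h0.trans h4)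
        · have h3 := hv u.2 (by omega) (by omega) h1.2
          rw [show 6 - u.2 = u.1 by omega] at h3
          have h4 := key u
          rw [if_neg h2] at h4
          exact mul_le_mul h4 h3 (V_nonneg _ _ _ _ _) (h0.trans h4)
        · have h4 := key u
          rw [if_pos h2] at h4
          exact mul_nonneg (h0.trans h4) hB
        · have h4 := key u
          rw [if_neg h2] at h4
          exact mul_nonneg (h0.trans h4) hB
    _ = (1 - 1 / 1000000) * B := by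
        rw [← Finset.sum_mul, Finset.sum_sub_distrib, hsum, Finset.sum_ite_eq' (AD 6) (5, 1),
          if_pos hmem]

end Pool.Agent.H49.AB
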