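import Pool.Agent.H49.AB.GW

/-!
# JOB AB-30. The transfer operator

`gb_G`: `ainv_mem`, `binv_mem`, `N_mem`, first coordinates. `T_gb`: `c = false`: `y.1/α ≤ N/α`, first branch. `c = true`: the first coordinate
`N - y.1/β` is `≤ N/α` only if `y.1 ≥ N` (as `1/α + 1/β = 1`), then `y.1 = N`, `y - N ∈ Lam` has first coordinate `0`, so `y = N` (norm `≥ 1`), and both
branches agree (`N - b⁻¹ N = a⁻¹ N`, `b_inv`). `gb_inj`: apply `T`: `y = y'`; if the letters differ, `a⁻¹ y = N - b⁻¹ y` gives `y = N`.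
`gb_dig`: `z = gb (dig z) (T z)`.

`fwd1`: the map `z ↦ (T z, dig z)` is injective by `gb_dig`; `∑' z, u (T z) φ z = ∑' z, F (T z, dig z)` with `F (y, c) = u y * φ (gb c y)`; sum over the pairs
`(y, c)` (`ENNReal.tsum_comp_le_tsum_of_injective`, `ENNReal.tsum_prod`, sum over `Bool`). `rev1`: the map `(y, c) ↦ gb c y` is injective on `y ≠ N`, and
`u N = 0`. `fwd`, `rev`: induction on `n` with general `φ`, `u`: `T^[n+1] z = T^[n] (T z)`; apply the one-step version to `u ∘ T^[n]` and `φ`, and the induction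
hypothesis to `u` and `φ' y = φ (gb false y) + φ (gb true y)`; `words (n+1)`, `gw (c :: w) y = gb c (gw w y)` (`sum_words_succ`). For `rev` one
needs `(u ∘ T^[n]) N = 0`: `T N = 0`, `T 0 = 0`.

`words_append`: all words of length `m + n`.
-/

set_option autoImplicit false

namespace Pool.Agent.H49.AB

open Pool.Agent.H67.Tent Finset

theorem Reidx_false (S : Sys2) (N : ℕ) (y : E) : gb S N false y = S.a⁻¹ * y := rfl

theorem Reidx_true (S : Sys2) (N : ℕ) (y : E) : gb S N true y = (N : E) - S.b⁻¹ * y := rfl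

theorem Reidx_f1 (S : Sys2) (N : ℕ) (y : E) : (gb S N false y).1 = (S.a.1)⁻¹ * y.1 := rfl

theorem Reidx_t1 (S : Sys2) (N : ℕ) (y : E) :
    (gb S N true y).1 = (N : ℝ) - (S.b.1)⁻¹ * y.1 := rfl

theorem gb_G (S : Sys2) (N : ℕ) (c : Bool) {y : E} (hy : G S.toSys N y) :
    G S.toSys N (gb S N c y) := by
  obtain ⟨h1, h2, h3⟩ := hy
  have ha := inv_pos.2 (ap S)
  have hb := inv_pos.2 (bp S)
  have hN : (0 : ℝ) ≤ N := Nat.cast_nonneg N
  have hpq := pq S
  cases c
  · refine ⟨ainv_mem S h1, ?_, ?_⟩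
    · rw [Reidx_f1]
      exact mul_nonneg ha.le h2
    · rw [Reidx_f1]
      have h4 : (S.a.1)⁻¹ ≤ 1 := by linarith
      nlinarith
  · refine ⟨S.Lam.sub_mem (N_mem S.toSys N) (binv_mem S h1), ?_, ?_⟩
    · rw [Reidx_t1]
      have h4 : (S.b.1)⁻¹ ≤ 1 := by linarith
      nlinarith
    · rw [Reidx_t1]
      have := mul_nonneg hb.le h2
      linarith

/-- A lattice point with first coordinate `N` is `N`. -/
theorem Reidx_eqN (S : Sys2) (N : ℕ) {y : E} (hy : y ∈ S.Lam) (h : y.1 = N) : y = (N : E) := by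
  by_contra hne
  have h1 : y - (N : E) ∈ S.Lam := S.Lam.sub_mem hy (N_mem S.toSys N)
  have h2 := norm_ge' S h1 (sub_ne_zero.2 hne)
  have h3 : (y - (N : E)).1 = 0 := by
    have : (y - (N : E)).1 = y.1 - (N : ℝ) := rfl
    rw [this, h, sub_self]
  rw [h3] at h2
  simp at h2
  linarith

theorem T_gb (S : Sys2) (N : ℕ) (c : Bool) {y : E} (hy : G S.toSys N y) :
    T S.toSys N (gb S N c y) = y := by
  obtain ⟨h1, h2, h3⟩ := hy
  have ha := inv_pos.2 (ap S)
  have hb := inv_pos.2 (bp S)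
  have hpq := pq S
  have hfalse : T S.toSys N (S.a⁻¹ * y) = y := by
    have h4 : (S.a⁻¹ * y).1 ≤ (N : ℝ) / S.a.1 := by
      have : (S.a⁻¹ * y).1 = (S.a.1)⁻¹ * y.1 := rfl
      rw [this, div_eq_inv_mul]
      exact mul_le_mul_of_nonneg_left h3 ha.le
    unfold T
    rw [if_pos h4, ← mul_assoc, a_ne, one_mul]
  cases c
  · exact hfalse
  · by_cases h4 : (gb S N true y).1 ≤ (N : ℝ) / S.a.1
    · have h5 : y.1 = N := by
        rw [Reidx_t1, div_eq_inv_mul] at h4
        have h6 : (S.b.1)⁻¹ * (N : ℝ) ≤ (S.b.1)⁻¹ * y.1 := by nlinarith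
        have h7 : (N : ℝ) ≤ y.1 := le_of_mul_le_mul_left h6 hb
        linarith
      have h6 := Reidx_eqN S N h1 h5
      have h7 : gb S N true y = S.a⁻¹ * y := by
        rw [Reidx_true, h6, b_inv]
        ring
      rw [h7]
      exact hfalse
    · unfold T
      rw [if_neg h4, Reidx_true]
      have h8 : (N : E) - ((N : E) - S.b⁻¹ * y) = S.b⁻¹ * y := by ring
      rw [h8, ← mul_assoc, b_ne, one_mul]

theorem gb_dig (S : Sys2) (N : ℕ) {z : E} (_hz : G S.toSys N z) :
    gb S N (dig S.toSys N z) (T S.toSys N z) = z := by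
  have e1 : S.a⁻¹ * S.a = 1 := by rw [mul_comm, a_ne]
  have e2 : S.b⁻¹ * S.b = 1 := by rw [mul_comm, b_ne]
  by_cases h : z.1 ≤ (N : ℝ) / S.a.1
  · have hd : dig S.toSys N z = false := by
      unfold dig
      simp [h]
    have hT : T S.toSys N z = S.a * z := by
      unfold T
      rw [if_pos h]
    rw [hd, hT, Reidx_false, ← mul_assoc, e1, one_mul]
  · have hd : dig S.toSys N z = true := by
      unfold dig
      simp only [h, decide_false, Bool.not_false]
    have hT : T S.toSys N z = S.b * ((N : E) - z) := by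
      unfold T
      rw [if_neg h]
    rw [hd, hT, Reidx_true, ← mul_assoc, e2, one_mul]
    ring

theorem Reidx_ft (S : Sys2) (N : ℕ) {y : E} (h : gb S N false y = gb S N true y) :
    y = (N : E) := by
  rw [Reidx_false, Reidx_true, b_inv] at h
  linear_combination h

theorem gb_inj (S : Sys2) (N : ℕ) {c c' : Bool} {y y' : E} (hy : G S.toSys N y)
    (hy' : G S.toSys N y') (hN : y ≠ (N : E)) (h : gb S N c y = gb S N c' y') :
    c = c' ∧ y = y' := by
  have h1 := T_gb S N c hy
  have h2 := T_gb S N c' hy'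
  rw [h, h2] at h1
  subst h1
  refine ⟨?_, rfl⟩
  cases c <;> cases c'
  · rfl
  · exact absurd (Reidx_ft S N h) hN
  · exact absurd (Reidx_ft S N h.symm) hN
  · rfl

theorem words_append {M : Type*} [AddCommMonoid M] (m n : ℕ) (f : List Bool → M) :
    ∑ x ∈ words (m + n), f x = ∑ v ∈ words m, ∑ w ∈ words n, f (v ++ w) := by
  induction m generalizing f with
  | zero =>
    rw [Nat.zero_add, words, Finset.sum_singleton]
    rfl
  | succ m ih =>
    rw [show m + 1 + n = (m + n) + 1 by omega, sum_words_succ, sum_words_succ, ih, ih]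
    rfl

theorem Reidx_congr (S : Sys2) (N : ℕ) {f g : E → ENNReal} (h : ∀ z, G S.toSys N z → f z = g z) :
    SG S N f = SG S N g := tsum_congr fun z => h z.1 z.2

theorem Reidx_fwd1 (S : Sys2) (N : ℕ) (u φ : E → ENNReal) :
    SG S N (fun z => u (T S.toSys N z) * φ z) ≤
      SG S N (fun y => u y * (φ (gb S N false y) + φ (gb S N true y))) := by
  let X := {z : E // G S.toSys N z}
  let F : X × Bool → ENNReal := fun p => u p.1 * φ (gb S N p.2 p.1)
  let m : X → X × Bool := fun z => (⟨T S.toSys N z.1, G_T S.toSys N z.2⟩, dig S.toSys N z.1)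
  have hm : Function.Injective m := by
    intro z z' h
    have h1 : T S.toSys N z.1 = T S.toSys N z'.1 := congrArg (fun p : X × Bool => (p.1 : E)) h
    have h2 : dig S.toSys N z.1 = dig S.toSys N z'.1 := congrArg Prod.snd h
    apply Subtype.ext
    rw [← gb_dig S N z.2, ← gb_dig S N z'.2, h1, h2]
  have h1 : SG S N (fun z => u (T S.toSys N z) * φ z) = ∑' z : X, F (m z) := by
    refine tsum_congr fun z => ?_
    show u (T S.toSys N z.1) * φ z.1 =
      u (T S.toSys N z.1) * φ (gb S N (dig S.toSys N z.1) (T S.toSys N z.1))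
    rw [gb_dig S N z.2]
  have h2 : ∑' p : X × Bool, F p =
      SG S N (fun y => u y * (φ (gb S N false y) + φ (gb S N true y))) := by
    rw [ENNReal.tsum_prod']
    refine tsum_congr fun y => ?_
    rw [tsum_bool]
    show u y.1 * φ (gb S N false y.1) + u y.1 * φ (gb S N true y.1) =
      u y.1 * (φ (gb S N false y.1) + φ (gb S N true y.1))
    rw [mul_add]
  rw [h1, ← h2]
  exact ENNReal.tsum_comp_le_tsum_of_injective hm F

theorem Reidx_rev1 (S : Sys2) (N : ℕ) (u φ : E → ENNReal) (hN : u (N : E) = 0) :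
    SG S N (fun y => u y * (φ (gb S N false y) + φ (gb S N true y))) ≤
      SG S N (fun z => u (T S.toSys N z) * φ z) := by
  classical
  let X := {z : E // G S.toSys N z}
  let F : X × Bool → ENNReal := fun p => u p.1 * φ (gb S N p.2 p.1)
  let H : X → ENNReal := fun z => u (T S.toSys N z.1) * φ z.1
  have h2 : ∑' p : X × Bool, F p =
      SG S N (fun y => u y * (φ (gb S N false y) + φ (gb S N true y))) := by
    rw [ENNReal.tsum_prod']
    refine tsum_congr fun y => ?_
    rw [tsum_bool]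
    show u y.1 * φ (gb S N false y.1) + u y.1 * φ (gb S N true y.1) =
      u y.1 * (φ (gb S N false y.1) + φ (gb S N true y.1))
    rw [mul_add]
  let s : Set (X × Bool) := {p | (p.1 : E) ≠ (N : E)}
  have hs : Function.support F ⊆ s := by
    intro p hp hq
    apply hp
    show u p.1 * φ (gb S N p.2 p.1) = 0
    rw [hq, hN, zero_mul]
  let m : s → X := fun p => ⟨gb S N p.1.2 p.1.1, gb_G S N p.1.2 p.1.1.2⟩
  have hm : Function.Injective m := by
    intro p q h
    have h3 : gb S N p.1.2 p.1.1 = gb S N q.1.2 q.1.1 := congrArg Subtype.val h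
    obtain ⟨h4, h5⟩ := gb_inj S N p.1.1.2 q.1.1.2 p.2 h3
    apply Subtype.ext
    exact Prod.ext (Subtype.ext h5) h4
  rw [← h2, ← tsum_subtype_eq_of_support_subset hs]
  have h3 : ∀ p : s, F p = H (m p) := by
    intro p
    show u p.1.1 * φ (gb S N p.1.2 p.1.1) =
      u (T S.toSys N (gb S N p.1.2 p.1.1)) * φ (gb S N p.1.2 p.1.1)
    rw [T_gb S N p.1.2 p.1.1.2]
  rw [tsum_congr h3]
  exact ENNReal.tsum_comp_le_tsum_of_injective hm H

theorem Reidx_step (S : Sys2) (N : ℕ) (φ : E → ENNReal) (n : ℕ) (y : E) :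
    ∑ w ∈ words (n + 1), φ (gw S N w y) =
      ∑ w ∈ words n, (φ (gb S N false (gw S N w y)) + φ (gb S N true (gw S N w y))) := by
  rw [sum_words_succ, Finset.sum_add_distrib]
  rfl

theorem fwd (S : Sys2) (N : ℕ) (u φ : E → ENNReal) (n : ℕ) :
    SG S N (fun z => u ((T S.toSys N)^[n] z) * φ z) ≤
      SG S N (fun y => u y * ∑ w ∈ words n, φ (gw S N w y)) := by
  induction n generalizing φ with
  | zero =>
    refine le_of_eq (Reidx_congr S N fun z _ => ?_)
    rw [words, Finset.sum_singleton]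
    rfl
  | succ n ih =>
    have h1 := Reidx_fwd1 S N (fun z => u ((T S.toSys N)^[n] z)) φ
    have h2 := ih (fun y => φ (gb S N false y) + φ (gb S N true y))
    have h3 : SG S N (fun z => u ((T S.toSys N)^[n + 1] z) * φ z) =
        SG S N (fun z => u ((T S.toSys N)^[n] (T S.toSys N z)) * φ z) :=
      Reidx_congr S N fun z _ => by rw [Function.iterate_succ_apply]
    rw [h3]
    refine h1.trans (h2.trans (le_of_eq (Reidx_congr S N fun y _ => ?_)))
    rw [Reidx_step]

theorem Reidx_TN (S : Sys2) (N : ℕ) (hN : 1 ≤ N) : T S.toSys N (N : E) = 0 := by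
  have h1 : ¬ ((N : E).1 ≤ (N : ℝ) / S.a.1) := by
    have h2 : (N : E).1 = (N : ℝ) := rfl
    rw [h2, not_le, div_lt_iff₀ (ap S)]
    have h3 : (1 : ℝ) ≤ N := by exact_mod_cast hN
    have h4 := S.a1_gt
    nlinarith
  unfold T
  rw [if_neg h1, sub_self, mul_zero]

theorem Reidx_T0 (S : Sys2) (N : ℕ) : T S.toSys N 0 = 0 := by
  have h1 : ((0 : E).1 ≤ (N : ℝ) / S.a.1) := by
    have h2 : (0 : E).1 = (0 : ℝ) := rfl
    rw [h2]
    exact div_nonneg (Nat.cast_nonneg N) (ap S).le
  unfold T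
  rw [if_pos h1, mul_zero]

theorem Reidx_iter0 (S : Sys2) (N n : ℕ) : (T S.toSys N)^[n] 0 = 0 := by
  induction n with
  | zero => rfl
  | succ n ih => rw [Function.iterate_succ_apply, Reidx_T0, ih]

theorem Reidx_uN (S : Sys2) (N : ℕ) (u : E → ENNReal) (h0 : u 0 = 0) (hN : u (N : E) = 0)
    (n : ℕ) : u ((T S.toSys N)^[n] (N : E)) = 0 := by
  rcases n with _ | n
  · exact hN
  · rcases Nat.eq_zero_or_pos N with h | h
    · subst h
      have : ((0 : ℕ) : E) = 0 := Nat.cast_zero
      rw [this, Reidx_iter0, h0]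
    · rw [Function.iterate_succ_apply, Reidx_TN S N h, Reidx_iter0, h0]

theorem rev (S : Sys2) (N : ℕ) (u φ : E → ENNReal) (h0 : u 0 = 0) (hN : u (N : E) = 0) (n : ℕ) :
    SG S N (fun y => u y * ∑ w ∈ words n, φ (gw S N w y)) ≤
      SG S N (fun z => u ((T S.toSys N)^[n] z) * φ z) := by
  induction n generalizing φ with
  | zero =>
    refine le_of_eq (Reidx_congr S N fun z _ => ?_)
    rw [words, Finset.sum_singleton]
    rfl
  | succ n ih =>
    have h1 := Reidx_rev1 S N (fun z => u ((T S.toSys N)^[n] z)) φ (Reidx_uN S N u h0 hN n)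
    have h2 := ih (fun y => φ (gb S N false y) + φ (gb S N true y))
    have h3 : SG S N (fun z => u ((T S.toSys N)^[n + 1] z) * φ z) =
        SG S N (fun z => u ((T S.toSys N)^[n] (T S.toSys N z)) * φ z) :=
      Reidx_congr S N fun z _ => by rw [Function.iterate_succ_apply]
    rw [h3]
    refine le_trans (le_of_eq (Reidx_congr S N fun y _ => ?_)) (h2.trans h1)
    rw [Reidx_step]

end Pool.Agent.H49.AB
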