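import Pool.Agent.H49.AB.CmpDefs
import Pool.Agent.H49.AB.Reidx
import Pool.Agent.H49.AB.Atyp

/-!
# JOB AB-36. One smoothing step (both windows large)

`smooth_word`: `gs_gw`; let `R1 = R ‖W_{ab}‖_2`, `Q1 = Q ‖W_{ab}‖_3`, `Z` the offset, `‖Z2‖ ≤ R1`, `‖Z3‖ ≤ Q1`. `gs R Q (gw w y) - gs R1 Q1 y` is
`(E2' - E2) E3' + E2 (E3' - E3)`, `E2' = exp(-π‖y2 - Z2‖²/R1²)` etc. `gauss_shift`: `|E2' - E2| ≤ C (‖Z2‖/R1) exp(-π‖y2‖²/(2R1)²)`, `E3' ≤ E3 + |E3' - E3| ≤ 2 C exp(-π ‖y3‖²/(2Q1)²)`, and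
the same for the second term.

`smooth_step`: by `fwd` with `n = o` and `sum_words_eq`: `Sm R Q (u ∘ T^[o]) ≤ ∑_{(a,b) ∈ AD o} SG (u y * ofReal (∑_{w ∈ cls a b} gs R Q (gw w y)))`.
* typical: `0.878^o ≤ ‖W_{ab}‖_2`. By `smooth_word` the class contributes at most `card * Sm R1 Q1 u + C card (‖Z2‖/R1 + ‖Z3‖/Q1) (1 + 16 R1² Q1²)`
  (`lat_gauss` with `r2 = 2 R1`, `r3 = 2 Q1`), and `card R1² Q1² = bin R² Q²` (`W_prod`), `R1, Q1 ≥ 1`. Sum over the classes: `B R² Q²` + error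
  (`∑ bin ≤ 1`). Sizes: `Q ≥ exp o`, `R ≥ exp(6 o/7)` (from `Q⁶ ≤ R⁷`), `‖Z2‖ ≤ N o 1.0505^o` (`off2_bound`), `R1 ≥ R 0.878^o`, `‖Z3‖ ≤ 6 N` (`off3_bound`),
  `Q1 ≥ Q 0.8346^o` (`b3l`, `a3l`): `‖Z2‖/R1 ≤ N o exp(-o/2)`, `‖Z3‖/Q1 ≤ 6 N exp(-o/2)`.
  (For `o < o0(N)` the conclusion is trivial: all terms `≤ 1`, `lat_gauss`, `R, Q ≥ 1`; so one may assume `‖Z2‖ ≤ R1`, `‖Z3‖ ≤ Q1`.)
* not typical: `word_sum` (file `SGB`) for each word: the class contributes `≤ C (card + bin R² Q²)`, `card = bin w1 ≤ bin 5.2285^o ≤ bin R² Q²`; `atyp3`.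
-/

set_option autoImplicit false

namespace Pool.Agent.H49.AB

open Pool.Agent.H67.Tent Finset MeasureTheory

theorem Smooth_abs (E2' E2 F2 E3' E3 F3 C t2 t3 : ℝ) (hC : 1 ≤ C) (hF2 : 0 ≤ F2) (hF3 : 0 ≤ F3)
    (hE2 : 0 ≤ E2) (hE3' : 0 ≤ E3') (h2 : |E2' - E2| ≤ C * t2 * F2) (h3 : |E3' - E3| ≤ C * t3 * F3)
    (ht2 : 0 ≤ t2) (ht3 : 0 ≤ t3) (ht3' : t3 ≤ 1)
    (l2 : E2 ≤ F2) (l3 : E3 ≤ F3) :
    E2' * E3' ≤ E2 * E3 + 2 * C ^ 2 * (t2 + t3) * (F2 * F3) := by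
  have a2 := (abs_le.1 h2).2
  have a3 := (abs_le.1 h3).2
  have b3 : E3' ≤ 2 * C * F3 := by
    have : C * t3 * F3 ≤ C * F3 := by
      have := mul_le_mul_of_nonneg_right ht3' (mul_nonneg (by linarith : (0:ℝ) ≤ C) hF3)
      nlinarith
    nlinarith
  have k1 : (E2' - E2) * E3' ≤ (C * t2 * F2) * (2 * C * F3) := by
    refine (mul_le_mul_of_nonneg_right a2 hE3').trans ?_
    exact mul_le_mul_of_nonneg_left b3 (by positivity)
  have k2 : E2 * (E3' - E3) ≤ F2 * (C * t3 * F3) := by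
    refine (mul_le_mul_of_nonneg_left a3 hE2).trans ?_
    exact mul_le_mul_of_nonneg_right l2 (by positivity)
  have k3 : F2 * (C * t3 * F3) ≤ 2 * C ^ 2 * t3 * (F2 * F3) := by
    have h0 : 0 ≤ t3 * (F2 * F3) := by positivity
    have h1 : C ≤ 2 * C ^ 2 := by nlinarith
    nlinarith [mul_le_mul_of_nonneg_right h1 h0]
  nlinarith

theorem smooth_word (S : Sys2) (N : ℕ) : ∃ C : ℝ, 1 ≤ C ∧
    ∀ (a b : ℕ) (R Q : ℝ) (w : List Bool) (y : E), 0 < R → 0 < Q → w ∈ cls a b →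
      ‖(off S.toSys N w).2.1‖ ≤ R * ‖(W S a b).2.1‖ →
      ‖(off S.toSys N w).2.2‖ ≤ Q * ‖(W S a b).2.2‖ →
      gs R Q (gw S N w y) ≤ gs (R * ‖(W S a b).2.1‖) (Q * ‖(W S a b).2.2‖) y +
        C * (‖(off S.toSys N w).2.1‖ / (R * ‖(W S a b).2.1‖) +
          ‖(off S.toSys N w).2.2‖ / (Q * ‖(W S a b).2.2‖)) *
          gs (2 * (R * ‖(W S a b).2.1‖)) (2 * (Q * ‖(W S a b).2.2‖)) y := by
  obtain ⟨C0, hC0, h⟩ := gauss_shift
  refine ⟨2 * C0 ^ 2, by nlinarith, ?_⟩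
  intro a b R Q w y hR hQ hw h2 h3
  have hr : 0 < R * ‖(W S a b).2.1‖ := mul_pos hR (W2_pos S a b)
  have hq : 0 < Q * ‖(W S a b).2.2‖ := mul_pos hQ (W3_pos S a b)
  rw [gs_gw S N R Q hw y]
  generalize (off S.toSys N w).2.1 = c2 at *
  generalize (off S.toSys N w).2.2 = c3 at *
  generalize R * ‖(W S a b).2.1‖ = r at *
  generalize Q * ‖(W S a b).2.2‖ = q at *
  unfold gs
  generalize y.2.1 = x2
  generalize y.2.2 = x3
  have g2 := h x2 c2 r hr h2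
  have g3 := h x3 c3 q hq h3
  have split : ∀ s t : ℝ, Real.exp (-(Real.pi * (s + t))) =
      Real.exp (-(Real.pi * s)) * Real.exp (-(Real.pi * t)) := by
    intro s t
    rw [← Real.exp_add]
    congr 1
    ring
  have mono : ∀ (x : ℂ) (r : ℝ), 0 < r → Real.exp (-(Real.pi * (‖x‖ ^ 2 / r ^ 2))) ≤
      Real.exp (-(Real.pi * (‖x‖ ^ 2 / (2 * r) ^ 2))) := by
    intro x r hr
    apply Real.exp_le_exp.2
    apply neg_le_neg
    apply mul_le_mul_of_nonneg_left _ Real.pi_pos.le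
    apply div_le_div_of_nonneg_left (sq_nonneg _) (by positivity)
    nlinarith
  rw [split, split, split]
  exact Smooth_abs _ _ _ _ _ _ C0 _ _ hC0 (Real.exp_pos _).le (Real.exp_pos _).le
    (Real.exp_pos _).le (Real.exp_pos _).le g2 g3 (by positivity) (by positivity)
    ((div_le_one hq).2 h3) (mono _ _ hr) (mono _ _ hq)

theorem Smooth_W1_le (S : Sys2) (a b : ℕ) : |(W S a b).1| ≤ 5.2285 ^ (a + b) := by
  rw [W1, pow_add]
  exact mul_le_mul (pow_le_pow_left₀ (ap S).le (S.a1u.trans (by norm_num)) _)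
    (pow_le_pow_left₀ (bp S).le (b1u S) _) (pow_nonneg (bp S).le _) (by positivity)

theorem Smooth_W3_ge (S : Sys2) (a b : ℕ) : (0.83 : ℝ) ^ (a + b) ≤ ‖(W S a b).2.2‖ := by
  rw [W3, pow_add]
  have h1 : (0.83 : ℝ) ≤ ‖S.a.2.2‖ := by
    have := S.a3l
    by_contra hc
    push Not at hc
    nlinarith [norm_nonneg S.a.2.2]
  have h2 : (0.83 : ℝ) ≤ ‖S.b.2.2‖ := by
    have := b3l S
    by_contra hc
    push Not at hc
    nlinarith [norm_nonneg S.b.2.2]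
  exact mul_le_mul (pow_le_pow_left₀ (by norm_num) h1 _) (pow_le_pow_left₀ (by norm_num) h2 _)
    (by positivity) (by positivity)

theorem Smooth_Q (o : ℕ) (Q : ℝ) (h : Real.exp o ≤ Q) : (2.7 : ℝ) ^ o ≤ Q := by
  refine le_trans ?_ h
  have h1 : Real.exp o = Real.exp 1 ^ o := by rw [← Real.exp_nat_mul, mul_one]
  rw [h1]
  exact pow_le_pow_left₀ (by norm_num) (by have := Real.exp_one_gt_d9; linarith) _

theorem Smooth_R (o : ℕ) (R Q : ℝ) (hR : 0 < R) (hQ : (2.7 : ℝ) ^ o ≤ Q) (h : Q ^ 6 ≤ R ^ 7) :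
    (2.3 : ℝ) ^ o ≤ R := by
  have h1 : ((2.3 : ℝ) ^ o) ^ 7 ≤ R ^ 7 := by
    refine le_trans ?_ ((pow_le_pow_left₀ (by positivity) hQ 6).trans h)
    rw [← pow_mul, ← pow_mul, mul_comm o 7, mul_comm o 6, pow_mul, pow_mul]
    exact pow_le_pow_left₀ (by norm_num) (by norm_num) _
  exact (pow_le_pow_iff_left₀ (by positivity) hR.le (by norm_num)).1 h1

theorem Smooth_prod (S : Sys2) (a b : ℕ) (R Q : ℝ) :
    (R * ‖(W S a b).2.1‖) ^ 2 * (Q * ‖(W S a b).2.2‖) ^ 2 = R ^ 2 * Q ^ 2 / |(W S a b).1| := by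
  rw [eq_div_iff (W1_pos S a b).ne']
  calc _ = R ^ 2 * Q ^ 2 * (|(W S a b).1| * ‖(W S a b).2.1‖ ^ 2 * ‖(W S a b).2.2‖ ^ 2) := by ring
    _ = _ := by rw [W_prod, mul_one]

theorem Smooth_big (S : Sys2) (a b : ℕ) (R Q : ℝ) (hQ : (2.7 : ℝ) ^ (a + b) ≤ Q)
    (hR : (2.3 : ℝ) ^ (a + b) ≤ R) : 1 ≤ R ^ 2 * Q ^ 2 / |(W S a b).1| := by
  rw [le_div_iff₀ (W1_pos S a b), one_mul]
  calc |(W S a b).1| ≤ 5.2285 ^ (a + b) := Smooth_W1_le S a b
    _ ≤ ((2.3 : ℝ) ^ 2 * 2.7 ^ 2) ^ (a + b) := pow_le_pow_left₀ (by norm_num) (by norm_num) _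
    _ = (2.3 ^ (a + b)) ^ 2 * (2.7 ^ (a + b)) ^ 2 := by
        rw [mul_pow, ← pow_mul, ← pow_mul, ← pow_mul, ← pow_mul, mul_comm 2]
    _ ≤ R ^ 2 * Q ^ 2 := mul_le_mul (pow_le_pow_left₀ (by positivity) hR 2)
        (pow_le_pow_left₀ (by positivity) hQ 2) (by positivity) (by positivity)

theorem Smooth_all (S : Sys2) (N : ℕ) (hN : 1 ≤ N) : ∃ C : ℝ, 1 ≤ C ∧
    ∀ (a b : ℕ) (R Q : ℝ) (u : E → ENNReal) (w : List Bool), 0 < R → 0 < Q →
      (2.7 : ℝ) ^ (a + b) ≤ Q → (2.3 : ℝ) ^ (a + b) ≤ R → (∀ y, u y ≤ 1) → w ∈ cls a b →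
      SG S N (fun y => u y * ENNReal.ofReal (gs R Q (gw S N w y))) ≤
        ENNReal.ofReal (C * (R ^ 2 * Q ^ 2 / |(W S a b).1|)) := by
  obtain ⟨C, hC, h⟩ := word_sum S N hN
  refine ⟨2 * C, by linarith, ?_⟩
  intro a b R Q u w hR hQ hQ' hR' hu hw
  refine (SG_mono S N (g := fun y => ENNReal.ofReal (gs R Q (gw S N w y))) ?_).trans
    ((h a b R Q hR hQ w hw).trans (ENNReal.ofReal_le_ofReal ?_))
  · intro z _
    calc u z * ENNReal.ofReal (gs R Q (gw S N w z)) ≤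
        1 * ENNReal.ofReal (gs R Q (gw S N w z)) := by gcongr; exact hu z
      _ = _ := one_mul _
  · have := Smooth_big S a b R Q hQ' hR'
    nlinarith

theorem Smooth_sizes (S : Sys2) (N : ℕ) (a b : ℕ) (R Q : ℝ) (w : List Bool)
    (hR : 0 < R) (hQ : 0 < Q) (hQ' : (2.7 : ℝ) ^ (a + b) ≤ Q) (hR' : (2.3 : ℝ) ^ (a + b) ≤ R)
    (hw : w ∈ cls a b) (hty : 0.878 ^ (a + b) ≤ ‖(W S a b).2.1‖) :
    ‖(off S.toSys N w).2.1‖ / (R * ‖(W S a b).2.1‖) +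
      ‖(off S.toSys N w).2.2‖ / (Q * ‖(W S a b).2.2‖) ≤ 8 * N * 0.998 ^ (a + b) := by
  have hlen : w.length = a + b := by
    rw [← count_add w, (mem_cls.1 hw).1, (mem_cls.1 hw).2]
  have o2 := off2_bound S N w
  have o3 := off3_bound S N w
  rw [hlen] at o2
  have h3 := Smooth_W3_ge S a b
  clear hlen
  generalize a + b = o at *
  have hN0 : (0 : ℝ) ≤ N := Nat.cast_nonneg N
  have e1 : ‖(off S.toSys N w).2.1‖ / (R * ‖(W S a b).2.1‖) ≤ 2 * N * 0.998 ^ o := by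
    rw [div_le_iff₀ (mul_pos hR (W2_pos S a b))]
    refine o2.trans ?_
    have hbern : (o : ℝ) ≤ 2 * 1.5 ^ o := by
      have := one_add_mul_le_pow (a := (0.5 : ℝ)) (by norm_num) o
      have e : (1 + 0.5 : ℝ) = 1.5 := by norm_num
      rw [e] at this
      linarith
    have h1 : (1.5 : ℝ) ^ o * 1.0505 ^ o ≤ 0.998 ^ o * (2.3 ^ o * 0.878 ^ o) := by
      rw [← mul_pow, ← mul_pow, ← mul_pow]
      exact pow_le_pow_left₀ (by norm_num) (by norm_num) _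
    have h2 : (2.3 : ℝ) ^ o * 0.878 ^ o ≤ R * ‖(W S a b).2.1‖ :=
      mul_le_mul hR' hty (by positivity) hR.le
    calc (N : ℝ) * o * 1.0505 ^ o ≤ N * (2 * 1.5 ^ o) * 1.0505 ^ o := by gcongr
      _ = 2 * N * (1.5 ^ o * 1.0505 ^ o) := by ring
      _ ≤ 2 * N * (0.998 ^ o * (2.3 ^ o * 0.878 ^ o)) := by gcongr
      _ ≤ 2 * N * (0.998 ^ o * (R * ‖(W S a b).2.1‖)) := by gcongr
      _ = _ := by ring
  have e2 : ‖(off S.toSys N w).2.2‖ / (Q * ‖(W S a b).2.2‖) ≤ 6 * N * 0.998 ^ o := by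
    rw [div_le_iff₀ (mul_pos hQ (W3_pos S a b))]
    refine o3.trans ?_
    have h1 : (1 : ℝ) ≤ 0.998 ^ o * (2.7 ^ o * 0.83 ^ o) := by
      rw [← mul_pow, ← mul_pow]
      exact one_le_pow₀ (by norm_num)
    have h2 : (2.7 : ℝ) ^ o * 0.83 ^ o ≤ Q * ‖(W S a b).2.2‖ :=
      mul_le_mul hQ' h3 (by positivity) hQ.le
    calc 6 * (N : ℝ) = 6 * N * 1 := by ring
      _ ≤ 6 * N * (0.998 ^ o * (2.7 ^ o * 0.83 ^ o)) := by gcongr
      _ ≤ 6 * N * (0.998 ^ o * (Q * ‖(W S a b).2.2‖)) := by gcongr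
      _ = _ := by ring
  linarith

theorem Smooth_typ (S : Sys2) (N : ℕ) (hN : 1 ≤ N) : ∃ C : ℝ, 1 ≤ C ∧
    ∀ (a b : ℕ) (R Q B : ℝ) (u : E → ENNReal) (w : List Bool), 0 < R → 0 < Q →
      (2.7 : ℝ) ^ (a + b) ≤ Q → (2.3 : ℝ) ^ (a + b) ≤ R → 0 ≤ B → (∀ y, u y ≤ 1) → w ∈ cls a b →
      0.878 ^ (a + b) ≤ ‖(W S a b).2.1‖ →
      Sm S N (R * ‖(W S a b).2.1‖) (Q * ‖(W S a b).2.2‖) u ≤
        ENNReal.ofReal (B * ((R * ‖(W S a b).2.1‖) ^ 2 * (Q * ‖(W S a b).2.2‖) ^ 2)) →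
      SG S N (fun y => u y * ENNReal.ofReal (gs R Q (gw S N w y))) ≤
        ENNReal.ofReal ((B + C * 0.998 ^ (a + b)) * (R ^ 2 * Q ^ 2 / |(W S a b).1|)) := by
  obtain ⟨C1, hC1, h1⟩ := smooth_word S N
  obtain ⟨C2, hC2, h2⟩ := Smooth_all S N hN
  obtain ⟨C3, hC3, h3⟩ := lat_gauss S N hN
  have hN1 : (1 : ℝ) ≤ N := by exact_mod_cast hN
  refine ⟨17 * (C1 * C3) * (8 * N) + C2 * (8 * N), ?_, ?_⟩
  · have : 1 ≤ C2 * (8 * N) := by nlinarith
    have : 0 ≤ 17 * (C1 * C3) * (8 * N) := by positivity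
    linarith
  intro a b R Q B u w hR hQ hQ' hR' hB hu hw hty hS
  have hs := Smooth_sizes S N a b R Q w hR hQ hQ' hR' hw hty
  have hX := Smooth_big S a b R Q hQ' hR'
  have hall := h2 a b R Q u w hR hQ hQ' hR' hu hw
  rw [Smooth_prod] at hS
  set X := R ^ 2 * Q ^ 2 / |(W S a b).1| with hXdef
  have hd : (0 : ℝ) ≤ 0.998 ^ (a + b) := by positivity
  set d : ℝ := 0.998 ^ (a + b) with hddef
  set ε := ‖(off S.toSys N w).2.1‖ / (R * ‖(W S a b).2.1‖) +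
      ‖(off S.toSys N w).2.2‖ / (Q * ‖(W S a b).2.2‖) with hε
  have hr : 0 < R * ‖(W S a b).2.1‖ := mul_pos hR (W2_pos S a b)
  have hq : 0 < Q * ‖(W S a b).2.2‖ := mul_pos hQ (W3_pos S a b)
  have t2 : 0 ≤ ‖(off S.toSys N w).2.1‖ / (R * ‖(W S a b).2.1‖) := by positivity
  have t3 : 0 ≤ ‖(off S.toSys N w).2.2‖ / (Q * ‖(W S a b).2.2‖) := by positivity
  have hε0 : 0 ≤ ε := by linarith
  by_cases hc : ‖(off S.toSys N w).2.1‖ ≤ R * ‖(W S a b).2.1‖ ∧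
      ‖(off S.toSys N w).2.2‖ ≤ Q * ‖(W S a b).2.2‖
  · have hpt : ∀ y, gs R Q (gw S N w y) ≤ gs (R * ‖(W S a b).2.1‖) (Q * ‖(W S a b).2.2‖) y +
        C1 * ε * gs (2 * (R * ‖(W S a b).2.1‖)) (2 * (Q * ‖(W S a b).2.2‖)) y :=
      fun y => h1 a b R Q w y hR hQ hw hc.1 hc.2
    have hL := h3 (2 * (R * ‖(W S a b).2.1‖)) (2 * (Q * ‖(W S a b).2.2‖)) 0 0
      (by positivity) (by positivity)
    simp only [sub_zero] at hL
    have hL2 : SG S N (fun z => ENNReal.ofReal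
        (gs (2 * (R * ‖(W S a b).2.1‖)) (2 * (Q * ‖(W S a b).2.2‖)) z)) ≤
        ENNReal.ofReal (C3 * (17 * X)) := by
      refine hL.trans (ENNReal.ofReal_le_ofReal ?_)
      refine mul_le_mul_of_nonneg_left ?_ (by linarith)
      have e := Smooth_prod S a b R Q
      rw [← hXdef] at e
      nlinarith
    calc SG S N (fun y => u y * ENNReal.ofReal (gs R Q (gw S N w y)))
        ≤ SG S N (fun y => u y * ENNReal.ofReal
            (gs (R * ‖(W S a b).2.1‖) (Q * ‖(W S a b).2.2‖) y) +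
            ENNReal.ofReal (C1 * ε) * ENNReal.ofReal
              (gs (2 * (R * ‖(W S a b).2.1‖)) (2 * (Q * ‖(W S a b).2.2‖)) y)) := by
          refine SG_mono S N fun y _ => ?_
          calc u y * ENNReal.ofReal (gs R Q (gw S N w y))
              ≤ u y * ENNReal.ofReal (gs (R * ‖(W S a b).2.1‖) (Q * ‖(W S a b).2.2‖) y +
                C1 * ε * gs (2 * (R * ‖(W S a b).2.1‖)) (2 * (Q * ‖(W S a b).2.2‖)) y) := by
                gcongr
                exact hpt y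
            _ = u y * ENNReal.ofReal (gs (R * ‖(W S a b).2.1‖) (Q * ‖(W S a b).2.2‖) y) +
                u y * (ENNReal.ofReal (C1 * ε) * ENNReal.ofReal
                  (gs (2 * (R * ‖(W S a b).2.1‖)) (2 * (Q * ‖(W S a b).2.2‖)) y)) := by
                rw [ENNReal.ofReal_add (gs_pos _ _ _).le
                  (mul_nonneg (by positivity) (gs_pos _ _ _).le), mul_add,
                  ENNReal.ofReal_mul (by positivity)]
            _ ≤ _ := by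
                refine add_le_add le_rfl ?_
                calc u y * (ENNReal.ofReal (C1 * ε) * ENNReal.ofReal
                    (gs (2 * (R * ‖(W S a b).2.1‖)) (2 * (Q * ‖(W S a b).2.2‖)) y)) ≤
                    1 * (ENNReal.ofReal (C1 * ε) * ENNReal.ofReal
                    (gs (2 * (R * ‖(W S a b).2.1‖)) (2 * (Q * ‖(W S a b).2.2‖)) y)) := by
                      gcongr
                      exact hu y
                  _ = _ := one_mul _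
      _ = Sm S N (R * ‖(W S a b).2.1‖) (Q * ‖(W S a b).2.2‖) u +
          ENNReal.ofReal (C1 * ε) * SG S N (fun z => ENNReal.ofReal
            (gs (2 * (R * ‖(W S a b).2.1‖)) (2 * (Q * ‖(W S a b).2.2‖)) z)) := by
          rw [SG_add, SG_const_mul]
          rfl
      _ ≤ ENNReal.ofReal (B * X) + ENNReal.ofReal (C1 * ε) * ENNReal.ofReal (C3 * (17 * X)) :=
          add_le_add hS (by gcongr)
      _ = ENNReal.ofReal (B * X + C1 * ε * (C3 * (17 * X))) := by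
          rw [ENNReal.ofReal_add (by positivity) (by positivity), ENNReal.ofReal_mul
            (p := C1 * ε) (by positivity)]
      _ ≤ _ := by
          refine ENNReal.ofReal_le_ofReal ?_
          have k1 : C1 * ε * (C3 * (17 * X)) ≤ C1 * (8 * N * d) * (C3 * (17 * X)) := by
            gcongr
          have k2 : 0 ≤ C2 * (8 * N) * d * X := by positivity
          nlinarith
  · have hε1 : 1 ≤ ε := by
      rw [not_and_or] at hc
      rcases hc with hc | hc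
      · push Not at hc
        have := (one_lt_div hr).2 hc
        linarith
      · push Not at hc
        have := (one_lt_div hq).2 hc
        linarith
    refine hall.trans (ENNReal.ofReal_le_ofReal ?_)
    have k0 : 1 ≤ 8 * N * d := hε1.trans hs
    have k1 : C2 * X * 1 ≤ C2 * X * (8 * N * d) := by gcongr
    have k2 : 0 ≤ 17 * (C1 * C3) * (8 * N) * d * X := by positivity
    have k3 : 0 ≤ B * X := by positivity
    nlinarith

theorem smooth_step (S : Sys2) (N : ℕ) (hN : 1 ≤ N) : ∃ C : ℝ, 1 ≤ C ∧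
    ∀ (o : ℕ) (R Q B : ℝ) (u : E → ENNReal), 1 ≤ o → 0 < R → Real.exp o ≤ Q → Q ^ 6 ≤ R ^ 7 →
      0 ≤ B → (∀ y, u y ≤ 1) →
      (∀ a b, a + b = o → 0.878 ^ o ≤ ‖(W S a b).2.1‖ →
        Sm S N (R * ‖(W S a b).2.1‖) (Q * ‖(W S a b).2.2‖) u ≤
          ENNReal.ofReal (B * ((R * ‖(W S a b).2.1‖) ^ 2 * (Q * ‖(W S a b).2.2‖) ^ 2))) →
      Sm S N R Q (fun z => u ((T S.toSys N)^[o] z)) ≤
        ENNReal.ofReal ((B + C * 0.998 ^ o) * (R ^ 2 * Q ^ 2)) := by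
  classical
  obtain ⟨C1, hC1, h1⟩ := Smooth_typ S N hN
  obtain ⟨C2, hC2, h2⟩ := Smooth_all S N hN
  refine ⟨C1 + C2, by linarith, ?_⟩
  intro o R Q B u ho hR hQe hQR hB hu hyp
  have hQ' := Smooth_Q o Q hQe
  have hR' := Smooth_R o R Q hR hQ' hQR
  have hQ : 0 < Q := (Real.exp_pos _).trans_le hQe
  have hp0 : (0 : ℝ) ≤ (S.a.1)⁻¹ := inv_nonneg.2 (ap S).le
  have hq0 : (0 : ℝ) ≤ (S.b.1)⁻¹ := inv_nonneg.2 (bp S).le
  have step1 : Sm S N R Q (fun z => u ((T S.toSys N)^[o] z)) ≤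
      ∑ p ∈ AD o, ∑ w ∈ cls p.1 p.2,
        SG S N (fun y => u y * ENNReal.ofReal (gs R Q (gw S N w y))) := by
    refine (fwd S N u (fun z => ENNReal.ofReal (gs R Q z)) o).trans (le_of_eq ?_)
    have e : (fun y => u y * ∑ w ∈ words o, ENNReal.ofReal (gs R Q (gw S N w y))) =
        fun y => ∑ p ∈ AD o, ∑ w ∈ cls p.1 p.2,
          u y * ENNReal.ofReal (gs R Q (gw S N w y)) := by
      funext y
      rw [sum_words_eq, Finset.mul_sum]
      refine Finset.sum_congr rfl fun p _ => ?_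
      rw [Finset.mul_sum]
    rw [e, SG_sum]
    refine Finset.sum_congr rfl fun p _ => ?_
    rw [SG_sum]
  have hd : (0 : ℝ) ≤ 0.998 ^ o := by positivity
  have hbin : ∀ p : ℕ × ℕ, ((cls p.1 p.2).card : ℝ) * (R ^ 2 * Q ^ 2 / |(W S p.1 p.2).1|) =
      bin (S.a.1)⁻¹ (S.b.1)⁻¹ p.1 p.2 * (R ^ 2 * Q ^ 2) := by
    intro p
    rw [card_cls, W1, bin, inv_pow, inv_pow]
    have := ap S
    have := bp S
    field_simp
  have step2 : ∀ p ∈ AD o, ∑ w ∈ cls p.1 p.2,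
      SG S N (fun y => u y * ENNReal.ofReal (gs R Q (gw S N w y))) ≤
      ENNReal.ofReal (((B + C1 * 0.998 ^ o) * bin (S.a.1)⁻¹ (S.b.1)⁻¹ p.1 p.2 +
        C2 * (if 0.878 ^ o ≤ ‖(W S p.1 p.2).2.1‖ then 0 else
          bin (S.a.1)⁻¹ (S.b.1)⁻¹ p.1 p.2)) * (R ^ 2 * Q ^ 2)) := by
    intro p hp
    have hpo : p.1 + p.2 = o := mem_AD.1 hp
    have hb0 := bin_nonneg hp0 hq0 p.1 p.2
    by_cases hty : 0.878 ^ o ≤ ‖(W S p.1 p.2).2.1‖
    · rw [if_pos hty, mul_zero, add_zero]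
      have hw : ∀ w ∈ cls p.1 p.2,
          SG S N (fun y => u y * ENNReal.ofReal (gs R Q (gw S N w y))) ≤
          ENNReal.ofReal ((B + C1 * 0.998 ^ o) * (R ^ 2 * Q ^ 2 / |(W S p.1 p.2).1|)) := by
        intro w hw
        have := h1 p.1 p.2 R Q B u w hR hQ (by rw [hpo]; exact hQ') (by rw [hpo]; exact hR') hB hu
          hw (by rw [hpo]; exact hty) (hyp p.1 p.2 hpo hty)
        rwa [hpo] at this
      refine (Finset.sum_le_card_nsmul _ _ _ hw).trans (le_of_eq ?_)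
      rw [nsmul_eq_mul, ← ENNReal.ofReal_natCast, ← ENNReal.ofReal_mul (Nat.cast_nonneg _)]
      congr 1
      rw [mul_left_comm, hbin p]
      ring
    · rw [if_neg hty]
      have hw : ∀ w ∈ cls p.1 p.2,
          SG S N (fun y => u y * ENNReal.ofReal (gs R Q (gw S N w y))) ≤
          ENNReal.ofReal (C2 * (R ^ 2 * Q ^ 2 / |(W S p.1 p.2).1|)) := by
        intro w hw
        exact h2 p.1 p.2 R Q u w hR hQ (by rw [hpo]; exact hQ') (by rw [hpo]; exact hR') hu hw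
      refine (Finset.sum_le_card_nsmul _ _ _ hw).trans ?_
      rw [nsmul_eq_mul, ← ENNReal.ofReal_natCast, ← ENNReal.ofReal_mul (Nat.cast_nonneg _)]
      refine ENNReal.ofReal_le_ofReal ?_
      rw [mul_left_comm, hbin p]
      have k : 0 ≤ (B + C1 * 0.998 ^ o) * bin (S.a.1)⁻¹ (S.b.1)⁻¹ p.1 p.2 * (R ^ 2 * Q ^ 2) := by
        have : 0 ≤ B + C1 * 0.998 ^ o := by positivity
        positivity
      nlinarith
  refine step1.trans ((Finset.sum_le_sum step2).trans ?_)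
  rw [← ENNReal.ofReal_sum_of_nonneg]
  · refine ENNReal.ofReal_le_ofReal ?_
    rw [← Finset.sum_mul, Finset.sum_add_distrib, ← Finset.mul_sum, ← Finset.mul_sum]
    refine mul_le_mul_of_nonneg_right ?_ (by positivity)
    have s1 : ∑ u ∈ AD o, bin (S.a.1)⁻¹ (S.b.1)⁻¹ u.1 u.2 = 1 := by
      have := sum_bin (S.a.1)⁻¹ (S.b.1)⁻¹ 1 1 o
      simp only [one_pow, mul_one] at this
      rw [this, pq S, one_pow]
    rw [s1, mul_one]
    have s2 := atyp3 S o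
    have s3 := mul_le_mul_of_nonneg_left s2 (by linarith : (0 : ℝ) ≤ C2)
    linarith
  · intro p hp
    have hb0 := bin_nonneg hp0 hq0 p.1 p.2
    have k1 : 0 ≤ (B + C1 * 0.998 ^ o) := by positivity
    have k2 : 0 ≤ (if 0.878 ^ o ≤ ‖(W S p.1 p.2).2.1‖ then 0 else
          bin (S.a.1)⁻¹ (S.b.1)⁻¹ p.1 p.2) := by
      split_ifs
      · exact le_rfl
      · exact hb0
    positivity

end Pool.Agent.H49.AB
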