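import Pool.Agent.H49.AB.Chain
import Pool.Agent.H49.AB.Smooth

/-!
# JOB AB-39. Boxes which are thin at the third place

`o = ⌊log R/40⌋₊`. If `R² ≤ M` then `Q ≤ (7/6)^o ≤ R`, `small_base`. Otherwise `log M < 2 log R`. If `o ≥ max o0 50` (`o0` of `step`):
`Sm R Q (u t) ≤ Sm R Q (u (t - 17 o) ∘ T^[17 o])` (`Fam.iter`, `Sm_mono`), `step` with `u := u (t - 17 o)`: for `(a',b')` with `‖W_{a'b'}‖_2 ≤ exp(-o/50)`, `R' = R ‖W_{a'b'}‖_2`,
`o' = ⌊log R'/40⌋₊`: `16 o ≤ 17 o' ≤ 17 o` (`log R' ≥ log R - 0.7 o`), `u (t - 17 o) (T^[16 o] z) ≤ u t' (T^[17 o'] z)` with `t' = t - 17 o - (17 o' - 16 o) ≥ t - 18 o ≥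
50 log R ≥ 50 log R'`; `chain` at `R'`. The error `C/o^A ≤ C (80/log R)^A ≤ C (160/log M)^A`. If `o < max o0 50` then `log M ≤ C0`: `Sm_triv`.
-/

set_option autoImplicit false

namespace Pool.Agent.H49.AB

open Pool.Agent.H67.Tent Finset MeasureTheory

/-- Lower bound of the slope at the second place. -/
theorem box_W2 (S : Sys2) (a b o : ℕ) (h : a + b = o) :
    -(0.7 * (o : ℝ)) ≤ Real.log ‖(W S a b).2.1‖ := by
  have ha : (1 : ℝ) ≤ ‖S.a.2.1‖ := by
    have h1 := S.a2l
    have h2 := norm_nonneg S.a.2.1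
    nlinarith
  have hb : (1 / 2 : ℝ) ≤ ‖S.b.2.1‖ := by
    have h1 := b2l S
    have h2 := norm_nonneg S.b.2.1
    by_contra hlt
    push Not at hlt
    nlinarith
  have h1 : (1 / 2 : ℝ) ^ o ≤ ‖(W S a b).2.1‖ := by
    rw [W2]
    calc (1 / 2 : ℝ) ^ o ≤ (1 / 2) ^ b := pow_le_pow_of_le_one (by norm_num) (by norm_num) (by omega)
      _ = 1 * (1 / 2) ^ b := (one_mul _).symm
      _ ≤ ‖S.a.2.1‖ ^ a * ‖S.b.2.1‖ ^ b := by
          apply mul_le_mul (one_le_pow₀ ha) (pow_le_pow_left₀ (by norm_num) hb _) (by positivity)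
            (by positivity)
  have h2 := Real.log_le_log (by positivity) h1
  rw [Real.log_pow, one_div, Real.log_inv] at h2
  have h3 : Real.log 2 < 0.7 := by
    have := Real.log_two_lt_d9
    linarith
  have h4 : (0 : ℝ) ≤ o := Nat.cast_nonneg o
  nlinarith

theorem box0 (S : Sys2) (N : ℕ) (hN : 1 ≤ N) (A : ℕ) : ∃ C : ℝ, 1 ≤ C ∧
    ∀ (M : ℝ) (u : ℕ → E → ENNReal), 2 ≤ M → Fam S N M u → ∀ (R Q : ℝ) (t : ℕ), 1 ≤ R → 1 ≤ Q →
      Q ≤ (7 / 6) ^ ⌊Real.log R / 40⌋₊ → 51 * Real.log R ≤ t →
      Sm S N R Q (u t) ≤ ENNReal.ofReal (C / (Real.log M) ^ A * (R ^ 2 * Q ^ 2)) := by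
  obtain ⟨C1, hC1, h1⟩ := small_base S N hN A
  obtain ⟨C2, hC2, h2⟩ := Sm_triv S N hN
  obtain ⟨C3, o0, hC3, ho0, h3⟩ := step S N hN A
  obtain ⟨C4, hC4, h4⟩ := chain S N hN A
  set n0 : ℕ := max o0 50 with hn0
  have hn0' : (50 : ℕ) ≤ n0 := le_max_right _ _
  have hn0o : o0 ≤ n0 := le_max_left _ _
  have hp2 : 0 ≤ C2 * (80 * (n0 : ℝ)) ^ A := by positivity
  have hp3 : 0 ≤ C3 * 160 ^ A := by positivity
  refine ⟨C1 + (C4 + C3 * 160 ^ A) + C2 * (80 * (n0 : ℝ)) ^ A, by linarith, ?_⟩
  intro M u hM hu R Q t hR hQ hQR ht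
  have hlM : 0 < Real.log M := Real.log_pos (by linarith)
  have hlMA : 0 < (Real.log M) ^ A := by positivity
  have hlR : 0 ≤ Real.log R := Real.log_nonneg hR
  have hR0 : 0 < R := by linarith
  have hRQ : 0 ≤ R ^ 2 * Q ^ 2 := by positivity
  set o : ℕ := ⌊Real.log R / 40⌋₊ with ho
  have hoR : (o : ℝ) ≤ Real.log R / 40 := Nat.floor_le (by positivity)
  have hoR' : Real.log R / 40 < o + 1 := Nat.lt_floor_add_one _
  have hexp : Real.exp (40 * (o : ℝ)) ≤ R := by
    rw [← Real.le_log_iff_exp_le hR0]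
    linarith
  rcases le_or_gt (R ^ 2) M with hRM | hRM
  · -- small R
    have hQR' : Q ≤ R := by
      refine hQR.trans (le_trans ?_ hexp)
      have e1 : (7 / 6 : ℝ) ≤ Real.exp 40 := by
        have := Real.add_one_le_exp (40 : ℝ)
        linarith
      calc ((7 : ℝ) / 6) ^ o ≤ (Real.exp 40) ^ o := pow_le_pow_left₀ (by norm_num) e1 _
        _ = Real.exp (40 * (o : ℝ)) := by
            rw [← Real.exp_nat_mul]
            congr 1
            ring
    have hQM : Q ^ 2 ≤ M := le_trans (pow_le_pow_left₀ (by linarith) hQR' 2) hRM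
    refine (h1 M u hM hu R Q t hR hQ hRM hQM).trans (ENNReal.ofReal_le_ofReal ?_)
    refine mul_le_mul_of_nonneg_right ?_ hRQ
    exact div_le_div_of_nonneg_right (by linarith) hlMA.le
  · have hlMR : Real.log M < 2 * Real.log R := by
      have := Real.log_lt_log (by linarith) hRM
      rw [Real.log_pow] at this
      simpa using this
    rcases lt_or_ge o n0 with hlt | hge
    · -- trivial bound
      refine (h2 R Q (u t) hR hQ (hu.le_one t)).trans (ENNReal.ofReal_le_ofReal ?_)
      refine mul_le_mul_of_nonneg_right ?_ hRQ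
      rw [le_div_iff₀ hlMA]
      have e1 : Real.log M ≤ 80 * (n0 : ℝ) := by
        have e2 : (o : ℝ) + 1 ≤ n0 := by exact_mod_cast hlt
        linarith
      have e3 : (Real.log M) ^ A ≤ (80 * (n0 : ℝ)) ^ A := pow_le_pow_left₀ hlM.le e1 A
      have e4 : C2 * (Real.log M) ^ A ≤ C2 * (80 * (n0 : ℝ)) ^ A :=
        mul_le_mul_of_nonneg_left e3 (by linarith)
      linarith
    · -- main case
      have ho50 : (50 : ℝ) ≤ o := by exact_mod_cast hn0'.trans hge
      have h17 : 17 * o ≤ t := by
        have : (17 * (o : ℝ)) ≤ t := by linarith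
        exact_mod_cast this
      have e0 : Sm S N R Q (u t) ≤
          Sm S N R Q (fun z => u (t - 17 * o) ((T S.toSys N)^[17 * o] z)) := by
        refine Sm_mono S N R Q fun z hz => ?_
        have := hu.iter (t - 17 * o) (17 * o) hz
        rwa [Nat.sub_add_cancel h17] at this
      refine e0.trans ?_
      have key := h3 o R Q (C4 / (Real.log M) ^ A) (u (t - 17 * o)) (hn0o.trans hge) hexp hQ hQR
        (by positivity) (hu.le_one _) (hu.zero _) (hu.zeroN _) ?_
      · refine key.trans (ENNReal.ofReal_le_ofReal ?_)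
        refine mul_le_mul_of_nonneg_right ?_ hRQ
        have ho0 : (0 : ℝ) < (o : ℝ) ^ A := by positivity
        have e1 : Real.log M ≤ 160 * (o : ℝ) := by linarith
        have e2 : (Real.log M) ^ A ≤ 160 ^ A * (o : ℝ) ^ A := by
          rw [← mul_pow]
          exact pow_le_pow_left₀ hlM.le e1 A
        have e3 : C3 / (o : ℝ) ^ A ≤ C3 * 160 ^ A / (Real.log M) ^ A := by
          rw [div_le_div_iff₀ ho0 hlMA]
          calc C3 * (Real.log M) ^ A ≤ C3 * (160 ^ A * (o : ℝ) ^ A) :=
                mul_le_mul_of_nonneg_left e2 (by linarith)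
            _ = C3 * 160 ^ A * (o : ℝ) ^ A := by ring
        calc C4 / (Real.log M) ^ A + C3 / (o : ℝ) ^ A
            ≤ C4 / (Real.log M) ^ A + C3 * 160 ^ A / (Real.log M) ^ A := by linarith
          _ = (C4 + C3 * 160 ^ A) / (Real.log M) ^ A := by ring
          _ ≤ _ := div_le_div_of_nonneg_right (by linarith) hlMA.le
      · intro a' b' hab hW
        have hWp := W2_pos S a' b'
        set R' : ℝ := R * ‖(W S a' b').2.1‖ with hR'
        have hR'0 : 0 < R' := by positivity
        have hlR' : Real.log R' = Real.log R + Real.log ‖(W S a' b').2.1‖ :=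
          Real.log_mul hR0.ne' hWp.ne'
        have hWl := box_W2 S a' b' o hab
        have hWu : Real.log ‖(W S a' b').2.1‖ ≤ -(o : ℝ) / 50 := by
          rw [Real.log_le_iff_le_exp hWp]
          exact hW
        have hlR'0 : 0 < Real.log R' := by
          rw [hlR']
          linarith
        have hR'1 : 1 ≤ R' := by
          by_contra hcon
          push Not at hcon
          have := Real.log_nonpos hR'0.le hcon.le
          linarith
        set o' : ℕ := ⌊Real.log R' / 40⌋₊ with ho'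
        have ho'l : Real.log R' / 40 < o' + 1 := Nat.lt_floor_add_one _
        have hoo' : o' ≤ o := by
          apply Nat.floor_le_floor
          rw [hlR']
          linarith
        have h1617 : 16 * o ≤ 17 * o' := by
          have : 16 * (o : ℝ) ≤ 17 * (o' : ℝ) := by
            rw [hlR'] at ho'l
            linarith
          exact_mod_cast this
        have h18 : 18 * o ≤ t := by
          have : (18 * (o : ℝ)) ≤ t := by linarith
          exact_mod_cast this
        set k : ℕ := 17 * o' - 16 * o with hk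
        have hko : k ≤ o := by omega
        set t' : ℕ := t - 17 * o - k with ht'
        have htk : t - 17 * o = t' + k := by omega
        have ht'c : 50 * Real.log R' ≤ t' := by
          have e1 : t ≤ t' + 18 * o := by omega
          have e2 : (t : ℝ) ≤ t' + 18 * o := by exact_mod_cast e1
          rw [hlR']
          linarith
        have e1 : Sm S N R' 1 (fun z => u (t - 17 * o) ((T S.toSys N)^[16 * o] z)) ≤
            Sm S N R' 1 (fun z => u t' ((T S.toSys N)^[17 * o'] z)) := by
          refine Sm_mono S N R' 1 fun z hz => ?_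
          have hz' := G_iter S.toSys N hz (16 * o)
          have := hu.iter t' k hz'
          rw [← htk, ← Function.iterate_add_apply] at this
          have e2 : k + 16 * o = 17 * o' := by omega
          rwa [e2] at this
        exact e1.trans (h4 M u hM hu R' t' hR'1 ht'c)

end Pool.Agent.H49.AB
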