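import Pool.Agent.H49.AB.Box

/-!
# JOB AB-40. Cubes

`L = log H`, `θ = 1/2000`. If `H² ≤ M`: `small_base` with `R = Q = H`. Otherwise `log M < 2 L`. If `L < L0` (absolute constant): `Sm_triv` (`log M ≤ 2 L0`). Let `L ≥ L0`.
Claim(k), `k = 0, 1, …, 73`: for all `R, Q, t` with `1 ≤ R`, `1 ≤ Q ≤ exp(θ L (10/9)^k)`, `H Q⁶ ≤ R⁷`, `51 log R + 23 log Q ≤ t`:
`Sm R Q (u t) ≤ ofReal ((C0/(log M)^A + k C1 0.998^(θ L - 2)) R² Q²)`, `C0` from `box0`, `C1` from `smooth_step`.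
* `k = 0`: `log R ≥ L/7`, `⌊log R/40⌋₊ ≥ L/280 - 1`, `(7/6)^(L/280 - 1) ≥ exp(0.154 (L/280 - 1)) ≥ exp(L/2000) ≥ Q` for `L ≥ L0`: `box0`.
* `k → k+1`: if `Q ≤ exp(θ L (10/9)^k)` done. Otherwise `log Q ≥ θ L ≥ 20`, `o = ⌊log Q⌋₊`, `Sm R Q (u t) ≤ Sm R Q (u (t - o) ∘ T^[o])` (`Fam.iter`), `smooth_step`
  (`Q⁶ ≤ R⁷` as `H ≥ 1`). For `(a,b)` with `0.878^o ≤ ‖W_{ab}‖_2`: `R1 = R ‖W_{ab}‖_2`, `Q1 = Q ‖W_{ab}‖_3` satisfy the hypotheses of Claim(k):
  `Q1 ≤ Q exp(-0.155 o) ≤ Q^(9/10)` (`a3u`, `b3u`), `Q1 ≥ Q exp(-0.181 o) ≥ 1` (`b3l`, `a3l`), `H Q1⁶ ≤ R1⁷` since `‖W‖_2⁷ ≥ 0.878^(7o) ≥ (6/7)^(6o) ≥ ‖W‖_3⁶`,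
  hence `R1 ≥ 1`; `51 log R1 + 23 log Q1 ≤ 51 (log R + 0.0493 o) + 23 (log Q - 0.155 o) ≤ t - o`.
`(10/9)^73 ≥ 2000`, so Claim(73) applies to `R = Q = H`, `t ≥ 80 L ≥ 74 L`. Finally `73 C1 0.998^(θ L - 2) ≤ C/L^A ≤ C 2^A/(log M)^A`.
-/

set_option autoImplicit false

namespace Pool.Agent.H49.AB

open Pool.Agent.H67.Tent Finset MeasureTheory

theorem bx_w2u (S : Sys2) (i j : ℕ) : ‖(W S i j).2.1‖ ^ 2 ≤ 1.1034 ^ (i + j) := by
  rw [W2, mul_pow, ← pow_mul, ← pow_mul, mul_comm i 2, mul_comm j 2, pow_mul, pow_mul, pow_add]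
  have h1 : (‖S.a.2.1‖ ^ 2) ^ i ≤ (1.1034 : ℝ) ^ i := pow_le_pow_left₀ (by positivity) S.a2u _
  have h2 : (‖S.b.2.1‖ ^ 2) ^ j ≤ (1.1034 : ℝ) ^ j :=
    pow_le_pow_left₀ (by positivity) ((b2u S).trans (by norm_num)) _
  exact mul_le_mul h1 h2 (by positivity) (by positivity)

theorem bx_w3u (S : Sys2) (i j : ℕ) : ‖(W S i j).2.2‖ ^ 2 ≤ 0.7332 ^ (i + j) := by
  rw [W3, mul_pow, ← pow_mul, ← pow_mul, mul_comm i 2, mul_comm j 2, pow_mul, pow_mul, pow_add]
  have h1 : (‖S.a.2.2‖ ^ 2) ^ i ≤ (0.7332 : ℝ) ^ i := pow_le_pow_left₀ (by positivity) S.a3u _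
  have h2 : (‖S.b.2.2‖ ^ 2) ^ j ≤ (0.7332 : ℝ) ^ j :=
    pow_le_pow_left₀ (by positivity) ((b3u S).trans (by norm_num)) _
  exact mul_le_mul h1 h2 (by positivity) (by positivity)

theorem bx_w3l (S : Sys2) (i j : ℕ) : (1 / 2 : ℝ) ^ (i + j) ≤ ‖(W S i j).2.2‖ := by
  have h : ((1 / 2 : ℝ) ^ (i + j)) ^ 2 ≤ ‖(W S i j).2.2‖ ^ 2 := by
    rw [W3, mul_pow, ← pow_mul, ← pow_mul, ← pow_mul, mul_comm i 2, mul_comm j 2,
      mul_comm (i + j) 2, pow_mul, pow_mul, pow_mul, pow_add]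
    have h1 : ((1 / 2 : ℝ) ^ 2) ^ i ≤ (‖S.a.2.2‖ ^ 2) ^ i :=
      pow_le_pow_left₀ (by positivity) (le_trans (by norm_num) S.a3l) _
    have h2 : ((1 / 2 : ℝ) ^ 2) ^ j ≤ (‖S.b.2.2‖ ^ 2) ^ j :=
      pow_le_pow_left₀ (by positivity) (le_trans (by norm_num) (b3l S)) _
    exact mul_le_mul h1 h2 (by positivity) (by positivity)
  exact (pow_le_pow_iff_left₀ (by positivity) (norm_nonneg _) two_ne_zero).1 h

theorem bx_log2 (S : Sys2) (i j : ℕ) : Real.log ‖(W S i j).2.1‖ ≤ 0.0493 * ((i + j : ℕ) : ℝ) := by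
  have h0 := W2_pos S i j
  have h1 := bx_w2u S i j
  have h2 : (1.1034 : ℝ) ≤ Real.exp 0.0986 := by
    have := Real.quadratic_le_exp_of_nonneg (show (0 : ℝ) ≤ 0.0986 by norm_num)
    refine le_trans ?_ this
    norm_num
  have h3 : ‖(W S i j).2.1‖ ^ 2 ≤ Real.exp (0.0986 * ((i + j : ℕ) : ℝ)) := by
    refine h1.trans ((pow_le_pow_left₀ (by norm_num) h2 _).trans (le_of_eq ?_))
    rw [← Real.exp_nat_mul, mul_comm]
  have h4 := Real.log_le_log (by positivity) h3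
  rw [Real.log_exp, Real.log_pow] at h4
  push_cast at h4 ⊢
  linarith

theorem bx_log3 (S : Sys2) (i j : ℕ) : Real.log ‖(W S i j).2.2‖ ≤ -(0.153 * ((i + j : ℕ) : ℝ)) := by
  have h0 := W3_pos S i j
  have h1 := bx_w3u S i j
  have h2 : (0.7332 : ℝ) ≤ Real.exp (-0.306) := by
    have h : (0.9847 : ℝ) ≤ Real.exp (-0.0153) := by
      have := Real.add_one_le_exp (-0.0153 : ℝ)
      linarith
    have e : Real.exp (-0.306) = Real.exp (-0.0153) ^ 20 := by
      rw [← Real.exp_nat_mul]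
      norm_num
    rw [e]
    refine le_trans ?_ (pow_le_pow_left₀ (by norm_num) h 20)
    norm_num
  have h3 : ‖(W S i j).2.2‖ ^ 2 ≤ Real.exp (-0.306 * ((i + j : ℕ) : ℝ)) := by
    refine h1.trans ((pow_le_pow_left₀ (by norm_num) h2 _).trans (le_of_eq ?_))
    rw [← Real.exp_nat_mul, mul_comm]
  have h4 := Real.log_le_log (by positivity) h3
  rw [Real.log_exp, Real.log_pow] at h4
  push_cast at h4 ⊢
  linarith

theorem bx_76 (n : ℕ) : Real.exp (0.15 * n) ≤ (7 / 6) ^ n := by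
  have h : Real.exp (0.05) ≤ 20 / 19 := by
    have h1 : (0.95 : ℝ) ≤ Real.exp (-0.05) := by
      have := Real.add_one_le_exp (-0.05 : ℝ)
      linarith
    have h2 : Real.exp 0.05 * Real.exp (-0.05) = 1 := by
      rw [← Real.exp_add]
      norm_num
    have h3 := Real.exp_pos 0.05
    by_contra hc
    push Not at hc
    nlinarith
  have e : Real.exp (0.15 * n) = (Real.exp 0.05 ^ 3) ^ n := by
    rw [← Real.exp_nat_mul, ← Real.exp_nat_mul]
    congr 1
    push_cast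
    ring
  rw [e]
  refine pow_le_pow_left₀ (by positivity) ((pow_le_pow_left₀ (Real.exp_pos _).le h 3).trans ?_) _
  norm_num

theorem bx_998 (o : ℕ) (L : ℝ) (h : L / 2000 ≤ o + 1) :
    (0.998 : ℝ) ^ o ≤ 2 * Real.exp (-(L / 1000000)) := by
  have h1 : (0.998 : ℝ) ≤ Real.exp (-0.002) := by
    have := Real.add_one_le_exp (-0.002 : ℝ)
    linarith
  have h2 : (0.998 : ℝ) ^ o ≤ Real.exp (-0.002 * o) := by
    refine (pow_le_pow_left₀ (by norm_num) h1 _).trans (le_of_eq ?_)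
    rw [← Real.exp_nat_mul, mul_comm]
  have h3 : Real.exp (-0.002 * (o : ℝ)) ≤ Real.exp (0.002 + -(L / 1000000)) := by
    refine Real.exp_le_exp.2 ?_
    linarith
  have h4 : Real.exp (0.002) ≤ 2 := by
    have h5 : (0.998 : ℝ) * Real.exp 0.002 ≤ 1 := by
      have h6 : Real.exp (-0.002) * Real.exp 0.002 = 1 := by
        rw [← Real.exp_add]
        norm_num
      have h7 := Real.exp_pos 0.002
      nlinarith
    linarith
  rw [Real.exp_add] at h3
  have h8 := Real.exp_pos (-(L / 1000000))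
  nlinarith

theorem bx_claim (S : Sys2) (N : ℕ) (A : ℕ) (C0 C1 : ℝ)
    (hC0 : ∀ (M : ℝ) (u : ℕ → E → ENNReal), 2 ≤ M → Fam S N M u → ∀ (R Q : ℝ) (t : ℕ),
      1 ≤ R → 1 ≤ Q → Q ≤ (7 / 6) ^ ⌊Real.log R / 40⌋₊ → 51 * Real.log R ≤ t →
      Sm S N R Q (u t) ≤ ENNReal.ofReal (C0 / (Real.log M) ^ A * (R ^ 2 * Q ^ 2)))
    (hC1' : 1 ≤ C1)
    (hC1 : ∀ (o : ℕ) (R Q B : ℝ) (u : E → ENNReal), 1 ≤ o → 0 < R → Real.exp o ≤ Q →
      Q ^ 6 ≤ R ^ 7 → 0 ≤ B → (∀ y, u y ≤ 1) →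
      (∀ a b, a + b = o → 0.878 ^ o ≤ ‖(W S a b).2.1‖ →
        Sm S N (R * ‖(W S a b).2.1‖) (Q * ‖(W S a b).2.2‖) u ≤
          ENNReal.ofReal (B * ((R * ‖(W S a b).2.1‖) ^ 2 * (Q * ‖(W S a b).2.2‖) ^ 2))) →
      Sm S N R Q (fun z => u ((T S.toSys N)^[o] z)) ≤
        ENNReal.ofReal ((B + C1 * 0.998 ^ o) * (R ^ 2 * Q ^ 2)))
    (hC0' : 1 ≤ C0) (M : ℝ) (u : ℕ → E → ENNReal) (hM : 2 ≤ M) (hu : Fam S N M u) (H : ℝ)
    (hH : 1 ≤ H) (hL : 40000 ≤ Real.log H) (k : ℕ) :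
    ∀ (R Q : ℝ) (t : ℕ), 1 ≤ R → 1 ≤ Q →
      Q ≤ Real.exp (Real.log H / 2000 * (10 / 9) ^ k) → H * Q ^ 6 ≤ R ^ 7 →
      51 * Real.log R + 23 * Real.log Q ≤ t →
      Sm S N R Q (u t) ≤ ENNReal.ofReal ((C0 / (Real.log M) ^ A +
        k * (C1 * (2 * Real.exp (-(Real.log H / 1000000))))) * (R ^ 2 * Q ^ 2)) := by
  have hlM : 0 < Real.log M := Real.log_pos (by linarith)
  set L := Real.log H with hLdef
  set η : ℝ := 2 * Real.exp (-(L / 1000000)) with hη
  have hηp : 0 < η := by positivity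
  induction k with
  | zero =>
    intro R Q t hR hQ hQk hHQ ht
    have hlQ : 0 ≤ Real.log Q := Real.log_nonneg hQ
    have hlR : L / 7 ≤ Real.log R := by
      have h1 : H ≤ R ^ 7 := by
        refine le_trans ?_ hHQ
        have : (1 : ℝ) ≤ Q ^ 6 := one_le_pow₀ hQ
        nlinarith
      have h2 := Real.log_le_log (by linarith) h1
      rw [Real.log_pow] at h2
      push_cast at h2
      linarith
    have hfl : L / 280 - 1 ≤ (⌊Real.log R / 40⌋₊ : ℝ) := by
      have := Nat.lt_floor_add_one (Real.log R / 40)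
      linarith
    have hQ76 : Q ≤ (7 / 6) ^ ⌊Real.log R / 40⌋₊ := by
      refine hQk.trans (le_trans (Real.exp_le_exp.2 ?_) (bx_76 _))
      rw [pow_zero, mul_one]
      linarith
    have h := hC0 M u hM hu R Q t hR hQ hQ76 (by linarith)
    simpa using h
  | succ k ih =>
    intro R Q t hR hQ hQk hHQ ht
    have hR0 : (0 : ℝ) < R := by linarith
    have hQ0 : (0 : ℝ) < Q := by linarith
    have hRQ : 0 ≤ R ^ 2 * Q ^ 2 := by positivity
    have hB0 : 0 ≤ C0 / (Real.log M) ^ A := by positivity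
    by_cases hc : Q ≤ Real.exp (L / 2000 * (10 / 9) ^ k)
    · refine (ih R Q t hR hQ hc hHQ ht).trans (ENNReal.ofReal_le_ofReal ?_)
      refine mul_le_mul_of_nonneg_right ?_ hRQ
      push_cast
      nlinarith [mul_pos (show (0 : ℝ) < C1 by linarith) hηp]
    · push Not at hc
      have hlQ : L / 2000 * (10 / 9) ^ k < Real.log Q := (Real.lt_log_iff_exp_lt hQ0).2 hc
      have hpk : (1 : ℝ) ≤ (10 / 9) ^ k := one_le_pow₀ (by norm_num)
      have hlQ2 : L / 2000 ≤ Real.log Q := by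
        have : L / 2000 * 1 ≤ L / 2000 * (10 / 9) ^ k :=
          mul_le_mul_of_nonneg_left hpk (by linarith)
        linarith
      have hlQ3 : 20 ≤ Real.log Q := by linarith
      have hlR0 : 0 ≤ Real.log R := Real.log_nonneg hR
      obtain ⟨o, ho⟩ : ∃ o : ℕ, o = ⌊Real.log Q⌋₊ := ⟨_, rfl⟩
      have ho1 : (o : ℝ) ≤ Real.log Q := by
        rw [ho]
        exact Nat.floor_le (by linarith)
      have ho2 : Real.log Q < o + 1 := by
        rw [ho]
        exact Nat.lt_floor_add_one _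
      have ho3 : 1 ≤ o := by
        have h : (1 : ℝ) ≤ o := by linarith
        exact_mod_cast h
      have hexp : Real.exp o ≤ Q := by
        rw [← Real.exp_log hQ0]
        exact Real.exp_le_exp.2 ho1
      have hot : o ≤ t := by
        have h : (o : ℝ) ≤ t := by linarith
        exact_mod_cast h
      have h1 : Sm S N R Q (u t) ≤ Sm S N R Q (fun z => u (t - o) ((T S.toSys N)^[o] z)) := by
        refine Sm_mono S N R Q fun z hz => ?_
        have := hu.iter (t - o) o hz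
        rwa [Nat.sub_add_cancel hot] at this
      have hQR : Q ^ 6 ≤ R ^ 7 := by
        refine le_trans ?_ hHQ
        have : (0 : ℝ) ≤ Q ^ 6 := by positivity
        nlinarith
      have h2 := hC1 o R Q (C0 / (Real.log M) ^ A + k * (C1 * η)) (u (t - o)) ho3 hR0 hexp hQR
        (by positivity) (hu.le_one _) (by
          intro a b hab hw
          have hw2 := W2_pos S a b
          have hw3 := W3_pos S a b
          have hl2 := bx_log2 S a b
          have hl3 := bx_log3 S a b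
          have hw3l := bx_w3l S a b
          have hw3u := bx_w3u S a b
          rw [hab] at hl2 hl3 hw3l hw3u
          set w2 := ‖(W S a b).2.1‖ with hw2d
          set w3 := ‖(W S a b).2.2‖ with hw3d
          have hQ1 : 1 ≤ Q * w3 := by
            have e1 : (2 : ℝ) ^ o ≤ Real.exp o := by
              have h2e : (2 : ℝ) ≤ Real.exp 1 := by
                have := Real.add_one_le_exp (1 : ℝ)
                linarith
              have := pow_le_pow_left₀ (by norm_num) h2e o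
              rwa [← Real.exp_nat_mul, mul_one] at this
            have e2 : (1 : ℝ) = 2 ^ o * (1 / 2) ^ o := by
              rw [← mul_pow]
              norm_num
            rw [e2]
            exact mul_le_mul (e1.trans hexp) hw3l (by positivity) hQ0.le
          have hw67 : w3 ^ 6 ≤ w2 ^ 7 := by
            calc w3 ^ 6 = (w3 ^ 2) ^ 3 := by ring
              _ ≤ ((0.7332 : ℝ) ^ o) ^ 3 := pow_le_pow_left₀ (by positivity) hw3u 3
              _ = ((0.7332 : ℝ) ^ 3) ^ o := by rw [← pow_mul, ← pow_mul, mul_comm]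
              _ ≤ ((0.878 : ℝ) ^ 7) ^ o := pow_le_pow_left₀ (by norm_num) (by norm_num) o
              _ = ((0.878 : ℝ) ^ o) ^ 7 := by rw [← pow_mul, ← pow_mul, mul_comm]
              _ ≤ w2 ^ 7 := pow_le_pow_left₀ (by positivity) hw 7
          have hHQ1 : H * (Q * w3) ^ 6 ≤ (R * w2) ^ 7 := by
            calc H * (Q * w3) ^ 6 = (H * Q ^ 6) * w3 ^ 6 := by ring
              _ ≤ R ^ 7 * w2 ^ 7 := mul_le_mul hHQ hw67 (by positivity) (by positivity)
              _ = (R * w2) ^ 7 := by ring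
          have hR1 : 1 ≤ R * w2 := by
            have h7 : (1 : ℝ) ≤ (R * w2) ^ 7 := by
              refine le_trans ?_ hHQ1
              have := one_le_pow₀ hQ1 (n := 6)
              nlinarith
            by_contra hcc
            push Not at hcc
            have := pow_lt_one₀ (mul_pos hR0 hw2).le hcc (n := 7) (by norm_num)
            linarith
          have hlR1 : Real.log (R * w2) = Real.log R + Real.log w2 :=
            Real.log_mul hR0.ne' hw2.ne'
          have hlQ1 : Real.log (Q * w3) = Real.log Q + Real.log w3 :=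
            Real.log_mul hQ0.ne' hw3.ne'
          refine ih (R * w2) (Q * w3) (t - o) hR1 hQ1 ?_ hHQ1 ?_
          · rw [← Real.log_le_iff_le_exp (by positivity), hlQ1]
            have hlQu : Real.log Q ≤ L / 2000 * (10 / 9) ^ (k + 1) :=
              (Real.log_le_iff_le_exp hQ0).2 hQk
            have e : L / 2000 * (10 / 9 : ℝ) ^ (k + 1) = 10 / 9 * (L / 2000 * (10 / 9) ^ k) := by
              ring
            rw [e] at hlQu
            nlinarith
          · rw [hlR1, hlQ1, Nat.cast_sub hot]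
            nlinarith)
      refine h1.trans (h2.trans (ENNReal.ofReal_le_ofReal ?_))
      refine mul_le_mul_of_nonneg_right ?_ hRQ
      have h3 := bx_998 o L (by linarith)
      rw [← hη] at h3
      push_cast
      have : C1 * 0.998 ^ o ≤ C1 * η := mul_le_mul_of_nonneg_left h3 (by linarith)
      linarith

theorem bx_exp (A : ℕ) {L : ℝ} (hL : 0 < L) :
    Real.exp (-(L / 1000000)) ≤ (A.factorial : ℝ) * 1000000 ^ A / L ^ A := by
  have h := Real.pow_div_factorial_le_exp (L / 1000000) (by positivity) A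
  rw [Real.exp_neg, le_div_iff₀ (by positivity), inv_mul_eq_div, div_le_iff₀ (Real.exp_pos _)]
  rw [div_pow, div_div, div_le_iff₀ (by positivity)] at h
  linarith

theorem box (S : Sys2) (N : ℕ) (hN : 1 ≤ N) (A : ℕ) : ∃ C : ℝ, 1 ≤ C ∧
    ∀ (M : ℝ) (u : ℕ → E → ENNReal), 2 ≤ M → Fam S N M u → ∀ (H : ℝ) (t : ℕ), 1 ≤ H →
      80 * Real.log H ≤ t →
      Sm S N H H (u t) ≤ ENNReal.ofReal (C / (Real.log M) ^ A * H ^ 4) := by
  obtain ⟨Cs, hCs', hCs⟩ := small_base S N hN A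
  obtain ⟨Ct, hCt', hCt⟩ := Sm_triv S N hN
  obtain ⟨C0, hC0', hC0⟩ := box0 S N hN A
  obtain ⟨C1, hC1', hC1⟩ := smooth_step S N hN
  set K : ℝ := 73 * (C1 * (2 * ((A.factorial : ℝ) * 1000000 ^ A))) * 2 ^ A with hK
  have hK0 : 0 ≤ K := by positivity
  refine ⟨Cs + Ct * 80000 ^ A + (C0 + K), ?_, ?_⟩
  · have : 0 ≤ Ct * 80000 ^ A := by positivity
    linarith
  intro M u hM hu H t hH ht
  have hlM : 0 < Real.log M := Real.log_pos (by linarith)
  have hlMA : 0 < (Real.log M) ^ A := by positivity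
  have hH4 : (0 : ℝ) ≤ H ^ 4 := by positivity
  have hCt0 : 0 ≤ Ct * 80000 ^ A := by positivity
  by_cases h1 : H ^ 2 ≤ M
  · refine (hCs M u hM hu H H t hH hH h1 h1).trans (ENNReal.ofReal_le_ofReal ?_)
    have e : H ^ 2 * H ^ 2 = H ^ 4 := by ring
    rw [e]
    refine mul_le_mul_of_nonneg_right ?_ hH4
    refine div_le_div_of_nonneg_right ?_ hlMA.le
    linarith
  push Not at h1
  have hlMH : Real.log M ≤ 2 * Real.log H := by
    have := Real.log_le_log (by linarith) h1.le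
    rw [Real.log_pow] at this
    exact_mod_cast this
  by_cases h2 : Real.log H ≤ 40000
  · refine (hCt H H (u t) hH hH (hu.le_one t)).trans (ENNReal.ofReal_le_ofReal ?_)
    have e : Ct * (H ^ 2 * H ^ 2) = Ct * H ^ 4 := by ring
    rw [e]
    refine mul_le_mul_of_nonneg_right ?_ hH4
    rw [le_div_iff₀ hlMA]
    have h3 : (Real.log M) ^ A ≤ 80000 ^ A := pow_le_pow_left₀ hlM.le (by linarith) A
    have h4 : Ct * (Real.log M) ^ A ≤ Ct * 80000 ^ A := mul_le_mul_of_nonneg_left h3 (by linarith)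
    linarith
  push Not at h2
  have hL0 : 0 < Real.log H := by linarith
  have h3 := bx_claim S N A C0 C1 hC0 hC1' hC1 hC0' M u hM hu H hH h2.le 73 H H t hH hH (by
      have hp : (2000 : ℝ) ≤ (10 / 9) ^ 73 := by norm_num
      conv_lhs => rw [← Real.exp_log (show (0 : ℝ) < H by linarith)]
      refine Real.exp_le_exp.2 ?_
      nlinarith) (by
      have : H * H ^ 6 = H ^ 7 := by ring
      exact this.le) (by linarith)
  refine h3.trans (ENNReal.ofReal_le_ofReal ?_)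
  have e : H ^ 2 * H ^ 2 = H ^ 4 := by ring
  rw [e]
  refine mul_le_mul_of_nonneg_right ?_ hH4
  have h4 := bx_exp A hL0
  have h5 : 1 / (Real.log H) ^ A ≤ 2 ^ A / (Real.log M) ^ A := by
    rw [div_le_div_iff₀ (by positivity) hlMA, one_mul, ← mul_pow]
    exact pow_le_pow_left₀ hlM.le hlMH A
  have h6 : ((73 : ℕ) : ℝ) * (C1 * (2 * Real.exp (-(Real.log H / 1000000)))) ≤
      K / (Real.log M) ^ A := by
    calc ((73 : ℕ) : ℝ) * (C1 * (2 * Real.exp (-(Real.log H / 1000000))))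
        ≤ 73 * (C1 * (2 * ((A.factorial : ℝ) * 1000000 ^ A / (Real.log H) ^ A))) := by
          push_cast
          have : (0 : ℝ) ≤ C1 := by linarith
          gcongr
      _ = 73 * (C1 * (2 * ((A.factorial : ℝ) * 1000000 ^ A))) * (1 / (Real.log H) ^ A) := by
          ring
      _ ≤ 73 * (C1 * (2 * ((A.factorial : ℝ) * 1000000 ^ A))) * (2 ^ A / (Real.log M) ^ A) := by
          refine mul_le_mul_of_nonneg_left h5 ?_
          positivity
      _ = K / (Real.log M) ^ A := by rw [hK]; ring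
  have h7 : (Cs + Ct * 80000 ^ A + (C0 + K)) / (Real.log M) ^ A =
      (Cs + Ct * 80000 ^ A) / (Real.log M) ^ A + C0 / (Real.log M) ^ A + K / (Real.log M) ^ A := by
    rw [add_div, add_div C0 K]
    ring
  have h8 : 0 ≤ (Cs + Ct * 80000 ^ A) / (Real.log M) ^ A := by positivity
  rw [h7]
  linarith

end Pool.Agent.H49.AB
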