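import Pool.Agent.H49.AB.SGB

/-!
# JOB AB-37. Families; the base of the chain

`Fam`: `u t` is like the indicator function of the points with no iterate `T^j z`, `j ≤ t`, of height `≤ M`.
`Sm_mono`, `Fam.mono`, `Fam.iter` (`u (t + k) z ≤ u t (T^[k] z)` on `G`, induction with `G_T`) are easy. `Sm_triv`: `lat_gauss` with centres `0`.

`chain_base`: Let `o = ⌊log R/40⌋₊`, `17 o ≤ 0.2125 log M`. If `‖z.2.1‖ ≤ M^(3/4)` and `‖z.2.2‖ ≤ M^(3/4)` then `T^[17 o] z = mul w * z + off w`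
(`iter_eq`, `w = itin`), second coordinate `≤ 1.0505^(17 o) (M^(3/4) + 17 o N) ≤ M` (`off2_bound`), third `≤ M^(3/4) + 6 N ≤ M` for `M ≥ M0(N)`; so
`u t (T^[17 o] z) = 0` by `small` (`G_iter`). The other points have `gs R 1 z ≤ exp(-(π/2) (‖z2‖²/R² + ‖z3‖²)) exp(-(π/2) M^(1/2))` (`R² ≤ M`), sum by `lat_gauss`
(`r2 = √2 R`, `r3 = √2`) `≤ C (1 + 4 R²) exp(-(π/2) √M) ≤ C' R²/(log M)^A`. For `M < M0`: `Sm_triv`.

`small_base`: points with `u t z ≠ 0` have `‖z.2.1‖ > M` or `‖z.2.2‖ > M` (`small`), so `gs R Q z ≤ gs (√2 R) (√2 Q) z * exp(-(π/2) M)` (`R², Q² ≤ M`),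
`lat_gauss`, `exp(-(π/2) M) ≤ C/(log M)^A`.
-/

set_option autoImplicit false

namespace Pool.Agent.H49.AB

open Pool.Agent.H67.Tent Finset MeasureTheory

/-- A family of functions like the indicators of the points which do not reach height `M` in time `t`. -/
structure Fam (S : Sys2) (N : ℕ) (M : ℝ) (u : ℕ → E → ENNReal) : Prop where
  le_one : ∀ t z, u t z ≤ 1
  zero : ∀ t, u t 0 = 0
  zeroN : ∀ t, u t (N : E) = 0
  step : ∀ t z, G S.toSys N z → u (t + 1) z ≤ u t (T S.toSys N z)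
  anti : ∀ t z, u (t + 1) z ≤ u t z
  small : ∀ t z, G S.toSys N z → ‖z.2.1‖ ≤ M → ‖z.2.2‖ ≤ M → u t z = 0

theorem Sm_mono (S : Sys2) (N : ℕ) (R Q : ℝ) {u v : E → ENNReal}
    (h : ∀ z, G S.toSys N z → u z ≤ v z) : Sm S N R Q u ≤ Sm S N R Q v := by
  unfold Sm
  exact SG_mono S N fun z hz => mul_le_mul_left (h z hz) _

theorem Fam.iter {S : Sys2} {N : ℕ} {M : ℝ} {u : ℕ → E → ENNReal} (hu : Fam S N M u) (t k : ℕ)
    {z : E} (hz : G S.toSys N z) : u (t + k) z ≤ u t ((T S.toSys N)^[k] z) := by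
  induction k generalizing z with
  | zero => simp
  | succ k ih =>
    rw [Function.iterate_succ_apply, ← Nat.add_assoc]
    exact (hu.step (t + k) z hz).trans (ih (G_T S.toSys N hz))

theorem Fam.mono {S : Sys2} {N : ℕ} {M : ℝ} {u : ℕ → E → ENNReal} (hu : Fam S N M u) {t t' : ℕ}
    (h : t ≤ t') (z : E) : u t' z ≤ u t z := by
  induction t', h using Nat.le_induction with
  | base => exact le_rfl
  | succ n _ ih => exact (hu.anti n z).trans ih

/-- tails of Gaussian sums -/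
theorem ch0_tail (S : Sys2) (N : ℕ) (hN : 1 ≤ N) : ∃ C : ℝ, 1 ≤ C ∧
    ∀ (R Q K : ℝ) (v : E → ENNReal), 0 < R → 0 < Q → (∀ z, v z ≤ 1) →
      (∀ z, G S.toSys N z → v z ≠ 0 → K ≤ ‖z.2.1‖ ^ 2 / R ^ 2 + ‖z.2.2‖ ^ 2 / Q ^ 2) →
      Sm S N R Q v ≤
        ENNReal.ofReal (C * (1 + 4 * (R ^ 2 * Q ^ 2)) * Real.exp (-(Real.pi / 2 * K))) := by
  obtain ⟨C, hC, h⟩ := lat_gauss S N hN
  have hpi := Real.pi_pos
  have h2 : Real.sqrt 2 ^ 2 = 2 := Real.sq_sqrt (by norm_num)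
  have h20 : 0 < Real.sqrt 2 := Real.sqrt_pos.2 (by norm_num)
  refine ⟨C, hC, fun R Q K v hR hQ hv1 hv => ?_⟩
  have key := h (Real.sqrt 2 * R) (Real.sqrt 2 * Q) 0 0 (by positivity) (by positivity)
  have hpt : ∀ z, G S.toSys N z → v z * ENNReal.ofReal (gs R Q z) ≤
      ENNReal.ofReal (Real.exp (-(Real.pi / 2 * K))) * ENNReal.ofReal (Real.exp (-(Real.pi *
        (‖z.2.1 - 0‖ ^ 2 / (Real.sqrt 2 * R) ^ 2 + ‖z.2.2 - 0‖ ^ 2 / (Real.sqrt 2 * Q) ^ 2)))) := by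
    intro z hz
    by_cases h0 : v z = 0
    · rw [h0, zero_mul]
      exact bot_le
    · have hK := hv z hz h0
      calc v z * ENNReal.ofReal (gs R Q z) ≤ 1 * ENNReal.ofReal (gs R Q z) :=
            mul_le_mul_left (hv1 z) _
        _ = ENNReal.ofReal (gs R Q z) := one_mul _
        _ ≤ _ := by
          rw [← ENNReal.ofReal_mul (Real.exp_pos _).le, ← Real.exp_add]
          refine ENNReal.ofReal_le_ofReal ?_
          unfold gs
          rw [Real.exp_le_exp]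
          have e1 : ‖z.2.1 - 0‖ ^ 2 / (Real.sqrt 2 * R) ^ 2 = (‖z.2.1‖ ^ 2 / R ^ 2) / 2 := by
            rw [sub_zero, mul_pow, h2]
            field_simp
          have e2 : ‖z.2.2 - 0‖ ^ 2 / (Real.sqrt 2 * Q) ^ 2 = (‖z.2.2‖ ^ 2 / Q ^ 2) / 2 := by
            rw [sub_zero, mul_pow, h2]
            field_simp
          rw [e1, e2]
          nlinarith
  unfold Sm
  refine (SG_mono S N hpt).trans ?_
  rw [SG_const_mul]
  refine (mul_le_mul_right key _).trans ?_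
  rw [← ENNReal.ofReal_mul (Real.exp_pos _).le]
  refine ENNReal.ofReal_le_ofReal (le_of_eq ?_)
  rw [mul_pow, mul_pow, h2]
  ring

/-- trivial bound -/
theorem Sm_triv (S : Sys2) (N : ℕ) (hN : 1 ≤ N) : ∃ C : ℝ, 1 ≤ C ∧
    ∀ (R Q : ℝ) (u : E → ENNReal), 1 ≤ R → 1 ≤ Q → (∀ z, u z ≤ 1) →
      Sm S N R Q u ≤ ENNReal.ofReal (C * (R ^ 2 * Q ^ 2)) := by
  obtain ⟨C, hC, h⟩ := ch0_tail S N hN
  refine ⟨5 * C, by linarith, fun R Q u hR hQ hu => ?_⟩
  refine (h R Q 0 u (by linarith) (by linarith) hu fun z _ _ => by positivity).trans ?_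
  refine ENNReal.ofReal_le_ofReal ?_
  rw [mul_zero, neg_zero, Real.exp_zero, mul_one]
  have h1 : (1 : ℝ) ≤ R ^ 2 * Q ^ 2 := by
    have h1 : (1 : ℝ) ≤ R ^ 2 := one_le_pow₀ hR
    have h2 : (1 : ℝ) ≤ Q ^ 2 := one_le_pow₀ hQ
    nlinarith
  nlinarith

/-- `exp (-(π/2) √M)` beats powers of `log M` -/
theorem ch0_exp (A : ℕ) (M : ℝ) (hM : 2 ≤ M) :
    Real.exp (-(Real.pi / 2 * Real.sqrt M)) ≤ 2 ^ A * A.factorial / (Real.log M) ^ A := by
  have hM0 : 0 < M := by linarith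
  have hlogM : 0 < Real.log M := Real.log_pos (by linarith)
  have hs : 0 < Real.sqrt M := Real.sqrt_pos.2 hM0
  have h1 : Real.log M ≤ 2 * Real.sqrt M := by
    have h := Real.log_le_sub_one_of_pos hs
    rw [Real.log_sqrt hM0.le] at h
    linarith
  have h2 : (Real.sqrt M) ^ A / A.factorial ≤ Real.exp (Real.sqrt M) :=
    Real.pow_div_factorial_le_exp _ hs.le _
  have hf : (0 : ℝ) < A.factorial := by exact_mod_cast A.factorial_pos
  rw [le_div_iff₀ (pow_pos hlogM _)]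
  rw [div_le_iff₀ hf] at h2
  have h3 : (Real.log M) ^ A ≤ 2 ^ A * (Real.sqrt M) ^ A := by
    rw [← mul_pow]
    exact pow_le_pow_left₀ hlogM.le h1 A
  have h4 : Real.exp (-(Real.pi / 2 * Real.sqrt M)) * Real.exp (Real.sqrt M) ≤ 1 := by
    rw [← Real.exp_add, Real.exp_le_one_iff]
    have := Real.pi_gt_three
    nlinarith
  calc Real.exp (-(Real.pi / 2 * Real.sqrt M)) * (Real.log M) ^ A
      ≤ Real.exp (-(Real.pi / 2 * Real.sqrt M)) *
        (2 ^ A * (Real.exp (Real.sqrt M) * A.factorial)) := by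
        refine mul_le_mul_of_nonneg_left (h3.trans ?_) (Real.exp_pos _).le
        exact mul_le_mul_of_nonneg_left h2 (by positivity)
    _ = 2 ^ A * A.factorial * (Real.exp (-(Real.pi / 2 * Real.sqrt M)) *
        Real.exp (Real.sqrt M)) := by ring
    _ ≤ 2 ^ A * A.factorial * 1 := mul_le_mul_of_nonneg_left h4 (by positivity)
    _ = _ := mul_one _

theorem ch0_mul2 (S : Sys2) (w : List Bool) : ‖(mul S.toSys w).2.1‖ ≤ 1.0505 ^ w.length := by
  rw [mul_norm2, ← count_add w, pow_add]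
  have ha : ‖S.a.2.1‖ ≤ 1.0505 := by
    have := S.a2u
    have h0 := norm_nonneg S.a.2.1
    nlinarith
  have hb : ‖S.b.2.1‖ ≤ 1.0505 := (pass_b2 S.toSys).trans (by norm_num)
  exact mul_le_mul (pow_le_pow_left₀ (norm_nonneg _) ha _)
    (pow_le_pow_left₀ (norm_nonneg _) hb _) (pow_nonneg (norm_nonneg _) _) (by positivity)

theorem ch0_pow (p q : ℝ) (h : p < q) :
    ∀ᶠ M : ℝ in Filter.atTop, M ^ p ≤ (1 / 2) * M ^ q := by
  have h1 := (tendsto_rpow_atTop (sub_pos.2 h)).eventually (Filter.eventually_ge_atTop 2)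
  filter_upwards [h1, Filter.eventually_gt_atTop 0] with M hM hM0
  have h2 : M ^ q = M ^ p * M ^ (q - p) := by
    rw [← Real.rpow_add hM0]
    congr 1
    ring
  have h3 : 0 ≤ M ^ p := Real.rpow_nonneg hM0.le _
  rw [h2]
  nlinarith

theorem ch0_large (N : ℕ) : ∃ M0 : ℝ, 2 ≤ M0 ∧ ∀ M : ℝ, M0 ≤ M →
    M ^ (3 / 4 : ℝ) + N * Real.log M ≤ M ^ (9 / 10 : ℝ) ∧ M ^ (3 / 4 : ℝ) + 6 * N ≤ M := by
  have h1 : ∀ᶠ M : ℝ in Filter.atTop, M ^ (3 / 4 : ℝ) ≤ (1 / 2) * M ^ (9 / 10 : ℝ) := by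
    exact ch0_pow (3 / 4) (9 / 10) (by norm_num)
  have h2 : ∀ᶠ M : ℝ in Filter.atTop, (N : ℝ) * Real.log M ≤ (1 / 2) * M ^ (9 / 10 : ℝ) := by
    have h := (isLittleO_log_rpow_atTop (show (0 : ℝ) < 9 / 10 by norm_num)).bound
      (show (0 : ℝ) < 1 / (2 * (N + 1)) by positivity)
    filter_upwards [h, Filter.eventually_ge_atTop 1] with M hM hM0
    rw [Real.norm_of_nonneg (Real.log_nonneg hM0),
      Real.norm_of_nonneg (Real.rpow_nonneg (by linarith) _)] at hM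
    have h3 : (0 : ℝ) ≤ N := Nat.cast_nonneg N
    have h4 : (0 : ℝ) ≤ M ^ (9 / 10 : ℝ) := Real.rpow_nonneg (by linarith) _
    calc (N : ℝ) * Real.log M ≤ N * (1 / (2 * (N + 1)) * M ^ (9 / 10 : ℝ)) :=
          mul_le_mul_of_nonneg_left hM h3
      _ = (N / (N + 1)) * ((1 / 2) * M ^ (9 / 10 : ℝ)) := by field_simp
      _ ≤ 1 * ((1 / 2) * M ^ (9 / 10 : ℝ)) := by
          refine mul_le_mul_of_nonneg_right ?_ (by positivity)
          rw [div_le_one (by positivity)]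
          linarith
      _ = _ := one_mul _
  have h3 : ∀ᶠ M : ℝ in Filter.atTop, M ^ (3 / 4 : ℝ) ≤ (1 / 2) * M ^ (1 : ℝ) := by
    exact ch0_pow (3 / 4) 1 (by norm_num)
  obtain ⟨K, hK⟩ := Filter.eventually_atTop.1 (h1.and (h2.and h3))
  refine ⟨max K (max 2 (12 * N)), (le_max_left _ _).trans (le_max_right _ _), fun M hM => ?_⟩
  obtain ⟨g1, g2, g3⟩ := hK M ((le_max_left _ _).trans hM)
  have hM2 : (12 : ℝ) * N ≤ M := ((le_max_right _ _).trans (le_max_right _ _)).trans hM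
  rw [Real.rpow_one] at g3
  exact ⟨by linarith, by linarith⟩

theorem chain_base (S : Sys2) (N : ℕ) (hN : 1 ≤ N) (A : ℕ) : ∃ C : ℝ, 1 ≤ C ∧
    ∀ (M : ℝ) (u : ℕ → E → ENNReal), 2 ≤ M → Fam S N M u → ∀ (R : ℝ) (t : ℕ), 1 ≤ R →
      R ^ 2 ≤ M →
      Sm S N R 1 (fun z => u t ((T S.toSys N)^[17 * ⌊Real.log R / 40⌋₊] z)) ≤
        ENNReal.ofReal (C / (Real.log M) ^ A * R ^ 2) := by
  obtain ⟨C1, hC1, htail⟩ := ch0_tail S N hN
  obtain ⟨C2, hC2, htriv⟩ := Sm_triv S N hN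
  obtain ⟨M0, hM0, hlarge⟩ := ch0_large N
  have hf : (1 : ℝ) ≤ A.factorial := by exact_mod_cast A.factorial_pos
  have hm : (1 : ℝ) ≤ max 1 (Real.log M0) := le_max_left _ _
  have e1 : (1 : ℝ) ≤ 5 * C1 * (2 ^ A * A.factorial) := by
    have h1 : (1 : ℝ) ≤ 2 ^ A := one_le_pow₀ (by norm_num)
    have h2 : (1 : ℝ) ≤ 2 ^ A * A.factorial := by nlinarith
    nlinarith
  have e2 : (0 : ℝ) ≤ C2 * max 1 (Real.log M0) ^ A := by positivity
  refine ⟨5 * C1 * (2 ^ A * A.factorial) + C2 * max 1 (Real.log M0) ^ A, by linarith, ?_⟩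
  intro M u hM hu R t hR hRM
  have hM00 : 0 < M := by linarith
  have hlogM : 0 < Real.log M := Real.log_pos (by linarith)
  have hR2 : (1 : ℝ) ≤ R ^ 2 := one_le_pow₀ hR
  by_cases hMM : M < M0
  · refine (htriv R 1 _ hR le_rfl fun z => hu.le_one _ _).trans (ENNReal.ofReal_le_ofReal ?_)
    rw [one_pow, mul_one]
    refine mul_le_mul_of_nonneg_right ?_ (by positivity)
    rw [le_div_iff₀ (pow_pos hlogM _)]
    have h1 : Real.log M ≤ max 1 (Real.log M0) :=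
      (Real.log_le_log hM00 hMM.le).trans (le_max_right _ _)
    have h2 : Real.log M ^ A ≤ max 1 (Real.log M0) ^ A := pow_le_pow_left₀ hlogM.le h1 A
    have h3 : C2 * Real.log M ^ A ≤ C2 * max 1 (Real.log M0) ^ A :=
      mul_le_mul_of_nonneg_left h2 (by linarith)
    linarith
  · push Not at hMM
    obtain ⟨hl1, hl2⟩ := hlarge M hMM
    set n := 17 * ⌊Real.log R / 40⌋₊ with hn
    have hlogR : 0 ≤ Real.log R := Real.log_nonneg hR
    have hlogRM : 2 * Real.log R ≤ Real.log M := by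
      have h := Real.log_le_log (by positivity) hRM
      rw [Real.log_pow] at h
      push_cast at h
      exact h
    have hnle : (n : ℝ) ≤ Real.log M / 4 := by
      have h1 : (⌊Real.log R / 40⌋₊ : ℝ) ≤ Real.log R / 40 := Nat.floor_le (by positivity)
      rw [hn]
      push_cast
      linarith
    have hn0 : (0 : ℝ) ≤ n := Nat.cast_nonneg n
    have hN0 : (0 : ℝ) ≤ N := Nat.cast_nonneg N
    have hpow : (1.0505 : ℝ) ^ n ≤ M ^ (1 / 80 : ℝ) := by
      have h1 : (1.0505 : ℝ) ≤ Real.exp (1 / 20) := by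
        have h := Real.quadratic_le_exp_of_nonneg (show (0 : ℝ) ≤ 1 / 20 by norm_num)
        linarith
      calc (1.0505 : ℝ) ^ n ≤ (Real.exp (1 / 20)) ^ n := pow_le_pow_left₀ (by norm_num) h1 n
        _ = Real.exp (n * (1 / 20)) := by rw [← Real.exp_nat_mul]
        _ ≤ Real.exp (Real.log M * (1 / 80)) := by
            rw [Real.exp_le_exp]
            linarith
        _ = M ^ (1 / 80 : ℝ) := by rw [Real.rpow_def_of_pos hM00]
    have hM34 : 0 ≤ M ^ (3 / 4 : ℝ) := Real.rpow_nonneg hM00.le _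
    have hzero : ∀ z, G S.toSys N z → ‖z.2.1‖ ≤ M ^ (3 / 4 : ℝ) → ‖z.2.2‖ ≤ M ^ (3 / 4 : ℝ) →
        u t ((T S.toSys N)^[n] z) = 0 := by
      intro z hz h1 h2
      refine hu.small t _ (G_iter S.toSys N hz n) ?_ ?_
      · have h3 : ((T S.toSys N)^[n] z).2.1 = (mul S.toSys (itin S.toSys N n z)).2.1 * z.2.1 +
            (off S.toSys N (itin S.toSys N n z)).2.1 := by
          rw [iter_eq]
          rfl
        have h4 := ch0_mul2 S (itin S.toSys N n z)
        have h5 := off2_bound S N (itin S.toSys N n z)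
        rw [itin_length] at h4 h5
        rw [h3]
        have h6 : (N : ℝ) * n ≤ N * Real.log M := mul_le_mul_of_nonneg_left (by linarith) hN0
        calc ‖(mul S.toSys (itin S.toSys N n z)).2.1 * z.2.1 +
            (off S.toSys N (itin S.toSys N n z)).2.1‖
            ≤ ‖(mul S.toSys (itin S.toSys N n z)).2.1‖ * ‖z.2.1‖ +
              ‖(off S.toSys N (itin S.toSys N n z)).2.1‖ := by
              rw [← norm_mul]
              exact norm_add_le _ _
          _ ≤ 1.0505 ^ n * M ^ (3 / 4 : ℝ) + N * n * 1.0505 ^ n :=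
              add_le_add (mul_le_mul h4 h1 (norm_nonneg _) (by positivity)) h5
          _ = 1.0505 ^ n * (M ^ (3 / 4 : ℝ) + N * n) := by ring
          _ ≤ M ^ (1 / 80 : ℝ) * (M ^ (3 / 4 : ℝ) + N * n) :=
              mul_le_mul_of_nonneg_right hpow (by positivity)
          _ ≤ M ^ (1 / 80 : ℝ) * M ^ (9 / 10 : ℝ) :=
              mul_le_mul_of_nonneg_left (by linarith) (Real.rpow_nonneg hM00.le _)
          _ = M ^ (1 / 80 + 9 / 10 : ℝ) := by rw [← Real.rpow_add hM00]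
          _ ≤ M ^ (1 : ℝ) := Real.rpow_le_rpow_of_exponent_le (by linarith) (by norm_num)
          _ = M := Real.rpow_one _
      · have h3 : ((T S.toSys N)^[n] z).2.2 = (mul S.toSys (itin S.toSys N n z)).2.2 * z.2.2 +
            (off S.toSys N (itin S.toSys N n z)).2.2 := by
          rw [iter_eq]
          rfl
        have h4 : ‖(mul S.toSys (itin S.toSys N n z)).2.2‖ ≤ 1 :=
          (mul3_le S.toSys _).trans (pow_le_one₀ (by norm_num) (by norm_num))
        have h5 := off3_bound S N (itin S.toSys N n z)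
        rw [h3]
        calc ‖(mul S.toSys (itin S.toSys N n z)).2.2 * z.2.2 +
            (off S.toSys N (itin S.toSys N n z)).2.2‖
            ≤ ‖(mul S.toSys (itin S.toSys N n z)).2.2‖ * ‖z.2.2‖ +
              ‖(off S.toSys N (itin S.toSys N n z)).2.2‖ := by
              rw [← norm_mul]
              exact norm_add_le _ _
          _ ≤ 1 * M ^ (3 / 4 : ℝ) + 6 * N :=
              add_le_add (mul_le_mul h4 h2 (norm_nonneg _) (by norm_num)) h5
          _ ≤ M := by linarith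
    have hs : 0 ≤ Real.sqrt M := Real.sqrt_nonneg _
    have hM32 : (M ^ (3 / 4 : ℝ)) ^ 2 = M * Real.sqrt M := by
      rw [Real.sqrt_eq_rpow, ← Real.rpow_natCast, ← Real.rpow_mul hM00.le]
      nth_rewrite 2 [← Real.rpow_one M]
      rw [← Real.rpow_add hM00]
      norm_num
    have hM1 : 1 ≤ M := by linarith
    refine (htail R 1 (Real.sqrt M) _ (by linarith) one_pos (fun z => hu.le_one _ _) ?_).trans ?_
    · intro z hz hne
      by_contra hcon
      push Not at hcon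
      apply hne
      have hA : 0 ≤ ‖z.2.1‖ ^ 2 / R ^ 2 := by positivity
      have hB : 0 ≤ ‖z.2.2‖ ^ 2 / (1 : ℝ) ^ 2 := by positivity
      refine hzero z hz ?_ ?_
      · rw [← abs_of_nonneg (norm_nonneg z.2.1), ← abs_of_nonneg hM34]
        apply sq_le_sq.1
        rw [hM32]
        have h1 : ‖z.2.1‖ ^ 2 / R ^ 2 ≤ Real.sqrt M := by linarith
        rw [div_le_iff₀ (by positivity)] at h1
        calc ‖z.2.1‖ ^ 2 ≤ Real.sqrt M * R ^ 2 := h1
          _ ≤ Real.sqrt M * M := mul_le_mul_of_nonneg_left hRM hs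
          _ = _ := mul_comm _ _
      · rw [← abs_of_nonneg (norm_nonneg z.2.2), ← abs_of_nonneg hM34]
        apply sq_le_sq.1
        rw [hM32]
        have h1 : ‖z.2.2‖ ^ 2 / (1 : ℝ) ^ 2 ≤ Real.sqrt M := by linarith
        rw [one_pow, div_one] at h1
        nlinarith
    · refine ENNReal.ofReal_le_ofReal ?_
      have h1 := ch0_exp A M hM
      have h2 : (0 : ℝ) ≤ 2 ^ A * A.factorial / (Real.log M) ^ A := by positivity
      have h3 : C1 * (1 + 4 * (R ^ 2 * 1 ^ 2)) ≤ 5 * C1 * R ^ 2 := by nlinarith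
      have h4 : 0 ≤ C1 * (1 + 4 * (R ^ 2 * 1 ^ 2)) := by positivity
      calc C1 * (1 + 4 * (R ^ 2 * 1 ^ 2)) * Real.exp (-(Real.pi / 2 * Real.sqrt M))
          ≤ (5 * C1 * R ^ 2) * (2 ^ A * A.factorial / (Real.log M) ^ A) :=
            mul_le_mul h3 h1 (Real.exp_pos _).le (by positivity)
        _ = 5 * C1 * (2 ^ A * A.factorial) / (Real.log M) ^ A * R ^ 2 := by ring
        _ ≤ _ := by
          refine mul_le_mul_of_nonneg_right ?_ (by positivity)
          exact div_le_div_of_nonneg_right (by linarith) (pow_nonneg hlogM.le _)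

theorem small_base (S : Sys2) (N : ℕ) (hN : 1 ≤ N) (A : ℕ) : ∃ C : ℝ, 1 ≤ C ∧
    ∀ (M : ℝ) (u : ℕ → E → ENNReal), 2 ≤ M → Fam S N M u → ∀ (R Q : ℝ) (t : ℕ), 1 ≤ R → 1 ≤ Q →
      R ^ 2 ≤ M → Q ^ 2 ≤ M →
      Sm S N R Q (u t) ≤ ENNReal.ofReal (C / (Real.log M) ^ A * (R ^ 2 * Q ^ 2)) := by
  obtain ⟨C1, hC1, htail⟩ := ch0_tail S N hN
  have hf : (1 : ℝ) ≤ A.factorial := by exact_mod_cast A.factorial_pos
  have e1 : (1 : ℝ) ≤ 5 * C1 * (2 ^ A * A.factorial) := by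
    have h1 : (1 : ℝ) ≤ 2 ^ A := one_le_pow₀ (by norm_num)
    have h2 : (1 : ℝ) ≤ 2 ^ A * A.factorial := by nlinarith
    nlinarith
  refine ⟨5 * C1 * (2 ^ A * A.factorial), e1, ?_⟩
  intro M u hM hu R Q t hR hQ hRM hQM
  have hM00 : 0 < M := by linarith
  have hlogM : 0 < Real.log M := Real.log_pos (by linarith)
  have hR2 : (1 : ℝ) ≤ R ^ 2 := one_le_pow₀ hR
  have hQ2 : (1 : ℝ) ≤ Q ^ 2 := one_le_pow₀ hQ
  have hRQ : (1 : ℝ) ≤ R ^ 2 * Q ^ 2 := by nlinarith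
  have hs : 0 ≤ Real.sqrt M := Real.sqrt_nonneg _
  have hsM : Real.sqrt M ≤ M := by
    have h1 : 1 ≤ Real.sqrt M := by
      rw [Real.one_le_sqrt]
      linarith
    have h2 : Real.sqrt M * Real.sqrt M = M := Real.mul_self_sqrt hM00.le
    nlinarith
  refine (htail R Q (Real.sqrt M) _ (by linarith) (by linarith) (fun z => hu.le_one _ _) ?_).trans
    ?_
  · intro z hz hne
    by_contra hcon
    push Not at hcon
    apply hne
    have hA : 0 ≤ ‖z.2.1‖ ^ 2 / R ^ 2 := by positivity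
    have hB : 0 ≤ ‖z.2.2‖ ^ 2 / Q ^ 2 := by positivity
    refine hu.small t z hz ?_ ?_
    · rw [← abs_of_nonneg (norm_nonneg z.2.1), ← abs_of_nonneg hM00.le]
      apply sq_le_sq.1
      have h1 : ‖z.2.1‖ ^ 2 / R ^ 2 ≤ M := by linarith
      rw [div_le_iff₀ (by positivity)] at h1
      calc ‖z.2.1‖ ^ 2 ≤ M * R ^ 2 := h1
        _ ≤ M * M := mul_le_mul_of_nonneg_left hRM hM00.le
        _ = _ := by ring
    · rw [← abs_of_nonneg (norm_nonneg z.2.2), ← abs_of_nonneg hM00.le]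
      apply sq_le_sq.1
      have h1 : ‖z.2.2‖ ^ 2 / Q ^ 2 ≤ M := by linarith
      rw [div_le_iff₀ (by positivity)] at h1
      calc ‖z.2.2‖ ^ 2 ≤ M * Q ^ 2 := h1
        _ ≤ M * M := mul_le_mul_of_nonneg_left hQM hM00.le
        _ = _ := by ring
  · refine ENNReal.ofReal_le_ofReal ?_
    have h1 := ch0_exp A M hM
    have h3 : C1 * (1 + 4 * (R ^ 2 * Q ^ 2)) ≤ 5 * C1 * (R ^ 2 * Q ^ 2) := by nlinarith
    calc C1 * (1 + 4 * (R ^ 2 * Q ^ 2)) * Real.exp (-(Real.pi / 2 * Real.sqrt M))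
        ≤ (5 * C1 * (R ^ 2 * Q ^ 2)) * (2 ^ A * A.factorial / (Real.log M) ^ A) :=
          mul_le_mul h3 h1 (Real.exp_pos _).le (by positivity)
      _ = _ := by ring

end Pool.Agent.H49.AB
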