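import Pool.Agent.H49.AB.Step
import Pool.Agent.H49.AB.Chain0

/-!
# JOB AB-38. The chain of scales

It is enough to treat `A ≥ 1` (for `A = 0` use the statement for `A = 1` and `log M ≥ log 2`… or `Sm_triv`). Let `L = log M`, `g(R) = K (2 (L/4)^(-A) - (log R)^(-A))`.
Claim: for all `R ≥ 1` with `log R ≥ L/4` and all `t ≥ 50 log R`: `Sm R 1 (u t ∘ T^[17 ⌊log R/40⌋₊]) ≤ ofReal (g(R) R²)`, by strong induction on `⌊log R⌋₊`. (For
`log R < L/4` use `chain_base` directly.) If `R² ≤ M`: `chain_base`, `g(R) ≥ K (L/4)^(-A) ≥ K L^(-A)`. If `R² > M` (so `log R > L/2`) and `o = ⌊log R/40⌋₊ ≥ max o0 50`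
(`o0` of `step` for this `A`): `step` with `Q = 1`,
`u = u t`: for `(a', b')` with `‖W_{a'b'}‖_2 ≤ exp(-o/50)` let `R' = R ‖W_{a'b'}‖_2`, `log R - 0.7 o ≤ log R' ≤ log R - o/50` (`‖a2‖ ≥ 1`, `‖b2‖ ≥ 1/2`, `log 2 ≤ 0.7`),
`o' = ⌊log R'/40⌋₊`, `16 o ≤ 17 o' ≤ 17 o`, `k = 17 o' - 16 o ≤ o`, `t' = t - k ≥ 50 log R'`; `u t (T^[16 o] z) ≤ u t' (T^[k] (T^[16 o] z)) = u t' (T^[17 o'] z)` (`Fam.iter`).
Induction hypothesis for `R'` (`log R' ≥ log R (1 - 0.7/40) ≥ L/4`): one can take `B = K (2 (L/4)^(-A) - (log R - o/50)^(-A))`. And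
`(log R - o/50)^(-A) - (log R)^(-A) ≥ (A/4000) (log R)^(-A)` (`o ≥ log R/80`), which beats `C/o^A ≤ C (80/log R)^A` for `K ≥ 4000 * 80^A * C`. If
`o < max o0 50` then `log R ≤ C0`, `log M ≤ 2 C0`: `Sm_triv`.
-/

set_option autoImplicit false

namespace Pool.Agent.H49.AB

open Pool.Agent.H67.Tent Finset MeasureTheory

theorem chain_inv_anti (A : ℕ) {x y : ℝ} (hx : 0 < x) (h : x ≤ y) :
    (y ^ A)⁻¹ ≤ (x ^ A)⁻¹ :=
  inv_anti₀ (pow_pos hx A) (pow_le_pow_left₀ hx.le h A)

theorem chain_inv_gain (A : ℕ) (hA : 1 ≤ A) {y d : ℝ} (hd : 0 ≤ d) (h : d < y) :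
    (1 + d / y) * (y ^ A)⁻¹ ≤ ((y - d) ^ A)⁻¹ := by
  have hy : 0 < y := by linarith
  have hyd : 0 < y - d := by linarith
  set q := d / y with hq
  have hq0 : 0 ≤ q := by positivity
  have hq1 : q < 1 := by
    rw [hq, div_lt_one hy]
    exact h
  have e : y - d = y * (1 - q) := by
    rw [hq]
    field_simp
  have h1 : (1 - q) ^ A ≤ 1 - q := by
    calc (1 - q) ^ A ≤ (1 - q) ^ 1 := pow_le_pow_of_le_one (by linarith) (by linarith) hA
      _ = 1 - q := pow_one _
  have hpos : 0 < (y - d) ^ A := pow_pos hyd A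
  rw [← one_div ((y - d) ^ A), le_div_iff₀ hpos, e, mul_pow]
  have h2 : (y ^ A)⁻¹ * y ^ A = 1 := inv_mul_cancel₀ (pow_pos hy A).ne'
  calc (1 + q) * (y ^ A)⁻¹ * (y ^ A * (1 - q) ^ A) =
      (1 + q) * (1 - q) ^ A * ((y ^ A)⁻¹ * y ^ A) := by ring
    _ = (1 + q) * (1 - q) ^ A := by rw [h2, mul_one]
    _ ≤ (1 + q) * (1 - q) := mul_le_mul_of_nonneg_left h1 (by linarith)
    _ ≤ 1 := by nlinarith

theorem chain_pos (S : Sys2) (N : ℕ) (hN : 1 ≤ N) (A : ℕ) (hA : 1 ≤ A) : ∃ C : ℝ, 1 ≤ C ∧
    ∀ (M : ℝ) (u : ℕ → E → ENNReal), 2 ≤ M → Fam S N M u → ∀ (R : ℝ) (t : ℕ), 1 ≤ R →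
      50 * Real.log R ≤ t →
      Sm S N R 1 (fun z => u t ((T S.toSys N)^[17 * ⌊Real.log R / 40⌋₊] z)) ≤
        ENNReal.ofReal (C / (Real.log M) ^ A * R ^ 2) := by
  obtain ⟨C0, hC0, hbase⟩ := chain_base S N hN A
  obtain ⟨C3, hC3, htriv⟩ := Sm_triv S N hN
  obtain ⟨Cs, o0, hCs, ho0, hstep⟩ := step S N hN A
  set o1 : ℕ := max o0 50 with ho1
  have ho1R : (50 : ℝ) ≤ o1 := by
    have : 50 ≤ o1 := le_max_right _ _
    exact_mod_cast this
  set K : ℝ := C0 + 4000 * 80 ^ A * Cs + C3 * (20 * o1) ^ A with hK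
  have k2 : 0 ≤ 4000 * 80 ^ A * Cs := by positivity
  have k3 : 0 ≤ C3 * (20 * (o1 : ℝ)) ^ A := by positivity
  have hK1 : C0 ≤ K := by rw [hK]; linarith
  have hK2 : 4000 * 80 ^ A * Cs ≤ K := by rw [hK]; linarith
  have hK3 : C3 * (20 * (o1 : ℝ)) ^ A ≤ K := by rw [hK]; linarith
  have hK0 : 1 ≤ K := by linarith
  have h4A : (1 : ℝ) ≤ 4 ^ A := one_le_pow₀ (by norm_num)
  refine ⟨2 * 4 ^ A * K, by nlinarith, ?_⟩
  intro M u hM hu
  set L := Real.log M with hL
  have hL0 : 0 < L := Real.log_pos (by linarith)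
  have hLA : (((L / 4) ^ A)⁻¹ : ℝ) = 4 ^ A / L ^ A := by
    rw [div_pow, inv_div]
  -- claim
  have claim : ∀ n : ℕ, ∀ (R : ℝ) (t : ℕ), 1 ≤ R → L / 4 ≤ Real.log R → ⌊Real.log R⌋₊ < n →
      50 * Real.log R ≤ t →
      Sm S N R 1 (fun z => u t ((T S.toSys N)^[17 * ⌊Real.log R / 40⌋₊] z)) ≤
        ENNReal.ofReal (K * (2 * ((L / 4) ^ A)⁻¹ - ((Real.log R) ^ A)⁻¹) * R ^ 2) := by
    intro n
    induction n with
    | zero => intro R t _ _ h; exact absurd h (Nat.not_lt_zero _)
    | succ n ih =>
      intro R t hR hRL hRn ht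
      have hR0 : 0 < R := by linarith
      have hlR : 0 < Real.log R := by linarith
      have hanti : ((Real.log R) ^ A)⁻¹ ≤ ((L / 4) ^ A)⁻¹ :=
        chain_inv_anti A (by positivity) hRL
      have hLinv : 0 < ((L / 4) ^ A)⁻¹ := by positivity
      have hg : K * ((L / 4) ^ A)⁻¹ ≤ K * (2 * ((L / 4) ^ A)⁻¹ - ((Real.log R) ^ A)⁻¹) :=
        mul_le_mul_of_nonneg_left (by linarith) (by linarith)
      by_cases hRM : R ^ 2 ≤ M
      · refine (hbase M u hM hu R t hR hRM).trans (ENNReal.ofReal_le_ofReal ?_)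
        refine mul_le_mul_of_nonneg_right (le_trans ?_ hg) (by positivity)
        rw [hLA]
        calc C0 / L ^ A ≤ K / L ^ A := div_le_div_of_nonneg_right hK1 (pow_nonneg hL0.le _)
          _ = K * (1 / L ^ A) := by ring
          _ ≤ K * (4 ^ A / L ^ A) := by
            refine mul_le_mul_of_nonneg_left ?_ (by linarith)
            exact div_le_div_of_nonneg_right h4A (pow_nonneg hL0.le _)
      · push Not at hRM
        have hRM2 : L < 2 * Real.log R := by
          have h := Real.log_lt_log (by linarith) hRM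
          rw [Real.log_pow] at h
          push_cast at h
          exact h
        set o := ⌊Real.log R / 40⌋₊ with ho
        have ho_le : (o : ℝ) ≤ Real.log R / 40 := Nat.floor_le (by positivity)
        have ho_gt : Real.log R / 40 < o + 1 := Nat.lt_floor_add_one _
        by_cases hoo : o1 ≤ o
        · have hoR : (o1 : ℝ) ≤ o := by exact_mod_cast hoo
          have ho50 : (50 : ℝ) ≤ o := by linarith
          have hexpR : Real.exp (40 * o) ≤ R := by
            rw [← Real.exp_log hR0, Real.exp_le_exp]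
            linarith
          have hd : (o : ℝ) / 50 < Real.log R := by linarith
          have hanti2 : (((Real.log R - o / 50)) ^ A)⁻¹ ≤ ((L / 4) ^ A)⁻¹ :=
            chain_inv_anti A (by positivity) (by linarith)
          have hB : 0 ≤ K * (2 * ((L / 4) ^ A)⁻¹ - ((Real.log R - o / 50) ^ A)⁻¹) :=
            mul_nonneg (by linarith) (by linarith)
          have key := hstep o R 1 (K * (2 * ((L / 4) ^ A)⁻¹ - ((Real.log R - o / 50) ^ A)⁻¹))
            (u t) (le_trans (le_max_left _ _) hoo) hexpR le_rfl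
            (one_le_pow₀ (by norm_num)) hB (hu.le_one t) (hu.zero t) (hu.zeroN t) ?_
          · refine key.trans (ENNReal.ofReal_le_ofReal ?_)
            rw [one_pow, mul_one]
            refine mul_le_mul_of_nonneg_right ?_ (by positivity)
            -- gain
            have hgain := chain_inv_gain A hA (show (0 : ℝ) ≤ (o : ℝ) / 50 by positivity) hd
            have ho80 : Real.log R / 80 ≤ o := by linarith
            have hx : (1 : ℝ) / 4000 ≤ (o : ℝ) / 50 / Real.log R := by
              rw [le_div_iff₀ hlR]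
              linarith
            have hyA : 0 < ((Real.log R) ^ A)⁻¹ := by positivity
            have hgain2 : (1 / 4000) * ((Real.log R) ^ A)⁻¹ ≤
                ((Real.log R - o / 50) ^ A)⁻¹ - ((Real.log R) ^ A)⁻¹ := by
              have := mul_le_mul_of_nonneg_right hx hyA.le
              linarith
            have herr : Cs / (o : ℝ) ^ A ≤ Cs * 80 ^ A * ((Real.log R) ^ A)⁻¹ := by
              have h1 : ((o : ℝ) ^ A)⁻¹ ≤ ((Real.log R / 80) ^ A)⁻¹ :=
                chain_inv_anti A (by positivity) ho80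
              calc Cs / (o : ℝ) ^ A = Cs * ((o : ℝ) ^ A)⁻¹ := rfl
                _ ≤ Cs * ((Real.log R / 80) ^ A)⁻¹ :=
                  mul_le_mul_of_nonneg_left h1 (by linarith)
                _ = _ := by rw [div_pow, inv_div]; ring
            have h1 : Cs * 80 ^ A * ((Real.log R) ^ A)⁻¹ ≤
                K * ((1 / 4000) * ((Real.log R) ^ A)⁻¹) := by
              calc Cs * 80 ^ A * ((Real.log R) ^ A)⁻¹ =
                  (4000 * 80 ^ A * Cs) * ((1 / 4000) * ((Real.log R) ^ A)⁻¹) := by ring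
                _ ≤ _ := mul_le_mul_of_nonneg_right hK2 (by positivity)
            have h2 : K * ((1 / 4000) * ((Real.log R) ^ A)⁻¹) ≤
                K * (((Real.log R - o / 50) ^ A)⁻¹ - ((Real.log R) ^ A)⁻¹) :=
              mul_le_mul_of_nonneg_left hgain2 (by linarith)
            calc K * (2 * ((L / 4) ^ A)⁻¹ - ((Real.log R - o / 50) ^ A)⁻¹) + Cs / (o : ℝ) ^ A
                ≤ K * (2 * ((L / 4) ^ A)⁻¹ - ((Real.log R - o / 50) ^ A)⁻¹) +
                  K * (((Real.log R - o / 50) ^ A)⁻¹ - ((Real.log R) ^ A)⁻¹) := by linarith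
              _ = _ := by ring
          · intro a' b' hab hW
            set w2 := ‖(W S a' b').2.1‖ with hw2
            have hw0 : 0 < w2 := W2_pos S a' b'
            have hR'0 : 0 < R * w2 := by positivity
            have hlogw : Real.log w2 ≤ -(o : ℝ) / 50 := by
              rw [← Real.log_exp (-(o : ℝ) / 50)]
              exact Real.log_le_log hw0 hW
            have hwlow : (1 / 2 : ℝ) ^ o ≤ w2 := by
              rw [hw2, W2]
              have h1 : (1 : ℝ) ≤ ‖S.a.2.1‖ ^ a' := one_le_pow₀ S.a2_ge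
              have h2 : (1 / 2 : ℝ) ^ b' ≤ ‖S.b.2.1‖ ^ b' :=
                pow_le_pow_left₀ (by norm_num) S.b2_ge _
              have h3 : (1 / 2 : ℝ) ^ o ≤ (1 / 2) ^ b' :=
                pow_le_pow_of_le_one (by norm_num) (by norm_num) (by omega)
              have h4 : 0 < (1 / 2 : ℝ) ^ b' := by positivity
              calc (1 / 2 : ℝ) ^ o ≤ 1 * (1 / 2) ^ b' := by linarith
                _ ≤ _ := mul_le_mul h1 h2 h4.le (by positivity)
            have hlogw2 : -(7 / 10) * (o : ℝ) ≤ Real.log w2 := by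
              have h1 := Real.log_le_log (by positivity) hwlow
              rw [Real.log_pow] at h1
              have h2 : Real.log (1 / 2) = - Real.log 2 := by
                rw [one_div, Real.log_inv]
              rw [h2] at h1
              have h3 := Real.log_two_lt_d9
              have h4 : (o : ℝ) * Real.log 2 ≤ o * (7 / 10) :=
                mul_le_mul_of_nonneg_left (by linarith) (Nat.cast_nonneg _)
              linarith
            have hlogR' : Real.log (R * w2) = Real.log R + Real.log w2 :=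
              Real.log_mul hR0.ne' hw0.ne'
            have hup : Real.log (R * w2) ≤ Real.log R - o / 50 := by
              rw [hlogR']
              have : -(o : ℝ) / 50 = -(o / 50) := by ring
              linarith
            have hlow : Real.log R - 7 / 10 * o ≤ Real.log (R * w2) := by
              rw [hlogR']
              linarith
            have hR'L : L / 4 ≤ Real.log (R * w2) := by linarith
            have hR'1 : 1 ≤ R * w2 := by
              rw [← Real.exp_log hR'0]
              exact Real.one_le_exp (by linarith)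
            set o' := ⌊Real.log (R * w2) / 40⌋₊ with ho'
            have ho'1 : o' ≤ o := Nat.floor_le_floor (by linarith)
            have ho'2 : Real.log (R * w2) / 40 < o' + 1 := Nat.lt_floor_add_one _
            have ho'3 : 16 * o ≤ 17 * o' := by
              have h1 : (16 : ℝ) * o < 17 * o' := by linarith
              have h2 : 16 * o < 17 * o' := by exact_mod_cast h1
              omega
            obtain ⟨k, hk⟩ : ∃ k, 17 * o' = 16 * o + k := ⟨17 * o' - 16 * o, by omega⟩
            have hko : k ≤ o := by omega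
            have hkoR : (k : ℝ) ≤ o := by exact_mod_cast hko
            have htk : (k : ℝ) ≤ t := by linarith
            have htk' : k ≤ t := by exact_mod_cast htk
            obtain ⟨t', ht'⟩ : ∃ t', t = t' + k := ⟨t - k, by omega⟩
            have ht'R : (t : ℝ) = t' + k := by rw [ht']; push_cast; ring
            have hfl : ⌊Real.log (R * w2)⌋₊ < n := by
              have h1 : Real.log (R * w2) + 1 ≤ Real.log R := by linarith
              have h2 : ⌊Real.log (R * w2)⌋₊ + 1 ≤ ⌊Real.log R⌋₊ := by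
                rw [← Nat.floor_add_one (by linarith)]
                exact Nat.floor_le_floor h1
              omega
            have hih := ih (R * w2) t' hR'1 hR'L hfl (by linarith)
            refine le_trans (Sm_mono S N (R * w2) 1
              (v := fun z => u t' ((T S.toSys N)^[17 * o'] z)) fun z hz => ?_) (hih.trans ?_)
            · show u t ((T S.toSys N)^[16 * o] z) ≤ u t' ((T S.toSys N)^[17 * o'] z)
              rw [ht', hk, Nat.add_comm (16 * o) k, Function.iterate_add_apply]
              exact hu.iter t' k (G_iter S.toSys N hz (16 * o))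
            · refine ENNReal.ofReal_le_ofReal ?_
              refine mul_le_mul_of_nonneg_right ?_ (by positivity)
              refine mul_le_mul_of_nonneg_left ?_ (by linarith)
              have h1 : (((Real.log R - o / 50)) ^ A)⁻¹ ≤ ((Real.log (R * w2)) ^ A)⁻¹ :=
                chain_inv_anti A (by linarith) hup
              linarith
        · push Not at hoo
          refine (htriv R 1 _ hR le_rfl fun z => hu.le_one _ _).trans
            (ENNReal.ofReal_le_ofReal ?_)
          rw [one_pow, mul_one]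
          refine mul_le_mul_of_nonneg_right (le_trans ?_ hg) (by positivity)
          have h1 : (o : ℝ) + 1 ≤ o1 := by exact_mod_cast hoo
          have h2 : L / 4 ≤ 20 * o1 := by linarith
          have h3 : ((20 * (o1 : ℝ)) ^ A)⁻¹ ≤ ((L / 4) ^ A)⁻¹ :=
            chain_inv_anti A (by positivity) h2
          have h4 : 0 < (20 * (o1 : ℝ)) ^ A := by positivity
          calc C3 = (C3 * (20 * (o1 : ℝ)) ^ A) * ((20 * (o1 : ℝ)) ^ A)⁻¹ := by
                rw [mul_assoc, mul_inv_cancel₀ h4.ne', mul_one]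
            _ ≤ K * ((20 * (o1 : ℝ)) ^ A)⁻¹ :=
                mul_le_mul_of_nonneg_right hK3 (by positivity)
            _ ≤ K * ((L / 4) ^ A)⁻¹ := mul_le_mul_of_nonneg_left h3 (by linarith)
  intro R t hR ht
  have hlR : 0 ≤ Real.log R := Real.log_nonneg hR
  have hfin : K * (2 * ((L / 4) ^ A)⁻¹) = 2 * 4 ^ A * K / L ^ A := by
    rw [hLA]
    ring
  by_cases hc : L / 4 ≤ Real.log R
  · refine (claim (⌊Real.log R⌋₊ + 1) R t hR hc (Nat.lt_succ_self _) ht).trans
      (ENNReal.ofReal_le_ofReal ?_)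
    refine mul_le_mul_of_nonneg_right ?_ (by positivity)
    rw [← hfin]
    refine mul_le_mul_of_nonneg_left ?_ (by linarith)
    have : 0 ≤ ((Real.log R) ^ A)⁻¹ := by positivity
    linarith
  · push Not at hc
    have hRM : R ^ 2 ≤ M := by
      have h1 : Real.log (R ^ 2) ≤ Real.log M := by
        rw [Real.log_pow]
        push_cast
        linarith
      exact (Real.log_le_log_iff (by positivity) (by linarith)).1 h1
    refine (hbase M u hM hu R t hR hRM).trans (ENNReal.ofReal_le_ofReal ?_)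
    refine mul_le_mul_of_nonneg_right ?_ (by positivity)
    refine div_le_div_of_nonneg_right ?_ (pow_nonneg hL0.le _)
    nlinarith

theorem chain (S : Sys2) (N : ℕ) (hN : 1 ≤ N) (A : ℕ) : ∃ C : ℝ, 1 ≤ C ∧
    ∀ (M : ℝ) (u : ℕ → E → ENNReal), 2 ≤ M → Fam S N M u → ∀ (R : ℝ) (t : ℕ), 1 ≤ R →
      50 * Real.log R ≤ t →
      Sm S N R 1 (fun z => u t ((T S.toSys N)^[17 * ⌊Real.log R / 40⌋₊] z)) ≤
        ENNReal.ofReal (C / (Real.log M) ^ A * R ^ 2) := by
  rcases Nat.eq_zero_or_pos A with h0 | h0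
  · subst h0
    obtain ⟨C, hC, htriv⟩ := Sm_triv S N hN
    refine ⟨C, hC, fun M u hM hu R t hR _ => ?_⟩
    refine (htriv R 1 _ hR le_rfl fun z => hu.le_one _ _).trans (ENNReal.ofReal_le_ofReal ?_)
    simp
  · exact chain_pos S N hN A h0

end Pool.Agent.H49.AB
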