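import Pool.Agent.H49.AB.Basic

/-!
# JOB AB-31. Shift of a Gaussian (pure)

`|exp(-s) - exp(-t)| ≤ |s - t| exp(-min s t)`, `|‖x-c‖² - ‖x‖²| ≤ ‖c‖ (2 ‖x‖ + ‖c‖) ≤ 3 ‖c‖ (‖x‖ + r)`, and `‖x-c‖² ≥ ‖x‖²/2 - ‖c‖² ≥ ‖x‖²/2 - r²`
(`‖x‖² ≤ 2 ‖x-c‖² + 2 ‖c‖²`), so both exponentials are `≤ exp π * exp(-π ‖x‖²/(2 r²))`; and `(‖x‖/r + 1) exp(-π ‖x‖²/(4 r²))` is bounded.
-/

set_option autoImplicit false

namespace Pool.Agent.H49.AB

theorem gshift_exp_sub {s t m : ℝ} (hs : m ≤ s) (ht : m ≤ t) :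
    |Real.exp (-s) - Real.exp (-t)| ≤ |s - t| * Real.exp (-m) := by
  have key : ∀ {u v : ℝ}, m ≤ u → u ≤ v →
      Real.exp (-u) - Real.exp (-v) ≤ (v - u) * Real.exp (-m) := by
    intro u v hu huv
    have h1 : Real.exp (-v) = Real.exp (-u) * Real.exp (-(v - u)) := by
      rw [← Real.exp_add]; congr 1; ring
    have h2 : 1 - (v - u) ≤ Real.exp (-(v - u)) := by
      have := Real.add_one_le_exp (-(v - u)); linarith
    have h3 : Real.exp (-u) ≤ Real.exp (-m) := Real.exp_le_exp.mpr (by linarith)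
    have h4 : 0 < Real.exp (-u) := Real.exp_pos _
    have h5 : Real.exp (-u) * (1 - (v - u)) ≤ Real.exp (-u) * Real.exp (-(v - u)) :=
      mul_le_mul_of_nonneg_left h2 h4.le
    have h6 : (v - u) * Real.exp (-u) ≤ (v - u) * Real.exp (-m) :=
      mul_le_mul_of_nonneg_left h3 (by linarith)
    rw [h1]; nlinarith
  rcases le_total s t with h | h
  · have h0 : Real.exp (-t) ≤ Real.exp (-s) := Real.exp_le_exp.mpr (by linarith)
    rw [abs_of_nonneg (by linarith), abs_of_nonpos (by linarith)]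
    have := key hs h
    linarith
  · have h0 : Real.exp (-s) ≤ Real.exp (-t) := Real.exp_le_exp.mpr (by linarith)
    rw [abs_of_nonpos (by linarith), abs_of_nonneg (by linarith)]
    have := key ht h
    linarith

theorem gauss_shift : ∃ C : ℝ, 1 ≤ C ∧ ∀ (x c : ℂ) (r : ℝ), 0 < r → ‖c‖ ≤ r →
    |Real.exp (-(Real.pi * (‖x - c‖ ^ 2 / r ^ 2))) - Real.exp (-(Real.pi * (‖x‖ ^ 2 / r ^ 2)))| ≤
      C * (‖c‖ / r) * Real.exp (-(Real.pi * (‖x‖ ^ 2 / (2 * r) ^ 2))) := by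
  have hpi : 3 < Real.pi := Real.pi_gt_three
  have hE : 1 ≤ Real.exp Real.pi := Real.one_le_exp (by linarith)
  refine ⟨3 * Real.pi * Real.exp Real.pi, by nlinarith, ?_⟩
  intro x c r hr hc
  set a : ℝ := ‖x‖ / r with ha
  set b : ℝ := ‖x - c‖ / r with hb
  set d : ℝ := ‖c‖ / r with hd
  have ha0 : 0 ≤ a := by positivity
  have hb0 : 0 ≤ b := by positivity
  have hd0 : 0 ≤ d := by positivity
  have hd1 : d ≤ 1 := by rw [hd, div_le_one hr]; exact hc
  have hab : a ≤ b + d := by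
    rw [ha, hb, hd, ← add_div]
    apply div_le_div_of_nonneg_right _ hr.le
    calc ‖x‖ = ‖(x - c) + c‖ := by rw [sub_add_cancel]
      _ ≤ _ := norm_add_le _ _
  have hba : b ≤ a + d := by
    rw [ha, hb, hd, ← add_div]
    apply div_le_div_of_nonneg_right _ hr.le
    exact norm_sub_le _ _
  have e1 : ‖x - c‖ ^ 2 / r ^ 2 = b ^ 2 := by rw [hb, div_pow]
  have e2 : ‖x‖ ^ 2 / r ^ 2 = a ^ 2 := by rw [ha, div_pow]
  have e3 : ‖x‖ ^ 2 / (2 * r) ^ 2 = a ^ 2 / 4 := by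
    rw [ha, div_pow, mul_pow]; field_simp; norm_num
  rw [e1, e2, e3]
  have hm1 : Real.pi * (a ^ 2 / 2 - 1) ≤ Real.pi * b ^ 2 := by
    apply mul_le_mul_of_nonneg_left _ (by linarith)
    nlinarith [sq_nonneg (b - 1)]
  have hm2 : Real.pi * (a ^ 2 / 2 - 1) ≤ Real.pi * a ^ 2 := by
    apply mul_le_mul_of_nonneg_left _ (by linarith)
    nlinarith
  have h1 := gshift_exp_sub hm1 hm2
  have hst : |Real.pi * b ^ 2 - Real.pi * a ^ 2| ≤ Real.pi * (d * (2 * a + 1)) := by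
    rw [← mul_sub, abs_mul, abs_of_pos (by linarith : (0 : ℝ) < Real.pi)]
    apply mul_le_mul_of_nonneg_left _ (by linarith)
    have : b ^ 2 - a ^ 2 = (b - a) * (b + a) := by ring
    rw [this, abs_mul, abs_of_nonneg (by linarith : (0 : ℝ) ≤ b + a)]
    apply mul_le_mul _ (by linarith) (by linarith) hd0
    rw [abs_le]; constructor <;> linarith
  have hsplit : Real.exp (-(Real.pi * (a ^ 2 / 2 - 1))) =
      Real.exp Real.pi * (Real.exp (-(Real.pi * (a ^ 2 / 4))) * Real.exp (-(Real.pi * (a ^ 2 / 4)))) := by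
    rw [← Real.exp_add, ← Real.exp_add]; congr 1; ring
  have hbd : (2 * a + 1) * Real.exp (-(Real.pi * (a ^ 2 / 4))) ≤ 3 := by
    have h2 : 1 + a ^ 2 / 2 ≤ Real.exp (Real.pi * (a ^ 2 / 4)) := by
      have := Real.add_one_le_exp (Real.pi * (a ^ 2 / 4))
      nlinarith [sq_nonneg a]
    have h3 : (2 * a + 1) ≤ 3 * Real.exp (Real.pi * (a ^ 2 / 4)) := by
      nlinarith [sq_nonneg (a - 1)]
    rw [Real.exp_neg]
    rw [← div_eq_mul_inv, div_le_iff₀ (Real.exp_pos _)]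
    exact h3
  calc _ ≤ _ := h1
    _ ≤ Real.pi * (d * (2 * a + 1)) * Real.exp (-(Real.pi * (a ^ 2 / 2 - 1))) :=
        mul_le_mul_of_nonneg_right hst (Real.exp_pos _).le
    _ = Real.pi * Real.exp Real.pi * d * Real.exp (-(Real.pi * (a ^ 2 / 4))) *
          ((2 * a + 1) * Real.exp (-(Real.pi * (a ^ 2 / 4)))) := by rw [hsplit]; ring
    _ ≤ Real.pi * Real.exp Real.pi * d * Real.exp (-(Real.pi * (a ^ 2 / 4))) * 3 := by
        apply mul_le_mul_of_nonneg_left hbd; positivity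
    _ = _ := by ring

end Pool.Agent.H49.AB
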