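import Pool.Agent.H49.AB.SGB
import Pool.Agent.H49.AB.GShift

/-!
# AB: the functions compared in one step
-/

set_option autoImplicit false

namespace Pool.Agent.H49.AB

open Pool.Agent.H67.Tent Finset

/-- The contribution of a pair of classes. -/
noncomputable def AA (S : Sys2) (N a b a' b' : ℕ) (R Q : ℝ) (y : E) : ℝ :=
  ∑ w ∈ cls a b, ∑ v ∈ cls a' b', gs R Q (gw S N (v ++ w) y)

/-- The contribution of a pair of classes, after smoothing. -/
noncomputable def BB (S : Sys2) (N a b a' b' : ℕ) (R Q : ℝ) (y : E) : ℝ :=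
  (cls a' b').card * (Q * ‖(W S a' b').2.2‖) ^ 2 *
    ∑ w ∈ cls a b, gs (R * ‖(W S a' b').2.1‖) 1 (gw S N w y)

/-- The Gaussian factor at the second place, without the offset. -/
noncomputable def g2 (S : Sys2) (a b a' b' : ℕ) (R : ℝ) (y : E) : ℝ :=
  Real.exp (-(Real.pi * (‖y.2.1‖ ^ 2 / (R * (‖(W S a b).2.1‖ * ‖(W S a' b').2.1‖)) ^ 2)))

/-- `AA` with the offsets at the second place removed. -/
noncomputable def AA0 (S : Sys2) (N a b a' b' : ℕ) (R Q : ℝ) (y : E) : ℝ :=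
  g2 S a b a' b' R y * ∑ w ∈ cls a b, ∑ v ∈ cls a' b',
    Real.exp (-(Real.pi * (‖y.2.2 - (off S.toSys N (v ++ w)).2.2‖ ^ 2 /
      (Q * (‖(W S a b).2.2‖ * ‖(W S a' b').2.2‖)) ^ 2)))

/-- `BB` with the offsets at the second place removed. -/
noncomputable def BB0 (S : Sys2) (N a b a' b' : ℕ) (R Q : ℝ) (y : E) : ℝ :=
  (cls a' b').card * (Q * ‖(W S a' b').2.2‖) ^ 2 *
    (g2 S a b a' b' R y * ∑ w ∈ cls a b,
      Real.exp (-(Real.pi * (‖y.2.2 - (off S.toSys N w).2.2‖ ^ 2 / ‖(W S a b).2.2‖ ^ 2))))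

end Pool.Agent.H49.AB
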