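import Pool.Agent.H49.AB.Decay

/-!
# JOB AB-17. Fourier decay with arbitrary end level

`decay2`: if `1 ≤ ‖ξ‖ ‖W_{ab}‖_3`: `‖W_{ab}‖_3 ≥ (0.834)^(a+b)` (`b3l`, `a3l`: `0.834² ≤ 0.6966`) gives
`(a+b) ≥ log ‖ξ‖ - Φ` (as `-log 0.834 ≤ 1`), so `V ≤ C (Φ/(a+b+1))^A ≤ C' (Φ/(1 + log ‖ξ‖))^A` (if `log ‖ξ‖ ≤ 2 Φ` use `V ≤ 1` and
`C' ≥ 3^A`). If `‖ξ‖ ‖W_{ab}‖_3 < 1`: induction on `a + b` with `V_step'`: `V ξ a b ≤ p V ξ (a-1) b + q V ξ a (b-1)` (`p + q = 1`), until `‖ξ‖ ‖W‖_3 ≥ 1` (at `(0,0)` it is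
`‖ξ‖ ≥ 1`); then it is at most `1/0.83 ≤ exp 1 ≤ exp Φ`, so that the first case applies. `decayN`: `V_N`, `‖N ξ‖ = N ‖ξ‖`, use `decay2` with `Φ + log N ≤
(1 + log N) Φ`.
-/

set_option autoImplicit false

namespace Pool.Agent.H49.AB

open Pool.Agent.H67.Tent Finset

theorem DecayN_case1 (S : Sys2) (A : ℕ) (C : ℝ) (hC : 1 ≤ C) (Φ L n1 v : ℝ) (hΦ : 1 ≤ Φ)
    (hL : 0 < L) (hn1 : 0 < n1) (hLn : L ≤ Φ + n1) (hv1 : v ≤ 1) (hv : v ≤ C * (Φ / n1) ^ A) :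
    v ≤ C * 2 ^ A * (Φ / L) ^ A := by
  have e : C * 2 ^ A * (Φ / L) ^ A = C * (2 * (Φ / L)) ^ A := by rw [mul_pow]; ring
  rw [e]
  rcases le_or_gt Φ n1 with h | h
  · refine hv.trans (mul_le_mul_of_nonneg_left (pow_le_pow_left₀ (by positivity) ?_ A)
      (by linarith))
    rw [← mul_div_assoc, div_le_div_iff₀ hn1 hL]
    nlinarith
  · refine hv1.trans ?_
    have h1 : (1 : ℝ) ≤ 2 * (Φ / L) := by
      rw [← mul_div_assoc, le_div_iff₀ hL]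
      linarith
    have h2 : (1 : ℝ) ≤ (2 * (Φ / L)) ^ A := one_le_pow₀ h1
    nlinarith

theorem DecayN_W3l (S : Sys2) (a b : ℕ) : Real.exp (-((a : ℝ) + b)) ≤ ‖(W S a b).2.2‖ := by
  have h0 : (0 : ℝ) < Real.exp (-1) := Real.exp_pos _
  have he : Real.exp (-1) ≤ 1 / 2 := by
    have h1 : (2 : ℝ) ≤ Real.exp 1 := by linarith [Real.add_one_le_exp (1 : ℝ)]
    rw [Real.exp_neg, ← one_div]
    exact one_div_le_one_div_of_le (by norm_num) h1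
  have ha : Real.exp (-1) ≤ ‖S.a.2.2‖ := by
    have := S.a3l
    have h3 := norm_nonneg S.a.2.2
    nlinarith
  have hb : Real.exp (-1) ≤ ‖S.b.2.2‖ := by
    have := b3l S
    have h3 := norm_nonneg S.b.2.2
    nlinarith
  rw [W3]
  have e : Real.exp (-((a : ℝ) + b)) = Real.exp (-1) ^ a * Real.exp (-1) ^ b := by
    rw [← Real.exp_nat_mul, ← Real.exp_nat_mul, ← Real.exp_add]
    congr 1
    ring
  rw [e]
  exact mul_le_mul (pow_le_pow_left₀ h0.le ha a) (pow_le_pow_left₀ h0.le hb b) (by positivity)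
    (by positivity)

theorem DecayN_prev (S : Sys2) (Φ : ℝ) (ξ : ℂ) (x y : ℝ) (hΦ : 1 ≤ Φ) (hx : 0.69 ≤ x ^ 2)
    (hx0 : 0 ≤ x) (h : ‖ξ‖ * (x * y) < 1) (hy : 0 ≤ y) : ‖ξ‖ * y ≤ Real.exp Φ := by
  have h1 : (2 : ℝ) ≤ Real.exp Φ := by linarith [Real.add_one_le_exp Φ]
  have h2 : 0.5 ≤ x := by nlinarith
  have h3 : 0 ≤ ‖ξ‖ * y := mul_nonneg (norm_nonneg _) hy
  have h4 : ‖ξ‖ * (x * y) = x * (‖ξ‖ * y) := by ring
  rw [h4] at h
  nlinarith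

theorem decay2 (S : Sys2) (A : ℕ) : ∃ C : ℝ, 1 ≤ C ∧ ∀ (Φ : ℝ) (ξ : ℂ) (a b : ℕ), 1 ≤ Φ →
    1 ≤ ‖ξ‖ → ‖ξ‖ * ‖(W S a b).2.2‖ ≤ Real.exp Φ →
    V S 1 ξ a b ≤ C * (Φ / (1 + Real.log ‖ξ‖)) ^ A := by
  obtain ⟨C, hC, hdec⟩ := decay S A
  refine ⟨C * 2 ^ A, ?_, ?_⟩
  · have : (1 : ℝ) ≤ 2 ^ A := one_le_pow₀ (by norm_num)
    nlinarith
  intro Φ ξ a b hΦ hξ
  have hL : 0 < 1 + Real.log ‖ξ‖ := by linarith [Real.log_nonneg hξ]
  obtain ⟨n, hn⟩ : ∃ n, a + b = n := ⟨_, rfl⟩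
  induction n generalizing a b with
  | zero =>
    intro h
    have ha : a = 0 := by omega
    have hb : b = 0 := by omega
    subst ha hb
    have h1 : ‖(W S 0 0).2.2‖ = 1 := by rw [W3]; simp
    have h2 := hdec Φ ξ 0 0 hΦ (by rw [h1, mul_one]; exact hξ) h
    refine DecayN_case1 S A C hC Φ _ _ _ hΦ hL (by positivity : (0 : ℝ) < ((0 : ℕ) : ℝ) + ((0 : ℕ) : ℝ) + 1) ?_ (V_le_one S 1 ξ 0 0) h2
    rw [h1, mul_one] at h
    have h3 : Real.log ‖ξ‖ ≤ Φ := by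
      rw [Real.log_le_iff_le_exp (by linarith)]
      exact h
    push_cast
    linarith
  | succ n ih =>
    intro h
    rcases le_or_gt 1 (‖ξ‖ * ‖(W S a b).2.2‖) with h1 | h1
    · refine DecayN_case1 S A C hC Φ _ _ _ hΦ hL (by positivity : (0 : ℝ) < (a : ℝ) + b + 1) ?_
        (V_le_one S 1 ξ a b) (hdec Φ ξ a b hΦ h1 h)
      have h2 := DecayN_W3l S a b
      have h3 : ‖ξ‖ * Real.exp (-((a : ℝ) + b)) ≤ Real.exp Φ :=
        (mul_le_mul_of_nonneg_left h2 (norm_nonneg _)).trans h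
      have h4 : Real.log ‖ξ‖ ≤ Φ + (a + b) := by
        rw [Real.log_le_iff_le_exp (by linarith), Real.exp_add]
        rw [Real.exp_neg, ← div_eq_mul_inv, div_le_iff₀ (Real.exp_pos _)] at h3
        exact h3
      linarith
    · have hB : 0 ≤ C * 2 ^ A * (Φ / (1 + Real.log ‖ξ‖)) ^ A := by positivity
      refine (V_step' S 1 ξ a b (by omega)).trans ?_
      have hp : 0 ≤ (S.a.1)⁻¹ := inv_nonneg.2 (ap S).le
      have hq : 0 ≤ (S.b.1)⁻¹ := inv_nonneg.2 (bp S).le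
      have e1 : (if 1 ≤ a then (S.a.1)⁻¹ * V S 1 ξ (a - 1) b else 0) ≤
          (S.a.1)⁻¹ * (C * 2 ^ A * (Φ / (1 + Real.log ‖ξ‖)) ^ A) := by
        split_ifs with ha
        · refine mul_le_mul_of_nonneg_left (ih (a - 1) b (by omega) ?_) hp
          obtain ⟨a', rfl⟩ := Nat.exists_eq_add_of_le' ha
          rw [Nat.add_sub_cancel]
          refine DecayN_prev S Φ ξ ‖S.a.2.2‖ _ hΦ (by linarith [S.a3l]) (norm_nonneg _) ?_
            (norm_nonneg _)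
          rw [W_succ_left] at h1
          rw [← norm_mul]
          exact h1
        · positivity
      have e2 : (if 1 ≤ b then (S.b.1)⁻¹ * V S 1 ξ a (b - 1) else 0) ≤
          (S.b.1)⁻¹ * (C * 2 ^ A * (Φ / (1 + Real.log ‖ξ‖)) ^ A) := by
        split_ifs with hb
        · refine mul_le_mul_of_nonneg_left (ih a (b - 1) (by omega) ?_) hq
          obtain ⟨b', rfl⟩ := Nat.exists_eq_add_of_le' hb
          rw [Nat.add_sub_cancel]
          refine DecayN_prev S Φ ξ ‖S.b.2.2‖ _ hΦ (by linarith [b3l S]) (norm_nonneg _) ?_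
            (norm_nonneg _)
          rw [W_succ_right] at h1
          rw [← norm_neg S.b.2.2, ← norm_mul]
          exact h1
        · positivity
      refine (add_le_add e1 e2).trans (le_of_eq ?_)
      rw [← add_mul, pq, one_mul]

theorem decayN (S : Sys2) (N : ℕ) (hN : 1 ≤ N) (A : ℕ) : ∃ C : ℝ, 1 ≤ C ∧
    ∀ (Φ : ℝ) (ξ : ℂ) (a b : ℕ), 1 ≤ Φ → 1 ≤ ‖ξ‖ → ‖ξ‖ * ‖(W S a b).2.2‖ ≤ Real.exp Φ →
      V S N ξ a b ≤ C * (Φ / (1 + Real.log ‖ξ‖)) ^ A := by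
  obtain ⟨C, hC, hdec⟩ := decay2 S A
  have hN1 : (1 : ℝ) ≤ N := by exact_mod_cast hN
  have hl : 0 ≤ Real.log N := Real.log_nonneg hN1
  refine ⟨C * (1 + Real.log N) ^ A, ?_, ?_⟩
  · have : (1 : ℝ) ≤ (1 + Real.log N) ^ A := one_le_pow₀ (by linarith)
    nlinarith
  intro Φ ξ a b hΦ hξ h
  have hlξ : 0 ≤ Real.log ‖ξ‖ := Real.log_nonneg hξ
  have e : ‖(N : ℂ) * ξ‖ = N * ‖ξ‖ := by rw [norm_mul, Complex.norm_natCast]
  have h1 := hdec (Φ + Real.log N) ((N : ℂ) * ξ) a b (by linarith)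
    (by rw [e]; nlinarith) (by
      rw [e, Real.exp_add, Real.exp_log (by linarith), mul_assoc, mul_comm]
      exact mul_le_mul_of_nonneg_right h (by linarith))
  rw [V_N]
  refine h1.trans ?_
  rw [mul_assoc, ← mul_pow]
  refine mul_le_mul_of_nonneg_left (pow_le_pow_left₀ ?_ ?_ A) (by linarith)
  · rw [e, Real.log_mul (by linarith) (by linarith)]
    positivity
  · rw [e, Real.log_mul (by linarith) (by linarith), ← mul_div_assoc]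
    refine div_le_div₀ (by nlinarith) (by nlinarith) (by linarith) (by linarith)

end Pool.Agent.H49.AB
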