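import Pool.Agent.H49.AB.L2
import Pool.Agent.H49.AB.DecayN

/-!
# JOB AB-24. The integral of `V² V'²` over very high frequencies (two classes)

Let `lam = ‖W_{ab}‖_3`, `lam' = ‖W_{a'b'}‖_3`, `r = 16 o`. On the region `‖ξ W_{ab}‖ ≥ exp(r^(3/4))` and the end level `‖ξ‖ lam lam'` is
`≤ exp(r^(1/2))`: `decayN` with `Φ = r^(1/2)`, exponent `4 A + 4`: `V S N (ξ W_{ab}) a' b' ≤ C (r^(1/2)/(1 + r^(3/4)))^(4A+4) ≤ C r^(-(A+1))`. And
`l2_disc` for `V S N ξ a b` with `X = exp(r^(1/2))/(lam lam')` (the region is contained in `‖ξ‖ ≤ X`): `X² ≤ exp(2 r^(1/2)) 0.6966^(-17 o) ≤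
exp(6.24 o) ≤ |W_{ab}|_1` for large `o` (`0.6966⁻¹ ≤ exp(0.3616)`, `17 * 0.3616 = 6.1472`), `bin ≤ 1`: `∫ V² ≤ 2 C`.

Status: complete (helper26).
-/

set_option autoImplicit false

namespace Pool.Agent.H49.AB

open Pool.Agent.H67.Tent Finset MeasureTheory

theorem deci2_bin {p q : ℝ} (hp : 0 ≤ p) (hq : 0 ≤ q) (h : p + q = 1) (a b : ℕ) :
    bin p q a b ≤ 1 := by
  have h1 : (p + q) ^ (a + b) = 1 := by rw [h, one_pow]
  rw [add_pow] at h1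
  have h2 : p ^ a * q ^ (a + b - a) * ((a + b).choose a : ℝ) ≤
      ∑ m ∈ range (a + b + 1), p ^ m * q ^ (a + b - m) * ((a + b).choose m : ℝ) :=
    Finset.single_le_sum (f := fun m => p ^ m * q ^ (a + b - m) * ((a + b).choose m : ℝ))
      (fun m _ => by positivity) (Finset.mem_range.2 (by omega))
  rw [h1] at h2
  have e1 : a + b - a = b := by omega
  have e2 : (a + b).choose a = (a + b).choose b := by
    rw [← Nat.choose_symm_add]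
  rw [e1, e2] at h2
  unfold bin
  calc _ = p ^ a * q ^ b * ((a + b).choose b : ℝ) := by ring
    _ ≤ 1 := h2

theorem deci2_lam (S : Sys2) (a b : ℕ) :
    (0.6966 : ℝ) ^ (a + b) ≤ ‖(W S a b).2.2‖ ^ 2 := by
  rw [W3, mul_pow, ← pow_mul, ← pow_mul, mul_comm a 2, mul_comm b 2, pow_mul, pow_mul, pow_add]
  have h1 : (0.6966 : ℝ) ≤ ‖S.a.2.2‖ ^ 2 := le_trans (by norm_num) S.a3l
  have h2 : (0.6966 : ℝ) ≤ ‖S.b.2.2‖ ^ 2 := b3l S
  gcongr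

theorem deci2_lam_le (S : Sys2) (a b : ℕ) : ‖(W S a b).2.2‖ ≤ 1 := by
  rw [W3]
  have h1 : ‖S.a.2.2‖ ≤ 1 := by
    have := S.a3u
    nlinarith [norm_nonneg S.a.2.2]
  have h2 : ‖S.b.2.2‖ ≤ 1 := by
    have := b3u S
    nlinarith [norm_nonneg S.b.2.2]
  exact mul_le_one₀ (pow_le_one₀ (norm_nonneg _) h1) (pow_nonneg (norm_nonneg _) _)
    (pow_le_one₀ (norm_nonneg _) h2)

theorem deci2_exp : (1 : ℝ) ≤ 0.6966 * Real.exp 0.3616 := by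
  have h := Real.sum_le_exp_of_nonneg (x := 0.3616) (by norm_num) 7
  have h2 : (1 : ℝ) ≤ 0.6966 * ∑ i ∈ range 7, (0.3616 : ℝ) ^ i / (i.factorial : ℝ) := by
    norm_num [Finset.sum_range_succ, Nat.factorial]
  linarith

/-- `exp(2 r^(1/2)) ≤ (lam lam')² |w|_1` -/
theorem deci2_num (S : Sys2) (a b a' b' o : ℕ) (h1 : a + b = 16 * o) (h2 : a' + b' = o)
    (ho : 10000 ≤ o) (hw : Real.exp (6.24 * o) ≤ |(W S a b).1|) :
    Real.exp ((16 * o : ℝ) ^ (1 / 2 : ℝ)) ^ 2 ≤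
      (‖(W S a b).2.2‖ * ‖(W S a' b').2.2‖) ^ 2 * |(W S a b).1| := by
  have ho' : (10000 : ℝ) ≤ o := by exact_mod_cast ho
  have hΦ : (16 * o : ℝ) ^ (1 / 2 : ℝ) ≤ 0.04 * o := by
    rw [← Real.sqrt_eq_rpow]
    apply Real.sqrt_le_iff.2
    constructor
    · positivity
    · nlinarith
  have h3 : (0.6966 : ℝ) ^ (17 * o) ≤ (‖(W S a b).2.2‖ * ‖(W S a' b').2.2‖) ^ 2 := by
    have e1 := deci2_lam S a b
    have e2 := deci2_lam S a' b'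
    rw [h1] at e1
    rw [h2] at e2
    have e : 17 * o = 16 * o + o := by ring
    rw [e, pow_add, mul_pow]
    gcongr
  have h4 : (1 : ℝ) ≤ 0.6966 ^ (17 * o) * Real.exp (0.3616 * (17 * o)) := by
    have e : Real.exp (0.3616 * (17 * o)) = Real.exp 0.3616 ^ (17 * o) := by
      rw [← Real.exp_nat_mul]
      congr 1
      push_cast
      ring
    rw [e, ← mul_pow]
    exact one_le_pow₀ deci2_exp
  calc Real.exp ((16 * o : ℝ) ^ (1 / 2 : ℝ)) ^ 2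
      = Real.exp (2 * (16 * o : ℝ) ^ (1 / 2 : ℝ)) := by
        rw [← Real.exp_nat_mul]
        norm_num
    _ ≤ Real.exp (0.08 * o) := Real.exp_le_exp.2 (by linarith)
    _ ≤ (0.6966 ^ (17 * o) * Real.exp (0.3616 * (17 * o))) * Real.exp (0.08 * o) :=
        le_mul_of_one_le_left (Real.exp_pos _).le h4
    _ = 0.6966 ^ (17 * o) * Real.exp (0.3616 * (17 * o) + 0.08 * o) := by
        rw [Real.exp_add]
        ring
    _ ≤ 0.6966 ^ (17 * o) * Real.exp (6.24 * o) := by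
        refine mul_le_mul_of_nonneg_left (Real.exp_le_exp.2 ?_) (by positivity)
        nlinarith
    _ ≤ _ := mul_le_mul h3 hw (Real.exp_pos _).le (by positivity)

theorem deci2_dec (A o : ℕ) (ho : 1 ≤ o) (C L v : ℝ) (hv0 : 0 ≤ v) (hC : 0 ≤ C)
    (hL : (16 * o : ℝ) ^ (3 / 4 : ℝ) ≤ L)
    (hv : v ≤ C * ((16 * o : ℝ) ^ (1 / 2 : ℝ) / (1 + L)) ^ (2 * A)) :
    v ^ 2 ≤ C ^ 2 / (o : ℝ) ^ A := by
  have ho' : (1 : ℝ) ≤ o := by exact_mod_cast ho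
  have hr : (0 : ℝ) < 16 * o := by positivity
  set r : ℝ := 16 * o with hrd
  have h34 : 0 < r ^ (3 / 4 : ℝ) := Real.rpow_pos_of_pos hr _
  have h12 : 0 < r ^ (1 / 2 : ℝ) := Real.rpow_pos_of_pos hr _
  have ht : r ^ (1 / 2 : ℝ) / (1 + L) ≤ r ^ (-(1 / 4) : ℝ) := by
    calc r ^ (1 / 2 : ℝ) / (1 + L) ≤ r ^ (1 / 2 : ℝ) / r ^ (3 / 4 : ℝ) :=
          div_le_div_of_nonneg_left h12.le h34 (by linarith)
      _ = r ^ (-(1 / 4) : ℝ) := by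
          rw [← Real.rpow_sub hr]
          norm_num
  have h0 : 0 ≤ r ^ (1 / 2 : ℝ) / (1 + L) := div_nonneg h12.le (by linarith)
  have hv2 : v ≤ C * (r ^ (-(1 / 4) : ℝ)) ^ (2 * A) :=
    hv.trans (mul_le_mul_of_nonneg_left (pow_le_pow_left₀ h0 ht _) hC)
  have e4 : (r ^ (-(1 / 4) : ℝ)) ^ 4 = 1 / r := by
    rw [← Real.rpow_natCast, ← Real.rpow_mul hr.le]
    norm_num
    rw [Real.rpow_neg_one]
  calc v ^ 2 ≤ (C * (r ^ (-(1 / 4) : ℝ)) ^ (2 * A)) ^ 2 := pow_le_pow_left₀ hv0 hv2 2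
    _ = C ^ 2 * ((r ^ (-(1 / 4) : ℝ)) ^ 4) ^ A := by
        rw [mul_pow, ← pow_mul, ← pow_mul]
        congr 2
        ring
    _ = C ^ 2 * (1 / r) ^ A := by rw [e4]
    _ ≤ C ^ 2 * (1 / o) ^ A := by
        have : (o : ℝ) ≤ r := by rw [hrd]; linarith
        gcongr
    _ = _ := by
        rw [one_div, inv_pow]
        rfl

theorem deci2 (S : Sys2) (N : ℕ) (hN : 1 ≤ N) (A : ℕ) : ∃ (C : ℝ) (o0 : ℕ), 1 ≤ C ∧
    ∀ (a b a' b' o : ℕ), a + b = 16 * o → a' + b' = o → o0 ≤ o →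
      Real.exp (6.24 * o) ≤ |(W S a b).1| →
      ∫⁻ ξ in {ξ : ℂ | Real.exp ((16 * o : ℝ) ^ (3 / 4 : ℝ)) ≤ ‖ξ‖ * ‖(W S a b).2.2‖ ∧
        ‖ξ‖ * (‖(W S a b).2.2‖ * ‖(W S a' b').2.2‖) ≤ Real.exp ((16 * o : ℝ) ^ (1 / 2 : ℝ))},
        ENNReal.ofReal (V S N ξ a b ^ 2 * V S N (ξ * (W S a b).2.2) a' b' ^ 2) ≤
        ENNReal.ofReal (C / (o : ℝ) ^ A) := by
  obtain ⟨C1, hC1, hdec⟩ := decayN S N hN (2 * A)
  obtain ⟨C2, hC2, hl2⟩ := l2_disc S N hN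
  refine ⟨C1 ^ 2 * (2 * C2), 10000, ?_, ?_⟩
  · have h1 : 1 ≤ C1 ^ 2 := one_le_pow₀ hC1
    nlinarith
  intro a b a' b' o hab hab' ho hw
  have ho' : (10000 : ℝ) ≤ o := by exact_mod_cast ho
  have hnum := deci2_num S a b a' b' o hab hab' ho hw
  have hl0 := W3_pos S a b
  have hl0' := W3_pos S a' b'
  have hl1 := deci2_lam_le S a b
  have hl1' := deci2_lam_le S a' b'
  have hw0 := W1_pos S a b
  set lam := ‖(W S a b).2.2‖ with hlam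
  set lam' := ‖(W S a' b').2.2‖ with hlam'
  set Φ : ℝ := (16 * o : ℝ) ^ (1 / 2 : ℝ) with hΦ
  set Ψ : ℝ := (16 * o : ℝ) ^ (3 / 4 : ℝ) with hΨ
  have hr1 : (1 : ℝ) ≤ 16 * o := by linarith
  have hΦ1 : 1 ≤ Φ := Real.one_le_rpow hr1 (by norm_num)
  have hΨ0 : 0 ≤ Ψ := Real.rpow_nonneg (by linarith) _
  have hll : 0 < lam * lam' := mul_pos hl0 hl0'
  have hll1 : lam * lam' ≤ 1 := mul_le_one₀ hl1 hl0'.le hl1'
  -- pointwise bound
  have hpt : ∀ ξ ∈ {ξ : ℂ | Real.exp Ψ ≤ ‖ξ‖ * lam ∧ ‖ξ‖ * (lam * lam') ≤ Real.exp Φ},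
      ENNReal.ofReal (V S N ξ a b ^ 2 * V S N (ξ * (W S a b).2.2) a' b' ^ 2) ≤
      ENNReal.ofReal (C1 ^ 2 / (o : ℝ) ^ A) * ENNReal.ofReal (V S N ξ a b ^ 2) := by
    rintro ξ ⟨h1, h2⟩
    have hn : ‖ξ * (W S a b).2.2‖ = ‖ξ‖ * lam := norm_mul _ _
    have h3 : 1 ≤ ‖ξ * (W S a b).2.2‖ := by
      rw [hn]
      exact le_trans (Real.one_le_exp hΨ0) h1
    have h4 : ‖ξ * (W S a b).2.2‖ * ‖(W S a' b').2.2‖ ≤ Real.exp Φ := by
      rw [hn, mul_assoc]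
      exact h2
    have h5 := hdec Φ (ξ * (W S a b).2.2) a' b' hΦ1 h3 h4
    have h6 : Ψ ≤ Real.log ‖ξ * (W S a b).2.2‖ := by
      rw [Real.le_log_iff_exp_le (by linarith), hn]
      exact h1
    have h7 := deci2_dec A o (by omega) C1 _ _ (V_nonneg S N _ a' b') (by linarith) h6 h5
    rw [← ENNReal.ofReal_mul (by positivity)]
    apply ENNReal.ofReal_le_ofReal
    rw [mul_comm (C1 ^ 2 / (o : ℝ) ^ A)]
    exact mul_le_mul_of_nonneg_left h7 (by positivity)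
  have hmeas : MeasurableSet {ξ : ℂ | Real.exp Ψ ≤ ‖ξ‖ * lam ∧
      ‖ξ‖ * (lam * lam') ≤ Real.exp Φ} := by
    have c1 : IsClosed {ξ : ℂ | Real.exp Ψ ≤ ‖ξ‖ * lam} :=
      isClosed_le continuous_const (continuous_norm.mul continuous_const)
    have c2 : IsClosed {ξ : ℂ | ‖ξ‖ * (lam * lam') ≤ Real.exp Φ} :=
      isClosed_le (continuous_norm.mul continuous_const) continuous_const
    exact (c1.inter c2).measurableSet
  have hsub : {ξ : ℂ | Real.exp Ψ ≤ ‖ξ‖ * lam ∧ ‖ξ‖ * (lam * lam') ≤ Real.exp Φ} ⊆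
      {ξ : ℂ | ‖ξ‖ ≤ Real.exp Φ / (lam * lam')} := by
    rintro ξ ⟨h1, h2⟩
    exact (le_div_iff₀ hll).2 h2
  have hX : 1 ≤ Real.exp Φ / (lam * lam') := by
    rw [le_div_iff₀ hll, one_mul]
    exact hll1.trans (Real.one_le_exp (by linarith))
  have hbin : bin (S.a.1)⁻¹ (S.b.1)⁻¹ a b ≤ 1 :=
    deci2_bin (inv_nonneg.2 (ap S).le) (inv_nonneg.2 (bp S).le) (pq S) a b
  have hXb : (Real.exp Φ / (lam * lam')) ^ 2 *
      (bin (S.a.1)⁻¹ (S.b.1)⁻¹ a b / |(W S a b).1|) ≤ 1 := by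
    have h1 : (Real.exp Φ / (lam * lam')) ^ 2 * (1 / |(W S a b).1|) ≤ 1 := by
      rw [div_pow, div_mul_div_comm, mul_one]
      exact (div_le_one (by positivity)).2 hnum
    refine le_trans (mul_le_mul_of_nonneg_left ?_ (by positivity)) h1
    exact div_le_div_of_nonneg_right hbin hw0.le
  calc _ ≤ ∫⁻ ξ in {ξ : ℂ | Real.exp Ψ ≤ ‖ξ‖ * lam ∧ ‖ξ‖ * (lam * lam') ≤ Real.exp Φ},
        ENNReal.ofReal (C1 ^ 2 / (o : ℝ) ^ A) * ENNReal.ofReal (V S N ξ a b ^ 2) :=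
        setLIntegral_mono' hmeas hpt
    _ = ENNReal.ofReal (C1 ^ 2 / (o : ℝ) ^ A) *
        ∫⁻ ξ in {ξ : ℂ | Real.exp Ψ ≤ ‖ξ‖ * lam ∧ ‖ξ‖ * (lam * lam') ≤ Real.exp Φ},
          ENNReal.ofReal (V S N ξ a b ^ 2) :=
        lintegral_const_mul' _ _ ENNReal.ofReal_ne_top
    _ ≤ ENNReal.ofReal (C1 ^ 2 / (o : ℝ) ^ A) *
        ∫⁻ ξ in {ξ : ℂ | ‖ξ‖ ≤ Real.exp Φ / (lam * lam')},
          ENNReal.ofReal (V S N ξ a b ^ 2) := by
        gcongr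
    _ ≤ ENNReal.ofReal (C1 ^ 2 / (o : ℝ) ^ A) * ENNReal.ofReal (C2 * (1 + 1)) := by
        refine mul_le_mul' le_rfl ((hl2 a b _ hX).trans ?_)
        apply ENNReal.ofReal_le_ofReal
        refine mul_le_mul_of_nonneg_left ?_ (by linarith)
        linarith
    _ = _ := by
        rw [← ENNReal.ofReal_mul (by positivity)]
        congr 1
        ring

end Pool.Agent.H49.AB
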