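import Pool.Agent.H49.AB.VFacts
import Pool.Agent.H67.Tent.Avg

/-!
# JOB AB-20. Inverse branches of words

`gw_eq`: induction on `w`, `mul (c :: w) = mul w * letr c`, `off (c :: w) = off w + mul w * loff c`; `gb true y = N - b⁻¹ y = (-b)⁻¹ (y - N b)`
(componentwise inverses; `mul S w` has nonzero components).
`gw_first`: induction, `0 ≤ y.1 ≤ N` gives `0 ≤ y.1/α ≤ N` and `0 ≤ N - y.1/β ≤ N`.
`off_first`: `(off w).1 = - (mul w).1 * (gw w 0).1`, `(gw w 0).1 ∈ [0, N]`; the same slope for both words (`mul_cls`).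
`off_inj`: if the offsets are equal then (same slope) `gw w = gw w'`. Induction on the length (generalise `a, b`). `w = c :: v`, `w' = c' :: v'`
(if one is empty both are). If `c = c'` then `v, v'` lie in the same class and `off v = off v'` (`off (c::v) = off v + mul v * loff c`). If `c = false`,
`c' = true`: for all `y` with `y.1 ∈ [0, N]` the first coordinate of `gw (false :: v) y = a⁻¹ * gw v y` is `≤ N/α`, that of
`gw (true :: v') y = N - b⁻¹ * gw v' y` is `≥ N - N/β = N/α`; equal for all such `y`, so constant `= N/α`; but `gw w y` is affine in `y` with slope `(mul w)⁻¹`,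
first coordinate nonzero, so `y = 0` and `y = N` give different values. Contradiction (`N ≥ 1`).
`moment_cls`: `second_moment` (`H67/Tent/Avg.lean`) with `s = 0`, `n = a + b`: `∑ over words of |mul|⁻¹ ‖off.2.1‖² ≤ 25 N²`; restrict to `cls a b`.
`gs_gw`: `gw_eq`, norms are multiplicative. `off3`: `off3_le`. `off2`: `‖off.2.1‖ ≤ N * (a+b) * ‖a2‖^(a+b)` (each letter multiplies by at most `‖a2‖ ≥ 1` and
adds at most `N`; `‖a2‖ ≤ 1.0505`).
-/

set_option autoImplicit false

namespace Pool.Agent.H49.AB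

open Pool.Agent.H67.Tent Finset

theorem wsum_eq (n : ℕ) (f : List Bool → ℝ) : wsum n f = ∑ w ∈ words n, f w := by
  induction n generalizing f with
  | zero => simp [wsum, words]
  | succ n ih =>
    rw [sum_words_succ]
    show wsum n (fun w => f (false :: w)) + wsum n (fun w => f (true :: w)) = _
    rw [ih, ih]

theorem GW_field {F : Type*} [Field F] {m l : F} (hm : m ≠ 0) (y o q : F) :
    (m * l)⁻¹ * (y - (o + m * q)) = l⁻¹ * (m⁻¹ * (y - o) - q) := by
  have h : m⁻¹ * m = 1 := inv_mul_cancel₀ hm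
  rw [mul_inv]
  calc m⁻¹ * l⁻¹ * (y - (o + m * q)) = l⁻¹ * (m⁻¹ * (y - o) - (m⁻¹ * m) * q) := by ring
    _ = _ := by rw [h, one_mul]

theorem GW_field2 {F : Type*} [Field F] {b : F} (hb : b ≠ 0) (Y n : F) :
    (-b)⁻¹ * (Y - n * b) = n - b⁻¹ * Y := by
  have h : b⁻¹ * b = 1 := inv_mul_cancel₀ hb
  rw [inv_neg]
  calc -b⁻¹ * (Y - n * b) = n * (b⁻¹ * b) - b⁻¹ * Y := by ring
    _ = _ := by rw [h, mul_one]

/-- The inverse branch is the inverse of the affine map. -/
theorem gw_eq (S : Sys2) (N : ℕ) (w : List Bool) (y : E) :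
    gw S N w y = (mul S.toSys w)⁻¹ * (y - off S.toSys N w) := by
  induction w with
  | nil =>
    show y = (1 : E)⁻¹ * (y - 0)
    rw [sub_zero]
    refine Prod.ext ?_ (Prod.ext ?_ ?_)
    · show y.1 = (1 : ℝ)⁻¹ * y.1
      rw [inv_one, one_mul]
    · show y.2.1 = (1 : ℂ)⁻¹ * y.2.1
      rw [inv_one, one_mul]
    · show y.2.2 = (1 : ℂ)⁻¹ * y.2.2
      rw [inv_one, one_mul]
  | cons c w ih =>
    have h1 : (mul S.toSys w).1 ≠ 0 := abs_pos.1 (mul_abs1_pos S.toSys w)
    have h2 : (mul S.toSys w).2.1 ≠ 0 := norm_pos_iff.1 (mul_norm2_pos S.toSys w)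
    have h3 : (mul S.toSys w).2.2 ≠ 0 := norm_pos_iff.1 (mul_norm3_pos S.toSys w)
    have hg : gw S N (c :: w) y = gb S N c (gw S N w y) := rfl
    rw [hg, ih]
    have hm : mul S.toSys (c :: w) = mul S.toSys w * letr S.toSys c := rfl
    have ho : off S.toSys N (c :: w) = off S.toSys N w + mul S.toSys w * loff S.toSys N c := rfl
    rw [hm, ho]
    have hb1 : S.b.1 ≠ 0 := (bp S).ne'
    have hb2 : S.b.2.1 ≠ 0 := norm_pos_iff.1 (b2_pos S.toSys)
    have hb3 : S.b.2.2 ≠ 0 := norm_pos_iff.1 (b3_pos S.toSys)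
    cases c
    · refine Prod.ext ?_ (Prod.ext ?_ ?_)
      · show (S.a.1)⁻¹ * ((mul S.toSys w).1⁻¹ * (y.1 - (off S.toSys N w).1)) =
          ((mul S.toSys w).1 * S.a.1)⁻¹ * (y.1 - ((off S.toSys N w).1 + (mul S.toSys w).1 * 0))
        rw [GW_field h1, sub_zero]
      · show (S.a.2.1)⁻¹ * ((mul S.toSys w).2.1⁻¹ * (y.2.1 - (off S.toSys N w).2.1)) =
          ((mul S.toSys w).2.1 * S.a.2.1)⁻¹ *
            (y.2.1 - ((off S.toSys N w).2.1 + (mul S.toSys w).2.1 * 0))
        rw [GW_field h2, sub_zero]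
      · show (S.a.2.2)⁻¹ * ((mul S.toSys w).2.2⁻¹ * (y.2.2 - (off S.toSys N w).2.2)) =
          ((mul S.toSys w).2.2 * S.a.2.2)⁻¹ *
            (y.2.2 - ((off S.toSys N w).2.2 + (mul S.toSys w).2.2 * 0))
        rw [GW_field h3, sub_zero]
    · refine Prod.ext ?_ (Prod.ext ?_ ?_)
      · show (N : ℝ) - (S.b.1)⁻¹ * ((mul S.toSys w).1⁻¹ * (y.1 - (off S.toSys N w).1)) =
          ((mul S.toSys w).1 * -S.b.1)⁻¹ *
            (y.1 - ((off S.toSys N w).1 + (mul S.toSys w).1 * ((N : ℝ) * S.b.1)))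
        rw [GW_field h1, GW_field2 hb1]
      · show (N : ℂ) - (S.b.2.1)⁻¹ * ((mul S.toSys w).2.1⁻¹ * (y.2.1 - (off S.toSys N w).2.1)) =
          ((mul S.toSys w).2.1 * -S.b.2.1)⁻¹ *
            (y.2.1 - ((off S.toSys N w).2.1 + (mul S.toSys w).2.1 * ((N : ℂ) * S.b.2.1)))
        rw [GW_field h2, GW_field2 hb2]
      · show (N : ℂ) - (S.b.2.2)⁻¹ * ((mul S.toSys w).2.2⁻¹ * (y.2.2 - (off S.toSys N w).2.2)) =
          ((mul S.toSys w).2.2 * -S.b.2.2)⁻¹ *
            (y.2.2 - ((off S.toSys N w).2.2 + (mul S.toSys w).2.2 * ((N : ℂ) * S.b.2.2)))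
        rw [GW_field h3, GW_field2 hb3]

theorem gw_append (S : Sys2) (N : ℕ) (v w : List Bool) (y : E) :
    gw S N (v ++ w) y = gw S N v (gw S N w y) := by
  induction v with
  | nil => rfl
  | cons c v ih =>
    show gb S N c (gw S N (v ++ w) y) = gb S N c (gw S N v (gw S N w y))
    rw [ih]

theorem GW_ainv_le (S : Sys2) : (S.a.1)⁻¹ ≤ 1 := (pu S).trans (by norm_num)

theorem GW_ainv_nn (S : Sys2) : 0 ≤ (S.a.1)⁻¹ := (inv_pos.2 (ap S)).le

theorem GW_binv_nn (S : Sys2) : 0 ≤ (S.b.1)⁻¹ := (inv_pos.2 (bp S)).le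

theorem gw_first (S : Sys2) (N : ℕ) (w : List Bool) {y : E} (h0 : 0 ≤ y.1) (h1 : y.1 ≤ N) :
    0 ≤ (gw S N w y).1 ∧ (gw S N w y).1 ≤ N := by
  induction w with
  | nil => exact ⟨h0, h1⟩
  | cons c w ih =>
    obtain ⟨i1, i2⟩ := ih
    have ha := GW_ainv_le S
    have ha0 := GW_ainv_nn S
    have hb0 := GW_binv_nn S
    have hpq := pq S
    cases c
    · have e : (gw S N (false :: w) y).1 = (S.a.1)⁻¹ * (gw S N w y).1 := rfl
      rw [e]
      refine ⟨mul_nonneg ha0 i1, ?_⟩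
      nlinarith
    · have e : (gw S N (true :: w) y).1 = (N : ℝ) - (S.b.1)⁻¹ * (gw S N w y).1 := rfl
      rw [e]
      have h3 : (S.b.1)⁻¹ * (gw S N w y).1 ≤ (gw S N w y).1 := by nlinarith
      refine ⟨by linarith, ?_⟩
      have := mul_nonneg hb0 i1
      linarith

theorem gs_gw (S : Sys2) (N : ℕ) (R Q : ℝ) {a b : ℕ} {w : List Bool} (hw : w ∈ cls a b) (y : E) :
    gs R Q (gw S N w y) = Real.exp (-(Real.pi *
      (‖y.2.1 - (off S.toSys N w).2.1‖ ^ 2 / (R * ‖(W S a b).2.1‖) ^ 2 +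
        ‖y.2.2 - (off S.toSys N w).2.2‖ ^ 2 / (Q * ‖(W S a b).2.2‖) ^ 2))) := by
  rw [gw_eq, mul_cls S hw]
  unfold gs
  have e1 : (((W S a b)⁻¹ * (y - off S.toSys N w)).2.1) =
      ((W S a b).2.1)⁻¹ * (y.2.1 - (off S.toSys N w).2.1) := rfl
  have e2 : (((W S a b)⁻¹ * (y - off S.toSys N w)).2.2) =
      ((W S a b).2.2)⁻¹ * (y.2.2 - (off S.toSys N w).2.2) := rfl
  rw [e1, e2, norm_mul, norm_mul, norm_inv, norm_inv]
  have key : ∀ r x t : ℝ, (r⁻¹ * x) ^ 2 / t ^ 2 = x ^ 2 / (t * r) ^ 2 := by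
    intro r x t
    rw [mul_pow, mul_pow, inv_pow, div_eq_mul_inv, div_eq_mul_inv, mul_inv]
    ring
  rw [key, key]

theorem GW_off1 (S : Sys2) (N : ℕ) (w : List Bool) :
    (off S.toSys N w).1 = -((mul S.toSys w).1 * (gw S N w 0).1) := by
  have h1 : (mul S.toSys w).1 ≠ 0 := abs_pos.1 (mul_abs1_pos S.toSys w)
  have e : (gw S N w 0).1 = (mul S.toSys w).1⁻¹ * (0 - (off S.toSys N w).1) := by
    rw [gw_eq]; rfl
  rw [e, ← mul_assoc, mul_inv_cancel₀ h1]
  ring

theorem GW_zero_first (S : Sys2) (N : ℕ) (w : List Bool) :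
    0 ≤ (gw S N w 0).1 ∧ (gw S N w 0).1 ≤ N := by
  apply gw_first
  · exact le_rfl
  · show (0 : ℝ) ≤ N
    positivity

theorem off_first (S : Sys2) (N : ℕ) {a b : ℕ} {w w' : List Bool} (hw : w ∈ cls a b)
    (hw' : w' ∈ cls a b) : |(off S.toSys N w - off S.toSys N w').1| ≤ N * |(W S a b).1| := by
  have e : (off S.toSys N w - off S.toSys N w').1 =
      (off S.toSys N w).1 - (off S.toSys N w').1 := rfl
  rw [e, GW_off1, GW_off1, mul_cls S hw, mul_cls S hw']
  obtain ⟨a1, a2⟩ := GW_zero_first S N w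
  obtain ⟨b1, b2⟩ := GW_zero_first S N w'
  have e2 : -((W S a b).1 * (gw S N w 0).1) - -((W S a b).1 * (gw S N w' 0).1) =
      (W S a b).1 * ((gw S N w' 0).1 - (gw S N w 0).1) := by ring
  rw [e2, abs_mul, mul_comm]
  refine mul_le_mul_of_nonneg_right ?_ (abs_nonneg _)
  rw [abs_le]
  constructor <;> linarith

theorem GW_ne (S : Sys2) (N : ℕ) (hN : 1 ≤ N) {v v' : List Bool}
    (h0 : (false :: v).count false = (true :: v').count false)
    (h1 : (false :: v).count true = (true :: v').count true) :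
    off S.toSys N (false :: v) ≠ off S.toSys N (true :: v') := by
  intro h
  have hm := mul_eq_of_count S.toSys h0 h1
  have key : ∀ y : E, gw S N (false :: v) y = gw S N (true :: v') y := by
    intro y
    rw [gw_eq, gw_eq, h, hm]
  have hN' : (1 : ℝ) ≤ N := by exact_mod_cast hN
  have hc : ∀ y : E, 0 ≤ y.1 → y.1 ≤ N → (gw S N (false :: v) y).1 = (S.a.1)⁻¹ * N := by
    intro y hy0 hy1
    apply le_antisymm
    · have e : (gw S N (false :: v) y).1 = (S.a.1)⁻¹ * (gw S N v y).1 := rfl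
      rw [e]
      exact mul_le_mul_of_nonneg_left (gw_first S N v hy0 hy1).2 (GW_ainv_nn S)
    · rw [key y]
      have e : (gw S N (true :: v') y).1 = (N : ℝ) - (S.b.1)⁻¹ * (gw S N v' y).1 := rfl
      rw [e]
      have h2 := mul_le_mul_of_nonneg_left (gw_first S N v' hy0 hy1).2 (GW_binv_nn S)
      have h3 := pq S
      have h4 : (S.a.1)⁻¹ * N = N - (S.b.1)⁻¹ * N := by
        have : (S.a.1)⁻¹ = 1 - (S.b.1)⁻¹ := by linarith
        rw [this]; ring
      linarith
  have e0 := hc 0 le_rfl (by show (0 : ℝ) ≤ N; positivity)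
  have eN := hc (N : E) (by show (0 : ℝ) ≤ ((N : E)).1; rw [Prod.fst_natCast]; positivity)
    (by rw [Prod.fst_natCast])
  rw [gw_eq] at e0 eN
  have f0 : ((mul S.toSys (false :: v))⁻¹ * ((0 : E) - off S.toSys N (false :: v))).1 =
    (mul S.toSys (false :: v)).1⁻¹ * (0 - (off S.toSys N (false :: v)).1) := rfl
  have fN : ((mul S.toSys (false :: v))⁻¹ * ((N : E) - off S.toSys N (false :: v))).1 =
    (mul S.toSys (false :: v)).1⁻¹ * ((N : ℝ) - (off S.toSys N (false :: v)).1) := rfl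
  rw [f0] at e0
  rw [fN] at eN
  have h5 : (mul S.toSys (false :: v)).1⁻¹ * N = 0 := by linarith
  rcases mul_eq_zero.1 h5 with h6 | h6
  · exact (abs_pos.1 (mul_abs1_pos S.toSys (false :: v))) (inv_eq_zero.1 h6)
  · linarith

theorem GW_inj (S : Sys2) (N : ℕ) (hN : 1 ≤ N) (w : List Bool) :
    ∀ w' : List Bool, w.count false = w'.count false → w.count true = w'.count true →
      off S.toSys N w = off S.toSys N w' → w = w' := by
  induction w with
  | nil =>
    intro w' h0 h1 _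
    have := count_add w'
    simp only [List.count_nil] at h0 h1
    exact (List.length_eq_zero_iff.1 (by omega)).symm
  | cons c v ih =>
    intro w' h0 h1 h
    rcases w' with _ | ⟨c', v'⟩
    · have := count_add (c :: v)
      simp only [List.count_nil] at h0 h1
      rw [List.length_cons] at this
      omega
    · have ho : ∀ (d : Bool) (u : List Bool), off S.toSys N (d :: u) =
          off S.toSys N u + mul S.toSys u * loff S.toSys N d := fun _ _ => rfl
      by_cases hcc : c = c'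
      · subst hcc
        have h0' : v.count false = v'.count false := by
          cases c
          · rw [List.count_cons_self, List.count_cons_self] at h0
            omega
          · rw [List.count_cons_of_ne (by simp), List.count_cons_of_ne (by simp)] at h0
            exact h0
        have h1' : v.count true = v'.count true := by
          cases c
          · rw [List.count_cons_of_ne (by simp), List.count_cons_of_ne (by simp)] at h1
            exact h1
          · rw [List.count_cons_self, List.count_cons_self] at h1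
            omega
        rw [ho, ho, mul_eq_of_count S.toSys h0' h1'] at h
        rw [ih v' h0' h1' (add_right_cancel h)]
      · exfalso
        cases c <;> cases c'
        · exact hcc rfl
        · exact GW_ne S N hN h0 h1 h
        · exact GW_ne S N hN h0.symm h1.symm h.symm
        · exact hcc rfl

theorem off_inj (S : Sys2) (N : ℕ) (hN : 1 ≤ N) {a b : ℕ} {w w' : List Bool} (hw : w ∈ cls a b)
    (hw' : w' ∈ cls a b) (h : off S.toSys N w = off S.toSys N w') : w = w' := by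
  rw [mem_cls] at hw hw'
  exact GW_inj S N hN w w' (by rw [hw.1, hw'.1]) (by rw [hw.2, hw'.2]) h

theorem moment_cls (S : Sys2) (N a b : ℕ) :
    ∑ w ∈ cls a b, ‖(off S.toSys N w).2.1‖ ^ 2 ≤ 25 * N ^ 2 * |(W S a b).1| := by
  have h := second_moment S.toSys N (a + b) 0 le_rfl
  rw [wsum_eq] at h
  have h2 : ∑ w ∈ cls a b, |(mul S.toSys w).1|⁻¹ *
      (‖(mul S.toSys w).2.1‖ * 0 + ‖(off S.toSys N w).2.1‖) ^ 2 ≤
      ∑ w ∈ words (a + b), |(mul S.toSys w).1|⁻¹ *
      (‖(mul S.toSys w).2.1‖ * 0 + ‖(off S.toSys N w).2.1‖) ^ 2 := by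
    apply Finset.sum_le_sum_of_subset_of_nonneg (Finset.filter_subset _ _)
    intro w _ _
    positivity
  have h3 : ∑ w ∈ cls a b, |(mul S.toSys w).1|⁻¹ *
      (‖(mul S.toSys w).2.1‖ * 0 + ‖(off S.toSys N w).2.1‖) ^ 2 =
      |(W S a b).1|⁻¹ * ∑ w ∈ cls a b, ‖(off S.toSys N w).2.1‖ ^ 2 := by
    rw [Finset.mul_sum]
    apply Finset.sum_congr rfl
    intro w hw
    rw [mul_cls S hw, mul_zero, zero_add]
  have hW := W1_pos S a b
  have h4 : |(W S a b).1|⁻¹ * ∑ w ∈ cls a b, ‖(off S.toSys N w).2.1‖ ^ 2 ≤ 25 * (N : ℝ) ^ 2 := by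
    rw [← h3]
    refine (h2.trans h).trans ?_
    nlinarith
  calc ∑ w ∈ cls a b, ‖(off S.toSys N w).2.1‖ ^ 2
      = |(W S a b).1| * (|(W S a b).1|⁻¹ * ∑ w ∈ cls a b, ‖(off S.toSys N w).2.1‖ ^ 2) := by
        rw [← mul_assoc, mul_inv_cancel₀ hW.ne', one_mul]
    _ ≤ |(W S a b).1| * (25 * (N : ℝ) ^ 2) := mul_le_mul_of_nonneg_left h4 hW.le
    _ = _ := by ring

theorem GW_mul2 (S : Sys2) (w : List Bool) : ‖(mul S.toSys w).2.1‖ ≤ 1.0505 ^ w.length := by
  rw [mul_norm2, ← count_add w, pow_add]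
  have h1 : ‖S.a.2.1‖ ≤ 1.0505 := by
    have := S.a2u
    have h0 := norm_nonneg S.a.2.1
    nlinarith
  have h2 : ‖S.b.2.1‖ ≤ 1.0505 := (pass_b2 S.toSys).trans (by norm_num)
  exact mul_le_mul (pow_le_pow_left₀ (norm_nonneg _) h1 _) (pow_le_pow_left₀ (norm_nonneg _) h2 _)
    (pow_nonneg (norm_nonneg _) _) (by positivity)

theorem off2_bound (S : Sys2) (N : ℕ) (w : List Bool) :
    ‖(off S.toSys N w).2.1‖ ≤ N * w.length * 1.0505 ^ w.length := by
  induction w with
  | nil => simp [off]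
  | cons c w ih =>
    have e : (off S.toSys N (c :: w)).2.1 =
      (off S.toSys N w).2.1 + (mul S.toSys w).2.1 * (loff S.toSys N c).2.1 := rfl
    rw [e, List.length_cons]
    have h1 := GW_mul2 S w
    have h2 := pass_loff2 S.toSys N c
    have h3 : ‖(mul S.toSys w).2.1 * (loff S.toSys N c).2.1‖ ≤ 1.0505 ^ w.length * N := by
      rw [norm_mul]
      exact mul_le_mul h1 h2 (norm_nonneg _) (by positivity)
    refine (norm_add_le _ _).trans ?_
    have h4 : (1.0505 : ℝ) ^ w.length ≤ 1.0505 ^ (w.length + 1) :=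
      pow_le_pow_right₀ (by norm_num) (Nat.le_succ _)
    have h5 : (0 : ℝ) ≤ (N : ℝ) * ((w.length : ℝ) + 1) := by positivity
    push_cast
    calc ‖(off S.toSys N w).2.1‖ + ‖(mul S.toSys w).2.1 * (loff S.toSys N c).2.1‖
        ≤ N * w.length * 1.0505 ^ w.length + 1.0505 ^ w.length * N := add_le_add ih h3
      _ = (N : ℝ) * ((w.length : ℝ) + 1) * 1.0505 ^ w.length := by ring
      _ ≤ (N : ℝ) * ((w.length : ℝ) + 1) * 1.0505 ^ (w.length + 1) :=
        mul_le_mul_of_nonneg_left h4 h5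

theorem off3_bound (S : Sys2) (N : ℕ) (w : List Bool) : ‖(off S.toSys N w).2.2‖ ≤ 6 * N :=
  off3_le S.toSys N w

end Pool.Agent.H49.AB
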