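import Pool.Agent.H49.AB.DecI
import Pool.Agent.H49.AB.DecI2
import Pool.Agent.H49.AB.GW

/-!
# JOB AB-25. The frequency integral of a pair of classes

Notation: `r = 16 o`, `lam = ‖(W S a b).2.2‖`, `lam' = ‖(W S a' b').2.2‖`, `w1 = |(W S a b).1|`, `w1' = |(W S a' b').1|`, `e_i = exp(-π s_i² ‖ξ‖²)`. Divide by
`(w1 w1')²`; the integrand becomes `‖chi/w1‖² ‖(chi'/w1') e_1 - (card'/w1') e_2‖²`, `card'/w1' = bin ≤ 1`, `‖chi/w1‖ = V ≤ 1`, `‖chi'/w1'‖ = V' ≤ 1`.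
* `‖ξ‖ ≤ exp(r/20)`: `‖chi' - card'‖ ≤ card' * 2π ‖ξ‖ lam * 6N` (`‖ec x - 1‖ ≤ 2π |x|`, `off3_bound`), `|1 - e_i| ≤ π s_i² ‖ξ‖² ≤ π lam² ‖ξ‖²`. So the integrand is at
  most `C (‖ξ‖² lam² + ‖ξ‖⁴ lam⁴)`, integral over the disc `≤ C' (exp(r/5) lam² + exp(3r/10) lam⁴)`, `lam² ≤ 0.7332^r ≤ exp(-0.31 r)`.
* `‖ξ‖ ≥ exp(r/20)`: integrand `≤ 2 V² V'² e_1² + 2 V² e_2²`.
  Second term: where `‖ξ‖ lam ≤ exp(r^(3/4))` use `deci`; beyond, `V ≤ 1`, `e_2² ≤ exp(-π (lam/2)² ‖ξ‖²)`, `gauss_tail` with `c = lam/2`,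
  `T = exp(r^(3/4))/2`: `≤ 8 lam⁻² exp(-(π/8) exp(2 r^(3/4)))`, `lam⁻² ≤ 0.6966^(-r)`.
  First term: `‖ξ‖ lam ≤ exp(r^(3/4))`: `V' e_1 ≤ 1`, `deci`; then up to `‖ξ‖ lam lam' ≤ exp(r^(1/2))`: `deci2`; beyond: `gauss_tail` with `c = lam lam'/2`
  (`s_1 ≥ lam lam'/2`), `T = exp(r^(1/2))/2`.
Everything is `≤ C/o^A` for `o ≥ o0`.
-/

set_option autoImplicit false

namespace Pool.Agent.H49.AB

open Pool.Agent.H67.Tent Finset MeasureTheory

theorem Freq_card_le (S : Sys2) (a b : ℕ) : ((cls a b).card : ℝ) ≤ |(W S a b).1| := by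
  have h := bin_le_one (inv_nonneg.2 (ap S).le) (inv_nonneg.2 (bp S).le) (pq S) a b
  have hp : 0 < S.a.1 ^ a * S.b.1 ^ b := mul_pos (pow_pos (ap S) _) (pow_pos (bp S) _)
  unfold bin at h
  rw [card_cls, W1]
  rw [inv_pow, inv_pow, mul_assoc, ← mul_inv, ← div_eq_mul_inv, div_le_one hp] at h
  exact h

theorem Freq_V (S : Sys2) (N : ℕ) (ξ : ℂ) (a b : ℕ) :
    ‖chi S N ξ a b‖ = V S N ξ a b * |(W S a b).1| := by
  have hp : 0 < S.a.1 ^ a * S.b.1 ^ b := mul_pos (pow_pos (ap S) _) (pow_pos (bp S) _)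
  rw [V, W1, div_mul_cancel₀ _ hp.ne']

theorem Freq_ec (x : ℝ) : ‖ec x - 1‖ ≤ 2 * Real.pi * |x| := by
  have h := Real.norm_exp_I_mul_ofReal_sub_one_le (x := 2 * Real.pi * x)
  rw [Real.norm_eq_abs, abs_mul, abs_of_pos (by positivity)] at h
  rw [ec, mul_comm]
  exact h

theorem Freq_chi (S : Sys2) (N : ℕ) (ξ : ℂ) (a b : ℕ) :
    ‖chi S N ξ a b - (cls a b).card‖ ≤ (cls a b).card * (2 * Real.pi * (‖ξ‖ * (6 * N))) := by
  have h : chi S N ξ a b - (cls a b).card =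
      ∑ w ∈ cls a b, (ec (ξ * (off S.toSys N w).2.2).re - 1) := by
    rw [Finset.sum_sub_distrib, chi, Finset.sum_const, nsmul_eq_mul, mul_one]
  rw [h]
  refine (norm_sum_le_of_le _ (f := fun w => ec (ξ * (off S.toSys N w).2.2).re - 1)
    (n := fun _ => 2 * Real.pi * (‖ξ‖ * (6 * N))) fun w _ => ?_).trans ?_
  · refine (Freq_ec _).trans ?_
    have h1 : |(ξ * (off S.toSys N w).2.2).re| ≤ ‖ξ‖ * (6 * N) := by
      refine (Complex.abs_re_le_norm _).trans ?_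
      rw [norm_mul]
      exact mul_le_mul_of_nonneg_left (off3_bound S N w) (norm_nonneg _)
    exact mul_le_mul_of_nonneg_left h1 (by positivity)
  · rw [Finset.sum_const, nsmul_eq_mul]

theorem Freq_exp {s lam x : ℝ} (h0 : 0 ≤ s) (h1 : s ≤ lam) :
    1 - Real.pi * (lam * x) ^ 2 ≤ Real.exp (-(Real.pi * (s ^ 2 * x ^ 2))) ∧
      Real.exp (-(Real.pi * (s ^ 2 * x ^ 2))) ≤ 1 := by
  constructor
  · have h2 := Real.add_one_le_exp (-(Real.pi * (s ^ 2 * x ^ 2)))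
    have h3 : s ^ 2 * x ^ 2 ≤ (lam * x) ^ 2 := by
      rw [mul_pow]
      exact mul_le_mul_of_nonneg_right (pow_le_pow_left₀ h0 h1 2) (sq_nonneg _)
    have h4 := mul_le_mul_of_nonneg_left h3 Real.pi_pos.le
    linarith
  · rw [Real.exp_le_one_iff]
    have : 0 ≤ Real.pi * (s ^ 2 * x ^ 2) := by positivity
    linarith

/-- low frequencies -/
theorem Freq_low (S : Sys2) (N : ℕ) (hN : 1 ≤ N) (a b a' b' : ℕ) (s1 s2 : ℝ) (ξ : ℂ)
    (h1 : 0 ≤ s1) (h2 : 0 ≤ s2) (h1' : s1 ≤ ‖(W S a b).2.2‖) (h2' : s2 ≤ ‖(W S a b).2.2‖)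
    {δ : ℝ} (hδ : ‖(W S a b).2.2‖ * ‖ξ‖ ≤ δ) (hδ1 : δ ≤ 1) :
    ‖chi S N ξ a b * (chi S N (ξ * (W S a b).2.2) a' b' *
      Real.exp (-(Real.pi * (s1 ^ 2 * ‖ξ‖ ^ 2))) -
        (cls a' b').card * Real.exp (-(Real.pi * (s2 ^ 2 * ‖ξ‖ ^ 2))))‖ ^ 2 ≤
      (|(W S a b).1| * |(W S a' b').1|) ^ 2 * ((13 * Real.pi * N) * δ) ^ 2 := by
  obtain ⟨e1l, e1u⟩ := Freq_exp (x := ‖ξ‖) h1 h1'
  obtain ⟨e2l, e2u⟩ := Freq_exp (x := ‖ξ‖) h2 h2'
  have e1p := Real.exp_pos (-(Real.pi * (s1 ^ 2 * ‖ξ‖ ^ 2)))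
  have e2p := Real.exp_pos (-(Real.pi * (s2 ^ 2 * ‖ξ‖ ^ 2)))
  set E1 := Real.exp (-(Real.pi * (s1 ^ 2 * ‖ξ‖ ^ 2)))
  set E2 := Real.exp (-(Real.pi * (s2 ^ 2 * ‖ξ‖ ^ 2)))
  set lam := ‖(W S a b).2.2‖ with hlam
  have hN' : (1 : ℝ) ≤ N := by exact_mod_cast hN
  have hl0 : 0 ≤ lam * ‖ξ‖ := by positivity
  have hδ0 : 0 ≤ δ := hl0.trans hδ
  have hK := Freq_card_le S a' b'
  have hK0 : (0 : ℝ) ≤ (cls a' b').card := Nat.cast_nonneg _
  have hc := Freq_chi S N (ξ * (W S a b).2.2) a' b'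
  rw [norm_mul, ← hlam] at hc
  have hpi := Real.pi_pos
  have k1 : ‖chi S N (ξ * (W S a b).2.2) a' b' * E1 - (cls a' b').card * E2‖ ≤
      |(W S a' b').1| * ((13 * Real.pi * N) * δ) := by
    have e : chi S N (ξ * (W S a b).2.2) a' b' * (E1 : ℂ) - (cls a' b').card * (E2 : ℂ) =
        (chi S N (ξ * (W S a b).2.2) a' b' - (cls a' b').card) * (E1 : ℂ) +
          (((cls a' b').card * (E1 - E2) : ℝ) : ℂ) := by
      push_cast
      ring
    rw [e]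
    refine (norm_add_le _ _).trans ?_
    rw [norm_mul, Complex.norm_real, Complex.norm_real, Real.norm_eq_abs, Real.norm_eq_abs,
      abs_of_pos e1p, abs_mul, abs_of_nonneg hK0]
    have k2 : |E1 - E2| ≤ Real.pi * (lam * ‖ξ‖) ^ 2 := by
      rw [abs_le]
      constructor <;> linarith
    have k3 : (lam * ‖ξ‖) ^ 2 ≤ δ := by
      calc (lam * ‖ξ‖) ^ 2 ≤ δ ^ 2 := pow_le_pow_left₀ hl0 hδ 2
        _ ≤ δ := by nlinarith
    have k4 : ‖chi S N (ξ * (W S a b).2.2) a' b' - (cls a' b').card‖ * E1 ≤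
        (cls a' b').card * (12 * Real.pi * N * δ) := by
      calc _ ≤ (cls a' b').card * (2 * Real.pi * (‖ξ‖ * lam * (6 * N))) * 1 :=
            mul_le_mul hc e1u e1p.le (by positivity)
        _ = (cls a' b').card * (12 * Real.pi * N * (lam * ‖ξ‖)) := by ring
        _ ≤ _ := by
            refine mul_le_mul_of_nonneg_left ?_ hK0
            exact mul_le_mul_of_nonneg_left hδ (by positivity)
    have k5 : ((cls a' b').card : ℝ) * |E1 - E2| ≤ (cls a' b').card * (Real.pi * N * δ) := by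
      refine mul_le_mul_of_nonneg_left (k2.trans ?_) hK0
      calc Real.pi * (lam * ‖ξ‖) ^ 2 ≤ Real.pi * δ := mul_le_mul_of_nonneg_left k3 hpi.le
        _ ≤ Real.pi * N * δ := by nlinarith [mul_nonneg hpi.le hδ0]
    calc _ ≤ (cls a' b').card * (12 * Real.pi * N * δ) + (cls a' b').card * (Real.pi * N * δ) :=
          add_le_add k4 k5
      _ = (cls a' b').card * ((13 * Real.pi * N) * δ) := by ring
      _ ≤ _ := mul_le_mul_of_nonneg_right hK (by positivity)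
  rw [norm_mul, mul_pow, mul_pow, mul_assoc, ← mul_pow |(W S a' b').1|]
  refine mul_le_mul ?_ ?_ (sq_nonneg _) (sq_nonneg _)
  · refine pow_le_pow_left₀ (norm_nonneg _) ?_ 2
    rw [Freq_V]
    have := V_le_one S N ξ a b
    have h3 := W1_pos S a b
    nlinarith
  · exact pow_le_pow_left₀ (norm_nonneg _) k1 2

/-- high frequencies -/
theorem Freq_high (S : Sys2) (N : ℕ) (a b a' b' : ℕ) (ξ : ℂ) (E1 E2 : ℝ) (h1 : 0 ≤ E1)
    (h2 : 0 ≤ E2) :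
    ‖chi S N ξ a b * (chi S N (ξ * (W S a b).2.2) a' b' * E1 - (cls a' b').card * E2)‖ ^ 2 ≤
      (|(W S a b).1| * |(W S a' b').1|) ^ 2 * (2 * (V S N ξ a b ^ 2 *
        V S N (ξ * (W S a b).2.2) a' b' ^ 2 * E1 ^ 2) + 2 * (V S N ξ a b ^ 2 * E2 ^ 2)) := by
  have hK := Freq_card_le S a' b'
  have hK0 : (0 : ℝ) ≤ (cls a' b').card := Nat.cast_nonneg _
  have hw := W1_pos S a' b'
  have hV := V_nonneg S N (ξ * (W S a b).2.2) a' b'
  have k : ‖chi S N (ξ * (W S a b).2.2) a' b' * E1 - (cls a' b').card * E2‖ ≤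
      |(W S a' b').1| * (V S N (ξ * (W S a b).2.2) a' b' * E1 + E2) := by
    refine (norm_sub_le _ _).trans ?_
    rw [norm_mul, norm_mul, Freq_V, Complex.norm_real, Complex.norm_real, Real.norm_eq_abs,
      Real.norm_eq_abs, abs_of_nonneg h1, abs_of_nonneg h2, Complex.norm_natCast]
    have := mul_le_mul_of_nonneg_right hK h2
    nlinarith
  have k2 := pow_le_pow_left₀ (norm_nonneg _) k 2
  rw [norm_mul, Freq_V S N ξ a b, mul_pow]
  calc _ ≤ (V S N ξ a b * |(W S a b).1|) ^ 2 *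
        (|(W S a' b').1| * (V S N (ξ * (W S a b).2.2) a' b' * E1 + E2)) ^ 2 :=
        mul_le_mul_of_nonneg_left k2 (sq_nonneg _)
    _ = (|(W S a b).1| * |(W S a' b').1|) ^ 2 * (V S N ξ a b ^ 2 *
        (V S N (ξ * (W S a b).2.2) a' b' * E1 + E2) ^ 2) := by ring
    _ ≤ _ := by
        refine mul_le_mul_of_nonneg_left ?_ (sq_nonneg _)
        have h3 : (V S N (ξ * (W S a b).2.2) a' b' * E1 + E2) ^ 2 ≤
            2 * (V S N (ξ * (W S a b).2.2) a' b' ^ 2 * E1 ^ 2) + 2 * E2 ^ 2 := by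
          nlinarith [sq_nonneg (V S N (ξ * (W S a b).2.2) a' b' * E1 - E2)]
        have h4 := mul_le_mul_of_nonneg_left h3 (sq_nonneg (V S N ξ a b))
        nlinarith

theorem Freq_lam_le (S : Sys2) (a b n : ℕ) (h : a + b = n) :
    ‖(W S a b).2.2‖ ^ 2 ≤ Real.exp (-(0.3 * n)) := by
  have h0 : (0.7332 : ℝ) ≤ Real.exp (-0.3) := by
    have h1 : (0.95 : ℝ) ≤ Real.exp (-0.05) := by
      have := Real.add_one_le_exp (-0.05 : ℝ)
      norm_num at this ⊢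
      linarith
    have h2 : Real.exp (-0.3) = Real.exp (-0.05) ^ 6 := by
      rw [← Real.exp_nat_mul]
      norm_num
    rw [h2]
    calc (0.7332 : ℝ) ≤ 0.95 ^ 6 := by norm_num
      _ ≤ _ := pow_le_pow_left₀ (by norm_num) h1 6
  have h3 : ‖S.a.2.2‖ ^ 2 ≤ Real.exp (-0.3) := S.a3u.trans h0
  have h4 : ‖S.b.2.2‖ ^ 2 ≤ Real.exp (-0.3) := (b3u S).trans (le_trans (by norm_num) h0)
  rw [W3]
  calc (‖S.a.2.2‖ ^ a * ‖S.b.2.2‖ ^ b) ^ 2 = (‖S.a.2.2‖ ^ 2) ^ a * (‖S.b.2.2‖ ^ 2) ^ b := by ring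
    _ ≤ Real.exp (-0.3) ^ a * Real.exp (-0.3) ^ b :=
        mul_le_mul (pow_le_pow_left₀ (sq_nonneg _) h3 _) (pow_le_pow_left₀ (sq_nonneg _) h4 _)
          (by positivity) (by positivity)
    _ = Real.exp (-(0.3 * n)) := by
        rw [← pow_add, ← Real.exp_nat_mul, h]
        congr 1
        ring

theorem Freq_lam_ge (S : Sys2) (a b n : ℕ) (h : a + b = n) :
    Real.exp (-n) ≤ ‖(W S a b).2.2‖ ^ 2 := by
  have h0 : Real.exp (-1) ≤ (0.6966 : ℝ) := by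
    have h1 : (2 : ℝ) ≤ Real.exp 1 := by
      have := Real.add_one_le_exp (1 : ℝ)
      linarith
    rw [Real.exp_neg]
    calc (Real.exp 1)⁻¹ ≤ 2⁻¹ := inv_anti₀ (by norm_num) h1
      _ ≤ _ := by norm_num
  have h3 : Real.exp (-1) ≤ ‖S.a.2.2‖ ^ 2 := h0.trans (le_trans (by norm_num) S.a3l)
  have h4 : Real.exp (-1) ≤ ‖S.b.2.2‖ ^ 2 := h0.trans (b3l S)
  rw [W3]
  calc Real.exp (-n) = Real.exp (-1) ^ a * Real.exp (-1) ^ b := by
        rw [← pow_add, ← Real.exp_nat_mul, h]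
        congr 1
        ring
    _ ≤ (‖S.a.2.2‖ ^ 2) ^ a * (‖S.b.2.2‖ ^ 2) ^ b :=
        mul_le_mul (pow_le_pow_left₀ (Real.exp_pos _).le h3 _)
          (pow_le_pow_left₀ (Real.exp_pos _).le h4 _) (by positivity) (by positivity)
    _ = _ := by ring

/-- the tail of a Gaussian -/
theorem Freq_tail {c T : ℝ} {o : ℕ} (hc : 0 < c) (ho : 1 ≤ o)
    (h1 : Real.exp (-(17 * o)) ≤ (2 * c) ^ 2)
    (hT : Real.exp ((16 * o : ℝ) ^ (1 / 2 : ℝ)) / 2 ≤ T) :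
    ∫⁻ ξ in {ξ : ℂ | T ≤ c * ‖ξ‖}, ENNReal.ofReal (Real.exp (-(Real.pi * (c ^ 2 * ‖ξ‖ ^ 2)))) ≤
      ENNReal.ofReal (8 * Real.exp (-o)) := by
  have hT0 : 0 ≤ T := le_trans (by positivity) hT
  refine (gauss_tail hc hT0).trans (ENNReal.ofReal_le_ofReal ?_)
  have ho' : (1 : ℝ) ≤ o := by exact_mod_cast ho
  set x : ℝ := (16 * o : ℝ) ^ (1 / 2 : ℝ) with hx
  have hx0 : 0 ≤ x := by positivity
  have hx2 : x ^ 2 = 16 * o := by
    rw [hx, ← Real.sqrt_eq_rpow, Real.sq_sqrt (by positivity)]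
  have h2 : 170 * (o : ℝ) ^ 2 ≤ Real.exp (2 * x) := by
    have h3 := Real.pow_div_factorial_le_exp (2 * x) (by positivity) 4
    have h4 : (2 * x) ^ 4 / (Nat.factorial 4 : ℕ) = 4096 / 24 * (o : ℝ) ^ 2 := by
      have : (2 * x) ^ 4 = 16 * (x ^ 2) ^ 2 := by ring
      rw [this, hx2]
      norm_num [Nat.factorial]
      ring
    rw [h4] at h3
    nlinarith [sq_nonneg (o : ℝ)]
  have h5 : 42 * (o : ℝ) ^ 2 ≤ T ^ 2 := by
    have h6 : (Real.exp x / 2) ^ 2 ≤ T ^ 2 := pow_le_pow_left₀ (by positivity) hT 2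
    have h7 : (Real.exp x / 2) ^ 2 = Real.exp (2 * x) / 4 := by
      rw [two_mul, Real.exp_add]
      ring
    rw [h7] at h6
    nlinarith [sq_nonneg (o : ℝ)]
  have hpi : (3 : ℝ) < Real.pi := Real.pi_gt_three
  have h8 : Real.pi / 2 * T ^ 2 ≥ 18 * o := by
    have h9 : (42 : ℝ) * o ≤ T ^ 2 := by nlinarith
    nlinarith
  have h10 : 1 / c ^ 2 ≤ 4 * Real.exp (17 * o) := by
    rw [div_le_iff₀ (by positivity)]
    have h11 := mul_le_mul_of_nonneg_left h1 (Real.exp_pos (17 * o)).le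
    rw [← Real.exp_add, add_neg_cancel, Real.exp_zero] at h11
    linarith
  calc 2 / c ^ 2 * Real.exp (-(Real.pi / 2 * T ^ 2))
      = 2 * (1 / c ^ 2) * Real.exp (-(Real.pi / 2 * T ^ 2)) := by ring
    _ ≤ 2 * (4 * Real.exp (17 * o)) * Real.exp (-(18 * o)) := by
        refine mul_le_mul (by linarith) (Real.exp_le_exp.2 (by linarith)) (Real.exp_pos _).le
          (by positivity)
    _ = 8 * Real.exp (-o) := by
        rw [mul_assoc, mul_assoc, ← Real.exp_add, ← mul_assoc]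
        norm_num
        ring

theorem Freq_expo (A o : ℕ) (ho : 1 ≤ o) :
    Real.exp (-o) ≤ (Nat.factorial A : ℕ) / (o : ℝ) ^ A := by
  have ho' : (0 : ℝ) < o := by exact_mod_cast ho
  have h := Real.pow_div_factorial_le_exp (o : ℝ) ho'.le A
  have hf : (0 : ℝ) < (Nat.factorial A : ℕ) := by exact_mod_cast Nat.factorial_pos A
  rw [Real.exp_neg, inv_le_comm₀ (Real.exp_pos _) (by positivity), inv_div]
  exact h

/-- the measure theoretic part -/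
theorem Freq_core (f u v g1 g2 : ℂ → ℝ) (M K B1 B2 τ lam lam' R X1 X2 : ℝ) (hM : 0 ≤ M)
    (hK : 0 ≤ K) (hR : 0 ≤ R) (hB1 : 0 ≤ B1) (hB2 : 0 ≤ B2) (hτ : 0 ≤ τ)
    (hu : Measurable u) (hv : Measurable v) (hg1 : Measurable g1) (hg2 : Measurable g2)
    (hv0 : ∀ ξ, 0 ≤ v ξ) (hg10 : ∀ ξ, 0 ≤ g1 ξ) (hg20 : ∀ ξ, 0 ≤ g2 ξ)
    (F1 : ∀ ξ : ℂ, ‖ξ‖ ≤ R → f ξ ≤ M * K)
    (F2 : ∀ ξ : ℂ, f ξ ≤ M * 4 * u ξ)
    (F3 : ∀ ξ : ℂ, f ξ ≤ M * 2 * v ξ + M * 2 * g1 ξ)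
    (F4 : ∀ ξ : ℂ, f ξ ≤ M * 2 * g2 ξ + M * 2 * g1 ξ)
    (H1 : ∫⁻ ξ in {ξ : ℂ | R ≤ ‖ξ‖ ∧ ‖ξ‖ * lam ≤ X1}, ENNReal.ofReal (u ξ) ≤ ENNReal.ofReal B1)
    (H2 : ∫⁻ ξ in {ξ : ℂ | X1 ≤ ‖ξ‖ * lam ∧ ‖ξ‖ * (lam * lam') ≤ X2}, ENNReal.ofReal (v ξ) ≤
      ENNReal.ofReal B2)
    (H3 : ∫⁻ ξ in {ξ : ℂ | X1 / 2 ≤ lam / 2 * ‖ξ‖}, ENNReal.ofReal (g1 ξ) ≤ ENNReal.ofReal τ)
    (H4 : ∫⁻ ξ in {ξ : ℂ | X2 / 2 ≤ lam * lam' / 2 * ‖ξ‖}, ENNReal.ofReal (g2 ξ) ≤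
      ENNReal.ofReal τ) :
    ∫⁻ ξ : ℂ, ENNReal.ofReal (f ξ) ≤
      ENNReal.ofReal (M * (K * (Real.pi * R ^ 2) + 4 * B1 + 2 * B2 + 6 * τ)) := by
  have hpi := Real.pi_pos
  set A1 : Set ℂ := {ξ : ℂ | ‖ξ‖ ≤ R} with hA1
  set A2 : Set ℂ := {ξ : ℂ | R ≤ ‖ξ‖ ∧ ‖ξ‖ * lam ≤ X1} with hA2
  set A3 : Set ℂ := {ξ : ℂ | X1 ≤ ‖ξ‖ * lam ∧ ‖ξ‖ * (lam * lam') ≤ X2} with hA3
  set D4 : Set ℂ := {ξ : ℂ | X1 / 2 ≤ lam / 2 * ‖ξ‖} with hD4
  set D5 : Set ℂ := {ξ : ℂ | X2 / 2 ≤ lam * lam' / 2 * ‖ξ‖} with hD5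
  have cover : (Set.univ : Set ℂ) ⊆ A1 ∪ (A2 ∪ (A3 ∪ (D4 ∩ D5))) := by
    intro ξ _
    by_cases h1 : ‖ξ‖ ≤ R
    · exact Or.inl h1
    · by_cases h2 : ‖ξ‖ * lam ≤ X1
      · exact Or.inr (Or.inl ⟨(not_le.1 h1).le, h2⟩)
      · have h2' := not_le.1 h2
        by_cases h3 : ‖ξ‖ * (lam * lam') ≤ X2
        · exact Or.inr (Or.inr (Or.inl ⟨h2'.le, h3⟩))
        · have h3' := not_le.1 h3
          refine Or.inr (Or.inr (Or.inr ⟨?_, ?_⟩))
          · show X1 / 2 ≤ lam / 2 * ‖ξ‖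
            nlinarith
          · show X2 / 2 ≤ lam * lam' / 2 * ‖ξ‖
            nlinarith
  have hM4 : 0 ≤ M * 4 := by positivity
  have hM2 : 0 ≤ M * 2 := by positivity
  have m1 : Measurable fun ξ => ENNReal.ofReal (g1 ξ) := ENNReal.measurable_ofReal.comp hg1
  have m2 : Measurable fun ξ => ENNReal.ofReal (g2 ξ) := ENNReal.measurable_ofReal.comp hg2
  have mu : Measurable fun ξ => ENNReal.ofReal (u ξ) := ENNReal.measurable_ofReal.comp hu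
  have mv : Measurable fun ξ => ENNReal.ofReal (v ξ) := ENNReal.measurable_ofReal.comp hv
  have mv' : Measurable fun ξ => ENNReal.ofReal (M * 2) * ENNReal.ofReal (v ξ) :=
    measurable_const.mul mv
  have m2' : Measurable fun ξ => ENNReal.ofReal (M * 2) * ENNReal.ofReal (g2 ξ) :=
    measurable_const.mul m2
  have I1 : ∫⁻ ξ in A1, ENNReal.ofReal (f ξ) ≤ ENNReal.ofReal (M * (K * (Real.pi * R ^ 2))) := by
    refine (setLIntegral_mono (s := A1) (g := fun _ => ENNReal.ofReal (M * K)) measurable_const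
      fun ξ hξ => ENNReal.ofReal_le_ofReal (F1 ξ hξ)).trans ?_
    rw [setLIntegral_const]
    have e : A1 = Metric.closedBall (0 : ℂ) R := by
      ext ξ
      simp [hA1]
    rw [e, Complex.volume_closedBall]
    have e2 : (NNReal.pi : ENNReal) = ENNReal.ofReal Real.pi := by
      rw [← NNReal.coe_real_pi, ENNReal.ofReal_coe_nnreal]
    rw [e2, ← ENNReal.ofReal_pow hR, ← ENNReal.ofReal_mul (by positivity),
      ← ENNReal.ofReal_mul (by positivity)]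
    refine ENNReal.ofReal_le_ofReal (le_of_eq ?_)
    ring
  have I2 : ∫⁻ ξ in A2, ENNReal.ofReal (f ξ) ≤ ENNReal.ofReal (M * (4 * B1)) := by
    refine (setLIntegral_mono (g := fun ξ => ENNReal.ofReal (M * 4) * ENNReal.ofReal (u ξ))
      (measurable_const.mul mu) fun ξ _ => ?_).trans ?_
    · rw [← ENNReal.ofReal_mul hM4]
      exact ENNReal.ofReal_le_ofReal (F2 ξ)
    · rw [lintegral_const_mul _ mu]
      refine (mul_le_mul_right H1 _).trans ?_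
      rw [← ENNReal.ofReal_mul hM4, mul_assoc]
  have I3 : ∫⁻ ξ in A3, ENNReal.ofReal (f ξ) ≤ ENNReal.ofReal (M * (2 * B2 + 2 * τ)) := by
    refine (setLIntegral_mono (g := fun ξ => ENNReal.ofReal (M * 2) * ENNReal.ofReal (v ξ) +
      ENNReal.ofReal (M * 2) * ENNReal.ofReal (g1 ξ))
      ((measurable_const.mul mv).add (measurable_const.mul m1)) fun ξ _ => ?_).trans ?_
    · rw [← ENNReal.ofReal_mul hM2, ← ENNReal.ofReal_mul hM2,
        ← ENNReal.ofReal_add (mul_nonneg hM2 (hv0 ξ)) (mul_nonneg hM2 (hg10 ξ))]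
      exact ENNReal.ofReal_le_ofReal (F3 ξ)
    · rw [lintegral_add_left mv', lintegral_const_mul _ mv,
        lintegral_const_mul _ m1]
      have s1 : A3 ⊆ D4 := by
        intro ξ hξ
        have := hξ.1
        show X1 / 2 ≤ lam / 2 * ‖ξ‖
        nlinarith
      refine (add_le_add (mul_le_mul_right H2 _)
        (mul_le_mul_right ((lintegral_mono_set s1).trans H3) _)).trans ?_
      rw [← ENNReal.ofReal_mul hM2, ← ENNReal.ofReal_mul hM2,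
        ← ENNReal.ofReal_add (mul_nonneg hM2 hB2) (mul_nonneg hM2 hτ)]
      refine ENNReal.ofReal_le_ofReal (le_of_eq ?_)
      ring
  have I4 : ∫⁻ ξ in D4 ∩ D5, ENNReal.ofReal (f ξ) ≤ ENNReal.ofReal (M * (2 * τ + 2 * τ)) := by
    refine (setLIntegral_mono (g := fun ξ => ENNReal.ofReal (M * 2) * ENNReal.ofReal (g2 ξ) +
      ENNReal.ofReal (M * 2) * ENNReal.ofReal (g1 ξ))
      ((measurable_const.mul m2).add (measurable_const.mul m1)) fun ξ _ => ?_).trans ?_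
    · rw [← ENNReal.ofReal_mul hM2, ← ENNReal.ofReal_mul hM2,
        ← ENNReal.ofReal_add (mul_nonneg hM2 (hg20 ξ)) (mul_nonneg hM2 (hg10 ξ))]
      exact ENNReal.ofReal_le_ofReal (F4 ξ)
    · rw [lintegral_add_left m2', lintegral_const_mul _ m2,
        lintegral_const_mul _ m1]
      refine (add_le_add (mul_le_mul_right ((lintegral_mono_set Set.inter_subset_right).trans H4) _)
        (mul_le_mul_right ((lintegral_mono_set Set.inter_subset_left).trans H3) _)).trans ?_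
      rw [← ENNReal.ofReal_mul hM2, ← ENNReal.ofReal_add (mul_nonneg hM2 hτ) (mul_nonneg hM2 hτ)]
      refine ENNReal.ofReal_le_ofReal (le_of_eq ?_)
      ring
  rw [← setLIntegral_univ]
  refine (lintegral_mono_set cover).trans ?_
  refine (lintegral_union_le _ _ _).trans ?_
  refine (add_le_add I1 ((lintegral_union_le _ _ _).trans
    (add_le_add I2 ((lintegral_union_le _ _ _).trans (add_le_add I3 I4))))).trans ?_
  rw [← ENNReal.ofReal_add (by positivity) (by positivity),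
    ← ENNReal.ofReal_add (by positivity) (by positivity),
    ← ENNReal.ofReal_add (by positivity) (by positivity)]
  refine ENNReal.ofReal_le_ofReal (le_of_eq ?_)
  ring

theorem freq_int (S : Sys2) (N : ℕ) (hN : 1 ≤ N) (A : ℕ) : ∃ (C : ℝ) (o0 : ℕ), 1 ≤ C ∧
    ∀ (a b a' b' o : ℕ) (s1 s2 : ℝ), a + b = 16 * o → a' + b' = o → o0 ≤ o →
      Real.exp (6.24 * o) ≤ |(W S a b).1| →
      s1 ≤ ‖(W S a b).2.2‖ → s2 ≤ ‖(W S a b).2.2‖ →
      ‖(W S a b).2.2‖ * ‖(W S a' b').2.2‖ / 2 ≤ s1 → ‖(W S a b).2.2‖ / 2 ≤ s2 →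
      ∫⁻ ξ : ℂ, ENNReal.ofReal (‖chi S N ξ a b *
        (chi S N (ξ * (W S a b).2.2) a' b' * Real.exp (-(Real.pi * (s1 ^ 2 * ‖ξ‖ ^ 2))) -
          (cls a' b').card * Real.exp (-(Real.pi * (s2 ^ 2 * ‖ξ‖ ^ 2))))‖ ^ 2) ≤
      ENNReal.ofReal (C / (o : ℝ) ^ A * (|(W S a b).1| * |(W S a' b').1|) ^ 2) := by
  obtain ⟨C1, r0, hC1, H1⟩ := deci S N hN A
  obtain ⟨C2, o0, hC2, H2⟩ := deci2 S N hN A
  have hpi := Real.pi_pos
  have hf1 : (1 : ℝ) ≤ (Nat.factorial A : ℕ) := by exact_mod_cast Nat.factorial_pos A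
  have hP0 : 0 ≤ Real.pi * (13 * Real.pi * N) ^ 2 := by positivity
  refine ⟨Real.pi * (13 * Real.pi * N) ^ 2 * (Nat.factorial A : ℕ) + 4 * C1 + 2 * C2 +
    48 * (Nat.factorial A : ℕ), max 1 (max r0 o0), ?_, ?_⟩
  · have : 0 ≤ Real.pi * (13 * Real.pi * N) ^ 2 * (Nat.factorial A : ℕ) := by positivity
    linarith
  intro a b a' b' o s1 s2 hab hab' ho hw hs1 hs2 hs1' hs2'
  have ho1 : 1 ≤ o := le_trans (le_max_left _ _) ho
  have hr0 : r0 ≤ 16 * o := by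
    have : r0 ≤ o := le_trans ((le_max_left _ _).trans (le_max_right _ _)) ho
    omega
  have ho0 : o0 ≤ o := le_trans ((le_max_right _ _).trans (le_max_right _ _)) ho
  have ho' : (1 : ℝ) ≤ o := by exact_mod_cast ho1
  have hoA : 0 < (o : ℝ) ^ A := by positivity
  have H1' := H1 a b (16 * o) hab hr0
  have H2' := H2 a b a' b' o hab hab' ho0 hw
  push_cast at H1'
  have hlam := W3_pos S a b
  have hlam' := W3_pos S a' b'
  have L1 := Freq_lam_le S a b (16 * o) hab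
  have L2 := Freq_lam_ge S a b (16 * o) hab
  have L3 := Freq_lam_ge S a' b' o hab'
  push_cast at L1 L2
  have hexpo := Freq_expo A o ho1
  generalize hfA : ((Nat.factorial A : ℕ) : ℝ) = F at hexpo hf1 ⊢
  have low := fun (ξ : ℂ) (δ : ℝ) (h : ‖(W S a b).2.2‖ * ‖ξ‖ ≤ δ) (h' : δ ≤ 1) =>
    Freq_low S N hN a b a' b' s1 s2 ξ (le_trans (by positivity) hs1')
      (le_trans (by positivity) hs2') hs1 hs2 h h'
  have high := fun (ξ : ℂ) => Freq_high S N a b a' b' ξ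
    (Real.exp (-(Real.pi * (s1 ^ 2 * ‖ξ‖ ^ 2)))) (Real.exp (-(Real.pi * (s2 ^ 2 * ‖ξ‖ ^ 2))))
    (Real.exp_pos _).le (Real.exp_pos _).le
  have V0 := fun ξ : ℂ => V_nonneg S N ξ a b
  have V1 := fun ξ : ℂ => V_le_one S N ξ a b
  have V0' := fun ξ : ℂ => V_nonneg S N (ξ * (W S a b).2.2) a' b'
  have V1' := fun ξ : ℂ => V_le_one S N (ξ * (W S a b).2.2) a' b'
  have mV : Measurable fun ξ : ℂ => ENNReal.ofReal (V S N ξ a b ^ 2) :=
    ENNReal.measurable_ofReal.comp ((V_cont S N a b).pow 2).measurable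
  have mV' : Measurable fun ξ : ℂ => ENNReal.ofReal (V S N ξ a b ^ 2 *
      V S N (ξ * (W S a b).2.2) a' b' ^ 2) :=
    ENNReal.measurable_ofReal.comp (((V_cont S N a b).pow 2).mul
      (((V_cont S N a' b').comp (continuous_mul_const _)).pow 2)).measurable
  generalize hM : (|(W S a b).1| * |(W S a' b').1|) ^ 2 = M at low high ⊢
  have hM0 : 0 ≤ M := by rw [← hM]; exact sq_nonneg _
  have hsl1 : 0 ≤ s1 := le_trans (by positivity) hs1'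
  have hsl2 : 0 ≤ s2 := le_trans (by positivity) hs2'
  generalize hl : ‖(W S a b).2.2‖ = lam at *
  generalize hl' : ‖(W S a' b').2.2‖ = lam' at *
  have hR0 : 0 < Real.exp (16 * (o : ℝ) / 20) := Real.exp_pos _
  have hX : Real.exp ((16 * o : ℝ) ^ (1 / 2 : ℝ)) ≤ Real.exp ((16 * o : ℝ) ^ (3 / 4 : ℝ)) :=
    Real.exp_le_exp.2 (Real.rpow_le_rpow_of_exponent_le (by linarith) (by norm_num))
  have hR2 : Real.exp (16 * (o : ℝ) / 20) ^ 2 = Real.exp (1.6 * o) := by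
    rw [← Real.exp_nat_mul]
    congr 1
    push_cast
    ring
  have hδ2 : (lam * Real.exp (16 * (o : ℝ) / 20)) ^ 2 ≤ Real.exp (-(3.2 * o)) := by
    rw [mul_pow, hR2]
    calc lam ^ 2 * Real.exp (1.6 * o) ≤ Real.exp (-(0.3 * (16 * o))) * Real.exp (1.6 * o) :=
          mul_le_mul_of_nonneg_right L1 (Real.exp_pos _).le
      _ = _ := by
          rw [← Real.exp_add]
          congr 1
          ring
  have hδ1 : lam * Real.exp (16 * (o : ℝ) / 20) ≤ 1 := by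
    have h1 : (lam * Real.exp (16 * (o : ℝ) / 20)) ^ 2 ≤ 1 :=
      hδ2.trans (Real.exp_le_one_iff.2 (by linarith))
    nlinarith [mul_pos hlam hR0]
  have tl : Real.exp (-(17 * o)) ≤ (2 * (lam / 2)) ^ 2 := by
    have e : 2 * (lam / 2) = lam := by ring
    rw [e]
    exact (Real.exp_le_exp.2 (by linarith)).trans L2
  have tl' : Real.exp (-(17 * o)) ≤ (2 * (lam * lam' / 2)) ^ 2 := by
    have e : 2 * (lam * lam' / 2) = lam * lam' := by ring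
    rw [e, mul_pow]
    calc Real.exp (-(17 * o)) = Real.exp (-(16 * o)) * Real.exp (-o) := by
          rw [← Real.exp_add]
          congr 1
          ring
      _ ≤ _ := mul_le_mul L2 L3 (Real.exp_pos _).le (sq_nonneg _)
  have T1 := Freq_tail (c := lam / 2) (T := Real.exp ((16 * o : ℝ) ^ (3 / 4 : ℝ)) / 2) (o := o)
    (by positivity) ho1 tl (by linarith)
  have T2 := Freq_tail (c := lam * lam' / 2) (T := Real.exp ((16 * o : ℝ) ^ (1 / 2 : ℝ)) / 2)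
    (o := o) (by positivity) ho1 tl' le_rfl
  have hE : ∀ (s c x : ℝ), 0 ≤ c → c ≤ s →
      Real.exp (-(Real.pi * (s ^ 2 * x ^ 2))) ≤ Real.exp (-(Real.pi * (c ^ 2 * x ^ 2))) := by
    intro s c x h0 h1
    refine Real.exp_le_exp.2 (neg_le_neg (mul_le_mul_of_nonneg_left ?_ hpi.le))
    exact mul_le_mul_of_nonneg_right (pow_le_pow_left₀ h0 h1 2) (sq_nonneg _)
  have hE1 : ∀ (s x : ℝ), Real.exp (-(Real.pi * (s ^ 2 * x ^ 2))) ≤ 1 := by
    intro s x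
    rw [Real.exp_le_one_iff]
    have : 0 ≤ Real.pi * (s ^ 2 * x ^ 2) := by positivity
    linarith
  have hE2 : ∀ (s x : ℝ), Real.exp (-(Real.pi * (s ^ 2 * x ^ 2))) ^ 2 ≤
      Real.exp (-(Real.pi * (s ^ 2 * x ^ 2))) := by
    intro s x
    have := hE1 s x
    have := Real.exp_pos (-(Real.pi * (s ^ 2 * x ^ 2)))
    nlinarith
  have mg : ∀ c : ℝ, Measurable fun ξ : ℂ => Real.exp (-(Real.pi * (c ^ 2 * ‖ξ‖ ^ 2))) := by
    intro c
    have : Continuous fun ξ : ℂ => Real.exp (-(Real.pi * (c ^ 2 * ‖ξ‖ ^ 2))) := by fun_prop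
    exact this.measurable
  have core := Freq_core (fun ξ : ℂ => ‖chi S N ξ a b *
        (chi S N (ξ * (W S a b).2.2) a' b' * Real.exp (-(Real.pi * (s1 ^ 2 * ‖ξ‖ ^ 2))) -
          (cls a' b').card * Real.exp (-(Real.pi * (s2 ^ 2 * ‖ξ‖ ^ 2))))‖ ^ 2)
    (fun ξ : ℂ => V S N ξ a b ^ 2)
    (fun ξ : ℂ => V S N ξ a b ^ 2 * V S N (ξ * (W S a b).2.2) a' b' ^ 2)
    (fun ξ : ℂ => Real.exp (-(Real.pi * ((lam / 2) ^ 2 * ‖ξ‖ ^ 2))))
    (fun ξ : ℂ => Real.exp (-(Real.pi * ((lam * lam' / 2) ^ 2 * ‖ξ‖ ^ 2))))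
    M (((13 * Real.pi * N) * (lam * Real.exp (16 * (o : ℝ) / 20))) ^ 2)
    (C1 / (16 * (o : ℝ)) ^ A) (C2 / (o : ℝ) ^ A) (8 * Real.exp (-o)) lam lam'
    (Real.exp (16 * (o : ℝ) / 20)) (Real.exp ((16 * o : ℝ) ^ (3 / 4 : ℝ)))
    (Real.exp ((16 * o : ℝ) ^ (1 / 2 : ℝ))) hM0 (sq_nonneg _) hR0.le (by positivity)
    (by positivity) (by positivity) ((V_cont S N a b).pow 2).measurable
    (((V_cont S N a b).pow 2).mul
      (((V_cont S N a' b').comp (continuous_mul_const _)).pow 2)).measurable (mg _) (mg _)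
    (fun ξ => by positivity) (fun ξ => (Real.exp_pos _).le) (fun ξ => (Real.exp_pos _).le)
    (fun ξ hξ => low ξ _ (mul_le_mul_of_nonneg_left hξ hlam.le) hδ1)
    (fun ξ => (high ξ).trans ?_) (fun ξ => (high ξ).trans ?_) (fun ξ => (high ξ).trans ?_)
    H1' H2' T1 T2
  · refine core.trans (ENNReal.ofReal_le_ofReal ?_)
    have k1 : C1 / (16 * (o : ℝ)) ^ A ≤ C1 / (o : ℝ) ^ A := by
      refine div_le_div_of_nonneg_left (by linarith) hoA ?_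
      exact pow_le_pow_left₀ (by positivity) (by linarith) A
    have k2 : ((13 * Real.pi * N) * (lam * Real.exp (16 * (o : ℝ) / 20))) ^ 2 *
        (Real.pi * Real.exp (16 * (o : ℝ) / 20) ^ 2) ≤
        Real.pi * (13 * Real.pi * N) ^ 2 * (F / (o : ℝ) ^ A) := by
      rw [hR2]
      calc _ = Real.pi * (13 * Real.pi * N) ^ 2 *
            ((lam * Real.exp (16 * (o : ℝ) / 20)) ^ 2 * Real.exp (1.6 * o)) := by ring
        _ ≤ Real.pi * (13 * Real.pi * N) ^ 2 * (F / (o : ℝ) ^ A) := by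
            refine mul_le_mul_of_nonneg_left ?_ hP0
            refine le_trans ?_ hexpo
            calc _ ≤ Real.exp (-(3.2 * o)) * Real.exp (1.6 * o) :=
                  mul_le_mul_of_nonneg_right hδ2 (Real.exp_pos _).le
              _ = Real.exp (-(1.6 * o)) := by
                  rw [← Real.exp_add]
                  congr 1
                  ring
              _ ≤ _ := Real.exp_le_exp.2 (by linarith)
    have k3 : ((13 * Real.pi * N) * (lam * Real.exp (16 * (o : ℝ) / 20))) ^ 2 *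
        (Real.pi * Real.exp (16 * (o : ℝ) / 20) ^ 2) + 4 * (C1 / (16 * (o : ℝ)) ^ A) +
        2 * (C2 / (o : ℝ) ^ A) + 6 * (8 * Real.exp (-o)) ≤
        (Real.pi * (13 * Real.pi * N) ^ 2 * F + 4 * C1 + 2 * C2 + 48 * F) / (o : ℝ) ^ A := by
      have e : (Real.pi * (13 * Real.pi * N) ^ 2 * F + 4 * C1 + 2 * C2 + 48 * F) / (o : ℝ) ^ A =
          Real.pi * (13 * Real.pi * N) ^ 2 * (F / (o : ℝ) ^ A) + 4 * (C1 / (o : ℝ) ^ A) +
          2 * (C2 / (o : ℝ) ^ A) + 48 * (F / (o : ℝ) ^ A) := by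
        ring
      rw [e]
      linarith
    calc _ ≤ M * ((Real.pi * (13 * Real.pi * N) ^ 2 * F + 4 * C1 + 2 * C2 + 48 * F) /
          (o : ℝ) ^ A) := mul_le_mul_of_nonneg_left k3 hM0
      _ = _ := by ring
  · rw [mul_assoc M 4]
    refine mul_le_mul_of_nonneg_left ?_ hM0
    have h1 := pow_le_one₀ (n := 2) (Real.exp_pos _).le (hE1 s1 ‖ξ‖)
    have h2 := pow_le_one₀ (n := 2) (Real.exp_pos _).le (hE1 s2 ‖ξ‖)
    have h3 := pow_le_one₀ (n := 2) (V0' ξ) (V1' ξ)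
    have h4 : V S N ξ a b ^ 2 * V S N (ξ * (W S a b).2.2) a' b' ^ 2 *
        Real.exp (-(Real.pi * (s1 ^ 2 * ‖ξ‖ ^ 2))) ^ 2 ≤ V S N ξ a b ^ 2 * 1 * 1 :=
      mul_le_mul (mul_le_mul_of_nonneg_left h3 (sq_nonneg _)) h1 (sq_nonneg _) (by positivity)
    have h5 : V S N ξ a b ^ 2 * Real.exp (-(Real.pi * (s2 ^ 2 * ‖ξ‖ ^ 2))) ^ 2 ≤
        V S N ξ a b ^ 2 * 1 := mul_le_mul_of_nonneg_left h2 (sq_nonneg _)
    linarith
  · rw [mul_assoc M 2, mul_assoc M 2, ← mul_add M]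
    refine mul_le_mul_of_nonneg_left ?_ hM0
    have h1 := pow_le_one₀ (n := 2) (Real.exp_pos _).le (hE1 s1 ‖ξ‖)
    have h2 := (hE2 s2 ‖ξ‖).trans (hE s2 (lam / 2) ‖ξ‖ (by positivity) hs2')
    have h3 := pow_le_one₀ (n := 2) (V0 ξ) (V1 ξ)
    have h4 : V S N ξ a b ^ 2 * V S N (ξ * (W S a b).2.2) a' b' ^ 2 *
        Real.exp (-(Real.pi * (s1 ^ 2 * ‖ξ‖ ^ 2))) ^ 2 ≤
        V S N ξ a b ^ 2 * V S N (ξ * (W S a b).2.2) a' b' ^ 2 * 1 :=
      mul_le_mul_of_nonneg_left h1 (by positivity)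
    have h5 : V S N ξ a b ^ 2 * Real.exp (-(Real.pi * (s2 ^ 2 * ‖ξ‖ ^ 2))) ^ 2 ≤
        1 * Real.exp (-(Real.pi * ((lam / 2) ^ 2 * ‖ξ‖ ^ 2))) :=
      mul_le_mul h3 h2 (sq_nonneg _) zero_le_one
    linarith
  · rw [mul_assoc M 2, mul_assoc M 2, ← mul_add M]
    refine mul_le_mul_of_nonneg_left ?_ hM0
    have h1 := (hE2 s1 ‖ξ‖).trans (hE s1 (lam * lam' / 2) ‖ξ‖ (by positivity) hs1')
    have h2 := (hE2 s2 ‖ξ‖).trans (hE s2 (lam / 2) ‖ξ‖ (by positivity) hs2')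
    have h3 := pow_le_one₀ (n := 2) (V0 ξ) (V1 ξ)
    have h3' := pow_le_one₀ (n := 2) (V0' ξ) (V1' ξ)
    have h4 : V S N ξ a b ^ 2 * V S N (ξ * (W S a b).2.2) a' b' ^ 2 *
        Real.exp (-(Real.pi * (s1 ^ 2 * ‖ξ‖ ^ 2))) ^ 2 ≤
        1 * 1 * Real.exp (-(Real.pi * ((lam * lam' / 2) ^ 2 * ‖ξ‖ ^ 2))) :=
      mul_le_mul (mul_le_mul h3 h3' (sq_nonneg _) zero_le_one) h1 (sq_nonneg _) (by positivity)
    have h5 : V S N ξ a b ^ 2 * Real.exp (-(Real.pi * (s2 ^ 2 * ‖ξ‖ ^ 2))) ^ 2 ≤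
        1 * Real.exp (-(Real.pi * ((lam / 2) ^ 2 * ‖ξ‖ ^ 2))) :=
      mul_le_mul h3 h2 (sq_nonneg _) zero_le_one
    linarith

end Pool.Agent.H49.AB
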