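import Pool.Agent.H49.AB.GaussInt

/-!
# JOB AB-27. Finite combinations of Gaussians: L¹ norm from L² norm

On the disc `‖z‖ ≤ K + 1` Cauchy-Schwarz (`ENNReal.lintegral_mul_le_Lp_mul_Lq`, or `∫ |f| ≤ √(area) √(∫ f²)`), area `π (K+1)²`, `√π ≤ 2`; outside,
`‖z - Z_i‖ ≥ 1` and `Nd s (w) ≤ exp(-π/(2 s²)) * 2 * Nd (√2 s) (w)` for `‖w‖ ≥ 1`, whose integral is `2 exp(-π/(2 s²)) ≤ 2 exp(-π/(2 s0²))` (`Nd_integral`).
-/

set_option autoImplicit false

namespace Pool.Agent.H49.AB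

open Pool.Agent.H67.Tent Finset MeasureTheory

theorem l1_cont (s : ℝ) (a : ℂ) : Continuous fun z : ℂ => Nd s (z - a) := by
  unfold Nd
  fun_prop

theorem l1_far {w : ℂ} {s s0 : ℝ} (hs : 0 < s) (hs0 : s ≤ s0) (hw : 1 ≤ ‖w‖) :
    Nd s w ≤ 2 * Real.exp (-(Real.pi / (2 * s0 ^ 2))) * Nd (Real.sqrt 2 * s) w := by
  have h2 : (Real.sqrt 2 * s) ^ 2 = 2 * s ^ 2 := by
    rw [mul_pow, Real.sq_sqrt (by norm_num)]
  have hs2 : 0 < s ^ 2 := by positivity
  have hR : 2 * Real.exp (-(Real.pi / (2 * s0 ^ 2))) * Nd (Real.sqrt 2 * s) w =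
      Real.exp (-(Real.pi / (2 * s0 ^ 2)) + -(Real.pi * (‖w‖ ^ 2 / (2 * s ^ 2)))) / s ^ 2 := by
    unfold Nd
    rw [h2, Real.exp_add]
    field_simp
  rw [hR]
  unfold Nd
  refine div_le_div_of_nonneg_right (Real.exp_le_exp.2 ?_) hs2.le
  have hw2 : 1 ≤ ‖w‖ ^ 2 := by nlinarith
  have h1 : 1 / (2 * s0 ^ 2) ≤ ‖w‖ ^ 2 / (2 * s ^ 2) := by
    refine div_le_div₀ (by positivity) hw2 (by positivity) ?_
    have := pow_le_pow_left₀ hs.le hs0 2
    linarith
  have h3 : ‖w‖ ^ 2 / s ^ 2 = ‖w‖ ^ 2 / (2 * s ^ 2) + ‖w‖ ^ 2 / (2 * s ^ 2) := by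
    field_simp
    ring
  have h4 : Real.pi / (2 * s0 ^ 2) = Real.pi * (1 / (2 * s0 ^ 2)) := by ring
  rw [h3, h4]
  have := mul_le_mul_of_nonneg_left h1 Real.pi_pos.le
  linarith

theorem l1_disc {f : ℂ → ℝ} (hf : Measurable f) {K B : ℝ} (hK : 0 ≤ K) (hB : 0 ≤ B)
    (h2 : ∫⁻ z : ℂ, ENNReal.ofReal (f z ^ 2) ≤ ENNReal.ofReal (B ^ 2)) :
    ∫⁻ z in Metric.closedBall (0 : ℂ) (K + 1), ENNReal.ofReal |f z| ≤
      ENNReal.ofReal (2 * (K + 1) * B) := by
  have hm : AEMeasurable (fun z => ENNReal.ofReal |f z|)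
      (volume.restrict (Metric.closedBall (0 : ℂ) (K + 1))) := by
    have : Measurable fun z => |f z| := hf.abs
    exact this.ennreal_ofReal.aemeasurable
  have h := ENNReal.lintegral_mul_le_Lp_mul_Lq
    (volume.restrict (Metric.closedBall (0 : ℂ) (K + 1))) Real.HolderConjugate.two_two hm
    (aemeasurable_const (b := (1 : ENNReal)))
  simp only [Pi.mul_apply, mul_one, ENNReal.one_rpow, lintegral_const, one_mul,
    Measure.restrict_apply_univ, Complex.volume_closedBall] at h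
  have e1 : ∀ z, ENNReal.ofReal |f z| ^ (2 : ℝ) = ENNReal.ofReal (f z ^ 2) := by
    intro z
    rw [ENNReal.ofReal_rpow_of_nonneg (abs_nonneg _) (by norm_num)]
    congr 1
    rw [Real.rpow_two, sq_abs]
  simp only [e1] at h
  refine h.trans ?_
  have g1 : (∫⁻ z in Metric.closedBall (0 : ℂ) (K + 1), ENNReal.ofReal (f z ^ 2)) ^ (1 / 2 : ℝ) ≤
      ENNReal.ofReal B := by
    have : (∫⁻ z in Metric.closedBall (0 : ℂ) (K + 1), ENNReal.ofReal (f z ^ 2)) ≤
        ENNReal.ofReal (B ^ 2) := (setLIntegral_le_lintegral _ _).trans h2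
    refine (ENNReal.rpow_le_rpow this (by norm_num)).trans ?_
    rw [ENNReal.ofReal_rpow_of_nonneg (by positivity) (by norm_num), ← Real.sqrt_eq_rpow,
      Real.sqrt_sq hB]
  have g2 : (ENNReal.ofReal (K + 1) ^ 2 * (NNReal.pi : ENNReal)) ^ (1 / 2 : ℝ) ≤
      ENNReal.ofReal (2 * (K + 1)) := by
    have e2 : (NNReal.pi : ENNReal) = ENNReal.ofReal Real.pi := by
      rw [ENNReal.ofReal, ← NNReal.coe_real_pi, Real.toNNReal_coe]
    rw [e2, ← ENNReal.ofReal_pow (by linarith), ← ENNReal.ofReal_mul (by positivity),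
      ENNReal.ofReal_rpow_of_nonneg (by positivity) (by norm_num), ← Real.sqrt_eq_rpow]
    refine ENNReal.ofReal_le_ofReal ?_
    rw [Real.sqrt_le_left (by linarith)]
    have := Real.pi_le_four
    nlinarith [sq_nonneg (K + 1)]
  calc _ ≤ ENNReal.ofReal B * ENNReal.ofReal (2 * (K + 1)) := mul_le_mul' g1 g2
    _ = ENNReal.ofReal (2 * (K + 1) * B) := by
      rw [← ENNReal.ofReal_mul hB, mul_comm]

theorem l1_le {ι : Type*} (I : Finset ι) (c s : ι → ℝ) (Z : ι → ℂ) (K s0 B : ℝ) (hK : 0 ≤ K)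
    (hB : 0 ≤ B) (hs : ∀ i ∈ I, 0 < s i ∧ s i ≤ s0 ∧ ‖Z i‖ ≤ K)
    (h2 : ∫⁻ z : ℂ, ENNReal.ofReal ((∑ i ∈ I, c i * Nd (s i) (z - Z i)) ^ 2) ≤
      ENNReal.ofReal (B ^ 2)) :
    ∫⁻ z : ℂ, ENNReal.ofReal |∑ i ∈ I, c i * Nd (s i) (z - Z i)| ≤
      ENNReal.ofReal (2 * (K + 1) * B +
        (∑ i ∈ I, |c i|) * (2 * Real.exp (-(Real.pi / (2 * s0 ^ 2))))) := by
  have hmeas : Measurable fun z : ℂ => ∑ i ∈ I, c i * Nd (s i) (z - Z i) :=
    (continuous_finsetSum _ fun i _ => continuous_const.mul (l1_cont _ _)).measurable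
  rw [← lintegral_add_compl _ (Metric.isClosed_closedBall (x := (0 : ℂ)) (ε := K + 1)).measurableSet,
    ENNReal.ofReal_add (by positivity)
      (mul_nonneg (Finset.sum_nonneg fun i _ => abs_nonneg _) (by positivity))]
  refine add_le_add (l1_disc hmeas hK hB h2) ?_
  set E := Real.exp (-(Real.pi / (2 * s0 ^ 2))) with hE
  have hpt : ∀ z ∈ (Metric.closedBall (0 : ℂ) (K + 1))ᶜ,
      ENNReal.ofReal |∑ i ∈ I, c i * Nd (s i) (z - Z i)| ≤
        ENNReal.ofReal (∑ i ∈ I, |c i| * (2 * E) * Nd (Real.sqrt 2 * s i) (z - Z i)) := by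
    intro z hz
    refine ENNReal.ofReal_le_ofReal ((Finset.abs_sum_le_sum_abs _ _).trans
      (Finset.sum_le_sum fun i hi => ?_))
    obtain ⟨a1, a2, a3⟩ := hs i hi
    rw [abs_mul, abs_of_nonneg (Nd_nonneg _ _), mul_assoc]
    refine mul_le_mul_of_nonneg_left (l1_far a1 a2 ?_) (abs_nonneg _)
    have hz1 : K + 1 < ‖z‖ := by
      simpa using hz
    have := norm_sub_norm_le z (Z i)
    linarith
  calc ∫⁻ z in (Metric.closedBall (0 : ℂ) (K + 1))ᶜ,
        ENNReal.ofReal |∑ i ∈ I, c i * Nd (s i) (z - Z i)|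
      ≤ ∫⁻ z in (Metric.closedBall (0 : ℂ) (K + 1))ᶜ,
        ENNReal.ofReal (∑ i ∈ I, |c i| * (2 * E) * Nd (Real.sqrt 2 * s i) (z - Z i)) :=
        setLIntegral_mono' Metric.isClosed_closedBall.measurableSet.compl hpt
    _ ≤ ∫⁻ z, ENNReal.ofReal (∑ i ∈ I, |c i| * (2 * E) * Nd (Real.sqrt 2 * s i) (z - Z i)) :=
        setLIntegral_le_lintegral _ _
    _ = ENNReal.ofReal (∫ z, ∑ i ∈ I, |c i| * (2 * E) * Nd (Real.sqrt 2 * s i) (z - Z i)) := by
        rw [ofReal_integral_eq_lintegral_ofReal]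
        · refine integrable_finsetSum _ fun i hi => Integrable.const_mul ?_ _
          exact Nd_integrable (mul_pos (by positivity) (hs i hi).1) _
        · refine Filter.Eventually.of_forall fun z => Finset.sum_nonneg fun i _ => ?_
          exact mul_nonneg (mul_nonneg (abs_nonneg _) (by positivity)) (Nd_nonneg _ _)
    _ ≤ ENNReal.ofReal ((∑ i ∈ I, |c i|) * (2 * E)) := by
        refine ENNReal.ofReal_le_ofReal (le_of_eq ?_)
        rw [integral_finsetSum, Finset.sum_mul]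
        · refine Finset.sum_congr rfl fun i hi => ?_
          rw [integral_const_mul, Nd_integral (mul_pos (by positivity) (hs i hi).1), mul_one]
        · intro i hi
          exact (Nd_integrable (mul_pos (by positivity) (hs i hi).1) _).const_mul _

end Pool.Agent.H49.AB
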