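import Pool.Agent.H49.AB.Parseval
import Pool.Agent.H49.AB.L1
import Pool.Agent.H49.AB.Freq

/-!
# JOB AB-29. L¹ comparison of the two smoothed offset measures

`DD` is a finite combination of Gaussians: index set `(cls a b ×ˢ cls a' b') ⊕ cls a b` (or treat it as the difference of two sums), coefficients `1`, `-card'`,
widths `s1`, `s2`, centres `(off (v ++ w)).2.2`, `(off w).2.2`, all of norm `≤ 6 N` (`off3_bound`). By `off_append`, `mul_cls`:
`∑_{w,v} ec (ξ (off (v ++ w)).2.2).re = chi S N ξ a b * chi S N (ξ W_{ab}) a' b'` (as in the proof of `chi_split`). So `parseval` turns the L² norm into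
the integral of `freq_int` (exponent `2A`), `B = √C/o^A * w1 w1'`; `l1_le` with `K = 6N`, `s0 = ‖W_{ab}‖_3`, `∑|c| = 2 card card' ≤ 2 w1 w1'`
(`bin_le_one`), `exp(-π/(2 s0²)) ≤ C/o^A` as `s0² ≤ 0.7332^(16 o)`.
-/

set_option autoImplicit false

namespace Pool.Agent.H49.AB

open Pool.Agent.H67.Tent Finset MeasureTheory

/-- Difference of the two smoothed offset measures. -/
noncomputable def DD (S : Sys2) (N a b a' b' : ℕ) (s1 s2 : ℝ) (z : ℂ) : ℝ :=
  ∑ w ∈ cls a b, ∑ v ∈ cls a' b', Nd s1 (z - (off S.toSys N (v ++ w)).2.2) -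
    (cls a' b').card * ∑ w ∈ cls a b, Nd s2 (z - (off S.toSys N w).2.2)

theorem DD_cont (S : Sys2) (N a b a' b' : ℕ) {s1 s2 : ℝ} (h1 : 0 < s1) (h2 : 0 < s2) :
    Continuous (DD S N a b a' b' s1 s2) := by
  unfold DD Nd
  fun_prop

/-- The number of words of a class is at most the inverse of the probability of a word. -/
theorem cmpl1_card (S : Sys2) (a b : ℕ) : ((cls a b).card : ℝ) ≤ |(W S a b).1| := by
  have hap := ap S
  have hbp := bp S
  have h := bin_le_one (inv_nonneg.2 hap.le) (inv_nonneg.2 hbp.le) (pq S) a b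
  rw [bin, inv_pow, inv_pow] at h
  rw [card_cls, W1]
  have hA : 0 < S.a.1 ^ a := pow_pos hap a
  have hB : 0 < S.b.1 ^ b := pow_pos hbp b
  calc (((a + b).choose b : ℕ) : ℝ) =
        (((a + b).choose b : ℕ) : ℝ) * (S.a.1 ^ a)⁻¹ * (S.b.1 ^ b)⁻¹ * (S.a.1 ^ a * S.b.1 ^ b) := by
        field_simp
    _ ≤ 1 * (S.a.1 ^ a * S.b.1 ^ b) := by gcongr
    _ = _ := one_mul _

theorem cmpl1_lam (S : Sys2) (a b : ℕ) : ‖(W S a b).2.2‖ ^ 2 ≤ 0.7332 ^ (a + b) := by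
  rw [W3, mul_pow, ← pow_mul, ← pow_mul, mul_comm a, mul_comm b, pow_mul, pow_mul, pow_add]
  have h1 := S.a3u
  have h2 : ‖S.b.2.2‖ ^ 2 ≤ 0.7332 := (b3u S).trans (by norm_num)
  gcongr

/-- Coefficients, widths and centres of the combination `DD`. -/
noncomputable def cmpl1_c (n : ℕ) : (List Bool × List Bool) ⊕ List Bool → ℝ :=
  Sum.elim (fun _ => 1) (fun _ => -(n : ℝ))

noncomputable def cmpl1_s (s1 s2 : ℝ) : (List Bool × List Bool) ⊕ List Bool → ℝ :=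
  Sum.elim (fun _ => s1) (fun _ => s2)

noncomputable def cmpl1_Z (S : Sys2) (N : ℕ) : (List Bool × List Bool) ⊕ List Bool → ℂ :=
  Sum.elim (fun x => (off S.toSys N (x.2 ++ x.1)).2.2) (fun w => (off S.toSys N w).2.2)

theorem cmpl1_DD (S : Sys2) (N a b a' b' : ℕ) (s1 s2 : ℝ) (z : ℂ) :
    DD S N a b a' b' s1 s2 z = ∑ i ∈ (cls a b ×ˢ cls a' b').disjSum (cls a b),
      cmpl1_c (cls a' b').card i * Nd (cmpl1_s s1 s2 i) (z - cmpl1_Z S N i) := by
  rw [Finset.sum_disjSum, DD, Finset.sum_product, sub_eq_add_neg]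
  congr 1
  · simp [cmpl1_c, cmpl1_s, cmpl1_Z]
  · simp [cmpl1_c, cmpl1_s, cmpl1_Z, Finset.mul_sum]

theorem cmpl1_fourier (S : Sys2) (N a b a' b' : ℕ) (s1 s2 : ℝ) (ξ : ℂ) :
    ∑ i ∈ (cls a b ×ˢ cls a' b').disjSum (cls a b),
      ((cmpl1_c (cls a' b').card i *
        Real.exp (-(Real.pi * (cmpl1_s s1 s2 i ^ 2 * ‖ξ‖ ^ 2))) : ℝ) : ℂ) *
        ec (ξ * cmpl1_Z S N i).re = chi S N ξ a b *
        (chi S N (ξ * (W S a b).2.2) a' b' * Real.exp (-(Real.pi * (s1 ^ 2 * ‖ξ‖ ^ 2))) -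
          (cls a' b').card * Real.exp (-(Real.pi * (s2 ^ 2 * ‖ξ‖ ^ 2)))) := by
  rw [Finset.sum_disjSum, mul_sub, sub_eq_add_neg]
  congr 1
  · rw [Finset.sum_product, ← mul_assoc]
    unfold chi
    rw [Finset.sum_mul_sum, Finset.sum_mul]
    refine Finset.sum_congr rfl fun w hw => ?_
    rw [Finset.sum_mul]
    refine Finset.sum_congr rfl fun v _ => ?_
    simp only [cmpl1_c, cmpl1_s, cmpl1_Z, Sum.elim_inl, one_mul]
    rw [mul_comm]
    congr 1
    rw [off_append, mul_cls S hw, ← ec_add]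
    congr 1
    show (ξ * ((off S.toSys N w).2.2 + (W S a b).2.2 * (off S.toSys N v).2.2)).re = _
    rw [← Complex.add_re]
    congr 1
    ring
  · simp only [cmpl1_c, cmpl1_s, cmpl1_Z, Sum.elim_inr]
    rw [← Finset.mul_sum]
    show _ * chi S N ξ a b = _
    push_cast
    ring

theorem cmpl1_sumc (a b : ℕ) (n : ℕ) (J : Finset (List Bool)) (hJ : J.card = n) :
    ∑ i ∈ (cls a b ×ˢ J).disjSum (cls a b), |cmpl1_c n i| = 2 * ((cls a b).card * n) := by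
  rw [Finset.sum_disjSum]
  simp only [cmpl1_c, Sum.elim_inl, Sum.elim_inr, abs_one, abs_neg, Nat.abs_cast, Finset.sum_const,
    Finset.card_product, hJ, nsmul_eq_mul]
  push_cast
  ring

theorem cmp_l1 (S : Sys2) (N : ℕ) (hN : 1 ≤ N) (A : ℕ) : ∃ (C : ℝ) (o0 : ℕ), 1 ≤ C ∧
    ∀ (a b a' b' o : ℕ) (s1 s2 : ℝ), a + b = 16 * o → a' + b' = o → o0 ≤ o →
      Real.exp (6.24 * o) ≤ |(W S a b).1| →
      s1 ≤ ‖(W S a b).2.2‖ → s2 ≤ ‖(W S a b).2.2‖ →
      ‖(W S a b).2.2‖ * ‖(W S a' b').2.2‖ / 2 ≤ s1 → ‖(W S a b).2.2‖ / 2 ≤ s2 →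
      ∫⁻ z : ℂ, ENNReal.ofReal |DD S N a b a' b' s1 s2 z| ≤
      ENNReal.ofReal (C / (o : ℝ) ^ A * (|(W S a b).1| * |(W S a' b').1|)) := by
  obtain ⟨C1, o1, hC1, h1⟩ := freq_int S N hN (2 * A)
  refine ⟨2 * (6 * N + 1) * Real.sqrt C1 + 4 * (A.factorial : ℝ), max o1 1, ?_, ?_⟩
  · have hs : 1 ≤ Real.sqrt C1 := Real.one_le_sqrt.2 hC1
    have hf : (1 : ℝ) ≤ (A.factorial : ℝ) := by exact_mod_cast A.factorial_pos
    have : (0 : ℝ) ≤ 2 * (6 * N + 1) * Real.sqrt C1 := by positivity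
    linarith
  intro a b a' b' o s1 s2 hab hab' ho hexp hs1 hs2 hs1' hs2'
  have ho1 : o1 ≤ o := (le_max_left _ _).trans ho
  have ho2 : 1 ≤ o := (le_max_right _ _).trans ho
  have ho3 : (1 : ℝ) ≤ o := by exact_mod_cast ho2
  have hf := h1 a b a' b' o s1 s2 hab hab' ho1 hexp hs1 hs2 hs1' hs2'
  have hlam := W3_pos S a b
  have hlam' := W3_pos S a' b'
  have hs1p : 0 < s1 := lt_of_lt_of_le (by positivity) hs1'
  have hs2p : 0 < s2 := lt_of_lt_of_le (by positivity) hs2'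
  set I := (cls a b ×ˢ cls a' b').disjSum (cls a b) with hI
  have hpos : ∀ i ∈ I, 0 < cmpl1_s s1 s2 i := by
    rintro (x | x) _
    · exact hs1p
    · exact hs2p
  have hpars := parseval I (cmpl1_c (cls a' b').card) (cmpl1_s s1 s2) (cmpl1_Z S N) hpos
  have hoA : (0 : ℝ) < (o : ℝ) ^ A := by positivity
  have hw1 := W1_pos S a b
  have hw1' := W1_pos S a' b'
  set B : ℝ := Real.sqrt C1 / (o : ℝ) ^ A * (|(W S a b).1| * |(W S a' b').1|) with hB
  have hB0 : 0 ≤ B := by positivity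
  have hB2 : C1 / (o : ℝ) ^ (2 * A) * (|(W S a b).1| * |(W S a' b').1|) ^ 2 = B ^ 2 := by
    rw [hB, mul_pow (Real.sqrt C1 / (o : ℝ) ^ A), div_pow, Real.sq_sqrt (by linarith), ← pow_mul,
      mul_comm A 2]
  have h2 : ∫⁻ z : ℂ, ENNReal.ofReal ((∑ i ∈ I, cmpl1_c (cls a' b').card i *
      Nd (cmpl1_s s1 s2 i) (z - cmpl1_Z S N i)) ^ 2) ≤ ENNReal.ofReal (B ^ 2) := by
    rw [hpars, ← hB2]
    refine le_trans (le_of_eq ?_) hf
    refine lintegral_congr fun ξ => ?_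
    rw [hI, cmpl1_fourier]
  have hmain := l1_le I (cmpl1_c (cls a' b').card) (cmpl1_s s1 s2) (cmpl1_Z S N) (6 * N)
    ‖(W S a b).2.2‖ B (by positivity) hB0 (by
      rintro (x | x) _
      · exact ⟨hs1p, hs1, off3_bound S N _⟩
      · exact ⟨hs2p, hs2, off3_bound S N _⟩) h2
  have hL : ∫⁻ z : ℂ, ENNReal.ofReal |DD S N a b a' b' s1 s2 z| =
      ∫⁻ z : ℂ, ENNReal.ofReal |∑ i ∈ I, cmpl1_c (cls a' b').card i *
        Nd (cmpl1_s s1 s2 i) (z - cmpl1_Z S N i)| := by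
    refine lintegral_congr fun z => ?_
    rw [cmpl1_DD]
  rw [hL]
  refine hmain.trans (ENNReal.ofReal_le_ofReal ?_)
  rw [hI, cmpl1_sumc a b _ _ rfl]
  -- the exponential
  have hexpo : Real.exp (-(Real.pi / (2 * ‖(W S a b).2.2‖ ^ 2))) ≤ (A.factorial : ℝ) / (o : ℝ) ^ A := by
    have hl := cmpl1_lam S a b
    rw [hab] at hl
    have hl2 : ‖(W S a b).2.2‖ ^ 2 * o ≤ 1 := by
      have h16 : (0.7332 : ℝ) ^ (16 * o) ≤ (1 / 2) ^ o := by
        rw [pow_mul]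
        gcongr
        norm_num
      have h3 : (o : ℝ) ≤ 2 ^ o := by exact_mod_cast (Nat.lt_two_pow_self).le
      calc ‖(W S a b).2.2‖ ^ 2 * o ≤ (1 / 2) ^ o * 2 ^ o := by
            gcongr
            exact hl.trans h16
        _ = 1 := by rw [← mul_pow]; norm_num
    have hx : (o : ℝ) ≤ Real.pi / (2 * ‖(W S a b).2.2‖ ^ 2) := by
      rw [le_div_iff₀ (by positivity)]
      have := Real.pi_gt_three
      nlinarith
    have hfac := Real.pow_div_factorial_le_exp (o : ℝ) (by positivity) A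
    have hfp : (0 : ℝ) < (A.factorial : ℝ) := by exact_mod_cast A.factorial_pos
    calc Real.exp (-(Real.pi / (2 * ‖(W S a b).2.2‖ ^ 2))) ≤ Real.exp (-(o : ℝ)) := by
          gcongr
      _ = (Real.exp o)⁻¹ := Real.exp_neg _
      _ ≤ ((o : ℝ) ^ A / A.factorial)⁻¹ := by gcongr
      _ = _ := inv_div _ _
  have hcc : ((cls a b).card : ℝ) * (cls a' b').card ≤ |(W S a b).1| * |(W S a' b').1| :=
    mul_le_mul (cmpl1_card S a b) (cmpl1_card S a' b') (by positivity) (abs_nonneg _)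
  calc 2 * (6 * (N : ℝ) + 1) * B + 2 * ((cls a b).card * ((cls a' b').card : ℕ)) *
        (2 * Real.exp (-(Real.pi / (2 * ‖(W S a b).2.2‖ ^ 2)))) ≤
      2 * (6 * (N : ℝ) + 1) * B + 2 * (|(W S a b).1| * |(W S a' b').1|) *
        (2 * ((A.factorial : ℝ) / (o : ℝ) ^ A)) := by gcongr
    _ = _ := by
      rw [hB]
      ring

end Pool.Agent.H49.AB
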