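import Pool.Agent.H49.AB.CmpDefs

/-!
# JOB AB-32. Removing the offsets at the second place

Notation: `R1 = R ‖W_{ab}‖_2 ‖W_{a'b'}‖_2`, `Q1 = Q lam lam'`. By `gs_gw` (`v ++ w ∈ cls (a+a') (b+b')`, `W_add`)
`gs R Q (gw (v++w) y) = exp(-π ‖y2 - Z2‖²/R1²) exp(-π ‖y3 - Z3‖²/Q1²)`, and in `BB`: `gs R' 1 (gw w y) = exp(-π ‖y2 - Z2‖²/R1²) exp(-π ‖y3 - Z3‖²/lam²)`.
`‖Z2‖ ≤ 17 N o 1.0505^(17 o)` (`off2_bound`) and `R1 ≥ R 2^(-17 o)` (`‖a2‖ ≥ 1`, `‖b2‖ ≥ 1/2`), so `‖Z2‖/R1 ≤ exp(-o)` for `o ≥ o0`. `gauss_shift` for each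
word, `lat_gauss` with `r2 = 2 R1`, `r3 = Q1` resp. `lam`: error `≤ C exp(-o) card card' (1 + 4 R1² Q1²)`, resp. `C exp(-o) κ card (1 + 4 R1² lam²)`,
`κ = card' (Q lam')²`. Now `card ≤ w1`, `card' ≤ w1'` (`card_cls`, `bin_le_one`), `w1 w1' R1² Q1² = R² Q²` (`W_prod` for both), `κ lam² = card' Q1²`;
`w1 w1' ≤ R²`. And `exp(-o) ≤ C/o^A`.
-/

set_option autoImplicit false

namespace Pool.Agent.H49.AB

open Pool.Agent.H67.Tent Finset

namespace CmpShiftAux

/-- One word: the error of the shift, summed over the lattice. -/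
theorem word_shift (S : Sys2) (N : ℕ) (hN : 1 ≤ N) : ∃ C : ℝ, 1 ≤ C ∧
    ∀ (r q : ℝ) (c z : ℂ), 0 < r → 0 < q → ‖c‖ ≤ r →
      SG S N (fun y => ENNReal.ofReal |Real.exp (-(Real.pi *
          (‖y.2.1 - c‖ ^ 2 / r ^ 2 + ‖y.2.2 - z‖ ^ 2 / q ^ 2))) -
          Real.exp (-(Real.pi * (‖y.2.1‖ ^ 2 / r ^ 2))) *
            Real.exp (-(Real.pi * (‖y.2.2 - z‖ ^ 2 / q ^ 2)))|) ≤
      ENNReal.ofReal (C * (‖c‖ / r) * (1 + r ^ 2 * q ^ 2)) := by
  obtain ⟨C1, h1, H1⟩ := lat_gauss S N hN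
  obtain ⟨C2, h2, H2⟩ := gauss_shift
  refine ⟨4 * (C2 * C1), by nlinarith, fun r q c z hr hq hc => ?_⟩
  have hcr : 0 ≤ ‖c‖ / r := by positivity
  have key : SG S N (fun y => ENNReal.ofReal |Real.exp (-(Real.pi *
          (‖y.2.1 - c‖ ^ 2 / r ^ 2 + ‖y.2.2 - z‖ ^ 2 / q ^ 2))) -
          Real.exp (-(Real.pi * (‖y.2.1‖ ^ 2 / r ^ 2))) *
            Real.exp (-(Real.pi * (‖y.2.2 - z‖ ^ 2 / q ^ 2)))|) ≤
      SG S N (fun y => ENNReal.ofReal (C2 * (‖c‖ / r)) * ENNReal.ofReal (Real.exp (-(Real.pi *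
        (‖y.2.1 - 0‖ ^ 2 / (2 * r) ^ 2 + ‖y.2.2 - z‖ ^ 2 / q ^ 2))))) := by
    refine SG_mono S N fun y _ => ?_
    rw [← ENNReal.ofReal_mul (by positivity)]
    refine ENNReal.ofReal_le_ofReal ?_
    rw [sub_zero, mul_add, neg_add, Real.exp_add, ← sub_mul, abs_mul,
      abs_of_pos (Real.exp_pos _), mul_add, neg_add, Real.exp_add, ← mul_assoc]
    exact mul_le_mul_of_nonneg_right (H2 _ _ _ hr hc) (Real.exp_pos _).le
  refine key.trans ?_
  rw [SG_const_mul]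
  refine (mul_le_mul_right (H1 (2 * r) q 0 z (by positivity) hq) _).trans ?_
  rw [← ENNReal.ofReal_mul (by positivity)]
  refine ENNReal.ofReal_le_ofReal ?_
  have hX : 0 ≤ r ^ 2 * q ^ 2 := by positivity
  have hK : 0 ≤ C2 * (‖c‖ / r) * C1 := by positivity
  have : C2 * (‖c‖ / r) * (C1 * (1 + (2 * r) ^ 2 * q ^ 2)) =
      (C2 * (‖c‖ / r) * C1) * (1 + 4 * (r ^ 2 * q ^ 2)) := by ring
  rw [this]
  calc _ ≤ (C2 * (‖c‖ / r) * C1) * (4 * (1 + r ^ 2 * q ^ 2)) :=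
        mul_le_mul_of_nonneg_left (by linarith) hK
    _ = _ := by ring

theorem card_le (S : Sys2) (a b : ℕ) : ((cls a b).card : ℝ) ≤ |(W S a b).1| := by
  have hp : 0 ≤ (S.a.1)⁻¹ := (inv_pos.2 (ap S)).le
  have hq : 0 ≤ (S.b.1)⁻¹ := (inv_pos.2 (bp S)).le
  have h := bin_le_one hp hq (pq S) a b
  unfold bin at h
  rw [card_cls, W1]
  have ha := ap S
  have hb := bp S
  rw [inv_pow, inv_pow, mul_assoc, ← mul_inv, ← div_eq_mul_inv, div_le_one (by positivity)] at h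
  exact h

theorem W2_ge (S : Sys2) (a b : ℕ) : Real.exp (-((a + b : ℕ) : ℝ)) ≤ ‖(W S a b).2.1‖ := by
  rw [W2]
  have e1 : Real.exp (-((a + b : ℕ) : ℝ)) = Real.exp (-1) ^ a * Real.exp (-1) ^ b := by
    rw [← pow_add, ← Real.exp_nat_mul]
    congr 1
    ring
  have h1 : Real.exp (-1) ≤ 1 / 2 := by
    rw [Real.exp_neg, ← one_div]
    refine one_div_le_one_div_of_le (by norm_num) ?_
    have := Real.add_one_le_exp (1 : ℝ)
    linarith
  rw [e1]
  have h0 := (Real.exp_pos (-1 : ℝ)).le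
  exact mul_le_mul (pow_le_pow_left₀ h0 (h1.trans (le_trans (by norm_num) S.a2_ge)) _)
    (pow_le_pow_left₀ h0 (h1.trans S.b2_ge) _) (pow_nonneg h0 _) (by positivity)

theorem W1_le (S : Sys2) (a b : ℕ) : |(W S a b).1| ≤ Real.exp (2 * ((a + b : ℕ) : ℝ)) := by
  rw [W1]
  have e1 : Real.exp (2 * ((a + b : ℕ) : ℝ)) = Real.exp 2 ^ a * Real.exp 2 ^ b := by
    rw [← pow_add, ← Real.exp_nat_mul]
    congr 1
    ring
  have h2 : (5.2285 : ℝ) ≤ Real.exp 2 := by
    have h := Real.exp_one_gt_d9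
    have e : Real.exp 2 = Real.exp 1 * Real.exp 1 := by
      rw [← Real.exp_add]
      norm_num
    rw [e]
    nlinarith
  rw [e1]
  have ha := ap S
  have hb := bp S
  exact mul_le_mul (pow_le_pow_left₀ ha.le ((S.a1u.trans (by norm_num)).trans h2) _)
    (pow_le_pow_left₀ hb.le ((b1u S).trans h2) _) (by positivity) (by positivity)

theorem W3_le (S : Sys2) (a b : ℕ) : ‖(W S a b).2.2‖ ≤ 1 := by
  rw [W3]
  exact mul_le_one₀ (pow_le_one₀ (norm_nonneg _) (S.a3_le.trans (by norm_num)))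
    (by positivity) (pow_le_one₀ (norm_nonneg _) (S.b3_le.trans (by norm_num)))

/-- The offset is small compared with the radius. -/
theorem ratio (S : Sys2) (N : ℕ) (a b a' b' o : ℕ) (R : ℝ) (hab : a + b = 16 * o)
    (hab' : a' + b' = o) (ho : N ≤ o) (hR : Real.exp (40 * o) ≤ R) (w : List Bool)
    (hw : w.length ≤ 17 * o) :
    ‖(off S.toSys N w).2.1‖ / (R * (‖(W S a b).2.1‖ * ‖(W S a' b').2.1‖)) ≤
      Real.exp (-(o : ℝ)) := by
  have hR0 : 0 < R := (Real.exp_pos _).trans_le hR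
  have h2 := W2_pos S a b
  have h2' := W2_pos S a' b'
  rw [div_le_iff₀ (by positivity)]
  have o0 : (0 : ℝ) ≤ o := Nat.cast_nonneg _
  -- numerator
  have n1 := off2_bound S N w
  have n2 : (1.0505 : ℝ) ^ w.length ≤ Real.exp o := by
    calc (1.0505 : ℝ) ^ w.length ≤ 1.0505 ^ (17 * o) := pow_le_pow_right₀ (by norm_num) hw
      _ = (1.0505 ^ 17) ^ o := pow_mul _ _ _
      _ ≤ (Real.exp 1) ^ o := pow_le_pow_left₀ (by norm_num)
          (le_trans (by norm_num) Real.exp_one_gt_d9.le) _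
      _ = Real.exp o := by rw [← Real.exp_nat_mul, mul_one]
  have n3 : (w.length : ℝ) ≤ 17 * Real.exp o := by
    have h := Real.add_one_le_exp (o : ℝ)
    have : (w.length : ℝ) ≤ 17 * o := by exact_mod_cast hw
    linarith
  have n4 : (N : ℝ) ≤ Real.exp o := by
    have h := Real.add_one_le_exp (o : ℝ)
    have : (N : ℝ) ≤ o := by exact_mod_cast ho
    linarith
  have n5 : ‖(off S.toSys N w).2.1‖ ≤ 17 * Real.exp (3 * o) := by
    calc ‖(off S.toSys N w).2.1‖ ≤ N * w.length * 1.0505 ^ w.length := n1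
      _ ≤ Real.exp o * (17 * Real.exp o) * Real.exp o :=
          mul_le_mul (mul_le_mul n4 n3 (by positivity) (by positivity)) n2 (by positivity)
            (by positivity)
      _ = 17 * (Real.exp o * Real.exp o * Real.exp o) := by ring
      _ = 17 * Real.exp (3 * o) := by
          rw [← Real.exp_add, ← Real.exp_add]
          congr 2
          ring
  -- denominator
  have d1 := W2_ge S a b
  have d2 := W2_ge S a' b'
  rw [hab] at d1
  rw [hab'] at d2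
  have d3 : Real.exp (23 * o) ≤ R * (‖(W S a b).2.1‖ * ‖(W S a' b').2.1‖) := by
    calc Real.exp (23 * o) = Real.exp (40 * o) *
          (Real.exp (-((16 * o : ℕ) : ℝ)) * Real.exp (-(o : ℝ))) := by
          rw [← Real.exp_add, ← Real.exp_add]
          congr 1
          push_cast
          ring
      _ ≤ _ := mul_le_mul hR (mul_le_mul d1 d2 (Real.exp_pos _).le h2.le)
          (by positivity) hR0.le
  rcases Nat.eq_zero_or_pos o with h0 | h0
  · -- then the word is empty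
    have hw0 : w = [] := List.length_eq_zero_iff.1 (by omega)
    subst hw0
    have : (off S.toSys N []).2.1 = 0 := rfl
    rw [this, norm_zero]
    positivity
  · have ho1 : (1 : ℝ) ≤ o := by exact_mod_cast h0
    calc ‖(off S.toSys N w).2.1‖ ≤ 17 * Real.exp (3 * o) := n5
      _ ≤ Real.exp (19 * o) * Real.exp (3 * o) := by
          refine mul_le_mul_of_nonneg_right ?_ (Real.exp_pos _).le
          have := Real.add_one_le_exp (19 * (o : ℝ))
          linarith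
      _ = Real.exp (-(o : ℝ)) * Real.exp (23 * o) := by
          rw [← Real.exp_add, ← Real.exp_add]
          congr 1
          ring
      _ ≤ _ := mul_le_mul_of_nonneg_left d3 (Real.exp_pos _).le

theorem exp_le (A o : ℕ) (ho : 1 ≤ o) : Real.exp (-(o : ℝ)) ≤ (A.factorial : ℝ) / (o : ℝ) ^ A := by
  have ho1 : (0 : ℝ) < o := by exact_mod_cast ho
  have h := Real.pow_div_factorial_le_exp (o : ℝ) ho1.le A
  rw [div_le_iff₀ (by positivity)] at h
  rw [Real.exp_neg, le_div_iff₀ (by positivity), inv_mul_le_iff₀ (Real.exp_pos _)]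
  linarith

theorem w_mul_le (S : Sys2) (a b a' b' o : ℕ) (R : ℝ) (hab : a + b = 16 * o)
    (hab' : a' + b' = o) (hR : Real.exp (40 * o) ≤ R) :
    |(W S a b).1| * |(W S a' b').1| ≤ R ^ 2 := by
  have h1 := W1_le S a b
  have h2 := W1_le S a' b'
  rw [hab] at h1
  rw [hab'] at h2
  have o0 : (0 : ℝ) ≤ o := Nat.cast_nonneg _
  calc |(W S a b).1| * |(W S a' b').1| ≤
        Real.exp (2 * ((16 * o : ℕ) : ℝ)) * Real.exp (2 * (o : ℝ)) :=
        mul_le_mul h1 h2 (abs_nonneg _) (Real.exp_pos _).le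
    _ = Real.exp (34 * o) := by
        rw [← Real.exp_add]
        congr 1
        push_cast
        ring
    _ ≤ Real.exp (40 * o + 40 * o) := Real.exp_le_exp.2 (by linarith)
    _ = Real.exp (40 * o) ^ 2 := by rw [Real.exp_add, sq]
    _ ≤ R ^ 2 := pow_le_pow_left₀ (Real.exp_pos _).le hR 2

theorem SG_abs_sum (S : Sys2) (N : ℕ) {ι : Type*} (I : Finset ι) (f : ι → E → ℝ) :
    SG S N (fun z => ENNReal.ofReal |∑ i ∈ I, f i z|) ≤
      ∑ i ∈ I, SG S N (fun z => ENNReal.ofReal |f i z|) := by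
  rw [← SG_ofReal_sum S N I (fun i z => |f i z|) (fun _ _ _ => abs_nonneg _)]
  exact SG_mono S N fun z _ => ENNReal.ofReal_le_ofReal (Finset.abs_sum_le_sum_abs _ _)

end CmpShiftAux

open CmpShiftAux

theorem shiftA (S : Sys2) (N : ℕ) (hN : 1 ≤ N) (A : ℕ) : ∃ (C : ℝ) (o0 : ℕ), 1 ≤ C ∧
    ∀ (a b a' b' o : ℕ) (R Q : ℝ), a + b = 16 * o → a' + b' = o → o0 ≤ o →
      Real.exp (40 * o) ≤ R → 1 ≤ Q →
      SG S N (fun y => ENNReal.ofReal |AA S N a b a' b' R Q y - AA0 S N a b a' b' R Q y|) ≤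
      ENNReal.ofReal (C / (o : ℝ) ^ A * (R ^ 2 * Q ^ 2)) := by
  obtain ⟨C, hC, H⟩ := word_shift S N hN
  have hf : (1 : ℝ) ≤ (A.factorial : ℝ) := by exact_mod_cast Nat.succ_le_of_lt A.factorial_pos
  refine ⟨2 * C * A.factorial, N, by nlinarith, fun a b a' b' o R Q hab hab' ho hR hQ => ?_⟩
  have hR0 : 0 < R := (Real.exp_pos _).trans_le hR
  have hQ0 : 0 < Q := by linarith
  have h2 := W2_pos S a b
  have h2' := W2_pos S a' b'
  have h3 := W3_pos S a b
  have h3' := W3_pos S a' b'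
  have ho1 : 1 ≤ o := hN.trans ho
  have ho1' : (0 : ℝ) < o := by exact_mod_cast ho1
  set r : ℝ := R * (‖(W S a b).2.1‖ * ‖(W S a' b').2.1‖) with hr
  set q : ℝ := Q * (‖(W S a b).2.2‖ * ‖(W S a' b').2.2‖) with hq
  have hr0 : 0 < r := by positivity
  have hq0 : 0 < q := by positivity
  set F : List Bool → List Bool → E → ℝ := fun w v y =>
    Real.exp (-(Real.pi * (‖y.2.1 - (off S.toSys N (v ++ w)).2.1‖ ^ 2 / r ^ 2 +
      ‖y.2.2 - (off S.toSys N (v ++ w)).2.2‖ ^ 2 / q ^ 2))) -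
    Real.exp (-(Real.pi * (‖y.2.1‖ ^ 2 / r ^ 2))) *
      Real.exp (-(Real.pi * (‖y.2.2 - (off S.toSys N (v ++ w)).2.2‖ ^ 2 / q ^ 2))) with hF
  have e1 : (fun y => ENNReal.ofReal |AA S N a b a' b' R Q y - AA0 S N a b a' b' R Q y|) =
      fun y => ENNReal.ofReal |∑ w ∈ cls a b, ∑ v ∈ cls a' b', F w v y| := by
    funext y
    congr 2
    unfold AA AA0 g2
    rw [← hr, ← hq, Finset.mul_sum, ← Finset.sum_sub_distrib]
    refine Finset.sum_congr rfl fun w hw => ?_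
    rw [Finset.mul_sum, ← Finset.sum_sub_distrib]
    refine Finset.sum_congr rfl fun v hv => ?_
    have hvw : v ++ w ∈ cls (a + a') (b + b') := by
      rw [mem_cls, List.count_append, List.count_append]
      obtain ⟨g1, g2⟩ := mem_cls.1 hw
      obtain ⟨g3, g4⟩ := mem_cls.1 hv
      omega
    rw [gs_gw S N R Q hvw y, W_add]
    have t2 : ‖(W S a b * W S a' b').2.1‖ = ‖(W S a b).2.1‖ * ‖(W S a' b').2.1‖ := norm_mul _ _
    have t3 : ‖(W S a b * W S a' b').2.2‖ = ‖(W S a b).2.2‖ * ‖(W S a' b').2.2‖ := norm_mul _ _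
    rw [t2, t3, ← hr, ← hq]
  rw [e1]
  have hone : ∀ w ∈ cls a b, ∀ v ∈ cls a' b', SG S N (fun y => ENNReal.ofReal |F w v y|) ≤
      ENNReal.ofReal (C * Real.exp (-(o : ℝ)) * (1 + r ^ 2 * q ^ 2)) := by
    intro w hw v hv
    have hlen : (v ++ w).length ≤ 17 * o := by
      rw [List.length_append]
      obtain ⟨g1, g2⟩ := mem_cls.1 hw
      obtain ⟨g3, g4⟩ := mem_cls.1 hv
      have g5 := count_add w
      have g6 := count_add v
      omega
    have hrat := ratio S N a b a' b' o R hab hab' ho hR (v ++ w) hlen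
    rw [← hr] at hrat
    have hle : ‖(off S.toSys N (v ++ w)).2.1‖ ≤ r := by
      have : ‖(off S.toSys N (v ++ w)).2.1‖ / r ≤ 1 :=
        hrat.trans (Real.exp_le_one_iff.2 (by linarith))
      rwa [div_le_one hr0] at this
    refine (H r q _ (off S.toSys N (v ++ w)).2.2 hr0 hq0 hle).trans ?_
    refine ENNReal.ofReal_le_ofReal ?_
    exact mul_le_mul_of_nonneg_right (mul_le_mul_of_nonneg_left hrat (by linarith))
      (by positivity)
  refine (SG_abs_sum S N _ _).trans ?_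
  refine (Finset.sum_le_sum fun w hw => (SG_abs_sum S N _ _).trans
    (Finset.sum_le_sum fun v hv => hone w hw v hv)).trans ?_
  rw [Finset.sum_const, Finset.sum_const, nsmul_eq_mul, nsmul_eq_mul,
    ← ENNReal.ofReal_natCast, ← ENNReal.ofReal_natCast, ← ENNReal.ofReal_mul (by positivity),
    ← ENNReal.ofReal_mul (by positivity)]
  refine ENNReal.ofReal_le_ofReal ?_
  have hc := card_le S a b
  have hc' := card_le S a' b'
  have hww := w_mul_le S a b a' b' o R hab hab' hR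
  have hp := W_prod S a b
  have hp' := W_prod S a' b'
  have hcc : ((cls a b).card : ℝ) * ((cls a' b').card : ℝ) ≤
      |(W S a b).1| * |(W S a' b').1| :=
    mul_le_mul hc hc' (by positivity) (abs_nonneg _)
  have hQ2 : 1 ≤ Q ^ 2 := one_le_pow₀ hQ
  have e2 : |(W S a b).1| * |(W S a' b').1| * (r ^ 2 * q ^ 2) = R ^ 2 * Q ^ 2 := by
    rw [hr, hq]
    calc _ = R ^ 2 * Q ^ 2 * (|(W S a b).1| * ‖(W S a b).2.1‖ ^ 2 * ‖(W S a b).2.2‖ ^ 2) *
          (|(W S a' b').1| * ‖(W S a' b').2.1‖ ^ 2 * ‖(W S a' b').2.2‖ ^ 2) := by ring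
      _ = _ := by rw [hp, hp', mul_one, mul_one]
  have e3 : |(W S a b).1| * |(W S a' b').1| ≤ R ^ 2 * Q ^ 2 :=
    hww.trans (le_mul_of_one_le_right (by positivity) hQ2)
  have e4 := exp_le A o ho1
  have e5 : ((cls a b).card : ℝ) * ((cls a' b').card : ℝ) * (1 + r ^ 2 * q ^ 2) ≤
      2 * (R ^ 2 * Q ^ 2) := by
    calc _ ≤ |(W S a b).1| * |(W S a' b').1| * (1 + r ^ 2 * q ^ 2) :=
          mul_le_mul_of_nonneg_right hcc (by positivity)
      _ = |(W S a b).1| * |(W S a' b').1| + |(W S a b).1| * |(W S a' b').1| * (r ^ 2 * q ^ 2) := by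
          ring
      _ ≤ _ := by rw [e2]; linarith
  calc _ = (C * Real.exp (-(o : ℝ))) * (((cls a b).card : ℝ) * ((cls a' b').card : ℝ) *
        (1 + r ^ 2 * q ^ 2)) := by ring
    _ ≤ (C * (A.factorial / (o : ℝ) ^ A)) * (2 * (R ^ 2 * Q ^ 2)) :=
        mul_le_mul (mul_le_mul_of_nonneg_left e4 (by linarith)) e5 (by positivity) (by positivity)
    _ = _ := by ring

theorem shiftB (S : Sys2) (N : ℕ) (hN : 1 ≤ N) (A : ℕ) : ∃ (C : ℝ) (o0 : ℕ), 1 ≤ C ∧
    ∀ (a b a' b' o : ℕ) (R Q : ℝ), a + b = 16 * o → a' + b' = o → o0 ≤ o →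
      Real.exp (40 * o) ≤ R → 1 ≤ Q →
      SG S N (fun y => ENNReal.ofReal |BB S N a b a' b' R Q y - BB0 S N a b a' b' R Q y|) ≤
      ENNReal.ofReal (C / (o : ℝ) ^ A * (R ^ 2 * Q ^ 2)) := by
  obtain ⟨C, hC, H⟩ := word_shift S N hN
  have hf : (1 : ℝ) ≤ (A.factorial : ℝ) := by exact_mod_cast Nat.succ_le_of_lt A.factorial_pos
  refine ⟨2 * C * A.factorial, N, by nlinarith, fun a b a' b' o R Q hab hab' ho hR hQ => ?_⟩
  have hR0 : 0 < R := (Real.exp_pos _).trans_le hR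
  have hQ0 : 0 < Q := by linarith
  have h2 := W2_pos S a b
  have h2' := W2_pos S a' b'
  have h3 := W3_pos S a b
  have h3' := W3_pos S a' b'
  have ho1 : 1 ≤ o := hN.trans ho
  have ho1' : (0 : ℝ) < o := by exact_mod_cast ho1
  set r : ℝ := R * (‖(W S a b).2.1‖ * ‖(W S a' b').2.1‖) with hr
  set q : ℝ := ‖(W S a b).2.2‖ with hq
  have hr0 : 0 < r := by positivity
  have hq0 : 0 < q := h3
  set κ : ℝ := (cls a' b').card * (Q * ‖(W S a' b').2.2‖) ^ 2 with hκ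
  have hκ0 : 0 ≤ κ := by positivity
  set F : List Bool → E → ℝ := fun w y =>
    Real.exp (-(Real.pi * (‖y.2.1 - (off S.toSys N w).2.1‖ ^ 2 / r ^ 2 +
      ‖y.2.2 - (off S.toSys N w).2.2‖ ^ 2 / q ^ 2))) -
    Real.exp (-(Real.pi * (‖y.2.1‖ ^ 2 / r ^ 2))) *
      Real.exp (-(Real.pi * (‖y.2.2 - (off S.toSys N w).2.2‖ ^ 2 / q ^ 2))) with hF
  have e1 : (fun y => ENNReal.ofReal |BB S N a b a' b' R Q y - BB0 S N a b a' b' R Q y|) =
      fun y => ENNReal.ofReal κ * ENNReal.ofReal |∑ w ∈ cls a b, F w y| := by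
    funext y
    rw [← ENNReal.ofReal_mul hκ0]
    congr 1
    have : BB S N a b a' b' R Q y - BB0 S N a b a' b' R Q y = κ * ∑ w ∈ cls a b, F w y := by
      unfold BB BB0 g2
      rw [← hr, ← hq, ← hκ, ← mul_sub, Finset.mul_sum, ← Finset.sum_sub_distrib]
      congr 1
      refine Finset.sum_congr rfl fun w hw => ?_
      rw [gs_gw S N _ 1 hw y]
      have t2 : R * ‖(W S a' b').2.1‖ * ‖(W S a b).2.1‖ = r := by rw [hr]; ring
      rw [t2, one_mul, ← hq]
    rw [this, abs_mul, abs_of_nonneg hκ0]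
  rw [e1, SG_const_mul]
  have hone : ∀ w ∈ cls a b, SG S N (fun y => ENNReal.ofReal |F w y|) ≤
      ENNReal.ofReal (C * Real.exp (-(o : ℝ)) * (1 + r ^ 2 * q ^ 2)) := by
    intro w hw
    have hlen : w.length ≤ 17 * o := by
      obtain ⟨g1, g2⟩ := mem_cls.1 hw
      have g5 := count_add w
      omega
    have hrat := ratio S N a b a' b' o R hab hab' ho hR w hlen
    rw [← hr] at hrat
    have hle : ‖(off S.toSys N w).2.1‖ ≤ r := by
      have : ‖(off S.toSys N w).2.1‖ / r ≤ 1 :=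
        hrat.trans (Real.exp_le_one_iff.2 (by linarith))
      rwa [div_le_one hr0] at this
    refine (H r q _ (off S.toSys N w).2.2 hr0 hq0 hle).trans ?_
    refine ENNReal.ofReal_le_ofReal ?_
    exact mul_le_mul_of_nonneg_right (mul_le_mul_of_nonneg_left hrat (by linarith))
      (by positivity)
  refine (mul_le_mul_right ((SG_abs_sum S N _ _).trans
    (Finset.sum_le_sum fun w hw => hone w hw)) _).trans ?_
  rw [Finset.sum_const, nsmul_eq_mul,
    ← ENNReal.ofReal_natCast, ← ENNReal.ofReal_mul (by positivity),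
    ← ENNReal.ofReal_mul (by positivity)]
  refine ENNReal.ofReal_le_ofReal ?_
  have hc := card_le S a b
  have hc' := card_le S a' b'
  have hww := w_mul_le S a b a' b' o R hab hab' hR
  have hp := W_prod S a b
  have hp' := W_prod S a' b'
  have hcc : ((cls a b).card : ℝ) * ((cls a' b').card : ℝ) ≤
      |(W S a b).1| * |(W S a' b').1| :=
    mul_le_mul hc hc' (by positivity) (abs_nonneg _)
  have hw3 : ‖(W S a' b').2.2‖ ^ 2 ≤ 1 := pow_le_one₀ (norm_nonneg _) (W3_le S a' b')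
  have e2 : |(W S a b).1| * |(W S a' b').1| * (Q ^ 2 * ‖(W S a' b').2.2‖ ^ 2 *
      (r ^ 2 * q ^ 2)) = R ^ 2 * Q ^ 2 := by
    rw [hr, hq]
    calc _ = R ^ 2 * Q ^ 2 * (|(W S a b).1| * ‖(W S a b).2.1‖ ^ 2 * ‖(W S a b).2.2‖ ^ 2) *
          (|(W S a' b').1| * ‖(W S a' b').2.1‖ ^ 2 * ‖(W S a' b').2.2‖ ^ 2) := by ring
      _ = _ := by rw [hp, hp', mul_one, mul_one]
  have e3 : |(W S a b).1| * |(W S a' b').1| * (Q ^ 2 * ‖(W S a' b').2.2‖ ^ 2) ≤
      R ^ 2 * Q ^ 2 :=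
    mul_le_mul hww (mul_le_of_le_one_right (by positivity) hw3) (by positivity) (by positivity)
  have e4 := exp_le A o ho1
  have e5 : κ * ((cls a b).card : ℝ) * (1 + r ^ 2 * q ^ 2) ≤ 2 * (R ^ 2 * Q ^ 2) := by
    calc κ * ((cls a b).card : ℝ) * (1 + r ^ 2 * q ^ 2) =
          (((cls a b).card : ℝ) * ((cls a' b').card : ℝ)) *
            (Q ^ 2 * ‖(W S a' b').2.2‖ ^ 2 * (1 + r ^ 2 * q ^ 2)) := by rw [hκ]; ring
      _ ≤ |(W S a b).1| * |(W S a' b').1| *
            (Q ^ 2 * ‖(W S a' b').2.2‖ ^ 2 * (1 + r ^ 2 * q ^ 2)) :=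
          mul_le_mul_of_nonneg_right hcc (by positivity)
      _ = |(W S a b).1| * |(W S a' b').1| * (Q ^ 2 * ‖(W S a' b').2.2‖ ^ 2) +
          |(W S a b).1| * |(W S a' b').1| * (Q ^ 2 * ‖(W S a' b').2.2‖ ^ 2 *
            (r ^ 2 * q ^ 2)) := by ring
      _ ≤ _ := by rw [e2]; linarith
  calc _ = (C * Real.exp (-(o : ℝ))) * (κ * ((cls a b).card : ℝ) *
        (1 + r ^ 2 * q ^ 2)) := by ring
    _ ≤ (C * (A.factorial / (o : ℝ) ^ A)) * (2 * (R ^ 2 * Q ^ 2)) :=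
        mul_le_mul (mul_le_mul_of_nonneg_left e4 (by linarith)) e5 (by positivity) (by positivity)
    _ = _ := by ring

end Pool.Agent.H49.AB
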