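import Pool.Agent.H49.AB.Basic
import Pool.Agent.H67.Tent.Count

/-!
# JOB AB-18. Gaussian sums over lattice points

`count_box` (`H67/Tent/Count.lean`): the number of lattice points with `u ≤ y.1 ≤ u + δ`, `‖y.2.1 - c2‖ ≤ ρ2`, `‖y.2.2 - c3‖ ≤ ρ3` is at most
`128 δ ρ2² ρ3² + 18`. Shells: put `k = ⌊‖y.2.1 - c2‖/r2⌋`, `l = ⌊‖y.2.2 - c3‖/r3⌋`; the Gaussian is `≤ exp(-π(k² + l²))` and the number of points of the shell
`(k, l)` is at most `128 N (k+1)² (l+1)² r2² r3² + 18 ≤ (128 N + 18)(k+1)²(l+1)² (1 + r2² r3²)`; sum over `k, l`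
(`∑ (k+1)² exp(-π k²) < ∞`). For `SG` (an `ENNReal` sum over a subtype) it is enough to bound all finite sums: `ENNReal.tsum_eq_iSup_sum`.
`lat_finite` is the version with a box at the first two places (`u = -L1`, `δ = 2 L1`, `ρ2 = L2`).
-/

set_option autoImplicit false

namespace Pool.Agent.H49.AB

open Pool.Agent.H67.Tent Finset

/-- The weight of a shell. -/
noncomputable def latw (k : ℕ) : ℝ := ((k : ℝ) + 1) ^ 2 * Real.exp (-(Real.pi * (k : ℝ) ^ 2))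

theorem latw_nonneg (k : ℕ) : 0 ≤ latw k := by
  unfold latw
  positivity

theorem latw_summable : Summable latw := by
  have h1 : Summable (fun n : ℕ => (n : ℝ) ^ 2 * Real.exp (-1 * (n : ℝ))) :=
    Real.summable_pow_mul_exp_neg_nat_mul 2 one_pos
  have h2 : Summable (fun n : ℕ => ((n + 1 : ℕ) : ℝ) ^ 2 * Real.exp (-1 * ((n + 1 : ℕ) : ℝ))) :=
    (summable_nat_add_iff 1).2 h1
  have h3 := h2.mul_left (Real.exp 1)
  refine Summable.of_nonneg_of_le latw_nonneg (fun k => ?_) h3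
  unfold latw
  push_cast
  have h4 : Real.exp 1 * ((((k : ℝ) + 1)) ^ 2 * Real.exp (-1 * ((k : ℝ) + 1))) =
      ((k : ℝ) + 1) ^ 2 * Real.exp (-(k : ℝ)) := by
    have : Real.exp 1 * Real.exp (-1 * ((k : ℝ) + 1)) = Real.exp (-(k : ℝ)) := by
      rw [← Real.exp_add]
      congr 1
      ring
    rw [← this]
    ring
  rw [h4]
  refine mul_le_mul_of_nonneg_left (Real.exp_le_exp.2 ?_) (by positivity)
  have h5 : (k : ℝ) ≤ (k : ℝ) ^ 2 := by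
    have : k ≤ k ^ 2 := by nlinarith [Nat.zero_le k]
    exact_mod_cast this
  have h6 : (1 : ℝ) ≤ Real.pi := by linarith [Real.pi_gt_three]
  nlinarith [Nat.cast_nonneg (α := ℝ) k]

theorem latw_sum_le (s : Finset ℕ) : ∑ k ∈ s, latw k ≤ ∑' k, latw k :=
  latw_summable.sum_le_tsum s fun k _ => latw_nonneg k

theorem latw_prod_le (P : Finset (ℕ × ℕ)) :
    ∑ p ∈ P, latw p.1 * latw p.2 ≤ (∑' k, latw k) ^ 2 := by
  classical
  have h0 : (0 : ℝ) ≤ ∑' k, latw k := tsum_nonneg latw_nonneg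
  calc ∑ p ∈ P, latw p.1 * latw p.2
      ≤ ∑ p ∈ P.image Prod.fst ×ˢ P.image Prod.snd, latw p.1 * latw p.2 :=
        Finset.sum_le_sum_of_subset_of_nonneg Finset.subset_product
          fun p _ _ => mul_nonneg (latw_nonneg _) (latw_nonneg _)
    _ = (∑ k ∈ P.image Prod.fst, latw k) * ∑ l ∈ P.image Prod.snd, latw l := by
        rw [Finset.sum_product, Finset.sum_mul_sum]
    _ ≤ (∑' k, latw k) * ∑' k, latw k :=
        mul_le_mul (latw_sum_le _) (latw_sum_le _)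
          (Finset.sum_nonneg fun k _ => latw_nonneg k) h0
    _ = _ := by ring

theorem lat_floor {x r : ℝ} (hr : 0 < r) (hx : 0 ≤ x) :
    ((⌊x / r⌋₊ : ℕ) : ℝ) ^ 2 ≤ x ^ 2 / r ^ 2 ∧ x ≤ ((⌊x / r⌋₊ : ℝ) + 1) * r := by
  have h0 : 0 ≤ x / r := by positivity
  have h1 := Nat.floor_le h0
  have h2 := Nat.lt_floor_add_one (x / r)
  constructor
  · rw [← div_pow]
    exact pow_le_pow_left₀ (Nat.cast_nonneg _) h1 2
  · rw [div_lt_iff₀ hr] at h2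
    exact h2.le

theorem lat_gen (S : Sys) (Y : Finset E) (u δ r2 r3 : ℝ) (c2 c3 : ℂ) (hδ : 0 < δ) (h2 : 0 < r2)
    (h3 : 0 < r3) (hY : ∀ y ∈ Y, y ∈ S.Lam ∧ u ≤ y.1 ∧ y.1 ≤ u + δ) :
    ∑ y ∈ Y, Real.exp (-(Real.pi * (‖y.2.1 - c2‖ ^ 2 / r2 ^ 2 + ‖y.2.2 - c3‖ ^ 2 / r3 ^ 2))) ≤
      (∑' k, latw k) ^ 2 * (128 * δ + 18) * (1 + r2 ^ 2 * r3 ^ 2) := by
  classical
  set φ : E → ℕ × ℕ := fun y => (⌊‖y.2.1 - c2‖ / r2⌋₊, ⌊‖y.2.2 - c3‖ / r3⌋₊) with hφ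
  have hpi := Real.pi_pos
  rw [← Finset.sum_fiberwise_of_maps_to (s := Y) (t := Y.image φ) (g := φ)
    (fun y hy => Finset.mem_image_of_mem φ hy)]
  have key : ∀ p ∈ Y.image φ, ∑ y ∈ Y with φ y = p,
      Real.exp (-(Real.pi * (‖y.2.1 - c2‖ ^ 2 / r2 ^ 2 + ‖y.2.2 - c3‖ ^ 2 / r3 ^ 2))) ≤
      (128 * δ + 18) * (1 + r2 ^ 2 * r3 ^ 2) * (latw p.1 * latw p.2) := by
    intro p _
    have hb : ∀ y ∈ Y.filter (fun y => φ y = p),
        Real.exp (-(Real.pi * (‖y.2.1 - c2‖ ^ 2 / r2 ^ 2 + ‖y.2.2 - c3‖ ^ 2 / r3 ^ 2))) ≤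
        Real.exp (-(Real.pi * ((p.1 : ℝ) ^ 2 + (p.2 : ℝ) ^ 2))) := by
      intro y hy
      rw [Finset.mem_filter] at hy
      rw [← hy.2]
      refine Real.exp_le_exp.2 (neg_le_neg (mul_le_mul_of_nonneg_left ?_ hpi.le))
      exact add_le_add (lat_floor h2 (norm_nonneg _)).1 (lat_floor h3 (norm_nonneg _)).1
    have hc : (((Y.filter (fun y => φ y = p)).card : ℕ) : ℝ) ≤
        128 * δ * (((p.1 : ℝ) + 1) * r2) ^ 2 * (((p.2 : ℝ) + 1) * r3) ^ 2 + 18 := by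
      refine count_box S _ u δ _ _ c2 c3 hδ (by positivity) (by positivity) fun y hy => ?_
      rw [Finset.mem_filter] at hy
      obtain ⟨a1, a2, a3⟩ := hY y hy.1
      refine ⟨a1, a2, a3, ?_, ?_⟩
      · rw [← hy.2]
        exact (lat_floor h2 (norm_nonneg _)).2
      · rw [← hy.2]
        exact (lat_floor h3 (norm_nonneg _)).2
    have hs := Finset.sum_le_card_nsmul _ _ _ hb
    rw [nsmul_eq_mul] at hs
    refine hs.trans ((mul_le_mul_of_nonneg_right hc (Real.exp_pos _).le).trans ?_)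
    have he : Real.exp (-(Real.pi * ((p.1 : ℝ) ^ 2 + (p.2 : ℝ) ^ 2))) =
        Real.exp (-(Real.pi * (p.1 : ℝ) ^ 2)) * Real.exp (-(Real.pi * (p.2 : ℝ) ^ 2)) := by
      rw [← Real.exp_add]
      congr 1
      ring
    rw [he]
    unfold latw
    have hk : (1 : ℝ) ≤ ((p.1 : ℝ) + 1) ^ 2 * ((p.2 : ℝ) + 1) ^ 2 := by
      have g1 : (1 : ℝ) ≤ (p.1 : ℝ) + 1 := by linarith [Nat.cast_nonneg (α := ℝ) p.1]
      have g2 : (1 : ℝ) ≤ (p.2 : ℝ) + 1 := by linarith [Nat.cast_nonneg (α := ℝ) p.2]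
      exact one_le_mul_of_one_le_of_one_le (one_le_pow₀ g1) (one_le_pow₀ g2)
    set A : ℝ := ((p.1 : ℝ) + 1) ^ 2 * ((p.2 : ℝ) + 1) ^ 2 with hA
    set B : ℝ := r2 ^ 2 * r3 ^ 2 with hB
    have hB0 : 0 ≤ B := by positivity
    have hcoef : 128 * δ * (((p.1 : ℝ) + 1) * r2) ^ 2 * (((p.2 : ℝ) + 1) * r3) ^ 2 + 18 ≤
        (128 * δ + 18) * (1 + B) * A := by
      have e1 : 128 * δ * (((p.1 : ℝ) + 1) * r2) ^ 2 * (((p.2 : ℝ) + 1) * r3) ^ 2 =
          128 * δ * B * A := by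
        rw [hA, hB]
        ring
      rw [e1]
      have e2 : (128 * δ + 18) * (1 + B) * A =
          128 * δ * B * A + 128 * δ * A + 18 * B * A + 18 * A := by ring
      rw [e2]
      have : 0 ≤ 128 * δ * A := by positivity
      have : 0 ≤ 18 * B * A := by positivity
      linarith
    calc (128 * δ * (((p.1 : ℝ) + 1) * r2) ^ 2 * (((p.2 : ℝ) + 1) * r3) ^ 2 + 18) *
          (Real.exp (-(Real.pi * (p.1 : ℝ) ^ 2)) * Real.exp (-(Real.pi * (p.2 : ℝ) ^ 2)))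
        ≤ ((128 * δ + 18) * (1 + B) * A) *
          (Real.exp (-(Real.pi * (p.1 : ℝ) ^ 2)) * Real.exp (-(Real.pi * (p.2 : ℝ) ^ 2))) :=
          mul_le_mul_of_nonneg_right hcoef (by positivity)
      _ = _ := by
          rw [hA]
          ring
  refine (Finset.sum_le_sum key).trans ?_
  rw [← Finset.mul_sum]
  have h5 := latw_prod_le (Y.image φ)
  calc (128 * δ + 18) * (1 + r2 ^ 2 * r3 ^ 2) * ∑ p ∈ Y.image φ, latw p.1 * latw p.2
      ≤ (128 * δ + 18) * (1 + r2 ^ 2 * r3 ^ 2) * (∑' k, latw k) ^ 2 :=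
        mul_le_mul_of_nonneg_left h5 (by positivity)
    _ = _ := by ring

theorem lat_gauss (S : Sys2) (N : ℕ) (hN : 1 ≤ N) : ∃ C : ℝ, 1 ≤ C ∧
    ∀ (r2 r3 : ℝ) (c2 c3 : ℂ), 0 < r2 → 0 < r3 →
      SG S N (fun z => ENNReal.ofReal (Real.exp (-(Real.pi *
        (‖z.2.1 - c2‖ ^ 2 / r2 ^ 2 + ‖z.2.2 - c3‖ ^ 2 / r3 ^ 2))))) ≤
      ENNReal.ofReal (C * (1 + r2 ^ 2 * r3 ^ 2)) := by
  have hN0 : (0 : ℝ) < N := by exact_mod_cast hN
  refine ⟨(∑' k, latw k) ^ 2 * (128 * N + 18) + 1, ?_, fun r2 r3 c2 c3 h2 h3 => ?_⟩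
  · have : (0 : ℝ) ≤ (∑' k, latw k) ^ 2 * (128 * N + 18) := by positivity
    linarith
  unfold SG
  rw [ENNReal.tsum_eq_iSup_sum]
  refine iSup_le fun s => ?_
  rw [← ENNReal.ofReal_sum_of_nonneg fun z _ => (Real.exp_pos _).le]
  refine ENNReal.ofReal_le_ofReal ?_
  have h := lat_gen S.toSys (s.map (Function.Embedding.subtype _)) 0 N r2 r3 c2 c3 hN0 h2 h3 (by
    intro y hy
    rw [Finset.mem_map] at hy
    obtain ⟨z, _, rfl⟩ := hy
    exact ⟨z.2.1, z.2.2.1, by simpa using z.2.2.2⟩)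
  rw [Finset.sum_map] at h
  refine h.trans ?_
  rw [add_mul, one_mul]
  have : (0 : ℝ) ≤ 1 + r2 ^ 2 * r3 ^ 2 := by positivity
  linarith

theorem lat_finite (S : Sys2) : ∃ C : ℝ, 1 ≤ C ∧
    ∀ (L1 L2 r3 : ℝ) (Y : Finset E), 0 < L1 → 0 < L2 → 0 < r3 →
      (∀ y ∈ Y, y ∈ S.Lam ∧ |y.1| ≤ L1 ∧ ‖y.2.1‖ ≤ L2) →
      ∑ y ∈ Y, Real.exp (-(Real.pi * (‖y.2.2‖ ^ 2 / r3 ^ 2))) ≤ C * (1 + L1 * L2 ^ 2 * r3 ^ 2) := by
  classical
  have hA0 : (0 : ℝ) ≤ ∑' k, latw k := tsum_nonneg latw_nonneg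
  refine ⟨274 * (∑' k, latw k) + 1, by linarith, fun L1 L2 r3 Y h1 h2 h3 hY => ?_⟩
  set φ : E → ℕ := fun y => ⌊‖y.2.2‖ / r3⌋₊ with hφ
  have hpi := Real.pi_pos
  rw [← Finset.sum_fiberwise_of_maps_to (s := Y) (t := Y.image φ) (g := φ)
    (fun y hy => Finset.mem_image_of_mem φ hy)]
  have key : ∀ l ∈ Y.image φ, ∑ y ∈ Y with φ y = l,
      Real.exp (-(Real.pi * (‖y.2.2‖ ^ 2 / r3 ^ 2))) ≤
      274 * (1 + L1 * L2 ^ 2 * r3 ^ 2) * latw l := by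
    intro l _
    have hb : ∀ y ∈ Y.filter (fun y => φ y = l),
        Real.exp (-(Real.pi * (‖y.2.2‖ ^ 2 / r3 ^ 2))) ≤ Real.exp (-(Real.pi * (l : ℝ) ^ 2)) := by
      intro y hy
      rw [Finset.mem_filter] at hy
      rw [← hy.2]
      exact Real.exp_le_exp.2 (neg_le_neg (mul_le_mul_of_nonneg_left
        (lat_floor h3 (norm_nonneg _)).1 hpi.le))
    have hc : (((Y.filter (fun y => φ y = l)).card : ℕ) : ℝ) ≤
        128 * (2 * L1) * L2 ^ 2 * (((l : ℝ) + 1) * r3) ^ 2 + 18 := by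
      refine count_box S.toSys _ (-L1) (2 * L1) L2 _ 0 0 (by positivity) h2 (by positivity)
        fun y hy => ?_
      rw [Finset.mem_filter] at hy
      obtain ⟨a1, a2, a3⟩ := hY y hy.1
      rw [abs_le] at a2
      refine ⟨a1, a2.1, by linarith [a2.2], by rwa [sub_zero], ?_⟩
      rw [sub_zero, ← hy.2]
      exact (lat_floor h3 (norm_nonneg _)).2
    have hs := Finset.sum_le_card_nsmul _ _ _ hb
    rw [nsmul_eq_mul] at hs
    refine hs.trans ((mul_le_mul_of_nonneg_right hc (Real.exp_pos _).le).trans ?_)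
    unfold latw
    have hk : (1 : ℝ) ≤ ((l : ℝ) + 1) ^ 2 := by
      have g1 : (1 : ℝ) ≤ (l : ℝ) + 1 := by linarith [Nat.cast_nonneg (α := ℝ) l]
      exact one_le_pow₀ g1
    set A : ℝ := ((l : ℝ) + 1) ^ 2 with hA
    set B : ℝ := L1 * L2 ^ 2 * r3 ^ 2 with hB
    have hB0 : 0 ≤ B := by positivity
    have hcoef : 128 * (2 * L1) * L2 ^ 2 * (((l : ℝ) + 1) * r3) ^ 2 + 18 ≤
        274 * (1 + B) * A := by
      have e1 : 128 * (2 * L1) * L2 ^ 2 * (((l : ℝ) + 1) * r3) ^ 2 = 256 * (B * A) := by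
        rw [hA, hB]
        ring
      rw [e1]
      have e2 : 274 * (1 + B) * A = 256 * (B * A) + 18 * (B * A) + 274 * A := by ring
      rw [e2]
      have : 0 ≤ B * A := by positivity
      linarith
    calc (128 * (2 * L1) * L2 ^ 2 * (((l : ℝ) + 1) * r3) ^ 2 + 18) *
          Real.exp (-(Real.pi * (l : ℝ) ^ 2))
        ≤ (274 * (1 + B) * A) * Real.exp (-(Real.pi * (l : ℝ) ^ 2)) :=
          mul_le_mul_of_nonneg_right hcoef (Real.exp_pos _).le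
      _ = _ := by ring
  refine (Finset.sum_le_sum key).trans ?_
  rw [← Finset.mul_sum]
  have hB0 : (0 : ℝ) ≤ 1 + L1 * L2 ^ 2 * r3 ^ 2 := by positivity
  calc 274 * (1 + L1 * L2 ^ 2 * r3 ^ 2) * ∑ l ∈ Y.image φ, latw l
      ≤ 274 * (1 + L1 * L2 ^ 2 * r3 ^ 2) * ∑' k, latw k :=
        mul_le_mul_of_nonneg_left (latw_sum_le _) (by positivity)
    _ = 274 * (∑' k, latw k) * (1 + L1 * L2 ^ 2 * r3 ^ 2) := by ring
    _ ≤ _ := mul_le_mul_of_nonneg_right (by linarith) hB0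

end Pool.Agent.H49.AB
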