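import Pool.Agent.H49.AB.GaussInt
import Pool.Agent.H49.AB.Lat

/-!
# JOB AB-28. From lattice sums to integrals

`|∫ Nd s (y3 - z) D z| ≤ ∫ Nd s (y3 - z) |D z|`, Tonelli (`lintegral_tsum`; the index type is countable by `instCountableG`), and for fixed `z`
`SG (exp(-π ‖y2‖²/ρ²) Nd s (y3 - z)) ≤ C (1 + ρ² s²)/s² ≤ 2 C ρ²` (`lat_gauss`, `ρ s ≥ 1`).
-/

set_option autoImplicit false

namespace Pool.Agent.H49.AB

open Pool.Agent.H67.Tent Finset MeasureTheory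

theorem Transfer_nd_nonneg (s : ℝ) (z : ℂ) : 0 ≤ Nd s z := by
  unfold Nd
  positivity

theorem Transfer_nd_cont (s : ℝ) : Continuous (Nd s) := by
  unfold Nd
  fun_prop

theorem Transfer_fix (S : Sys2) (N : ℕ) {C : ℝ} (hC : 1 ≤ C)
    (h : ∀ (r2 r3 : ℝ) (c2 c3 : ℂ), 0 < r2 → 0 < r3 →
      SG S N (fun z => ENNReal.ofReal (Real.exp (-(Real.pi *
        (‖z.2.1 - c2‖ ^ 2 / r2 ^ 2 + ‖z.2.2 - c3‖ ^ 2 / r3 ^ 2))))) ≤
      ENNReal.ofReal (C * (1 + r2 ^ 2 * r3 ^ 2)))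
    {ρ s : ℝ} (hρ : 0 < ρ) (hs : 0 < s) (hρs : 1 ≤ ρ * s) (z : ℂ) :
    SG S N (fun y => ENNReal.ofReal (Real.exp (-(Real.pi * (‖y.2.1‖ ^ 2 / ρ ^ 2))) *
      Nd s (y.2.2 - z))) ≤ ENNReal.ofReal (2 * C * ρ ^ 2) := by
  have e : (fun y : E => ENNReal.ofReal (Real.exp (-(Real.pi * (‖y.2.1‖ ^ 2 / ρ ^ 2))) *
      Nd s (y.2.2 - z))) = fun y : E => ENNReal.ofReal (1 / s ^ 2) * ENNReal.ofReal (Real.exp
        (-(Real.pi * (‖y.2.1 - 0‖ ^ 2 / ρ ^ 2 + ‖y.2.2 - z‖ ^ 2 / s ^ 2)))) := by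
    funext y
    rw [← ENNReal.ofReal_mul (by positivity)]
    congr 1
    unfold Nd
    rw [sub_zero, mul_add, neg_add, Real.exp_add]
    ring
  rw [e]
  have e2 : SG S N (fun y : E => ENNReal.ofReal (1 / s ^ 2) * ENNReal.ofReal (Real.exp
        (-(Real.pi * (‖y.2.1 - 0‖ ^ 2 / ρ ^ 2 + ‖y.2.2 - z‖ ^ 2 / s ^ 2))))) =
      ENNReal.ofReal (1 / s ^ 2) * SG S N (fun y : E => ENNReal.ofReal (Real.exp
        (-(Real.pi * (‖y.2.1 - 0‖ ^ 2 / ρ ^ 2 + ‖y.2.2 - z‖ ^ 2 / s ^ 2))))) :=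
    ENNReal.tsum_mul_left
  rw [e2]
  refine (mul_le_mul_right (h ρ s 0 z hρ hs) _).trans ?_
  rw [← ENNReal.ofReal_mul (by positivity)]
  refine ENNReal.ofReal_le_ofReal ?_
  have h1 : 1 ≤ ρ ^ 2 * s ^ 2 := by
    rw [← mul_pow]
    exact one_le_pow₀ hρs
  rw [one_div, inv_mul_le_iff₀ (by positivity)]
  nlinarith

theorem transfer (S : Sys2) (N : ℕ) (hN : 1 ≤ N) : ∃ C : ℝ, 1 ≤ C ∧
    ∀ (ρ s : ℝ) (D : ℂ → ℝ), 0 < ρ → 0 < s → 1 ≤ ρ * s → Continuous D →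
      SG S N (fun y => ENNReal.ofReal (Real.exp (-(Real.pi * (‖y.2.1‖ ^ 2 / ρ ^ 2))) *
        |∫ z : ℂ, Nd s (y.2.2 - z) * D z|)) ≤
      ENNReal.ofReal (C * ρ ^ 2) * ∫⁻ z : ℂ, ENNReal.ofReal |D z| := by
  obtain ⟨C, hC, h⟩ := lat_gauss S N hN
  refine ⟨2 * C, by linarith, fun ρ s D hρ hs hρs hD => ?_⟩
  have step1 : ∀ y : E, ENNReal.ofReal (Real.exp (-(Real.pi * (‖y.2.1‖ ^ 2 / ρ ^ 2))) *
        |∫ z : ℂ, Nd s (y.2.2 - z) * D z|) ≤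
      ∫⁻ z : ℂ, ENNReal.ofReal (Real.exp (-(Real.pi * (‖y.2.1‖ ^ 2 / ρ ^ 2))) *
        Nd s (y.2.2 - z)) * ENNReal.ofReal |D z| := by
    intro y
    have h1 : ENNReal.ofReal |∫ z : ℂ, Nd s (y.2.2 - z) * D z| ≤
        ∫⁻ z : ℂ, ENNReal.ofReal (Nd s (y.2.2 - z)) * ENNReal.ofReal |D z| := by
      have h2 := enorm_integral_le_lintegral_enorm (μ := volume)
        (fun z : ℂ => Nd s (y.2.2 - z) * D z)
      rw [Real.enorm_eq_ofReal_abs] at h2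
      refine h2.trans (le_of_eq (lintegral_congr fun z => ?_))
      rw [Real.enorm_eq_ofReal_abs, abs_mul, abs_of_nonneg (Transfer_nd_nonneg s _),
        ENNReal.ofReal_mul (Transfer_nd_nonneg s _)]
    rw [ENNReal.ofReal_mul (Real.exp_pos _).le]
    refine (mul_le_mul_right h1 _).trans (le_of_eq ?_)
    rw [← lintegral_const_mul']
    · refine lintegral_congr fun z => ?_
      rw [ENNReal.ofReal_mul (Real.exp_pos _).le, mul_assoc]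
    · exact ENNReal.ofReal_ne_top
  have step2 : SG S N (fun y => ∫⁻ z : ℂ, ENNReal.ofReal
        (Real.exp (-(Real.pi * (‖y.2.1‖ ^ 2 / ρ ^ 2))) * Nd s (y.2.2 - z)) *
          ENNReal.ofReal |D z|) =
      ∫⁻ z : ℂ, SG S N (fun y => ENNReal.ofReal
        (Real.exp (-(Real.pi * (‖y.2.1‖ ^ 2 / ρ ^ 2))) * Nd s (y.2.2 - z)) *
          ENNReal.ofReal |D z|) := by
    unfold SG
    rw [lintegral_tsum]
    intro y
    have m1 : Measurable fun z : ℂ => ENNReal.ofReal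
        (Real.exp (-(Real.pi * (‖y.1.2.1‖ ^ 2 / ρ ^ 2))) * Nd s (y.1.2.2 - z)) := by
      refine Measurable.ennreal_ofReal (Continuous.measurable ?_)
      have := Transfer_nd_cont s
      fun_prop
    have m2 : Measurable fun z : ℂ => ENNReal.ofReal |D z| := by
      refine Measurable.ennreal_ofReal (Continuous.measurable ?_)
      fun_prop
    exact (m1.mul m2).aemeasurable
  calc _ ≤ SG S N (fun y => ∫⁻ z : ℂ, ENNReal.ofReal
        (Real.exp (-(Real.pi * (‖y.2.1‖ ^ 2 / ρ ^ 2))) * Nd s (y.2.2 - z)) *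
          ENNReal.ofReal |D z|) := ENNReal.tsum_le_tsum fun y => step1 y.1
    _ = _ := step2
    _ ≤ ∫⁻ z : ℂ, ENNReal.ofReal (2 * C * ρ ^ 2) * ENNReal.ofReal |D z| := by
      refine lintegral_mono fun z => ?_
      have e3 : SG S N (fun y => ENNReal.ofReal
        (Real.exp (-(Real.pi * (‖y.2.1‖ ^ 2 / ρ ^ 2))) * Nd s (y.2.2 - z)) *
          ENNReal.ofReal |D z|) = SG S N (fun y => ENNReal.ofReal
        (Real.exp (-(Real.pi * (‖y.2.1‖ ^ 2 / ρ ^ 2))) * Nd s (y.2.2 - z))) *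
          ENNReal.ofReal |D z| := ENNReal.tsum_mul_right
      show SG S N (fun y => ENNReal.ofReal
        (Real.exp (-(Real.pi * (‖y.2.1‖ ^ 2 / ρ ^ 2))) * Nd s (y.2.2 - z)) *
          ENNReal.ofReal |D z|) ≤ _
      rw [e3]
      exact mul_le_mul_left (Transfer_fix S N hC h hρ hs hρs z) _
    _ = _ := by
      rw [lintegral_const_mul' _ _ ENNReal.ofReal_ne_top]

end Pool.Agent.H49.AB
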