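import Pool.Agent.H49.AB.CmpL1
import Pool.Agent.H49.AB.Transfer
import Pool.Agent.H49.AB.CmpShift

/-!
# JOB AB-33. Comparison of `AA` and `BB` on the lattice

`cmp_mid`: notation `lam, lam'` norms of `W_{ab}, W_{a'b'}` at the third place, `R1 = R ‖W_{ab}‖_2 ‖W_{a'b'}‖_2`, `s1 = Q lam lam'/√2`, `s2 = √(lam² - s1²)`. As
`Q lam' ≤ 1` (`Q ≤ (7/6)^o`, `lam' ≤ (6/7)^o`): `lam lam'/2 ≤ s1 ≤ lam/√2 ≤ s2 ≤ lam`. By `Nd_conv` the difference `AA0 - BB0` at `y` is `g2 y` times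
`2 s1² ∫ Nd s1 (y3 - z) DD z dz`: `exp(-π‖t‖²/(2 s1²)) = 2 s1² Nd (√2 s1) t`, `exp(-π ‖t‖²/lam²) = lam² Nd lam t`, `s1² + s2² = lam²`,
`κ lam² = card' * 2 s1²` with `κ = card' (Q lam')²` (`Nd s (y3 - z) = Nd s (z - y3)`; integral of a finite sum: `Nd_mul_integrable`). `transfer` with `ρ = R1`,
`s = s1`, `D = DD` (`DD_cont`; `ρ s ≥ 1`: `2 R1² s1² = R² Q²/(w1 w1')`, `w1 w1' ≤ 5.2285^(17 o) ≤ exp(40 o)`) and `cmp_l1`:
`≤ 2 s1² C R1² C'/o^A w1 w1' = C''/o^A R² Q²` (`W_prod`).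
`cmp_lat`: triangle inequality with `shiftA`, `cmp_mid`, `shiftB`.
-/

set_option autoImplicit false

namespace Pool.Agent.H49.AB

open Pool.Agent.H67.Tent Finset MeasureTheory

theorem cmplat_conv (S : Sys2) (N a b a' b' : ℕ) {s1 s2 : ℝ} (h1 : 0 < s1) (h2 : 0 < s2) (y : ℂ) :
    ∫ z : ℂ, Nd s1 (y - z) * DD S N a b a' b' s1 s2 z =
      ∑ w ∈ cls a b, ∑ v ∈ cls a' b', Nd (Real.sqrt (s1 ^ 2 + s1 ^ 2))
          (y - (off S.toSys N (v ++ w)).2.2) -
        (cls a' b').card * ∑ w ∈ cls a b, Nd (Real.sqrt (s1 ^ 2 + s2 ^ 2))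
          (y - (off S.toSys N w).2.2) := by
  have hsym : ∀ z : ℂ, Nd s1 (y - z) = Nd s1 (z - y) := by
    intro z
    unfold Nd
    rw [norm_sub_rev]
  have e : (fun z : ℂ => Nd s1 (y - z) * DD S N a b a' b' s1 s2 z) = fun z =>
      (∑ w ∈ cls a b, ∑ v ∈ cls a' b', Nd s1 (z - y) *
        Nd s1 (z - (off S.toSys N (v ++ w)).2.2)) -
      (cls a' b').card * ∑ w ∈ cls a b, Nd s1 (z - y) * Nd s2 (z - (off S.toSys N w).2.2) := by
    funext z
    rw [hsym z]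
    unfold DD
    rw [mul_sub, Finset.mul_sum]
    congr 1
    · exact Finset.sum_congr rfl fun w _ => Finset.mul_sum _ _ _
    · rw [← mul_assoc, mul_comm (Nd s1 (z - y)) _, mul_assoc, Finset.mul_sum]
  rw [e, integral_sub, integral_finset_sum, integral_const_mul, integral_finset_sum]
  · congr 1
    · refine Finset.sum_congr rfl fun w _ => ?_
      rw [integral_finset_sum]
      · exact Finset.sum_congr rfl fun v _ => Nd_conv h1 h1 _ _
      · intro v _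
        exact Nd_mul_integrable h1 h1 _ _
    · congr 1
      exact Finset.sum_congr rfl fun v _ => Nd_conv h1 h2 _ _
  · intro w _
    exact Nd_mul_integrable h1 h2 _ _
  · intro w _
    exact integrable_finset_sum _ fun v _ => Nd_mul_integrable h1 h1 _ _
  · exact integrable_finset_sum _ fun w _ => integrable_finset_sum _ fun v _ =>
      Nd_mul_integrable h1 h1 _ _
  · exact (integrable_finset_sum _ fun w _ => Nd_mul_integrable h1 h2 _ _).const_mul _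

theorem cmplat_W3_le (S : Sys2) (i j : ℕ) : ‖(W S i j).2.2‖ ≤ (6 / 7) ^ (i + j) := by
  rw [W3, pow_add]
  have ha : ‖S.a.2.2‖ ≤ 6 / 7 := by
    have := S.a3u
    have h0 := norm_nonneg S.a.2.2
    by_contra hc
    push Not at hc
    nlinarith
  have hb : ‖S.b.2.2‖ ≤ 6 / 7 := by
    have := b3u S
    have h0 := norm_nonneg S.b.2.2
    by_contra hc
    push Not at hc
    nlinarith
  exact mul_le_mul (pow_le_pow_left₀ (norm_nonneg _) ha _) (pow_le_pow_left₀ (norm_nonneg _) hb _)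
    (by positivity) (by positivity)

theorem cmplat_W1_le (S : Sys2) (i j : ℕ) : |(W S i j).1| ≤ 5.2285 ^ (i + j) := by
  rw [W1, pow_add]
  have ha : S.a.1 ≤ 5.2285 := S.a1u.trans (by norm_num)
  exact mul_le_mul (pow_le_pow_left₀ (ap S).le ha _) (pow_le_pow_left₀ (bp S).le (b1u S) _)
    (pow_pos (bp S) _).le (by positivity)

theorem cmp_mid (S : Sys2) (N : ℕ) (hN : 1 ≤ N) (A : ℕ) : ∃ (C : ℝ) (o0 : ℕ), 1 ≤ C ∧
    ∀ (a b a' b' o : ℕ) (R Q : ℝ), a + b = 16 * o → a' + b' = o → o0 ≤ o →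
      Real.exp (6.24 * o) ≤ |(W S a b).1| → Real.exp (40 * o) ≤ R → 1 ≤ Q → Q ≤ (7 / 6) ^ o →
      SG S N (fun y => ENNReal.ofReal |AA0 S N a b a' b' R Q y - BB0 S N a b a' b' R Q y|) ≤
      ENNReal.ofReal (C / (o : ℝ) ^ A * (R ^ 2 * Q ^ 2)) := by
  obtain ⟨CT, hCT, HT⟩ := transfer S N hN
  obtain ⟨C1, o1, hC1, H1⟩ := cmp_l1 S N hN A
  refine ⟨CT * C1, max o1 1, by nlinarith, fun a b a' b' o R Q hab hab' ho hw hR hQ hQ' => ?_⟩
  have ho1 : 1 ≤ o := by omega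
  have ho1' : o1 ≤ o := by omega
  have hRpos : 0 < R := (Real.exp_pos _).trans_le hR
  have hQpos : 0 < Q := by linarith
  set w := |(W S a b).1| with hw_def
  set w' := |(W S a' b').1| with hw'_def
  set m := ‖(W S a b).2.1‖ with hm_def
  set m' := ‖(W S a' b').2.1‖ with hm'_def
  set l := ‖(W S a b).2.2‖ with hl_def
  set l' := ‖(W S a' b').2.2‖ with hl'_def
  have pw : 0 < w := W1_pos S a b
  have pw' : 0 < w' := W1_pos S a' b'
  have pm : 0 < m := W2_pos S a b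
  have pm' : 0 < m' := W2_pos S a' b'
  have pl : 0 < l := W3_pos S a b
  have pl' : 0 < l' := W3_pos S a' b'
  have hprod : w * m ^ 2 * l ^ 2 = 1 := W_prod S a b
  have hprod' : w' * m' ^ 2 * l' ^ 2 = 1 := W_prod S a' b'
  have hQl : Q * l' ≤ 1 := by
    have h1 : l' ≤ (6 / 7) ^ o := by
      have := cmplat_W3_le S a' b'
      rwa [hab'] at this
    calc Q * l' ≤ (7 / 6) ^ o * (6 / 7) ^ o := mul_le_mul hQ' h1 pl'.le (by positivity)
      _ = 1 := by rw [← mul_pow]; norm_num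
  have hQl2 : (Q * l') ^ 2 ≤ 1 := pow_le_one₀ (by positivity) hQl
  set s1 := Real.sqrt ((Q * l') ^ 2 * l ^ 2 / 2) with hs1
  set s2 := Real.sqrt (l ^ 2 - (Q * l') ^ 2 * l ^ 2 / 2) with hs2
  have e1 : s1 ^ 2 = (Q * l') ^ 2 * l ^ 2 / 2 := Real.sq_sqrt (by positivity)
  have pl2 : 0 < l ^ 2 := by positivity
  have hle : (Q * l') ^ 2 * l ^ 2 ≤ l ^ 2 := by nlinarith
  have e2 : s2 ^ 2 = l ^ 2 - (Q * l') ^ 2 * l ^ 2 / 2 := Real.sq_sqrt (by linarith)
  have ps1 : 0 < s1 := Real.sqrt_pos.2 (by positivity)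
  have ps2 : 0 < s2 := Real.sqrt_pos.2 (by linarith)
  have hs1l : s1 ≤ l := by
    refine (sq_le_sq₀ ps1.le pl.le).1 ?_
    rw [e1]; linarith
  have hs2l : s2 ≤ l := by
    refine (sq_le_sq₀ ps2.le pl.le).1 ?_
    rw [e2]
    have : 0 ≤ (Q * l') ^ 2 * l ^ 2 := by positivity
    linarith
  have hls1 : l * l' / 2 ≤ s1 := by
    refine (sq_le_sq₀ (by positivity) ps1.le).1 ?_
    rw [e1]
    have : l ^ 2 * l' ^ 2 ≤ Q ^ 2 * (l ^ 2 * l' ^ 2) := by
      have h3 : 1 ≤ Q ^ 2 := one_le_pow₀ hQ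
      have h4 : 0 ≤ l ^ 2 * l' ^ 2 := by positivity
      nlinarith
    nlinarith [this, mul_pos pl pl']
  have hls2 : l / 2 ≤ s2 := by
    refine (sq_le_sq₀ (by positivity) ps2.le).1 ?_
    rw [e2]; nlinarith
  have hρs : 1 ≤ R * (m * m') * s1 := by
    have h5 : (R * (m * m') * s1) ^ 2 * (2 * (w * w')) = R ^ 2 * Q ^ 2 := by
      calc (R * (m * m') * s1) ^ 2 * (2 * (w * w')) =
          R ^ 2 * m ^ 2 * m' ^ 2 * s1 ^ 2 * (2 * (w * w')) := by ring
        _ = R ^ 2 * Q ^ 2 * (w * m ^ 2 * l ^ 2) * (w' * m' ^ 2 * l' ^ 2) := by rw [e1]; ring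
        _ = _ := by rw [hprod, hprod']; ring
    have h6 : 2 * (w * w') ≤ R ^ 2 * Q ^ 2 := by
      have h7 : w ≤ 5.2285 ^ (16 * o) := by
        have := cmplat_W1_le S a b
        rwa [hab] at this
      have h8 : w' ≤ 5.2285 ^ o := by
        have := cmplat_W1_le S a' b'
        rwa [hab'] at this
      have h9 : w * w' ≤ 5.2285 ^ (16 * o) * 5.2285 ^ o :=
        mul_le_mul h7 h8 pw'.le (by positivity)
      have h10 : (2 : ℝ) ≤ 2 ^ o := by
        calc (2 : ℝ) = 2 ^ 1 := by norm_num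
          _ ≤ 2 ^ o := pow_le_pow_right₀ (by norm_num) ho1
      have h11 : 2 * (w * w') ≤ (2 * (5.2285 ^ 16 * 5.2285)) ^ o := by
        rw [mul_pow, mul_pow, ← pow_mul]
        exact mul_le_mul h10 h9 (by positivity) (by positivity)
      have h12 : (2 * (5.2285 ^ 16 * 5.2285) : ℝ) ≤ Real.exp 1 ^ 80 := by
        have h13 : (2.7 : ℝ) ≤ Real.exp 1 := by
          have := Real.exp_one_gt_d9; linarith
        calc (2 * (5.2285 ^ 16 * 5.2285) : ℝ) ≤ 2.7 ^ 80 := by norm_num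
          _ ≤ _ := pow_le_pow_left₀ (by norm_num) h13 _
      have h14 : (Real.exp 1 ^ 80) ^ o = Real.exp (40 * o) ^ 2 := by
        rw [← Real.exp_nat_mul, ← Real.exp_nat_mul, ← Real.exp_nat_mul]
        congr 1; push_cast; ring
      calc 2 * (w * w') ≤ _ := h11
        _ ≤ (Real.exp 1 ^ 80) ^ o := pow_le_pow_left₀ (by positivity) h12 _
        _ = Real.exp (40 * o) ^ 2 := h14
        _ ≤ R ^ 2 := pow_le_pow_left₀ (Real.exp_pos _).le hR 2
        _ ≤ R ^ 2 * Q ^ 2 := le_mul_of_one_le_right (by positivity) (one_le_pow₀ hQ)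
    have h15 : 1 ≤ (R * (m * m') * s1) ^ 2 := by
      have h16 : 0 < 2 * (w * w') := by positivity
      by_contra hc
      push Not at hc
      nlinarith
    have h17 : 0 ≤ R * (m * m') * s1 := by positivity
    by_contra hc
    push Not at hc
    nlinarith
  have T := HT (R * (m * m')) s1 (DD S N a b a' b' s1 s2) (by positivity) ps1 hρs
    (DD_cont S N a b a' b' ps1 ps2)
  have L := H1 a b a' b' o s1 s2 hab hab' ho1' hw hs1l hs2l hls1 hls2
  -- the pointwise identity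
  have hpt : ∀ y : E, |AA0 S N a b a' b' R Q y - BB0 S N a b a' b' R Q y| =
      2 * s1 ^ 2 * (Real.exp (-(Real.pi * (‖y.2.1‖ ^ 2 / (R * (m * m')) ^ 2))) *
        |∫ z : ℂ, Nd s1 (y.2.2 - z) * DD S N a b a' b' s1 s2 z|) := by
    intro y
    rw [cmplat_conv S N a b a' b' ps1 ps2]
    have f1 : Real.sqrt (s1 ^ 2 + s1 ^ 2) = Q * (l * l') := by
      rw [e1, show (Q * l') ^ 2 * l ^ 2 / 2 + (Q * l') ^ 2 * l ^ 2 / 2 = (Q * (l * l')) ^ 2 by ring]
      exact Real.sqrt_sq (by positivity)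
    have f2 : Real.sqrt (s1 ^ 2 + s2 ^ 2) = l := by
      rw [e1, e2, show (Q * l') ^ 2 * l ^ 2 / 2 + (l ^ 2 - (Q * l') ^ 2 * l ^ 2 / 2) = l ^ 2 by ring]
      exact Real.sqrt_sq pl.le
    rw [f1, f2]
    have f3 : AA0 S N a b a' b' R Q y - BB0 S N a b a' b' R Q y =
        2 * s1 ^ 2 * (Real.exp (-(Real.pi * (‖y.2.1‖ ^ 2 / (R * (m * m')) ^ 2))) *
        (∑ w ∈ cls a b, ∑ v ∈ cls a' b', Nd (Q * (l * l')) (y.2.2 - (off S.toSys N (v ++ w)).2.2) -
          (cls a' b').card * ∑ w ∈ cls a b, Nd l (y.2.2 - (off S.toSys N w).2.2))) := by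
      unfold AA0 BB0 g2 Nd
      rw [e1]
      simp only [← hm_def, ← hm'_def, ← hl_def, ← hl'_def]
      simp only [← Finset.sum_div]
      field_simp
    rw [f3, abs_mul (2 * s1 ^ 2), abs_mul (Real.exp _), abs_of_pos (by positivity : 0 < 2 * s1 ^ 2),
      abs_of_pos (Real.exp_pos _)]
  have hfun : (fun y => ENNReal.ofReal |AA0 S N a b a' b' R Q y - BB0 S N a b a' b' R Q y|) =
      fun y => ENNReal.ofReal (2 * s1 ^ 2) *
        ENNReal.ofReal (Real.exp (-(Real.pi * (‖y.2.1‖ ^ 2 / (R * (m * m')) ^ 2))) *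
        |∫ z : ℂ, Nd s1 (y.2.2 - z) * DD S N a b a' b' s1 s2 z|) := by
    funext y
    rw [hpt y, ENNReal.ofReal_mul (by positivity)]
  rw [hfun, SG_const_mul]
  calc ENNReal.ofReal (2 * s1 ^ 2) * SG S N _ ≤
      ENNReal.ofReal (2 * s1 ^ 2) * (ENNReal.ofReal (CT * (R * (m * m')) ^ 2) *
        ENNReal.ofReal (C1 / (o : ℝ) ^ A * (w * w'))) :=
        mul_le_mul_right (T.trans (mul_le_mul_right L _)) _
    _ = ENNReal.ofReal (2 * s1 ^ 2 * (CT * (R * (m * m')) ^ 2 * (C1 / (o : ℝ) ^ A * (w * w')))) := by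
        rw [← ENNReal.ofReal_mul (by positivity), ← ENNReal.ofReal_mul (by positivity)]
    _ = _ := by
        congr 1
        calc 2 * s1 ^ 2 * (CT * (R * (m * m')) ^ 2 * (C1 / (o : ℝ) ^ A * (w * w'))) =
            CT * C1 / (o : ℝ) ^ A * (R ^ 2 * (m ^ 2 * m' ^ 2) * (2 * s1 ^ 2) * (w * w')) := by ring
          _ = CT * C1 / (o : ℝ) ^ A * (R ^ 2 * Q ^ 2 * (w * m ^ 2 * l ^ 2) *
              (w' * m' ^ 2 * l' ^ 2)) := by rw [e1]; ring
          _ = _ := by rw [hprod, hprod']; ring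

theorem cmp_lat (S : Sys2) (N : ℕ) (hN : 1 ≤ N) (A : ℕ) : ∃ (C : ℝ) (o0 : ℕ), 1 ≤ C ∧
    ∀ (a b a' b' o : ℕ) (R Q : ℝ), a + b = 16 * o → a' + b' = o → o0 ≤ o →
      Real.exp (6.24 * o) ≤ |(W S a b).1| → Real.exp (40 * o) ≤ R → 1 ≤ Q → Q ≤ (7 / 6) ^ o →
      SG S N (fun y => ENNReal.ofReal |AA S N a b a' b' R Q y - BB S N a b a' b' R Q y|) ≤
      ENNReal.ofReal (C / (o : ℝ) ^ A * (R ^ 2 * Q ^ 2)) := by
  obtain ⟨C1, o1, h1, H1⟩ := shiftA S N hN A
  obtain ⟨C2, o2, h2, H2⟩ := cmp_mid S N hN A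
  obtain ⟨C3, o3, h3, H3⟩ := shiftB S N hN A
  refine ⟨C1 + C2 + C3, max o1 (max o2 o3), by linarith,
    fun a b a' b' o R Q hab hab' ho hw hR hQ hQ' => ?_⟩
  have e1 := H1 a b a' b' o R Q hab hab' (by omega) hR hQ
  have e2 := H2 a b a' b' o R Q hab hab' (by omega) hw hR hQ hQ'
  have e3 := H3 a b a' b' o R Q hab hab' (by omega) hR hQ
  have hX : 0 ≤ R ^ 2 * Q ^ 2 := by positivity
  have key : SG S N (fun y => ENNReal.ofReal |AA S N a b a' b' R Q y - BB S N a b a' b' R Q y|) ≤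
      SG S N (fun y => ENNReal.ofReal |AA S N a b a' b' R Q y - AA0 S N a b a' b' R Q y|) +
      (SG S N (fun y => ENNReal.ofReal |AA0 S N a b a' b' R Q y - BB0 S N a b a' b' R Q y|) +
      SG S N (fun y => ENNReal.ofReal |BB S N a b a' b' R Q y - BB0 S N a b a' b' R Q y|)) := by
    rw [← SG_add, ← SG_add]
    refine SG_mono S N fun z _ => ?_
    rw [← ENNReal.ofReal_add (abs_nonneg _) (abs_nonneg _),
      ← ENNReal.ofReal_add (abs_nonneg _) (by positivity)]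
    refine ENNReal.ofReal_le_ofReal ?_
    rw [abs_sub_comm (BB S N a b a' b' R Q z)]
    have t1 := abs_sub_le (AA S N a b a' b' R Q z) (AA0 S N a b a' b' R Q z)
      (BB S N a b a' b' R Q z)
    have t2 := abs_sub_le (AA0 S N a b a' b' R Q z) (BB0 S N a b a' b' R Q z)
      (BB S N a b a' b' R Q z)
    linarith
  refine key.trans ((add_le_add e1 (add_le_add e2 e3)).trans ?_)
  rw [← ENNReal.ofReal_add (by positivity) (by positivity),
    ← ENNReal.ofReal_add (by positivity) (by positivity)]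
  refine ENNReal.ofReal_le_ofReal (le_of_eq ?_)
  ring

end Pool.Agent.H49.AB
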