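import Pool.Agent.H49.AB.Box2

/-!
# JOB AB-41. Counting points

`u t z = if ∃ j ≤ t, ‖(T^[j] z).2.1‖ ≤ N M ∧ ‖(T^[j] z).2.2‖ ≤ N M then 0 else 1` is a `Fam` for `N M ≥ 2` (`j = 0` for `zero`, `zeroN`, `small`; `step`: `T^[j] (T z) = T^[j+1] z`).
`t = ⌈80 log (N H)⌉₊ ≤ 102 log (N H)` (`N H ≥ 2`, `22 log 2 ≥ 1`). For `z ∈ X`: `u t z = 1`, `gs (N H) (N H) z ≥ exp(-2π)`. So `card X * exp(-2π) ≤ Sm S N (N H) (N H) (u t)`
(`ENNReal.sum_le_tsum` after passing to the subtype; `X` is a finite set of points of `G`), `box` with `N H`, `N M`; `(N H)^4 ≤ N^4 H^4`, `log (N M) ≥ log M`.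
-/

set_option autoImplicit false

namespace Pool.Agent.H49.AB

open Pool.Agent.H67.Tent Finset MeasureTheory

open Classical in
/-- Indicator of the points which do not reach height `K` in time `t`. -/
noncomputable def cntU (S : Sys2) (N : ℕ) (K : ℝ) (t : ℕ) (z : E) : ENNReal :=
  if ∃ j ≤ t, ‖((T S.toSys N)^[j] z).2.1‖ ≤ K ∧ ‖((T S.toSys N)^[j] z).2.2‖ ≤ K then 0 else 1

theorem cntU_fam (S : Sys2) (N : ℕ) (M : ℝ) (hM : 2 ≤ M) :
    Fam S N (N * M) (cntU S N (N * M)) := by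
  have hN0 : (0 : ℝ) ≤ N := Nat.cast_nonneg N
  have hNM : (N : ℝ) ≤ N * M := by nlinarith
  have hNM0 : (0 : ℝ) ≤ N * M := by positivity
  refine ⟨?_, ?_, ?_, ?_, ?_, ?_⟩
  · intro t z
    unfold cntU
    split_ifs <;> simp
  · intro t
    unfold cntU
    rw [if_pos]
    exact ⟨0, Nat.zero_le _, by simpa using hNM0, by simpa using hNM0⟩
  · intro t
    unfold cntU
    rw [if_pos]
    refine ⟨0, Nat.zero_le _, ?_, ?_⟩
    · simp only [Function.iterate_zero, id_eq, Prod.snd_natCast, Prod.fst_natCast,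
        Complex.norm_natCast]
      exact hNM
    · simp only [Function.iterate_zero, id_eq, Prod.snd_natCast, Complex.norm_natCast]
      exact hNM
  · intro t z _
    unfold cntU
    by_cases h : ∃ j ≤ t, ‖((T S.toSys N)^[j] (T S.toSys N z)).2.1‖ ≤ N * M ∧
        ‖((T S.toSys N)^[j] (T S.toSys N z)).2.2‖ ≤ N * M
    · obtain ⟨j, hj, h1, h2⟩ := h
      rw [if_pos]
      · exact bot_le
      · refine ⟨j + 1, by omega, ?_, ?_⟩
        · rw [Function.iterate_succ_apply]; exact h1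
        · rw [Function.iterate_succ_apply]; exact h2
    · rw [if_neg h]
      split_ifs <;> simp
  · intro t z
    unfold cntU
    by_cases h : ∃ j ≤ t, ‖((T S.toSys N)^[j] z).2.1‖ ≤ N * M ∧
        ‖((T S.toSys N)^[j] z).2.2‖ ≤ N * M
    · obtain ⟨j, hj, h1, h2⟩ := h
      rw [if_pos]
      · exact bot_le
      · exact ⟨j, by omega, h1, h2⟩
    · rw [if_neg h]
      split_ifs <;> simp
  · intro t z _ h1 h2
    unfold cntU
    rw [if_pos]
    exact ⟨0, Nat.zero_le _, h1, h2⟩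

theorem count_bound (S : Sys2) (N : ℕ) (hN : 1 ≤ N) (A : ℕ) : ∃ C : ℝ, 1 ≤ C ∧
    ∀ (H M : ℝ), 2 ≤ H → 2 ≤ M → ∀ X : Finset E,
      (∀ z ∈ X, G S.toSys N z ∧ ‖z.2.1‖ ≤ N * H ∧ ‖z.2.2‖ ≤ N * H ∧
        ∀ n : ℕ, (n : ℝ) ≤ 102 * Real.log (N * H) →
          ¬ (‖((T S.toSys N)^[n] z).2.1‖ ≤ N * M ∧ ‖((T S.toSys N)^[n] z).2.2‖ ≤ N * M)) →
      (X.card : ℝ) ≤ C * H ^ 4 / (Real.log M) ^ A := by
  classical
  obtain ⟨C, hC, hbox⟩ := box S N hN A
  have hN1 : (1 : ℝ) ≤ N := by exact_mod_cast hN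
  have hpi := Real.pi_pos
  have hexp : (1 : ℝ) ≤ Real.exp (2 * Real.pi) := Real.one_le_exp (by positivity)
  refine ⟨C * N ^ 4 * Real.exp (2 * Real.pi), ?_, ?_⟩
  · have h1 : (1 : ℝ) ≤ (N : ℝ) ^ 4 := one_le_pow₀ hN1
    calc (1 : ℝ) = 1 * 1 * 1 := by ring
      _ ≤ C * N ^ 4 * Real.exp (2 * Real.pi) := by gcongr
  intro H M hH hM X hX
  have hNH : (2 : ℝ) ≤ N * H := by nlinarith
  have hNM : (2 : ℝ) ≤ N * M := by nlinarith
  set t : ℕ := ⌈80 * Real.log (N * H)⌉₊ with ht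
  have hlogNH : Real.log 2 ≤ Real.log (N * H) := Real.log_le_log (by norm_num) hNH
  have hlog2 := Real.log_two_gt_d9
  have ht1 : 80 * Real.log (N * H) ≤ t := Nat.le_ceil _
  have ht2 : (t : ℝ) ≤ 102 * Real.log (N * H) := by
    have h := Nat.ceil_lt_add_one (show 0 ≤ 80 * Real.log (N * H) by linarith)
    rw [← ht] at h
    linarith
  have key := hbox (N * M) (cntU S N (N * M)) hNM (cntU_fam S N M hM) (N * H) t (by linarith) ht1
  have hlow : (X.card : ENNReal) * ENNReal.ofReal (Real.exp (-(2 * Real.pi))) ≤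
      Sm S N (N * H) (N * H) (cntU S N (N * M) t) := by
    unfold Sm SG
    refine le_trans ?_ (ENNReal.sum_le_tsum (X.subtype (G S.toSys N)))
    have hcard : (X.subtype (G S.toSys N)).card = X.card := by
      rw [Finset.card_subtype, Finset.filter_true_of_mem]
      exact fun z hz => (hX z hz).1
    rw [← hcard, ← nsmul_eq_mul]
    refine Finset.card_nsmul_le_sum _ _ _ ?_
    rintro ⟨z, hz⟩ hzX
    rw [Finset.mem_subtype] at hzX
    obtain ⟨-, h1, h2, h3⟩ := hX z hzX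
    have hu : cntU S N (N * M) t z = 1 := by
      unfold cntU
      rw [if_neg]
      rintro ⟨j, hj, h4⟩
      refine h3 j ?_ h4
      have : (j : ℝ) ≤ t := by exact_mod_cast hj
      linarith
    show ENNReal.ofReal (Real.exp (-(2 * Real.pi))) ≤ cntU S N (N * M) t z *
      ENNReal.ofReal (gs (N * H) (N * H) z)
    rw [hu, one_mul]
    refine ENNReal.ofReal_le_ofReal ?_
    unfold gs
    rw [Real.exp_le_exp]
    have h4 : ‖z.2.1‖ ^ 2 / (N * H) ^ 2 ≤ 1 := by
      rw [div_le_one (by positivity)]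
      exact pow_le_pow_left₀ (norm_nonneg _) h1 2
    have h5 : ‖z.2.2‖ ^ 2 / (N * H) ^ 2 ≤ 1 := by
      rw [div_le_one (by positivity)]
      exact pow_le_pow_left₀ (norm_nonneg _) h2 2
    nlinarith
  have h1 := hlow.trans key
  have hlogM : 0 < Real.log M := Real.log_pos (by linarith)
  have hlogNM : Real.log M ≤ Real.log (N * M) := Real.log_le_log (by linarith) (by nlinarith)
  have hC0 : 0 ≤ C := by linarith
  have hlogNM0 : 0 < Real.log (N * M) := by linarith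
  have hrhs : 0 ≤ C / Real.log (N * M) ^ A * (N * H) ^ 4 :=
    mul_nonneg (div_nonneg hC0 (pow_nonneg hlogNM0.le _)) (by positivity)
  rw [← ENNReal.ofReal_natCast, ← ENNReal.ofReal_mul (Nat.cast_nonneg _),
    ENNReal.ofReal_le_ofReal_iff hrhs] at h1
  have h2 : C / Real.log (N * M) ^ A * (N * H) ^ 4 ≤ C / Real.log M ^ A * (N * H) ^ 4 := by
    gcongr
  have h3 : Real.exp (-(2 * Real.pi)) * Real.exp (2 * Real.pi) = 1 := by
    rw [← Real.exp_add]; simp
  calc (X.card : ℝ) = X.card * Real.exp (-(2 * Real.pi)) * Real.exp (2 * Real.pi) := by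
        rw [mul_assoc, h3, mul_one]
    _ ≤ (C / Real.log M ^ A * (N * H) ^ 4) * Real.exp (2 * Real.pi) :=
        mul_le_mul_of_nonneg_right (h1.trans h2) (Real.exp_pos _).le
    _ = C * N ^ 4 * Real.exp (2 * Real.pi) * H ^ 4 / Real.log M ^ A := by ring

end Pool.Agent.H49.AB
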