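import Pool.Agent.H49.AB.Shell

/-!
# JOB AB-23. The integral of `V²` over high frequencies (one class)

Sum of `shell` (with `A + 1`) over `X = 2^k exp(r/20)`, `k < r`: a point of the region satisfies `‖ξ‖ ≤ exp(r^(3/4)) ‖W_{ab}‖_3⁻¹ ≤ exp(r^(3/4)) 0.6966^(-r/2)
≤ 2^r exp(r/20)` for large `r` (`b3l`, `a3l`; `0.6966^(-1/2) ≤ 1.199`). `lintegral_iUnion_le`/`lintegral_union_le` and
`lintegral_mono_set`.
-/

set_option autoImplicit false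

namespace Pool.Agent.H49.AB

open Pool.Agent.H67.Tent Finset MeasureTheory

theorem DecI_dyadic {E x : ℝ} (m : ℕ) (hm : 1 ≤ m) (h1 : E ≤ x) (h2 : x ≤ 2 ^ m * E) :
    ∃ k : ℕ, k < m ∧ 2 ^ k * E ≤ x ∧ x ≤ 2 * (2 ^ k * E) := by
  induction m with
  | zero => omega
  | succ m ih =>
    by_cases h3 : x ≤ 2 ^ m * E ∧ 1 ≤ m
    · obtain ⟨k, hk, hk'⟩ := ih h3.2 h3.1
      exact ⟨k, by omega, hk'⟩
    · refine ⟨m, by omega, ?_, ?_⟩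
      · rcases Nat.eq_zero_or_pos m with hm0 | hm0
        · rw [hm0, pow_zero, one_mul]
          exact h1
        · have h4 : ¬ x ≤ 2 ^ m * E := fun h => h3 ⟨h, hm0⟩
          exact (not_le.1 h4).le
      · rw [pow_succ] at h2
        linarith

theorem DecI_W (S : Sys2) (a b : ℕ) : (0.6966 : ℝ) ^ (a + b) ≤ ‖(W S a b).2.2‖ ^ 2 := by
  have h1 : (0.6966 : ℝ) ≤ ‖S.a.2.2‖ ^ 2 := by
    have := S.a3l
    linarith
  have h2 : (0.6966 : ℝ) ≤ ‖S.b.2.2‖ ^ 2 := b3l S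
  rw [W3, mul_pow, ← pow_mul, ← pow_mul, mul_comm a 2, mul_comm b 2, pow_mul, pow_mul, pow_add]
  exact mul_le_mul (pow_le_pow_left₀ (by norm_num) h1 a) (pow_le_pow_left₀ (by norm_num) h2 b)
    (by positivity) (by positivity)

theorem DecI_rpow {r : ℕ} (hr : 160000 ≤ r) : 2 * (r : ℝ) ^ (3 / 4 : ℝ) ≤ (r : ℝ) / 10 := by
  have hr' : (160000 : ℝ) ≤ r := by exact_mod_cast hr
  have hr0 : (0 : ℝ) < r := by linarith
  have h1 : (20 : ℝ) ≤ (r : ℝ) ^ (1 / 4 : ℝ) := by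
    have h2 : (20 : ℝ) = (160000 : ℝ) ^ (1 / 4 : ℝ) := by
      rw [show (160000 : ℝ) = (20 : ℝ) ^ (4 : ℕ) by norm_num, ← Real.rpow_natCast,
        ← Real.rpow_mul (by norm_num)]
      norm_num
    rw [h2]
    exact Real.rpow_le_rpow (by norm_num) hr' (by norm_num)
  have h3 : (r : ℝ) ^ (3 / 4 : ℝ) * (r : ℝ) ^ (1 / 4 : ℝ) = r := by
    rw [← Real.rpow_add hr0]
    norm_num
  have h4 : 0 ≤ (r : ℝ) ^ (3 / 4 : ℝ) := by positivity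
  nlinarith

theorem deci (S : Sys2) (N : ℕ) (hN : 1 ≤ N) (A : ℕ) : ∃ (C : ℝ) (r0 : ℕ), 1 ≤ C ∧
    ∀ (a b r : ℕ), a + b = r → r0 ≤ r →
      ∫⁻ ξ in {ξ : ℂ | Real.exp ((r : ℝ) / 20) ≤ ‖ξ‖ ∧
        ‖ξ‖ * ‖(W S a b).2.2‖ ≤ Real.exp ((r : ℝ) ^ (3 / 4 : ℝ))},
        ENNReal.ofReal (V S N ξ a b ^ 2) ≤ ENNReal.ofReal (C / (r : ℝ) ^ A) := by
  obtain ⟨C, r0, hC, h⟩ := shell S N hN (A + 1)
  refine ⟨C, max r0 160000, hC, ?_⟩
  intro a b r hab hr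
  have hr1 : r0 ≤ r := (le_max_left _ _).trans hr
  have hr2 : 160000 ≤ r := (le_max_right _ _).trans hr
  have hr0 : (0 : ℝ) < r := by
    have : 0 < r := by omega
    exact_mod_cast this
  set E : ℝ := Real.exp ((r : ℝ) / 20) with hE
  have hE0 : 0 < E := Real.exp_pos _
  have hsub : {ξ : ℂ | E ≤ ‖ξ‖ ∧
        ‖ξ‖ * ‖(W S a b).2.2‖ ≤ Real.exp ((r : ℝ) ^ (3 / 4 : ℝ))} ⊆
      ⋃ k : Fin r, {ξ : ℂ | 2 ^ (k : ℕ) * E ≤ ‖ξ‖ ∧ ‖ξ‖ ≤ 2 * (2 ^ (k : ℕ) * E) ∧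
        ‖ξ‖ * ‖(W S a b).2.2‖ ≤ Real.exp ((r : ℝ) ^ (3 / 4 : ℝ))} := by
    rintro ξ ⟨h1, h2⟩
    have h3 : ‖ξ‖ ≤ 2 ^ r * E := by
      by_contra hc
      push Not at hc
      have h4 : ‖ξ‖ ^ 2 * (0.6966 : ℝ) ^ r ≤ Real.exp ((r : ℝ) / 10) := by
        calc ‖ξ‖ ^ 2 * (0.6966 : ℝ) ^ r ≤ ‖ξ‖ ^ 2 * ‖(W S a b).2.2‖ ^ 2 := by
              refine mul_le_mul_of_nonneg_left ?_ (by positivity)
              rw [← hab]
              exact DecI_W S a b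
          _ = (‖ξ‖ * ‖(W S a b).2.2‖) ^ 2 := by ring
          _ ≤ Real.exp ((r : ℝ) ^ (3 / 4 : ℝ)) ^ 2 :=
              pow_le_pow_left₀ (by positivity) h2 2
          _ = Real.exp (2 * (r : ℝ) ^ (3 / 4 : ℝ)) := by
              rw [← Real.exp_nat_mul]
              norm_num
          _ ≤ _ := Real.exp_le_exp.2 (DecI_rpow hr2)
      have h5 : (2 ^ r * E) ^ 2 < ‖ξ‖ ^ 2 := pow_lt_pow_left₀ hc (by positivity) (by norm_num)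
      have h6 : E ^ 2 = Real.exp ((r : ℝ) / 10) := by
        rw [hE, ← Real.exp_nat_mul]
        congr 1
        push_cast
        ring
      have h7 : (1 : ℝ) ≤ (2 ^ r) ^ 2 * (0.6966 : ℝ) ^ r := by
        rw [← pow_mul, mul_comm r 2, pow_mul, ← mul_pow]
        exact one_le_pow₀ (by norm_num)
      have h8 : (0 : ℝ) < (0.6966 : ℝ) ^ r := by positivity
      have h9 : (2 ^ r * E) ^ 2 * (0.6966 : ℝ) ^ r < Real.exp ((r : ℝ) / 10) :=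
        lt_of_lt_of_le (mul_lt_mul_of_pos_right h5 h8) h4
      have h10 : (2 ^ r * E) ^ 2 * (0.6966 : ℝ) ^ r =
          ((2 ^ r) ^ 2 * (0.6966 : ℝ) ^ r) * Real.exp ((r : ℝ) / 10) := by
        rw [mul_pow, h6]
        ring
      rw [h10] at h9
      have h11 : 1 * Real.exp ((r : ℝ) / 10) ≤
          ((2 ^ r) ^ 2 * (0.6966 : ℝ) ^ r) * Real.exp ((r : ℝ) / 10) :=
        mul_le_mul_of_nonneg_right h7 (Real.exp_pos _).le
      linarith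
    obtain ⟨k, hk, hk1, hk2⟩ := DecI_dyadic r (by omega) h1 h3
    exact Set.mem_iUnion.2 ⟨⟨k, hk⟩, hk1, hk2, h2⟩
  have hk : ∀ k : Fin r, ∫⁻ ξ in {ξ : ℂ | 2 ^ (k : ℕ) * E ≤ ‖ξ‖ ∧
      ‖ξ‖ ≤ 2 * (2 ^ (k : ℕ) * E) ∧
        ‖ξ‖ * ‖(W S a b).2.2‖ ≤ Real.exp ((r : ℝ) ^ (3 / 4 : ℝ))},
        ENNReal.ofReal (V S N ξ a b ^ 2) ≤ ENNReal.ofReal (C / (r : ℝ) ^ (A + 1)) := by
    intro k
    refine h a b r (2 ^ (k : ℕ) * E) hab hr1 ?_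
    have h1 : (1 : ℝ) ≤ 2 ^ (k : ℕ) := one_le_pow₀ (by norm_num)
    calc E = 1 * E := (one_mul _).symm
      _ ≤ 2 ^ (k : ℕ) * E := mul_le_mul_of_nonneg_right h1 hE0.le
  refine (lintegral_mono_set hsub).trans ((lintegral_iUnion_le _ _).trans ?_)
  rw [tsum_fintype]
  refine (Finset.sum_le_sum fun k _ => hk k).trans ?_
  rw [Finset.sum_const, Finset.card_univ, Fintype.card_fin, nsmul_eq_mul,
    ← ENNReal.ofReal_natCast, ← ENNReal.ofReal_mul (Nat.cast_nonneg _)]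
  refine ENNReal.ofReal_le_ofReal (le_of_eq ?_)
  rw [pow_succ]
  field_simp

end Pool.Agent.H49.AB
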