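import Pool.Agent.H49.AB.Long

/-!
# JOB AB-16. Fourier decay: the main induction

For `A = 0` trivial (`V ≤ 1`). Choose `e1 > 0`, `n1` with `gam * ((n+1)/(n - ⌊e1 n⌋ - 8))^A ≤ 1` for `n ≥ n1` (possible: `gam < 1` and
`(1/(1-2 e1))^A → 1`), `n0` from `long_cross`, `m = max`, `C = (m+1)^A`. Strong induction on `n = a + b` (for all `ξ`; `Φ` fixed):
* `n < m Φ`: `V ≤ 1 ≤ C (Φ/(n+1))^A` as `n + 1 ≤ m Φ + 1 ≤ (m + 1) Φ`.
* every `e` near `ξ` has `1/100 < |e.1| α^h`, `h = ⌊e1 n⌋₊`: `stage` with `B = C (Φ/(n - h - 8 + 1))^A` (bound for the `vv` by `vv_bound`: at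
  `(i,j)`, `1 ≤ i + j ≤ h + 8`, the remaining number of letters is `n - i - j < n`; the quantity `‖ξ‖ ‖W_{ab}‖_3` does not change).
* otherwise `long_cross`.
-/

set_option autoImplicit false

namespace Pool.Agent.H49.AB

open Pool.Agent.H67.Tent Finset

theorem decay_gam_pos : 0 ≤ gam := by unfold gam; norm_num

theorem decay (S : Sys2) (A : ℕ) : ∃ C : ℝ, 1 ≤ C ∧ ∀ (Φ : ℝ) (ξ : ℂ) (a b : ℕ), 1 ≤ Φ →
    1 ≤ ‖ξ‖ * ‖(W S a b).2.2‖ → ‖ξ‖ * ‖(W S a b).2.2‖ ≤ Real.exp Φ →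
    V S 1 ξ a b ≤ C * (Φ / (a + b + 1)) ^ A := by
  set x : ℝ := 1 / (2000000 * ((A : ℝ) + 1)) with hx
  have hA : (0 : ℝ) ≤ A := Nat.cast_nonneg A
  have hx0 : 0 < x := by rw [hx]; positivity
  have hx1 : x ≤ 1 / 2 := by
    rw [hx]
    apply one_div_le_one_div_of_le (by norm_num)
    nlinarith
  have hgam : gam ≤ (1 - x) ^ A := by
    have h1 : 1 + (A : ℝ) * (-x) ≤ (1 + (-x)) ^ A := one_add_mul_le_pow (by linarith) A
    have h2 : (A : ℝ) * x ≤ 1 / 2000000 := by
      rw [hx, mul_one_div, div_le_div_iff₀ (by positivity) (by norm_num)]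
      nlinarith
    unfold gam
    rw [← sub_eq_add_neg] at h1
    linarith
  obtain ⟨n0, hlong⟩ := long_cross S A (x / 2) (by positivity)
  set m : ℕ := max n0 ⌈16 / x⌉₊ with hm
  have hm0 : (n0 : ℝ) ≤ m := by exact_mod_cast le_max_left _ _
  have hm1 : 16 / x ≤ (m : ℝ) := by
    refine (Nat.le_ceil _).trans ?_
    exact_mod_cast le_max_right _ _
  refine ⟨((m : ℝ) + 1) ^ A, one_le_pow₀ (by linarith [Nat.cast_nonneg (α := ℝ) m]), ?_⟩
  have hC1 : (1 : ℝ) ≤ ((m : ℝ) + 1) ^ A := one_le_pow₀ (by linarith [Nat.cast_nonneg (α := ℝ) m])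
  set C : ℝ := ((m : ℝ) + 1) ^ A with hC
  intro Φ ξ a b hΦ
  obtain ⟨n, hn⟩ : ∃ n, a + b = n := ⟨_, rfl⟩
  induction n using Nat.strong_induction_on generalizing ξ a b with
  | _ n ih =>
  intro h1 h2
  have hncast : (a : ℝ) + b = n := by exact_mod_cast hn
  have hn1 : (0 : ℝ) < (n : ℝ) + 1 := by positivity
  rcases lt_or_ge (n : ℝ) (m * Φ) with hlt | hge
  · refine (V_le_one S 1 ξ a b).trans ?_
    rw [hC, ← mul_pow, hncast]
    refine one_le_pow₀ ?_
    rw [← mul_div_assoc, le_div_iff₀ hn1]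
    nlinarith
  · have hnm : (m : ℝ) ≤ n := by
      have : (0 : ℝ) ≤ m := Nat.cast_nonneg m
      nlinarith
    have hxn : 16 ≤ x * n := by
      have h3 : 16 / x ≤ (n : ℝ) := hm1.trans hnm
      rw [div_le_iff₀ hx0] at h3
      linarith
    have hn32 : (32 : ℝ) ≤ n := by nlinarith
    set h : ℕ := ⌊x / 2 * (n : ℝ)⌋₊ with hh
    have hhle : (h : ℝ) ≤ x / 2 * n := Nat.floor_le (by positivity)
    have hden : (1 - x) * ((n : ℝ) + 1) ≤ n - h - 7 := by nlinarith
    have hden0 : 0 < (1 - x) * ((n : ℝ) + 1) := mul_pos (by linarith) hn1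
    have hden1 : 0 < (n : ℝ) - h - 7 := lt_of_lt_of_le hden0 hden
    by_cases hall : ∀ e, Near S e ξ → 1 / 100 < |e.1| * S.a.1 ^ h
    · have hB : 0 ≤ C * (Φ / ((n : ℝ) - h - 7)) ^ A := by positivity
      have hlen : h + 8 ≤ a + b := by
        rw [hn]
        have : ((h + 8 : ℕ) : ℝ) ≤ n := by push_cast; nlinarith
        exact_mod_cast this
      have hst := stage S ξ a b h hB hlen hall (fun i j hij hij' => by
        refine vv_bound S ξ a b i j hB fun hi hj ξ' hξ' => ?_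
        have hlt : (a - i) + (b - j) < n := by omega
        refine (ih _ hlt ξ' (a - i) (b - j) rfl (by rw [hξ']; exact h1)
          (by rw [hξ']; exact h2)).trans ?_
        refine mul_le_mul_of_nonneg_left ?_ (by linarith)
        refine pow_le_pow_left₀ (by positivity) ?_ A
        refine div_le_div_of_nonneg_left (by linarith) hden1 ?_
        rw [Nat.cast_sub hi, Nat.cast_sub hj]
        have : ((i + j : ℕ) : ℝ) ≤ ((h + 8 : ℕ) : ℝ) := by exact_mod_cast hij'
        push_cast at this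
        linarith)
      refine hst.trans ?_
      have e1 : Φ / ((n : ℝ) - h - 7) ≤ Φ / (n + 1) * (1 / (1 - x)) := by
        rw [div_mul_div_comm, mul_one, mul_comm ((n : ℝ) + 1)]
        exact div_le_div_of_nonneg_left (by linarith) hden0 hden
      have e2 : (Φ / ((n : ℝ) - h - 7)) ^ A ≤ (Φ / (n + 1)) ^ A * (1 / (1 - x)) ^ A := by
        rw [← mul_pow]
        exact pow_le_pow_left₀ (by positivity) e1 A
      have hpos : 0 < (1 - x) ^ A := pow_pos (by linarith) A
      rw [hncast]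
      calc gam * (C * (Φ / ((n : ℝ) - h - 7)) ^ A)
          ≤ (1 - x) ^ A * (C * ((Φ / (n + 1)) ^ A * (1 / (1 - x)) ^ A)) := by
            refine mul_le_mul hgam ?_ hB hpos.le
            exact mul_le_mul_of_nonneg_left e2 (by linarith)
        _ = C * (Φ / (n + 1)) ^ A * ((1 - x) ^ A * (1 / (1 - x)) ^ A) := by ring
        _ = C * (Φ / (n + 1)) ^ A := by
            have hone : (1 - x) ^ A * (1 / (1 - x)) ^ A = 1 := by
              rw [← mul_pow, mul_one_div_cancel (by linarith : (1 - x) ≠ 0), one_pow]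
            rw [hone, mul_one]
    · push Not at hall
      obtain ⟨e, he, hel⟩ := hall
      refine hlong C Φ n ξ a b e hC1 hΦ ?_ hn h1 h2 ?_ he hel
      · refine le_trans ?_ hge
        exact mul_le_mul_of_nonneg_right hm0 (by linarith)
      · intro ξ' a' b' hlt h1' h2'
        exact ih _ hlt ξ' a' b' rfl h1' h2'

end Pool.Agent.H49.AB
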