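import Pool.Agent.H67.Tent.Pass

/-!
# AB: almost all points of `(1/N) ℤ[α]` come down to bounded height. Definitions

Paper proof: notes table, `MP_df7698_an`, kind `paper-proof` (helper49). Notation of `H67/Tent`: `E = ℝ × ℂ × ℂ`,
`S.a`, `S.b` are `α`, `β`; a word is a list of Booleans, head applied first, `mul S w`, `off S N w` slope and offset.
-/

set_option autoImplicit false

namespace Pool.Agent.H49.AB

open Pool.Agent.H67.Tent Finset

/-- The arithmetic data of `α`, with more properties. -/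
structure Sys2 extends Sys where
  a5 : a ^ 5 = a ^ 3 + 1
  b_mul : b * (a - 1) = a
  cnt : (Lam : Set E).Countable
  im2 : 0 < a.2.1.im
  im3 : 0 < a.2.2.im
  ne23 : a.2.1 ≠ a.2.2
  a1l : (1.2365 : ℝ) ≤ a.1
  a1u : a.1 ≤ 1.2366
  a2l : 1.1032 ≤ ‖a.2.1‖ ^ 2
  a2u : ‖a.2.1‖ ^ 2 ≤ 1.1034
  a3l : 0.7329 ≤ ‖a.2.2‖ ^ 2
  a3u : ‖a.2.2‖ ^ 2 ≤ 0.7332
  c2l : 4.021 ≤ ‖a.2.1 - 1‖ ^ 2
  c2u : ‖a.2.1 - 1‖ ^ 2 ≤ 4.022
  c3l : 1.051 ≤ ‖a.2.2 - 1‖ ^ 2
  c3u : ‖a.2.2 - 1‖ ^ 2 ≤ 1.052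

/-- The slope of a word with `i` letters `false` and `j` letters `true`. -/
noncomputable def W (S : Sys2) (i j : ℕ) : E := S.a ^ i * (-S.b) ^ j

/-- The words of length `n`. -/
def words : ℕ → Finset (List Bool)
  | 0 => {[]}
  | n + 1 => (words n).image (List.cons false) ∪ (words n).image (List.cons true)

/-- The words with `a` letters `false` and `b` letters `true`. -/
def cls (a b : ℕ) : Finset (List Bool) := (words (a + b)).filter fun w => w.count true = b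

/-- `e(x) = exp(2 π i x)`. -/
noncomputable def ec (x : ℝ) : ℂ := Complex.exp (((2 * Real.pi * x : ℝ) : ℂ) * Complex.I)

/-- The character sum of the third coordinates of the offsets. -/
noncomputable def chi (S : Sys2) (N : ℕ) (ξ : ℂ) (a b : ℕ) : ℂ :=
  ∑ w ∈ cls a b, ec (ξ * (off S.toSys N w).2.2).re

/-- The character sum weighted by the probability `α^(-a) β^(-b)` of a word. -/
noncomputable def V (S : Sys2) (N : ℕ) (ξ : ℂ) (a b : ℕ) : ℝ :=
  ‖chi S N ξ a b‖ / (S.a.1 ^ a * S.b.1 ^ b)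

/-- `f'(a_3)/2`. -/
noncomputable def kap3 (S : Sys2) : ℂ := (5 * S.a.2.2 ^ 4 - 3 * S.a.2.2 ^ 2) / 2

/-- `ξ` is near the lattice element `e`. -/
def Near (S : Sys2) (e : E) (ξ : ℂ) : Prop :=
  e ∈ S.Lam ∧ |e.1| ≤ 1 / 100 ∧ ‖e.2.1‖ ≤ 1 / 100 ∧ ‖e.2.2 - kap3 S * ξ‖ ≤ 1 / 100

/-- `ξ` is white: one of five phases is not close to an integer. -/
def White (S : Sys2) (ξ : ℂ) : Prop :=
  ∃ j : ℕ, j < 5 ∧ 1 / 800 < |(ξ * S.a.2.2 ^ (j + 1)).re - round (ξ * S.a.2.2 ^ (j + 1)).re|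

/-- The pairs of natural numbers with sum `n`. -/
abbrev AD (n : ℕ) : Finset (ℕ × ℕ) := Finset.HasAntidiagonal.antidiagonal n

/-- Binomial weight. -/
noncomputable def bin (p q : ℝ) (i j : ℕ) : ℝ := ((i + j).choose j : ℝ) * p ^ i * q ^ j

open Classical in
/-- Probability that the first exit of the region `P` is at `(i, j)`. -/
noncomputable def ex (p q : ℝ) (P : ℕ → ℕ → Prop) (i j : ℕ) : ℝ :=
  if P i j then 0 else
    (if 1 ≤ i ∧ P (i - 1) j then p * bin p q (i - 1) j else 0) +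
    (if 1 ≤ j ∧ P i (j - 1) then q * bin p q i (j - 1) else 0)

/-- The region `P` is a down-set of `ℕ × ℕ` containing the origin. -/
def DownSet (P : ℕ → ℕ → Prop) : Prop :=
  P 0 0 ∧ (∀ i j, P (i + 1) j → P i j) ∧ ∀ i j, P i (j + 1) → P i j

/-- The character sum, seen from the position reached after `i` letters `false` and `j` letters `true`. -/
noncomputable def vv (S : Sys2) (ξ : ℂ) (a b i j : ℕ) : ℝ :=
  if i ≤ a ∧ j ≤ b then V S 1 (ξ * (W S i j).2.2) (a - i) (b - j) else 0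

/-- The gain of one stage. -/
noncomputable def gam : ℝ := 1 - 1 / 2000000

/-- Number of letters used before stage `i`. -/
def Ls (H : ℕ → ℕ) : ℕ → ℕ
  | 0 => 0
  | i + 1 => Ls H i + H i + 8

/-- One inverse branch. -/
noncomputable def gb (S : Sys2) (N : ℕ) (c : Bool) (y : E) : E :=
  if c then (N : E) - S.b⁻¹ * y else S.a⁻¹ * y

/-- Inverse branch of a word: `T^|w| (gw w y) = y`. -/
noncomputable def gw (S : Sys2) (N : ℕ) : List Bool → E → E
  | [], y => y
  | c :: w, y => gb S N c (gw S N w y)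

/-- The Gaussian weight. -/
noncomputable def gs (R Q : ℝ) (z : E) : ℝ :=
  Real.exp (-(Real.pi * (‖z.2.1‖ ^ 2 / R ^ 2 + ‖z.2.2‖ ^ 2 / Q ^ 2)))

/-- Sum over the lattice points with real coordinate in `[0, N]`. -/
noncomputable def SG (S : Sys2) (N : ℕ) (f : E → ENNReal) : ENNReal :=
  ∑' z : {z : E // G S.toSys N z}, f z

/-- Gaussian sum of `u`. -/
noncomputable def Sm (S : Sys2) (N : ℕ) (R Q : ℝ) (u : E → ENNReal) : ENNReal :=
  SG S N fun z => u z * ENNReal.ofReal (gs R Q z)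

end Pool.Agent.H49.AB
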