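import Pool.Agent.H49.AB.Basic

/-!
# JOB AB-19. Gaussian integrals on `ℂ`

`gauss_fourier`: Mathlib `fourierIntegral_gaussian_innerProductSpace'` or `integral_cexp_neg_mul_sq_norm_add` for the real inner product
space `ℂ` of dimension `2` (`⟪w, ξ⟫ = Re (conj w ξ)`; here `Re (ξ z) = ⟪conj z, ξ⟫`); or Fubini with
`Complex.measurableEquivRealProd` and the one-dimensional formula. `gauss_conv`: complete the square,
`‖z-a‖²/s² + ‖z-b‖²/t² = ((s²+t²)/(s² t²)) ‖z - m‖² + ‖a-b‖²/(s²+t²)`, `m = (t² a + s² b)/(s²+t²)`, and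
`∫ exp(-π c ‖z‖²) = 1/c`. `Nd s` has mass one.
-/

set_option autoImplicit false

namespace Pool.Agent.H49.AB

open Pool.Agent.H67.Tent Finset MeasureTheory

/-- The normalised Gaussian on `ℂ`. -/
noncomputable def Nd (s : ℝ) (z : ℂ) : ℝ := Real.exp (-(Real.pi * (‖z‖ ^ 2 / s ^ 2))) / s ^ 2

theorem GI_integrable {b : ℝ} (hb : 0 < b) : Integrable fun z : ℂ => Real.exp (-(b * ‖z‖ ^ 2)) := by
  have h := (GaussianFourier.integrable_cexp_neg_mul_sq_norm_add (b := (b : ℂ)) (V := ℂ)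
    (by simpa using hb) 0 0).norm
  refine h.congr (Filter.Eventually.of_forall fun z => ?_)
  dsimp only
  rw [Complex.norm_exp]
  congr 1
  rw [zero_mul, add_zero]
  have : (-(b : ℂ) * ((‖z‖ : ℝ) : ℂ) ^ 2) = ((-(b * ‖z‖ ^ 2) : ℝ) : ℂ) := by push_cast; ring
  rw [this, Complex.ofReal_re]

theorem GI_integral {b : ℝ} (hb : 0 < b) : ∫ z : ℂ, Real.exp (-(b * ‖z‖ ^ 2)) = Real.pi / b := by
  have h := GaussianFourier.integral_rexp_neg_mul_sq_norm (V := ℂ) hb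
  rw [Complex.finrank_real_complex] at h
  norm_num at h
  rw [← h]

theorem Nd_nonneg (s : ℝ) (z : ℂ) : 0 ≤ Nd s z := by
  unfold Nd
  positivity

theorem GI_Nd_eq (s : ℝ) (z : ℂ) : Nd s z = Real.exp (-(Real.pi / s ^ 2 * ‖z‖ ^ 2)) / s ^ 2 := by
  unfold Nd
  congr 3
  ring

theorem GI_Nd_integrable {s : ℝ} (hs : 0 < s) : Integrable fun z : ℂ => Nd s z := by
  have h := (GI_integrable (b := Real.pi / s ^ 2) (by positivity)).div_const (s ^ 2)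
  refine h.congr (Filter.Eventually.of_forall fun z => ?_)
  exact (GI_Nd_eq s z).symm

theorem Nd_integrable {s : ℝ} (hs : 0 < s) (a : ℂ) : Integrable fun z : ℂ => Nd s (z - a) :=
  (GI_Nd_integrable hs).comp_sub_right a

theorem Nd_integral {s : ℝ} (hs : 0 < s) (a : ℂ) : ∫ z : ℂ, Nd s (z - a) = 1 := by
  rw [integral_sub_right_eq_self (fun z : ℂ => Nd s z) a]
  simp only [GI_Nd_eq]
  rw [integral_div, GI_integral (by positivity)]
  field_simp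

theorem GI_square {s t : ℝ} (hs : 0 < s) (ht : 0 < t) (a b z : ℂ) :
    ‖z - a‖ ^ 2 / s ^ 2 + ‖z - b‖ ^ 2 / t ^ 2 =
      ((s ^ 2 + t ^ 2) / (s ^ 2 * t ^ 2)) *
        ‖z - ((t ^ 2 / (s ^ 2 + t ^ 2) : ℝ) * a + (s ^ 2 / (s ^ 2 + t ^ 2) : ℝ) * b)‖ ^ 2 +
      ‖a - b‖ ^ 2 / (s ^ 2 + t ^ 2) := by
  have h0 : s ^ 2 + t ^ 2 ≠ 0 := by positivity
  have h1 : s ≠ 0 := hs.ne'
  have h2 : t ≠ 0 := ht.ne'
  simp only [← Complex.normSq_eq_norm_sq, Complex.normSq_apply, Complex.sub_re, Complex.sub_im,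
    Complex.add_re, Complex.add_im, Complex.re_ofReal_mul, Complex.im_ofReal_mul]
  field_simp
  ring

/-- `Nd s * Nd t = Nd √(s² + t²)`. -/
theorem Nd_conv {s t : ℝ} (hs : 0 < s) (ht : 0 < t) (a b : ℂ) :
    ∫ z : ℂ, Nd s (z - a) * Nd t (z - b) = Nd (Real.sqrt (s ^ 2 + t ^ 2)) (a - b) := by
  set r : ℝ := Real.sqrt (s ^ 2 + t ^ 2) with hr
  have hr2 : r ^ 2 = s ^ 2 + t ^ 2 := Real.sq_sqrt (by positivity)
  set m : ℂ := ((t ^ 2 / (s ^ 2 + t ^ 2) : ℝ) * a + (s ^ 2 / (s ^ 2 + t ^ 2) : ℝ) * b) with hm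
  have key : ∀ z : ℂ, Nd s (z - a) * Nd t (z - b) =
      Real.exp (-(Real.pi * ((s ^ 2 + t ^ 2) / (s ^ 2 * t ^ 2)) * ‖z - m‖ ^ 2)) *
        (Real.exp (-(Real.pi * (‖a - b‖ ^ 2 / (s ^ 2 + t ^ 2)))) / (s ^ 2 * t ^ 2)) := by
    intro z
    have e : Real.exp (-(Real.pi * (‖z - a‖ ^ 2 / s ^ 2))) *
        Real.exp (-(Real.pi * (‖z - b‖ ^ 2 / t ^ 2))) =
        Real.exp (-(Real.pi * ((s ^ 2 + t ^ 2) / (s ^ 2 * t ^ 2)) * ‖z - m‖ ^ 2)) *
        Real.exp (-(Real.pi * (‖a - b‖ ^ 2 / (s ^ 2 + t ^ 2)))) := by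
      rw [← Real.exp_add, ← Real.exp_add]
      congr 1
      have := GI_square hs ht a b z
      rw [← hm] at this
      linear_combination (-Real.pi) * this
    unfold Nd
    rw [div_mul_div_comm, e, mul_div_assoc]
  simp only [key]
  rw [integral_mul_const,
    integral_sub_right_eq_self (fun z : ℂ => Real.exp (-(Real.pi * ((s ^ 2 + t ^ 2) / (s ^ 2 * t ^ 2)) * ‖z‖ ^ 2))) m,
    GI_integral (by positivity)]
  unfold Nd
  rw [hr2]
  have h0 : s ^ 2 + t ^ 2 ≠ 0 := by positivity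
  have h1 : s ≠ 0 := hs.ne'
  have h2 : t ≠ 0 := ht.ne'
  have h3 := Real.pi_ne_zero
  field_simp

theorem Nd_mul_integrable {s t : ℝ} (hs : 0 < s) (ht : 0 < t) (a b : ℂ) :
    Integrable fun z : ℂ => Nd s (z - a) * Nd t (z - b) := by
  refine (Nd_integrable hs a).mul_bdd (c := 1 / t ^ 2)
    (Nd_integrable ht b).aestronglyMeasurable (Filter.Eventually.of_forall fun z => ?_)
  rw [Real.norm_of_nonneg (Nd_nonneg _ _)]
  unfold Nd
  refine div_le_div_of_nonneg_right ?_ (by positivity)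
  rw [Real.exp_le_one_iff]
  have : 0 ≤ Real.pi * (‖z - b‖ ^ 2 / t ^ 2) := by positivity
  linarith

theorem GI_integrand {t : ℝ} (z ξ : ℂ) :
    (Real.exp (-(Real.pi * (t ^ 2 * ‖ξ‖ ^ 2))) : ℂ) * ec (ξ * z).re =
    Complex.exp (-((Real.pi * t ^ 2 : ℝ) : ℂ) * ((‖ξ‖ : ℝ) : ℂ) ^ 2 +
      (2 * Real.pi * Complex.I) * ((inner ℝ ((starRingEnd ℂ) z) ξ : ℝ) : ℂ)) := by
  unfold ec
  rw [Complex.ofReal_exp, ← Complex.exp_add]
  congr 1
  have : inner ℝ ((starRingEnd ℂ) z) ξ = (ξ * z).re := by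
    rw [Complex.inner]
    simp [mul_comm]
  rw [this]
  push_cast
  ring

theorem gauss_integrable {t : ℝ} (ht : 0 < t) (z : ℂ) :
    Integrable fun ξ : ℂ => (Real.exp (-(Real.pi * (t ^ 2 * ‖ξ‖ ^ 2))) : ℂ) * ec (ξ * z).re := by
  simp only [GI_integrand]
  refine GaussianFourier.integrable_cexp_neg_mul_sq_norm_add ?_ _ _
  rw [Complex.ofReal_re]
  positivity

/-- The Fourier transform of a Gaussian. -/
theorem gauss_fourier {t : ℝ} (ht : 0 < t) (z : ℂ) :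
    ∫ ξ : ℂ, (Real.exp (-(Real.pi * (t ^ 2 * ‖ξ‖ ^ 2))) : ℂ) * ec (ξ * z).re = (Nd t z : ℂ) := by
  simp only [GI_integrand]
  rw [GaussianFourier.integral_cexp_neg_mul_sq_norm_add
    (by rw [Complex.ofReal_re]; positivity), Complex.finrank_real_complex]
  have h3 : (Real.pi : ℂ) ≠ 0 := by exact_mod_cast Real.pi_ne_zero
  have h2 : (t : ℂ) ≠ 0 := by exact_mod_cast ht.ne'
  have e1 : ((Real.pi : ℂ) / ((Real.pi * t ^ 2 : ℝ) : ℂ)) ^ (((2 : ℕ) : ℂ) / 2) = 1 / (t : ℂ) ^ 2 := by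
    norm_num
    field_simp
  rw [e1]
  unfold Nd
  rw [Complex.norm_conj]
  push_cast
  have e2 : (2 * (Real.pi : ℂ) * Complex.I) ^ 2 * (‖z‖ : ℂ) ^ 2 / (4 * ((Real.pi : ℂ) * (t : ℂ) ^ 2)) =
      -(Real.pi * ((‖z‖ : ℂ) ^ 2 / (t : ℂ) ^ 2)) := by
    rw [mul_pow, Complex.I_sq]
    field_simp
    ring
  rw [e2]
  ring

/-- Mass of a Gaussian far from the origin. -/
theorem gauss_tail {c T : ℝ} (hc : 0 < c) (hT : 0 ≤ T) :
    ∫⁻ ξ in {ξ : ℂ | T ≤ c * ‖ξ‖}, ENNReal.ofReal (Real.exp (-(Real.pi * (c ^ 2 * ‖ξ‖ ^ 2)))) ≤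
      ENNReal.ofReal (2 / c ^ 2 * Real.exp (-(Real.pi / 2 * T ^ 2))) := by
  have hint := GI_integrable (b := Real.pi / 2 * c ^ 2) (by positivity)
  have hI := GI_integral (b := Real.pi / 2 * c ^ 2) (by positivity)
  calc ∫⁻ ξ in {ξ : ℂ | T ≤ c * ‖ξ‖}, ENNReal.ofReal (Real.exp (-(Real.pi * (c ^ 2 * ‖ξ‖ ^ 2))))
      ≤ ∫⁻ ξ in {ξ : ℂ | T ≤ c * ‖ξ‖}, ENNReal.ofReal (Real.exp (-(Real.pi / 2 * T ^ 2)) *
          Real.exp (-(Real.pi / 2 * c ^ 2 * ‖ξ‖ ^ 2))) := by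
        refine setLIntegral_mono' ?_ ?_
        · exact measurableSet_le measurable_const (measurable_const.mul measurable_norm)
        · intro ξ hξ
          refine ENNReal.ofReal_le_ofReal ?_
          rw [← Real.exp_add]
          refine Real.exp_le_exp.2 ?_
          have h1 : T ^ 2 ≤ c ^ 2 * ‖ξ‖ ^ 2 := by
            rw [← mul_pow]
            exact pow_le_pow_left₀ hT hξ 2
          have := Real.pi_pos
          nlinarith
    _ ≤ ∫⁻ ξ : ℂ, ENNReal.ofReal (Real.exp (-(Real.pi / 2 * T ^ 2)) *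
          Real.exp (-(Real.pi / 2 * c ^ 2 * ‖ξ‖ ^ 2))) := setLIntegral_le_lintegral _ _
    _ = ENNReal.ofReal (∫ ξ : ℂ, Real.exp (-(Real.pi / 2 * T ^ 2)) *
          Real.exp (-(Real.pi / 2 * c ^ 2 * ‖ξ‖ ^ 2))) := by
        rw [ofReal_integral_eq_lintegral_ofReal (hint.const_mul _)]
        exact Filter.Eventually.of_forall fun ξ => by positivity
    _ = _ := by
        rw [integral_const_mul, hI]
        congr 1
        have h3 := Real.pi_ne_zero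
        have h1 : c ≠ 0 := hc.ne'
        field_simp

end Pool.Agent.H49.AB
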