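import Pool.Agent.H49.AB.Basic
import Pool.Agent.H67.Tent.Inst

/-!
# JOB AB-01. The instance of `Sys2` attached to `α`

Copy the proof of `Pool.Agent.H67.Tent.exists_sys` (file `H67/Tent/Inst.lean`; `instHom`, `instHom_apply`, `inst_a_mul`,
`inst_b_mul` can be used from there) and fill in the extra fields of `Sys2`:
`a5` is `hA5` there; `b_mul`: components `b (a - 1) = a` (`(z^4+z^3+1)(z-1) = z` at each root, all shown there); `cnt`: `Lam` is the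
range of a function on the countable type `Fin 5 → ℤ` (`Set.countable_range`); `im2, im3, ne23` and the numerical bounds are
exactly what `roots α hα` gives (`1.2365 < α < 1.2366` etc).
-/

set_option autoImplicit false

namespace Pool.Agent.H49.AB

open Pool.Agent.H67.Tent ComplexConjugate

theorem exists_sys2 (α : ℝ) (hα : α ^ 5 - α ^ 3 - 1 = 0) : ∃ S : Sys2,
    S.a.1 = α ∧ S.b.1 = α / (α - 1) ∧
    (∀ z : E, z ∈ S.Lam ↔ ∃ c : Fin 5 → ℤ, z = (∑ i, (c i : ℝ) * α ^ (i : ℕ),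
      ∑ i, (c i : ℂ) * S.a.2.1 ^ (i : ℕ), ∑ i, (c i : ℂ) * S.a.2.2 ^ (i : ℕ))) ∧
    (∀ z : ℂ, z ^ 5 - z ^ 3 - 1 = 0 ↔
      z = α ∨ z = S.a.2.1 ∨ z = conj S.a.2.1 ∨ z = S.a.2.2 ∨ z = conj S.a.2.2) ∧
    (∀ c : Fin 5 → ℤ, ∑ i, (c i : ℝ) * α ^ (i : ℕ) = 0 → c = 0) := by
  obtain ⟨ha1, ha2, z2, z3, hf, him2, him3, l2, u2, l3, u3, l2', u2', l3', u3'⟩ := roots α hα
  have h23 : z2 ≠ z3 := by
    rintro rfl
    linarith
  have hz2 : z2 ^ 5 - z2 ^ 3 - 1 = 0 := by rw [hf]; ring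
  have hz3 : z3 ^ 5 - z3 ^ 3 - 1 = 0 := by rw [hf]; ring
  have hapos : 0 < α := by linarith
  have ha1pos : 0 < α - 1 := by linarith
  set A : E := (α, z2, z3) with hA
  have hA5 : A ^ 5 = A ^ 3 + 1 := by
    refine Prod.ext ?_ (Prod.ext ?_ ?_)
    · show α ^ 5 = α ^ 3 + 1
      linarith
    · show z2 ^ 5 = z2 ^ 3 + 1
      linear_combination hz2
    · show z3 ^ 5 = z3 ^ 3 + 1
      linear_combination hz3
  have hb1 : α ^ 4 + α ^ 3 + 1 = α / (α - 1) := by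
    rw [eq_div_iff ha1pos.ne']
    linear_combination hα
  have hb2 : (z2 ^ 4 + z2 ^ 3 + 1) * (z2 - 1) = z2 := by linear_combination hz2
  have hb3 : (z3 ^ 4 + z3 ^ 3 + 1) * (z3 - 1) = z3 := by linear_combination hz3
  have n2 : ‖z2 ^ 4 + z2 ^ 3 + 1‖ ^ 2 * ‖z2 - 1‖ ^ 2 = ‖z2‖ ^ 2 := by
    rw [← mul_pow, ← norm_mul, hb2]
  have n3 : ‖z3 ^ 4 + z3 ^ 3 + 1‖ ^ 2 * ‖z3 - 1‖ ^ 2 = ‖z3‖ ^ 2 := by
    rw [← mul_pow, ← norm_mul, hb3]
  have B2u : ‖z2 ^ 4 + z2 ^ 3 + 1‖ ^ 2 ≤ 0.27442 := by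
    nlinarith [sq_nonneg ‖z2 ^ 4 + z2 ^ 3 + 1‖]
  have B2l : 0.27428 ≤ ‖z2 ^ 4 + z2 ^ 3 + 1‖ ^ 2 := by
    nlinarith [sq_nonneg ‖z2 ^ 4 + z2 ^ 3 + 1‖]
  have B3u : ‖z3 ^ 4 + z3 ^ 3 + 1‖ ^ 2 ≤ 0.69764 := by
    nlinarith [sq_nonneg ‖z3 ^ 4 + z3 ^ 3 + 1‖]
  have hprod0 : α * ‖z2‖ ^ 2 * ‖z3‖ ^ 2 = 1 := by
    have h := hf 0
    have e2 : z2 * conj z2 = ((‖z2‖ ^ 2 : ℝ) : ℂ) := by
      rw [Complex.mul_conj, Complex.normSq_eq_norm_sq]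
    have e3 : z3 * conj z3 = ((‖z3‖ ^ 2 : ℝ) : ℂ) := by
      rw [Complex.mul_conj, Complex.normSq_eq_norm_sq]
    have : ((α * ‖z2‖ ^ 2 * ‖z3‖ ^ 2 : ℝ) : ℂ) = 1 := by
      rw [Complex.ofReal_mul, Complex.ofReal_mul, ← e2, ← e3]
      linear_combination h
    exact_mod_cast this
  have hprod1 : (α - 1) * ‖z2 - 1‖ ^ 2 * ‖z3 - 1‖ ^ 2 = 1 := by
    have h := hf 1
    have e2 : (z2 - 1) * (conj z2 - 1) = ((‖z2 - 1‖ ^ 2 : ℝ) : ℂ) := by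
      rw [← Complex.normSq_eq_norm_sq, ← Complex.mul_conj, map_sub, map_one]
    have e3 : (z3 - 1) * (conj z3 - 1) = ((‖z3 - 1‖ ^ 2 : ℝ) : ℂ) := by
      rw [← Complex.normSq_eq_norm_sq, ← Complex.mul_conj, map_sub, map_one]
    have : (((α - 1) * ‖z2 - 1‖ ^ 2 * ‖z3 - 1‖ ^ 2 : ℝ) : ℂ) = 1 := by
      rw [Complex.ofReal_mul, Complex.ofReal_mul, ← e2, ← e3]
      push_cast
      linear_combination h
    exact_mod_cast this
  have hainv : α⁻¹ ≤ 0.80874 := by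
    rw [inv_le_comm₀ hapos (by norm_num)]
    linarith [show (0.80874 : ℝ)⁻¹ ≤ 1.2365 by norm_num]
  have hainv0 : 0 < α⁻¹ := inv_pos.2 hapos
  have hbinv : (α / (α - 1))⁻¹ = 1 - α⁻¹ := by
    rw [inv_div]
    field_simp
  have hbinvu : (α / (α - 1))⁻¹ ≤ 0.19134 := by
    rw [hbinv]
    have : (0.80866 : ℝ) ≤ α⁻¹ := by
      rw [le_inv_comm₀ (by norm_num) hapos]
      linarith [show (1.2366 : ℝ) ≤ (0.80866 : ℝ)⁻¹ by norm_num]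
    linarith
  have hbinv0 : 0 < (α / (α - 1))⁻¹ := inv_pos.2 (div_pos hapos ha1pos)
  have nz2 : 0 ≤ ‖z2‖ := norm_nonneg _
  have nz3 : 0 ≤ ‖z3‖ := norm_nonneg _
  have nb2 : 0 ≤ ‖z2 ^ 4 + z2 ^ 3 + 1‖ := norm_nonneg _
  have nb3 : 0 ≤ ‖z3 ^ 4 + z3 ^ 3 + 1‖ := norm_nonneg _
  have hz2ge : 1 ≤ ‖z2‖ := by nlinarith
  have hb2ge : 1 / 2 ≤ ‖z2 ^ 4 + z2 ^ 3 + 1‖ := by nlinarith
  have q1 : ‖z3‖ / ‖z2‖ ≤ 0.8153 := by
    rw [div_le_iff₀ (by linarith)]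
    refine (sq_le_sq₀ (by positivity) (by positivity)).1 ?_
    rw [mul_pow]
    nlinarith
  have q2 : ‖z3 ^ 4 + z3 ^ 3 + 1‖ / ‖z2 ^ 4 + z2 ^ 3 + 1‖ ≤ 1.595 := by
    rw [div_le_iff₀ (by linarith)]
    refine (sq_le_sq₀ (by positivity) (by positivity)).1 ?_
    rw [mul_pow]
    nlinarith
  have hAb : (A ^ 4 + A ^ 3 + 1) * (A - 1) = A := by
    refine Prod.ext ?_ (Prod.ext ?_ ?_)
    · show (α ^ 4 + α ^ 3 + 1) * (α - 1) = α
      linear_combination hα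
    · show (z2 ^ 4 + z2 ^ 3 + 1) * (z2 - 1) = z2
      exact hb2
    · show (z3 ^ 4 + z3 ^ 3 + 1) * (z3 - 1) = z3
      exact hb3
  let S : Sys2 :=
    { a5 := hA5
      b_mul := hAb
      cnt := by
        show ((instHom A).range : Set E).Countable
        rw [AddMonoidHom.coe_range]
        exact Set.countable_range _
      im2 := him2
      im3 := him3
      ne23 := h23
      a1l := ha1.le
      a1u := ha2.le
      a2l := l2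
      a2u := u2
      a3l := l3
      a3u := u3
      c2l := l2'
      c2u := u2'
      c3l := l3'
      c3u := u3'
      a := A
      b := A ^ 4 + A ^ 3 + 1
      Lam := (instHom A).range
      one_mem := by
        refine ⟨![1, 0, 0, 0, 0], ?_⟩
        show ∑ i, ((![1, 0, 0, 0, 0] : Fin 5 → ℤ) i : E) * A ^ (i : ℕ) = 1
        simp [Fin.sum_univ_five]
      a_mul_mem := inst_a_mul hA5
      b_mul_mem := inst_b_mul hA5
      norm_ge := by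
        rintro z ⟨c, rfl⟩ hz
        rw [hA, instHom_apply] at hz ⊢
        apply norm_int α z2 z3 hf him2 him3 h23 c
        rintro rfl
        apply hz
        simp
      a1_gt := by show 6 / 5 < α; linarith
      a1_lt := by show α < 5 / 4; linarith
      b1_gt := by
        show 5 < α ^ 4 + α ^ 3 + 1
        rw [hb1, lt_div_iff₀ ha1pos]; linarith
      b1_lt := by
        show α ^ 4 + α ^ 3 + 1 < 53 / 10
        rw [hb1, div_lt_iff₀ ha1pos]; linarith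
      inv_add := by
        show α⁻¹ + (α ^ 4 + α ^ 3 + 1)⁻¹ = 1
        rw [hb1, hbinv]; ring
      prod_a := hprod0
      prod_b := by
        show (α ^ 4 + α ^ 3 + 1) * ‖z2 ^ 4 + z2 ^ 3 + 1‖ ^ 2 * ‖z3 ^ 4 + z3 ^ 3 + 1‖ ^ 2 = 1
        have h1 : (α ^ 4 + α ^ 3 + 1) * (α - 1) = α := by linear_combination hα
        calc _ = (α ^ 4 + α ^ 3 + 1) * ‖z2 ^ 4 + z2 ^ 3 + 1‖ ^ 2 * ‖z3 ^ 4 + z3 ^ 3 + 1‖ ^ 2 *
              ((α - 1) * ‖z2 - 1‖ ^ 2 * ‖z3 - 1‖ ^ 2) := by rw [hprod1, mul_one]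
          _ = ((α ^ 4 + α ^ 3 + 1) * (α - 1)) * (‖z2 ^ 4 + z2 ^ 3 + 1‖ ^ 2 * ‖z2 - 1‖ ^ 2) *
              (‖z3 ^ 4 + z3 ^ 3 + 1‖ ^ 2 * ‖z3 - 1‖ ^ 2) := by ring
          _ = 1 := by rw [h1, n2, n3, hprod0]
      a2_ge := hz2ge
      b2_ge := hb2ge
      b2_le := by
        show ‖z2 ^ 4 + z2 ^ 3 + 1‖ ^ 2 ≤ 7 / 25
        linarith
      a3_le := by
        show ‖z3‖ ≤ 6 / 7
        refine (sq_le_sq₀ (by positivity) (by norm_num)).1 ?_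
        linarith [show (0.7332 : ℝ) ≤ (6 / 7) ^ 2 by norm_num]
      b3_le := by
        show ‖z3 ^ 4 + z3 ^ 3 + 1‖ ≤ 6 / 7
        refine (sq_le_sq₀ (by positivity) (by norm_num)).1 ?_
        linarith [show (0.69764 : ℝ) ≤ (6 / 7) ^ 2 by norm_num]
      kap := by
        show α⁻¹ * ‖z2‖ ^ 2 + (α ^ 4 + α ^ 3 + 1)⁻¹ * ‖z2 ^ 4 + z2 ^ 3 + 1‖ ^ 2 ≤ 189 / 200
        rw [hb1]
        have e1 : α⁻¹ * ‖z2‖ ^ 2 ≤ 0.80874 * 1.1034 :=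
          mul_le_mul hainv u2 (sq_nonneg _) (by norm_num)
        have e2 : (α / (α - 1))⁻¹ * ‖z2 ^ 4 + z2 ^ 3 + 1‖ ^ 2 ≤ 0.19134 * 0.27442 :=
          mul_le_mul hbinvu B2u (sq_nonneg _) (by norm_num)
        linarith [show (0.80874 : ℝ) * 1.1034 + 0.19134 * 0.27442 ≤ 189 / 200 by norm_num]
      lam := by
        show α⁻¹ * (‖z3‖ / ‖z2‖) + (α ^ 4 + α ^ 3 + 1)⁻¹ *
          (‖z3 ^ 4 + z3 ^ 3 + 1‖ / ‖z2 ^ 4 + z2 ^ 3 + 1‖) ≤ 193 / 200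
        rw [hb1]
        have e1 : α⁻¹ * (‖z3‖ / ‖z2‖) ≤ 0.80874 * 0.8153 :=
          mul_le_mul hainv q1 (by positivity) (by norm_num)
        have e2 : (α / (α - 1))⁻¹ * (‖z3 ^ 4 + z3 ^ 3 + 1‖ / ‖z2 ^ 4 + z2 ^ 3 + 1‖) ≤
            0.19134 * 1.595 := mul_le_mul hbinvu q2 (by positivity) (by norm_num)
        linarith [show (0.80874 : ℝ) * 0.8153 + 0.19134 * 1.595 ≤ 193 / 200 by norm_num] }
  refine ⟨S, rfl, hb1, fun z => ?_, fun z => ?_, fun c hc => ?_⟩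
  · show z ∈ (instHom A).range ↔ _
    rw [AddMonoidHom.mem_range]
    constructor
    · rintro ⟨c, rfl⟩
      exact ⟨c, by rw [hA, instHom_apply]⟩
    · rintro ⟨c, rfl⟩
      exact ⟨c, by rw [hA, instHom_apply]⟩
  · show _ ↔ z = α ∨ z = z2 ∨ z = conj z2 ∨ z = z3 ∨ z = conj z3
    rw [hf z]
    simp only [mul_eq_zero, sub_eq_zero, or_assoc]
  · by_contra hne
    have := norm_int α z2 z3 hf him2 him3 h23 c hne
    rw [hc] at this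
    norm_num at this

end Pool.Agent.H49.AB
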