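import Pool.Agent.H49.AB.Lat
import Pool.Agent.H49.AB.GaussInt
import Pool.Agent.H49.AB.GW

/-!
# JOB AB-21. The L² bound

`‖chi‖² = ∑_{w,w'} ec (Re ξ (Z_w - Z_w'))` with `Z_w = (off S N w).2.2` (`conj_ec`, `ec_add`), so by `gauss_fourier` with `t = 1/X`
`∫ ‖chi‖² exp(-π‖ξ‖²/X²) = ∑_{w,w'} X² exp(-π X² ‖Z_w - Z_w'‖²)` (`Nd (1/X) z = X² exp(-π X² ‖z‖²)`). By symmetry the sum is at most twice the
sum over the pairs with `‖(off w').2.1‖ ≤ ‖(off w).2.1‖ =: Y_w`. For fixed `w` the map `w' ↦ off w - off w'` is injective on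
`cls a b` (`off_inj`), its values lie in `Lam` (`off_mem`), have first coordinate at most `N w1` in absolute value, `w1 = |(W S a b).1|` (`off_first`),
second at most `2 Y_w`. `lat_finite` with `L1 = N w1`, `L2 = 2 Y_w + 1`, `r3 = 1/X`: the inner sum is at most `C (1 + N w1 (2 Y_w + 1)² X⁻²)`. Summation
over `w`: `∑_w (2 Y_w + 1)² ≤ 2 card + 8 ∑ Y_w² ≤ (2 + 200 N²) w1` (`card = bin * w1 ≤ w1`, `bin_le_one`, `moment_cls`). So the integral is at most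
`2 C (X² card + N (2 + 200 N²) w1²)`; divide by `w1²` (`V = ‖chi‖/w1`, `card/w1² = bin/w1`).
`chi_cont`: finite sum of continuous functions.
-/

set_option autoImplicit false

namespace Pool.Agent.H49.AB

open Pool.Agent.H67.Tent Finset MeasureTheory

theorem chi_cont (S : Sys2) (N a b : ℕ) : Continuous fun ξ : ℂ => chi S N ξ a b := by
  unfold chi ec
  fun_prop

theorem V_cont (S : Sys2) (N a b : ℕ) : Continuous fun ξ : ℂ => V S N ξ a b := by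
  unfold V
  exact (chi_cont S N a b).norm.div_const _

private theorem l2_sq (S : Sys2) (N a b : ℕ) (ξ : ℂ) :
    ((‖chi S N ξ a b‖ ^ 2 : ℝ) : ℂ) = ∑ w ∈ cls a b, ∑ w' ∈ cls a b,
      ec (ξ * ((off S.toSys N w).2.2 - (off S.toSys N w').2.2)).re := by
  rw [Complex.ofReal_pow, ← Complex.mul_conj']
  unfold chi
  rw [map_sum, Finset.sum_mul_sum]
  refine Finset.sum_congr rfl fun w _ => Finset.sum_congr rfl fun w' _ => ?_
  rw [conj_ec, ← ec_add]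
  congr 1
  rw [mul_sub, Complex.sub_re]
  ring

private theorem l2_fun (S : Sys2) (N a b : ℕ) {X : ℝ} (hX : 0 < X) (ξ : ℂ) :
    ((‖chi S N ξ a b‖ ^ 2 * Real.exp (-(Real.pi * (‖ξ‖ ^ 2 / X ^ 2))) : ℝ) : ℂ) =
      ∑ w ∈ cls a b, ∑ w' ∈ cls a b,
      (Real.exp (-(Real.pi * ((1 / X) ^ 2 * ‖ξ‖ ^ 2))) : ℂ) *
        ec (ξ * ((off S.toSys N w).2.2 - (off S.toSys N w').2.2)).re := by
  rw [Complex.ofReal_mul, l2_sq, mul_comm, Finset.mul_sum]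
  refine Finset.sum_congr rfl fun w _ => ?_
  rw [Finset.mul_sum]
  refine Finset.sum_congr rfl fun w' _ => ?_
  congr 3
  field_simp

private theorem l2_integrable (S : Sys2) (N a b : ℕ) {X : ℝ} (hX : 0 < X) :
    Integrable fun ξ : ℂ => ‖chi S N ξ a b‖ ^ 2 * Real.exp (-(Real.pi * (‖ξ‖ ^ 2 / X ^ 2))) := by
  have h : Integrable fun ξ : ℂ =>
      ((‖chi S N ξ a b‖ ^ 2 * Real.exp (-(Real.pi * (‖ξ‖ ^ 2 / X ^ 2))) : ℝ) : ℂ) := by
    simp only [l2_fun S N a b hX]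
    exact integrable_finset_sum _ fun w _ => integrable_finset_sum _ fun w' _ =>
      gauss_integrable (by positivity) _
  have h2 := h.re
  exact h2

private theorem l2_int (S : Sys2) (N a b : ℕ) {X : ℝ} (hX : 0 < X) :
    (∫ ξ : ℂ, ‖chi S N ξ a b‖ ^ 2 * Real.exp (-(Real.pi * (‖ξ‖ ^ 2 / X ^ 2)))) =
      ∑ w ∈ cls a b, ∑ w' ∈ cls a b,
        Nd (1 / X) ((off S.toSys N w).2.2 - (off S.toSys N w').2.2) := by
  have ht : (0 : ℝ) < 1 / X := by positivity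
  refine Complex.ofReal_injective ?_
  rw [← integral_complex_ofReal]
  simp only [l2_fun S N a b hX]
  rw [integral_finset_sum _ fun w _ => integrable_finset_sum _ fun w' _ => gauss_integrable ht _,
    Complex.ofReal_sum]
  refine Finset.sum_congr rfl fun w _ => ?_
  rw [integral_finset_sum _ fun w' _ => gauss_integrable ht _, Complex.ofReal_sum]
  exact Finset.sum_congr rfl fun w' _ => gauss_fourier ht _

private theorem l2_sym {ι : Type*} (A : Finset ι) (Y : ι → ℝ) (g : ι → ι → ℝ)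
    (hg : ∀ i j, 0 ≤ g i j) (hs : ∀ i j, g i j = g j i) :
    ∑ i ∈ A, ∑ j ∈ A, g i j ≤ 2 * ∑ i ∈ A, ∑ j ∈ A.filter (fun j => Y j ≤ Y i), g i j := by
  have h1 : ∑ i ∈ A, ∑ j ∈ A, g i j =
      ∑ i ∈ A, ∑ j ∈ A.filter (fun j => Y j ≤ Y i), g i j +
        ∑ i ∈ A, ∑ j ∈ A.filter (fun j => ¬ Y j ≤ Y i), g i j := by
    rw [← Finset.sum_add_distrib]
    exact Finset.sum_congr rfl fun i _ => (Finset.sum_filter_add_sum_filter_not _ _ _).symm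
  have h2 : ∑ i ∈ A, ∑ j ∈ A.filter (fun j => ¬ Y j ≤ Y i), g i j ≤
      ∑ i ∈ A, ∑ j ∈ A.filter (fun j => Y i ≤ Y j), g i j := by
    refine Finset.sum_le_sum fun i _ => Finset.sum_le_sum_of_subset_of_nonneg ?_
      fun j _ _ => hg i j
    intro j hj
    rw [Finset.mem_filter] at hj ⊢
    exact ⟨hj.1, (not_le.1 hj.2).le⟩
  have h3 : ∑ i ∈ A, ∑ j ∈ A.filter (fun j => Y i ≤ Y j), g i j =
      ∑ i ∈ A, ∑ j ∈ A.filter (fun j => Y j ≤ Y i), g i j := by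
    simp only [Finset.sum_filter]
    rw [Finset.sum_comm]
    refine Finset.sum_congr rfl fun i _ => Finset.sum_congr rfl fun j _ => ?_
    rw [hs j i]
  linarith

private theorem l2_inner (S : Sys2) (N : ℕ) (hN : 1 ≤ N) {C : ℝ} (a b : ℕ) {X : ℝ} (hX : 1 ≤ X)
    (hC : ∀ (L1 L2 r3 : ℝ) (Y : Finset E), 0 < L1 → 0 < L2 → 0 < r3 →
      (∀ y ∈ Y, y ∈ S.Lam ∧ |y.1| ≤ L1 ∧ ‖y.2.1‖ ≤ L2) →
      ∑ y ∈ Y, Real.exp (-(Real.pi * (‖y.2.2‖ ^ 2 / r3 ^ 2))) ≤ C * (1 + L1 * L2 ^ 2 * r3 ^ 2))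
    {w : List Bool} (hw : w ∈ cls a b) :
    ∑ w' ∈ (cls a b).filter (fun w' => ‖(off S.toSys N w').2.1‖ ≤ ‖(off S.toSys N w).2.1‖),
        Nd (1 / X) ((off S.toSys N w).2.2 - (off S.toSys N w').2.2) ≤
      C * (X ^ 2 + N * |(W S a b).1| * (2 * ‖(off S.toSys N w).2.1‖ + 1) ^ 2) := by
  classical
  have hX0 : 0 < X := by linarith
  have hN0 : (0 : ℝ) < N := by exact_mod_cast hN
  set B := (cls a b).filter (fun w' => ‖(off S.toSys N w').2.1‖ ≤ ‖(off S.toSys N w).2.1‖) with hB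
  have hinj : Set.InjOn (fun w' => off S.toSys N w - off S.toSys N w') (B : Set (List Bool)) := by
    intro u hu v hv h
    have hu' := (Finset.mem_filter.1 (Finset.mem_coe.1 hu)).1
    have hv' := (Finset.mem_filter.1 (Finset.mem_coe.1 hv)).1
    exact off_inj S N hN hu' hv' (sub_right_injective h)
  have h1 := hC (N * |(W S a b).1|) (2 * ‖(off S.toSys N w).2.1‖ + 1) (1 / X)
    (B.image (fun w' => off S.toSys N w - off S.toSys N w')) (mul_pos hN0 (W1_pos S a b))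
    (by positivity) (by positivity) ?_
  · rw [Finset.sum_image hinj] at h1
    have h2 := mul_le_mul_of_nonneg_left h1 (sq_nonneg X)
    have e1 : ∑ w' ∈ B, Nd (1 / X) ((off S.toSys N w).2.2 - (off S.toSys N w').2.2) =
        X ^ 2 * ∑ x ∈ B, Real.exp (-(Real.pi *
          (‖(off S.toSys N w - off S.toSys N x).2.2‖ ^ 2 / (1 / X) ^ 2))) := by
      rw [Finset.mul_sum]
      refine Finset.sum_congr rfl fun x _ => ?_
      unfold Nd
      rw [one_div X, inv_pow, div_inv_eq_mul, mul_comm]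
      rfl
    rw [e1]
    refine h2.trans (le_of_eq ?_)
    field_simp
  · intro y hy
    obtain ⟨u, hu, rfl⟩ := Finset.mem_image.1 hy
    obtain ⟨hu1, hu2⟩ := Finset.mem_filter.1 hu
    refine ⟨S.Lam.sub_mem (off_mem S.toSys N w) (off_mem S.toSys N u), off_first S N hw hu1, ?_⟩
    have : ‖(off S.toSys N w - off S.toSys N u).2.1‖ ≤
        ‖(off S.toSys N w).2.1‖ + ‖(off S.toSys N u).2.1‖ := norm_sub_le _ _
    linarith

private theorem l2_card (S : Sys2) (a b : ℕ) :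
    (((cls a b).card : ℕ) : ℝ) = bin (S.a.1)⁻¹ (S.b.1)⁻¹ a b * |(W S a b).1| := by
  rw [card_cls, W1]
  unfold bin
  have h1 := (pow_pos (ap S) a).ne'
  have h2 := (pow_pos (bp S) b).ne'
  rw [inv_pow, inv_pow]
  field_simp

private theorem l2_total (S : Sys2) (N : ℕ) (hN : 1 ≤ N) {C : ℝ} (hC1 : 1 ≤ C) (a b : ℕ) {X : ℝ}
    (hX : 1 ≤ X)
    (hC : ∀ (L1 L2 r3 : ℝ) (Y : Finset E), 0 < L1 → 0 < L2 → 0 < r3 →
      (∀ y ∈ Y, y ∈ S.Lam ∧ |y.1| ≤ L1 ∧ ‖y.2.1‖ ≤ L2) →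
      ∑ y ∈ Y, Real.exp (-(Real.pi * (‖y.2.2‖ ^ 2 / r3 ^ 2))) ≤ C * (1 + L1 * L2 ^ 2 * r3 ^ 2)) :
    (∫ ξ : ℂ, ‖chi S N ξ a b‖ ^ 2 * Real.exp (-(Real.pi * (‖ξ‖ ^ 2 / X ^ 2)))) ≤
      2 * C * (X ^ 2 * (bin (S.a.1)⁻¹ (S.b.1)⁻¹ a b * |(W S a b).1|) +
        N * (200 * N ^ 2 + 2) * |(W S a b).1| ^ 2) := by
  have hw1 := W1_pos S a b
  rw [l2_int S N a b (by linarith : 0 < X)]
  refine (l2_sym (cls a b) (fun w => ‖(off S.toSys N w).2.1‖) _ (fun i j => Nd_nonneg _ _)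
    (fun i j => ?_)).trans ?_
  · unfold Nd
    rw [norm_sub_rev]
  have h1 := Finset.sum_le_sum fun w hw => l2_inner S N hN a b hX hC (w := w) hw
  have h2 : ∑ w ∈ cls a b, C * (X ^ 2 + N * |(W S a b).1| *
      (2 * ‖(off S.toSys N w).2.1‖ + 1) ^ 2) ≤
      ∑ w ∈ cls a b, C * (X ^ 2 + N * |(W S a b).1| *
      (8 * ‖(off S.toSys N w).2.1‖ ^ 2 + 2)) := by
    refine Finset.sum_le_sum fun w _ => ?_
    gcongr
    nlinarith [sq_nonneg (2 * ‖(off S.toSys N w).2.1‖ - 1)]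
  have h3 : ∑ w ∈ cls a b, C * (X ^ 2 + N * |(W S a b).1| *
      (8 * ‖(off S.toSys N w).2.1‖ ^ 2 + 2)) =
      C * (X ^ 2 * ((cls a b).card : ℝ) + N * |(W S a b).1| *
        (8 * ∑ w ∈ cls a b, ‖(off S.toSys N w).2.1‖ ^ 2 + 2 * ((cls a b).card : ℝ))) := by
    rw [← Finset.mul_sum, Finset.sum_add_distrib, ← Finset.mul_sum, Finset.sum_add_distrib,
      ← Finset.mul_sum, Finset.sum_const, Finset.sum_const, nsmul_eq_mul, nsmul_eq_mul]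
    ring
  have h4 := moment_cls S N a b
  have hbin0 : 0 ≤ bin (S.a.1)⁻¹ (S.b.1)⁻¹ a b :=
    bin_nonneg (inv_pos.2 (ap S)).le (inv_pos.2 (bp S)).le a b
  have hbin1 : bin (S.a.1)⁻¹ (S.b.1)⁻¹ a b ≤ 1 :=
    bin_le_one (inv_pos.2 (ap S)).le (inv_pos.2 (bp S)).le (pq S) a b
  have h5 := l2_card S a b
  have h6 : ((cls a b).card : ℝ) ≤ |(W S a b).1| := by
    rw [h5]
    exact mul_le_of_le_one_left hw1.le hbin1
  have h7 : 8 * ∑ w ∈ cls a b, ‖(off S.toSys N w).2.1‖ ^ 2 + 2 * ((cls a b).card : ℝ) ≤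
      (200 * N ^ 2 + 2) * |(W S a b).1| := by
    linarith
  have h8 : C * (X ^ 2 * ((cls a b).card : ℝ) + N * |(W S a b).1| *
        (8 * ∑ w ∈ cls a b, ‖(off S.toSys N w).2.1‖ ^ 2 + 2 * ((cls a b).card : ℝ))) ≤
      C * (X ^ 2 * (bin (S.a.1)⁻¹ (S.b.1)⁻¹ a b * |(W S a b).1|) + N * |(W S a b).1| *
        ((200 * N ^ 2 + 2) * |(W S a b).1|)) := by
    rw [← h5]
    gcongr
  have h9 := ((h1.trans h2).trans h3.le).trans h8
  calc _ ≤ 2 * (C * (X ^ 2 * (bin (S.a.1)⁻¹ (S.b.1)⁻¹ a b * |(W S a b).1|) + N * |(W S a b).1| *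
        ((200 * N ^ 2 + 2) * |(W S a b).1|))) := by
        exact mul_le_mul_of_nonneg_left h9 (by norm_num)
    _ = _ := by ring

theorem l2_bound (S : Sys2) (N : ℕ) (hN : 1 ≤ N) : ∃ C : ℝ, 1 ≤ C ∧
    ∀ (a b : ℕ) (X : ℝ), 1 ≤ X →
      ∫⁻ ξ : ℂ, ENNReal.ofReal (V S N ξ a b ^ 2 * Real.exp (-(Real.pi * (‖ξ‖ ^ 2 / X ^ 2)))) ≤
      ENNReal.ofReal (C * (1 + X ^ 2 * (bin (S.a.1)⁻¹ (S.b.1)⁻¹ a b / |(W S a b).1|))) := by
  obtain ⟨C, hC1, hC⟩ := lat_finite S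
  have hN1 : (1 : ℝ) ≤ N := by exact_mod_cast hN
  have hK : (1 : ℝ) ≤ N * (200 * N ^ 2 + 2) := by nlinarith [sq_nonneg (N : ℝ)]
  refine ⟨2 * C * (N * (200 * N ^ 2 + 2)), by nlinarith, fun a b X hX => ?_⟩
  have hw1 := W1_pos S a b
  have hX0 : 0 < X := by linarith
  have e1 : ∀ ξ : ℂ, V S N ξ a b ^ 2 * Real.exp (-(Real.pi * (‖ξ‖ ^ 2 / X ^ 2))) =
      (|(W S a b).1| ^ 2)⁻¹ *
        (‖chi S N ξ a b‖ ^ 2 * Real.exp (-(Real.pi * (‖ξ‖ ^ 2 / X ^ 2)))) := by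
    intro ξ
    unfold V
    rw [← W1, div_pow, div_eq_mul_inv]
    ring
  simp only [e1]
  rw [← ofReal_integral_eq_lintegral_ofReal ((l2_integrable S N a b hX0).const_mul _)
    (Filter.Eventually.of_forall fun ξ => by positivity)]
  refine ENNReal.ofReal_le_ofReal ?_
  rw [integral_const_mul]
  have hbin0 : 0 ≤ bin (S.a.1)⁻¹ (S.b.1)⁻¹ a b :=
    bin_nonneg (inv_pos.2 (ap S)).le (inv_pos.2 (bp S)).le a b
  calc (|(W S a b).1| ^ 2)⁻¹ *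
        ∫ ξ : ℂ, ‖chi S N ξ a b‖ ^ 2 * Real.exp (-(Real.pi * (‖ξ‖ ^ 2 / X ^ 2)))
      ≤ (|(W S a b).1| ^ 2)⁻¹ *
        (2 * C * (X ^ 2 * (bin (S.a.1)⁻¹ (S.b.1)⁻¹ a b * |(W S a b).1|) +
        N * (200 * N ^ 2 + 2) * |(W S a b).1| ^ 2)) :=
        mul_le_mul_of_nonneg_left (l2_total S N hN hC1 a b hX hC) (by positivity)
    _ = 2 * C * (X ^ 2 * (bin (S.a.1)⁻¹ (S.b.1)⁻¹ a b / |(W S a b).1|)) +
        2 * C * (N * (200 * N ^ 2 + 2)) := by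
        field_simp
    _ ≤ 2 * C * (N * (200 * N ^ 2 + 2)) *
        (X ^ 2 * (bin (S.a.1)⁻¹ (S.b.1)⁻¹ a b / |(W S a b).1|)) +
        2 * C * (N * (200 * N ^ 2 + 2)) := by
        refine add_le_add_left ?_ _
        refine mul_le_mul_of_nonneg_right ?_ (by positivity)
        exact le_mul_of_one_le_right (by positivity) hK
    _ = _ := by ring

/-- The same for the integral over a disc. -/
theorem l2_disc (S : Sys2) (N : ℕ) (hN : 1 ≤ N) : ∃ C : ℝ, 1 ≤ C ∧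
    ∀ (a b : ℕ) (X : ℝ), 1 ≤ X →
      ∫⁻ ξ in {ξ : ℂ | ‖ξ‖ ≤ X}, ENNReal.ofReal (V S N ξ a b ^ 2) ≤
      ENNReal.ofReal (C * (1 + X ^ 2 * (bin (S.a.1)⁻¹ (S.b.1)⁻¹ a b / |(W S a b).1|))) := by
  obtain ⟨C, hC1, hC⟩ := l2_bound S N hN
  have hpi := Real.pi_pos
  have he : 1 ≤ Real.exp Real.pi := Real.one_le_exp hpi.le
  refine ⟨Real.exp Real.pi * C, one_le_mul_of_one_le_of_one_le he hC1, fun a b X hX => ?_⟩
  have hX0 : 0 < X := by linarith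
  have hms : MeasurableSet {ξ : ℂ | ‖ξ‖ ≤ X} := measurableSet_le measurable_norm measurable_const
  calc ∫⁻ ξ in {ξ : ℂ | ‖ξ‖ ≤ X}, ENNReal.ofReal (V S N ξ a b ^ 2)
      ≤ ∫⁻ ξ in {ξ : ℂ | ‖ξ‖ ≤ X}, ENNReal.ofReal (Real.exp Real.pi) * ENNReal.ofReal
        (V S N ξ a b ^ 2 * Real.exp (-(Real.pi * (‖ξ‖ ^ 2 / X ^ 2)))) := by
        refine setLIntegral_mono' hms fun ξ hξ => ?_
        rw [← ENNReal.ofReal_mul (by positivity)]
        refine ENNReal.ofReal_le_ofReal ?_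
        have h1 : ‖ξ‖ ^ 2 / X ^ 2 ≤ 1 := by
          rw [div_le_one (by positivity)]
          exact pow_le_pow_left₀ (norm_nonneg _) hξ 2
        have h2 : 1 ≤ Real.exp Real.pi * Real.exp (-(Real.pi * (‖ξ‖ ^ 2 / X ^ 2))) := by
          rw [← Real.exp_add]
          refine Real.one_le_exp ?_
          nlinarith
        nlinarith [sq_nonneg (V S N ξ a b)]
    _ ≤ ∫⁻ ξ : ℂ, ENNReal.ofReal (Real.exp Real.pi) * ENNReal.ofReal
        (V S N ξ a b ^ 2 * Real.exp (-(Real.pi * (‖ξ‖ ^ 2 / X ^ 2)))) := setLIntegral_le_lintegral _ _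
    _ = ENNReal.ofReal (Real.exp Real.pi) * ∫⁻ ξ : ℂ, ENNReal.ofReal
        (V S N ξ a b ^ 2 * Real.exp (-(Real.pi * (‖ξ‖ ^ 2 / X ^ 2)))) :=
        lintegral_const_mul' _ _ ENNReal.ofReal_ne_top
    _ ≤ ENNReal.ofReal (Real.exp Real.pi) * ENNReal.ofReal
        (C * (1 + X ^ 2 * (bin (S.a.1)⁻¹ (S.b.1)⁻¹ a b / |(W S a b).1|))) := by
        gcongr
        exact hC a b X hX
    _ = _ := by
        rw [← ENNReal.ofReal_mul (by positivity)]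
        congr 1
        ring

end Pool.Agent.H49.AB
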