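import Pool.Agent.H49.AB.Basic

/-!
# JOB AB-03. Elementary properties of `V`

`bin_le_one`: term of the binomial expansion of `(p+q)^(i+j) = 1`. `V_le_bin`: `‖chi‖ ≤ card (cls a b) = (a+b).choose b`
(`norm_ec`, `card_cls`); `bin p q a b = choose * p^a * q^b` with `p = (S.a.1)⁻¹`, `q = (S.b.1)⁻¹`.
`V_conv`: `chi_split` and the triangle inequality; the weights multiply (`S.a.1^a = S.a.1^p.1 * S.a.1^(a-p.1)` for `p.1 ≤ a`).
`V_step`: `V_conv` with `l = 1` (`AD 1 = {(0,1), (1,0)}`; `W S 1 0 = S.a`, `W S 0 1 = -S.b`; `V S N ξ 1 0 ≤ (S.a.1)⁻¹`,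
`V S N ξ 0 1 ≤ (S.b.1)⁻¹`). `V_step'`: the same with `l = a + b - 1` (the first letter is split off), or directly from
`sum_cls_head` and `off (c :: w) = off w + mul w * loff c` with `mul w` constant on the class.
-/

set_option autoImplicit false

namespace Pool.Agent.H49.AB

open Pool.Agent.H67.Tent Finset

theorem bin_nonneg {p q : ℝ} (hp : 0 ≤ p) (hq : 0 ≤ q) (i j : ℕ) : 0 ≤ bin p q i j := by
  unfold bin
  positivity

/-- generating function of the binomial weights -/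
theorem VFacts_sum_bin (p q x y : ℝ) (n : ℕ) :
    ∑ u ∈ AD n, bin p q u.1 u.2 * (x ^ u.1 * y ^ u.2) = (p * x + q * y) ^ n := by
  rw [(Commute.all (p * x) (q * y)).add_pow' n]
  refine Finset.sum_congr rfl fun u hu => ?_
  have hu' : u.1 + u.2 = n := mem_AD.1 hu
  unfold bin
  rw [nsmul_eq_mul, hu', Nat.choose_symm_of_eq_add hu'.symm, mul_pow, mul_pow]
  ring

theorem bin_le_one {p q : ℝ} (hp : 0 ≤ p) (hq : 0 ≤ q) (hpq : p + q = 1) (i j : ℕ) :
    bin p q i j ≤ 1 := by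
  have h := VFacts_sum_bin p q 1 1 (i + j)
  rw [mul_one, mul_one, hpq, one_pow] at h
  rw [← h]
  have h2 : bin p q i j = (fun u : ℕ × ℕ => bin p q u.1 u.2 * ((1 : ℝ) ^ u.1 * 1 ^ u.2)) (i, j) := by
    simp
  rw [h2]
  refine Finset.single_le_sum (f := fun u : ℕ × ℕ => bin p q u.1 u.2 * ((1 : ℝ) ^ u.1 * 1 ^ u.2))
    (fun u _ => ?_) (mem_AD.2 rfl)
  have := bin_nonneg hp hq u.1 u.2
  positivity

/-- generating function of the binomial weights -/
theorem sum_bin (p q x y : ℝ) (n : ℕ) :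
    ∑ u ∈ AD n, bin p q u.1 u.2 * (x ^ u.1 * y ^ u.2) = (p * x + q * y) ^ n :=
  VFacts_sum_bin p q x y n

theorem V_zero (S : Sys2) (N : ℕ) (ξ : ℂ) : V S N ξ 0 0 = 1 := by
  have h : (ξ * (off S.toSys N []).2.2).re = 0 := by
    have h1 : off S.toSys N [] = 0 := rfl
    rw [h1]
    simp
  unfold V chi
  rw [cls_zero, Finset.sum_singleton, h, ec_zero]
  simp

theorem V_le_bin (S : Sys2) (N : ℕ) (ξ : ℂ) (a b : ℕ) :
    V S N ξ a b ≤ bin (S.a.1)⁻¹ (S.b.1)⁻¹ a b := by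
  have ha := ap S
  have hb := bp S
  have h : ‖chi S N ξ a b‖ ≤ ((a + b).choose b : ℝ) := by
    unfold chi
    refine (norm_sum_le _ _).trans ?_
    rw [Finset.sum_congr rfl (fun w _ => norm_ec _), Finset.sum_const, nsmul_eq_mul, mul_one,
      card_cls]
  unfold V bin
  rw [div_eq_mul_inv, mul_inv, ← inv_pow, ← inv_pow, mul_assoc]
  exact mul_le_mul_of_nonneg_right h (by positivity)

theorem V_le_one (S : Sys2) (N : ℕ) (ξ : ℂ) (a b : ℕ) : V S N ξ a b ≤ 1 := by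
  have ha := ap S
  have hb := bp S
  exact (V_le_bin S N ξ a b).trans (bin_le_one (by positivity) (by positivity) (pq S) a b)

theorem V_conv (S : Sys2) (N : ℕ) (ξ : ℂ) (a b l : ℕ) (hl : l ≤ a + b) :
    V S N ξ a b ≤ ∑ p ∈ AD l, if p.1 ≤ a ∧ p.2 ≤ b then
      V S N ξ p.1 p.2 * V S N (ξ * (W S p.1 p.2).2.2) (a - p.1) (b - p.2) else 0 := by
  have ha := ap S
  have hb := bp S
  have hpos : 0 < S.a.1 ^ a * S.b.1 ^ b := by positivity
  have h1 : V S N ξ a b = ‖chi S N ξ a b‖ / (S.a.1 ^ a * S.b.1 ^ b) := rfl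
  rw [h1, chi_split S N ξ a b l hl, div_le_iff₀ hpos, Finset.sum_mul]
  refine (norm_sum_le _ _).trans (Finset.sum_le_sum fun p _ => ?_)
  split_ifs with hp
  · unfold V
    obtain ⟨hp1, hp2⟩ := hp
    obtain ⟨a', rfl⟩ := Nat.exists_eq_add_of_le hp1
    obtain ⟨b', rfl⟩ := Nat.exists_eq_add_of_le hp2
    rw [Nat.add_sub_cancel_left, Nat.add_sub_cancel_left, norm_mul, pow_add, pow_add]
    refine le_of_eq ?_
    field_simp
  · simp

theorem VFacts_AD_one : AD 1 = {(0, 1), (1, 0)} := rfl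

theorem V_step (S : Sys2) (N : ℕ) (ξ : ℂ) (a b : ℕ) (hab : 1 ≤ a + b) :
    V S N ξ a b ≤ (if 1 ≤ a then (S.a.1)⁻¹ * V S N (ξ * (W S 1 0).2.2) (a - 1) b else 0) +
      (if 1 ≤ b then (S.b.1)⁻¹ * V S N (ξ * (W S 0 1).2.2) a (b - 1) else 0) := by
  refine (V_conv S N ξ a b 1 hab).trans ?_
  rw [VFacts_AD_one, Finset.sum_pair (by simp), add_comm]
  refine add_le_add ?_ ?_
  · simp only [zero_le, and_true, Nat.sub_zero]
    split_ifs
    · refine mul_le_mul_of_nonneg_right ?_ (V_nonneg _ _ _ _ _)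
      have h := V_le_bin S N ξ 1 0
      unfold bin at h
      simpa using h
    · exact le_refl _
  · simp only [zero_le, true_and, Nat.sub_zero]
    split_ifs
    · refine mul_le_mul_of_nonneg_right ?_ (V_nonneg _ _ _ _ _)
      have h := V_le_bin S N ξ 0 1
      unfold bin at h
      simpa using h
    · exact le_refl _

theorem VFacts_head (S : Sys2) (N : ℕ) (ξ : ℂ) (c : Bool) (a b : ℕ) :
    ‖∑ w ∈ cls a b, ec (ξ * (off S.toSys N (c :: w)).2.2).re‖ = ‖chi S N ξ a b‖ := by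
  have h : ∑ w ∈ cls a b, ec (ξ * (off S.toSys N (c :: w)).2.2).re =
      chi S N ξ a b * ec (ξ * (W S a b * loff S.toSys N c).2.2).re := by
    unfold chi
    rw [Finset.sum_mul]
    refine Finset.sum_congr rfl fun w hw => ?_
    rw [off, mul_cls S hw, ← ec_add]
    congr 1
    show (ξ * ((off S.toSys N w).2.2 + (W S a b * loff S.toSys N c).2.2)).re = _
    rw [← Complex.add_re]
    congr 1
    ring
  rw [h, norm_mul, norm_ec, mul_one]

theorem V_step' (S : Sys2) (N : ℕ) (ξ : ℂ) (a b : ℕ) (hab : 1 ≤ a + b) :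
    V S N ξ a b ≤ (if 1 ≤ a then (S.a.1)⁻¹ * V S N ξ (a - 1) b else 0) +
      (if 1 ≤ b then (S.b.1)⁻¹ * V S N ξ a (b - 1) else 0) := by
  have ha := ap S
  have hb := bp S
  have hpos : 0 < S.a.1 ^ a * S.b.1 ^ b := by positivity
  have h1 : V S N ξ a b = ‖chi S N ξ a b‖ / (S.a.1 ^ a * S.b.1 ^ b) := rfl
  have h2 : chi S N ξ a b =
      (if 1 ≤ a then ∑ w ∈ cls (a - 1) b, ec (ξ * (off S.toSys N (false :: w)).2.2).re else 0) +
      (if 1 ≤ b then ∑ w ∈ cls a (b - 1), ec (ξ * (off S.toSys N (true :: w)).2.2).re else 0) := by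
    unfold chi
    exact sum_cls_head a b hab _
  rw [h1, h2, div_le_iff₀ hpos, add_mul]
  refine (norm_add_le _ _).trans (add_le_add ?_ ?_)
  · split_ifs with h
    · obtain ⟨a', rfl⟩ := Nat.exists_eq_add_of_le h
      rw [Nat.add_sub_cancel_left, VFacts_head]
      unfold V
      rw [pow_add]
      refine le_of_eq ?_
      field_simp
    · simp
  · split_ifs with h
    · obtain ⟨b', rfl⟩ := Nat.exists_eq_add_of_le h
      rw [Nat.add_sub_cancel_left, VFacts_head]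
      unfold V
      rw [pow_add S.b.1]
      refine le_of_eq ?_
      field_simp
    · simp

end Pool.Agent.H49.AB
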