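import Pool.Agent.H49.AB.NearL
import Pool.Agent.H49.AB.VFacts

/-!
# JOB AB-14. The weight of the paths which do not exit

For `|e.1| |W_{ij}|_1 ≤ 1/100`: `1 ≤ X/|W_{ij}|_1`, `X = 1/(100 |e.1|)`, so `bin i j ≤ X bin i j α^(-i) β^(-j)`, and
`∑_{AD n1} bin p q i j p^i q^j = (p² + q²)^n1 ≤ 0.6908^n1` (`sum_bin` with `x = p = α⁻¹`, `y = q = β⁻¹`; `p ≤ 0.8088`, `p + q = 1`). Norm of `e`:
`1 ≤ |e.1| ‖e‖_2² ‖e‖_3² ≤ |e.1| 10^(-4) (2.3 ‖ξ‖ + 1/100)² ≤ |e.1| 10^(-4) (2.31 ‖ξ‖)²`, so `X ≤ ‖ξ‖²` (`‖ξ‖ ≥ 1`, `kap3_bounds`).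
`near_first`: `e.1 ≠ 0`: otherwise `e = 0` (norm), but the third coordinate has `‖e‖_3 ≥ ‖kap3‖ ‖ξ‖ - 1/100 ≥ 0.99`.
-/

set_option autoImplicit false

namespace Pool.Agent.H49.AB

open Pool.Agent.H67.Tent Finset

theorem Rem_third (S : Sys2) (ξ : ℂ) (e : E) (he : Near S e ξ) (hξ : 1 ≤ ‖ξ‖) :
    0.99 ≤ ‖e.2.2‖ ∧ ‖e.2.2‖ ≤ 2.31 * ‖ξ‖ := by
  obtain ⟨-, -, -, h⟩ := he
  obtain ⟨k1, k2⟩ := kap3_bounds S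
  have h1 : ‖kap3 S * ξ‖ ≤ ‖e.2.2‖ + ‖e.2.2 - kap3 S * ξ‖ := by
    have := norm_sub_le e.2.2 (e.2.2 - kap3 S * ξ)
    rwa [sub_sub_cancel] at this
  have h2 : ‖e.2.2‖ ≤ ‖e.2.2 - kap3 S * ξ‖ + ‖kap3 S * ξ‖ := by
    have := norm_add_le (e.2.2 - kap3 S * ξ) (kap3 S * ξ)
    rwa [sub_add_cancel] at this
  rw [norm_mul] at h1 h2
  constructor
  · nlinarith
  · nlinarith

theorem near_first (S : Sys2) (ξ : ℂ) (e : E) (he : Near S e ξ) (hξ : 1 ≤ ‖ξ‖) : e.1 ≠ 0 := by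
  intro h
  have h3 := (Rem_third S ξ e he hξ).1
  have hne : e ≠ 0 := by
    intro h0
    rw [h0] at h3
    have : ‖((0 : E).2.2 : ℂ)‖ = 0 := norm_zero
    rw [this] at h3
    norm_num at h3
  have h4 := norm_ge' S he.1 hne
  rw [h, abs_zero, zero_mul, zero_mul] at h4
  linarith

theorem Rem_bound (S : Sys2) (ξ : ℂ) (e : E) (he : Near S e ξ) (hξ : 1 ≤ ‖ξ‖) :
    1 / (100 * |e.1|) ≤ ‖ξ‖ ^ 2 := by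
  have h1 := near_first S ξ e he hξ
  have hpos : 0 < |e.1| := abs_pos.2 h1
  have hne : e ≠ 0 := by
    rintro rfl
    exact h1 rfl
  have h4 := norm_ge' S he.1 hne
  have h3 := (Rem_third S ξ e he hξ).2
  have h2 := he.2.2.1
  rw [div_le_iff₀ (by positivity)]
  have e1 : ‖e.2.1‖ ^ 2 ≤ (1 / 100) ^ 2 := pow_le_pow_left₀ (norm_nonneg _) h2 2
  have e2 : ‖e.2.2‖ ^ 2 ≤ (2.31 * ‖ξ‖) ^ 2 := pow_le_pow_left₀ (norm_nonneg _) h3 2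
  have e3 : |e.1| * ‖e.2.1‖ ^ 2 * ‖e.2.2‖ ^ 2 ≤ |e.1| * (1 / 100) ^ 2 * (2.31 * ‖ξ‖) ^ 2 := by
    gcongr
  have e4 : 0 ≤ |e.1| * ‖ξ‖ ^ 2 := by positivity
  have e5 : |e.1| * (1 / 100) ^ 2 * (2.31 * ‖ξ‖) ^ 2 = (1 / 100) ^ 2 * 2.31 ^ 2 * (|e.1| * ‖ξ‖ ^ 2) := by
    ring
  rw [e5] at e3
  have e6 : ‖ξ‖ ^ 2 * (100 * |e.1|) = 100 * (|e.1| * ‖ξ‖ ^ 2) := by ring
  rw [e6]
  norm_num at e3 ⊢
  linarith

open Classical in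
theorem rem_le (S : Sys2) (ξ : ℂ) (e : E) (he : Near S e ξ) (hξ : 1 ≤ ‖ξ‖) (n1 : ℕ) :
    ∑ x ∈ AD n1, (if |e.1| * |(W S x.1 x.2).1| ≤ 1 / 100 then
      bin (S.a.1)⁻¹ (S.b.1)⁻¹ x.1 x.2 else 0) ≤ ‖ξ‖ ^ 2 * 0.6908 ^ n1 := by
  have h1 := near_first S ξ e he hξ
  have hpos : 0 < |e.1| := abs_pos.2 h1
  have ha := ap S
  have hb := bp S
  have hX := Rem_bound S ξ e he hξ
  have hX0 : 0 < 1 / (100 * |e.1|) := by positivity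
  obtain ⟨X, hXd⟩ : ∃ X : ℝ, X = 1 / (100 * |e.1|) := ⟨_, rfl⟩
  have hXe : X * |e.1| = 1 / 100 := by
    rw [hXd]
    field_simp
  rw [← hXd] at hX hX0
  have hbin : ∀ i j : ℕ, 0 ≤ bin (S.a.1)⁻¹ (S.b.1)⁻¹ i j := fun i j =>
    bin_nonneg (inv_pos.2 ha).le (inv_pos.2 hb).le i j
  have key : ∀ x ∈ AD n1, (if |e.1| * |(W S x.1 x.2).1| ≤ 1 / 100 then
      bin (S.a.1)⁻¹ (S.b.1)⁻¹ x.1 x.2 else 0) ≤
      X * (bin (S.a.1)⁻¹ (S.b.1)⁻¹ x.1 x.2 * ((S.a.1)⁻¹ ^ x.1 * (S.b.1)⁻¹ ^ x.2)) := by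
    intro x _
    have hw : (S.a.1)⁻¹ ^ x.1 * (S.b.1)⁻¹ ^ x.2 = (|(W S x.1 x.2).1|)⁻¹ := by
      rw [W1, mul_inv, inv_pow, inv_pow]
    have hwp := W1_pos S x.1 x.2
    have hB := hbin x.1 x.2
    rw [hw]
    split_ifs with hc
    · have h2 : 1 ≤ X * (|(W S x.1 x.2).1|)⁻¹ := by
        rw [← div_eq_mul_inv, le_div_iff₀ hwp, one_mul]
        have h3 : |e.1| * |(W S x.1 x.2).1| ≤ |e.1| * X := by
          rw [mul_comm |e.1| X, hXe]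
          exact hc
        exact le_of_mul_le_mul_left h3 hpos
      calc bin (S.a.1)⁻¹ (S.b.1)⁻¹ x.1 x.2 = bin (S.a.1)⁻¹ (S.b.1)⁻¹ x.1 x.2 * 1 := (mul_one _).symm
        _ ≤ bin (S.a.1)⁻¹ (S.b.1)⁻¹ x.1 x.2 * (X * (|(W S x.1 x.2).1|)⁻¹) :=
          mul_le_mul_of_nonneg_left h2 hB
        _ = _ := by ring
    · positivity
  refine (Finset.sum_le_sum key).trans ?_
  rw [← Finset.mul_sum, sum_bin]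
  have hp := pu S
  have hpl := pl S
  have hq := qu S
  have hql := ql S
  have hs : (S.a.1)⁻¹ * (S.a.1)⁻¹ + (S.b.1)⁻¹ * (S.b.1)⁻¹ ≤ 0.6908 := by nlinarith
  have hs0 : 0 ≤ (S.a.1)⁻¹ * (S.a.1)⁻¹ + (S.b.1)⁻¹ * (S.b.1)⁻¹ := by positivity
  exact mul_le_mul hX (pow_le_pow_left₀ hs0 hs n1) (pow_nonneg hs0 _) (by positivity)

end Pool.Agent.H49.AB
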