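import Pool.Agent.H49.AB.Multi
import Pool.Agent.H49.AB.BadTotal
import Pool.Agent.H49.AB.Rem

/-!
# JOB AB-15. Long crossings

`P i j := |e.1| * |(W S i j).1| ≤ 1/100` (`downset`); `‖ξ‖ ≥ 1` (as `‖W_{ab}‖_3 ≤ 1`), `e.1 ≠ 0` (`near_first`). Choose `J` with
`gam^J 201^A ≤ 1/8`, `x = 1/(8 * 201^A)`, `H, n0'` from `bad_total`.
`n1 = ⌊99 n/100⌋`, `v = vv S ξ a b`, `B1 = C (201 Φ/(n+1))^A`. For `1 ≤ i + j ≤ n1 + Ls H J` the induction hypothesis and `vv_bound` give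
`v i j ≤ C (Φ/(n-i-j+1))^A ≤ B1` for `n ≥ n0` (`n - i - j + 1 ≥ (n+1)/201`).
`exit_le` with `n1` (`vv_step`, `vv_zero`): `V ≤ ∑_exits ex * v + remainder`. If the exit `(i,j)` is not bad then `multi` at `ξ W_{ij}`, `(a-i, b-j)` (if
`i ≤ a`, `j ≤ b`; otherwise `v = 0`), `vv_shift`, `W_add`, gives `v i j ≤ gam^J B1`; if it is bad use `v i j ≤ B1`; weights: `sum_ex_le_one`, `bad_total` (the sum over
`range (n1+1)` is at most the sum over `range (n+1)`). The remainder is (`v ≤ 1`, `rem_le`) at most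
`‖ξ‖² 0.6908^n1`, `‖ξ‖ ≤ exp Φ/‖W_{ab}‖_3 ≤ exp Φ (0.6966)^(-n/2)` (`b3l`, `a3l`), so `≤ 1.5 exp(2Φ) ((0.6908)^99/(0.6966)^100)^(n/100)`,
`0.6908^99/0.6966^100 ≤ 0.64`, `Φ ≤ n/n0`: this is `≤ (1/4) (1/(n+1))^A` for `n ≥ n0`. Total
`≤ C (Φ/(n+1))^A (1/8 + 1/8 + 1/4)`.
-/

set_option autoImplicit false

namespace Pool.Agent.H49.AB

open Pool.Agent.H67.Tent Finset

theorem Long_W3_le (S : Sys2) (a b : ℕ) : ‖(W S a b).2.2‖ ≤ 1 := by
  rw [W3]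
  have h1 : ‖S.a.2.2‖ ^ a ≤ 1 := pow_le_one₀ (norm_nonneg _) (S.a3_le.trans (by norm_num))
  have h2 : ‖S.b.2.2‖ ^ b ≤ 1 := pow_le_one₀ (norm_nonneg _) (S.b3_le.trans (by norm_num))
  exact mul_le_one₀ h1 (pow_nonneg (norm_nonneg _) _) h2

theorem Long_W3_sq (S : Sys2) (a b : ℕ) : (0.6966 : ℝ) ^ (a + b) ≤ ‖(W S a b).2.2‖ ^ 2 := by
  rw [W3, mul_pow, ← pow_mul, ← pow_mul, mul_comm a 2, mul_comm b 2, pow_mul, pow_mul, pow_add]
  have h1 : (0.6966 : ℝ) ^ a ≤ (‖S.a.2.2‖ ^ 2) ^ a :=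
    pow_le_pow_left₀ (by norm_num) (le_trans (by norm_num) S.a3l) a
  have h2 : (0.6966 : ℝ) ^ b ≤ (‖S.b.2.2‖ ^ 2) ^ b :=
    pow_le_pow_left₀ (by norm_num) (b3l S) b
  exact mul_le_mul h1 h2 (by positivity) (by positivity)

/-- the numerical part of the bound for the remainder -/
theorem Long_num (n : ℕ) : (0.6908 : ℝ) ^ (99 * n / 100) ≤
    1.5 * 0.64 ^ (n / 100) * 0.6966 ^ n := by
  obtain ⟨k, s, hs, hn⟩ : ∃ k s : ℕ, s < 100 ∧ n = 100 * k + s :=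
    ⟨n / 100, n % 100, Nat.mod_lt _ (by norm_num), by omega⟩
  have h1 : n / 100 = k := by omega
  have h2 : 99 * k + (s - 1) ≤ 99 * n / 100 := by omega
  have h3 : (0.6908 : ℝ) ^ (99 * n / 100) ≤ 0.6908 ^ (99 * k + (s - 1)) :=
    pow_le_pow_of_le_one (by norm_num) (by norm_num) h2
  refine h3.trans ?_
  rw [h1, hn, pow_add, pow_add, pow_mul, pow_mul]
  have h4 : (0.6908 : ℝ) ^ 99 ≤ 0.64 * 0.6966 ^ 100 := by norm_num
  have h5 : ((0.6908 : ℝ) ^ 99) ^ k ≤ (0.64 * 0.6966 ^ 100) ^ k :=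
    pow_le_pow_left₀ (by norm_num) h4 k
  have h6 : (0.6908 : ℝ) ^ (s - 1) ≤ 1.5 * 0.6966 ^ s := by
    rcases s with _ | s
    · norm_num
    · rw [Nat.add_sub_cancel, pow_succ]
      have h7 : (0.6908 : ℝ) ^ s ≤ 0.6966 ^ s := pow_le_pow_left₀ (by norm_num) (by norm_num) s
      have h8 : (0 : ℝ) ≤ 0.6966 ^ s := by positivity
      linarith
  calc ((0.6908 : ℝ) ^ 99) ^ k * 0.6908 ^ (s - 1)
      ≤ (0.64 * 0.6966 ^ 100) ^ k * (1.5 * 0.6966 ^ s) :=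
        mul_le_mul h5 h6 (by positivity) (by positivity)
    _ = 1.5 * 0.64 ^ k * ((0.6966 ^ 100) ^ k * 0.6966 ^ s) := by
        rw [mul_pow]
        ring

theorem Long_exp : Real.exp (1 / 5) ≤ 1.25 := by
  have h := Real.exp_bound_div_one_sub_of_interval (x := 1 / 5) (by norm_num) (by norm_num)
  norm_num at h ⊢
  exact h

/-- the remainder is small -/
theorem Long_rem (A : ℕ) : ∃ n0 : ℕ, 1 ≤ n0 ∧ ∀ (Φ : ℝ) (n : ℕ), 1 ≤ Φ → n0 * Φ ≤ n →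
    Real.exp (2 * Φ) * (1.5 * 0.64 ^ (n / 100)) ≤ 1 / 4 * (1 / ((n : ℝ) + 1)) ^ A := by
  have ht := tendsto_pow_const_mul_const_pow_of_abs_lt_one A
    (show |(0.8 : ℝ)| < 1 by rw [abs_of_pos (by norm_num)]; norm_num)
  have hev := (ht.eventually (gt_mem_nhds (show (0 : ℝ) < 0.8 / (7.5 * 100 ^ A) by positivity)))
  rw [Filter.eventually_atTop] at hev
  obtain ⟨K, hK⟩ := hev
  refine ⟨1000 + 100 * K, by omega, fun Φ n hΦ hn => ?_⟩
  obtain ⟨k, hk⟩ : ∃ k, k = n / 100 := ⟨_, rfl⟩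
  rw [← hk]
  have hn1 : n + 1 ≤ 100 * (k + 1) := by omega
  have hn1' : (n : ℝ) + 1 ≤ 100 * ((k : ℝ) + 1) := by exact_mod_cast hn1
  have hK0 : (0 : ℝ) ≤ K := by positivity
  push_cast at hn
  have hn2 : (1000 + 100 * K : ℝ) ≤ n := by nlinarith
  have hn3 : 1000 + 100 * K ≤ n := by exact_mod_cast hn2
  have hkK : K ≤ k + 1 := by omega
  have h1 := hK (k + 1) hkK
  have h2 : 2 * Φ ≤ ((k + 1 : ℕ) : ℝ) * (1 / 5) := by
    push_cast
    nlinarith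
  have h3 : Real.exp (2 * Φ) ≤ 1.25 ^ (k + 1) := by
    refine (Real.exp_le_exp.2 h2).trans ?_
    rw [Real.exp_nat_mul]
    exact pow_le_pow_left₀ (Real.exp_pos _).le Long_exp _
  have h4 : Real.exp (2 * Φ) * (1.5 * 0.64 ^ k) ≤ 1.875 * 0.8 ^ k := by
    calc Real.exp (2 * Φ) * (1.5 * 0.64 ^ k) ≤ 1.25 ^ (k + 1) * (1.5 * 0.64 ^ k) :=
          mul_le_mul_of_nonneg_right h3 (by positivity)
      _ = 1.875 * (1.25 * 0.64) ^ k := by rw [mul_pow, pow_succ]; ring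
      _ = 1.875 * 0.8 ^ k := by norm_num
  refine h4.trans ?_
  have h5 : ((k + 1 : ℕ) : ℝ) ^ A * 0.8 ^ (k + 1) * (7.5 * 100 ^ A) ≤ 0.8 := by
    have := h1.le
    rwa [le_div_iff₀ (by positivity)] at this
  rw [one_div_pow, mul_one_div, le_div_iff₀ (by positivity)]
  have h6 : ((n : ℝ) + 1) ^ A ≤ 100 ^ A * ((k + 1 : ℕ) : ℝ) ^ A := by
    rw [← mul_pow]
    push_cast
    exact pow_le_pow_left₀ (by positivity) hn1' A
  have h7 : 1.875 * 0.8 ^ k * ((n : ℝ) + 1) ^ A ≤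
      1.875 * 0.8 ^ k * (100 ^ A * ((k + 1 : ℕ) : ℝ) ^ A) :=
    mul_le_mul_of_nonneg_left h6 (by positivity)
  refine h7.trans ?_
  rw [pow_succ] at h5
  nlinarith

theorem long_cross (S : Sys2) (A : ℕ) (e1 : ℝ) (he1 : 0 < e1) : ∃ n0 : ℕ,
    ∀ (C Φ : ℝ) (n : ℕ) (ξ : ℂ) (a b : ℕ) (e : E), 1 ≤ C → 1 ≤ Φ → n0 * Φ ≤ n → a + b = n →
      1 ≤ ‖ξ‖ * ‖(W S a b).2.2‖ → ‖ξ‖ * ‖(W S a b).2.2‖ ≤ Real.exp Φ →
      (∀ (ξ' : ℂ) (a' b' : ℕ), a' + b' < n → 1 ≤ ‖ξ'‖ * ‖(W S a' b').2.2‖ →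
        ‖ξ'‖ * ‖(W S a' b').2.2‖ ≤ Real.exp Φ → V S 1 ξ' a' b' ≤ C * (Φ / (a' + b' + 1)) ^ A) →
      Near S e ξ → |e.1| * S.a.1 ^ ⌊e1 * n⌋₊ ≤ 1 / 100 →
      V S 1 ξ a b ≤ C * (Φ / (a + b + 1)) ^ A := by
  classical
  obtain ⟨J, hJ⟩ : ∃ J : ℕ, gam ^ J * 201 ^ A ≤ 1 / 8 := by
    obtain ⟨J, hJ⟩ := exists_pow_lt_of_lt_one (show (0 : ℝ) < 1 / (8 * 201 ^ A) by positivity)
      (show gam < 1 by unfold gam; norm_num)
    refine ⟨J, ?_⟩
    have h1 := mul_le_mul_of_nonneg_right hJ.le (show (0 : ℝ) ≤ 201 ^ A by positivity)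
    refine h1.trans (le_of_eq ?_)
    have : (201 : ℝ) ^ A ≠ 0 := by positivity
    field_simp
  obtain ⟨H, nb, hbad⟩ := bad_total S e1 he1 J (1 / (8 * 201 ^ A)) (by positivity)
  obtain ⟨nr, hnr1, hrem⟩ := Long_rem A
  obtain ⟨L, hL⟩ : ∃ L, L = Ls H J := ⟨_, rfl⟩
  refine ⟨nb + nr + 200 * L + 1, fun C Φ n ξ a b e hC hΦ hn hab hξ1 hξ2 hIH hN hle => ?_⟩
  have hnn : nb + nr + 200 * L + 1 ≤ n := by
    have h1 : ((nb + nr + 200 * L + 1 : ℕ) : ℝ) ≤ n := by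
      refine le_trans ?_ hn
      have : (0 : ℝ) ≤ ((nb + nr + 200 * L + 1 : ℕ) : ℝ) := by positivity
      nlinarith
    exact_mod_cast h1
  have hnrn : (nr : ℝ) * Φ ≤ n := by
    refine le_trans ?_ hn
    apply mul_le_mul_of_nonneg_right _ (by linarith)
    push_cast
    have : (0 : ℝ) ≤ nb := by positivity
    have : (0 : ℝ) ≤ L := by positivity
    linarith
  have habR : (a : ℝ) + b = n := by exact_mod_cast hab
  rw [habR]
  have hΦ0 : 0 < Φ := by linarith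
  have hWp := W3_pos S a b
  have hξ : 1 ≤ ‖ξ‖ := by
    have h1 := Long_W3_le S a b
    nlinarith [norm_nonneg ξ]
  have he0 : e.1 ≠ 0 := near_first S ξ e hN hξ
  obtain ⟨n1, hn1⟩ : ∃ n1, n1 = 99 * n / 100 := ⟨_, rfl⟩
  obtain ⟨B0, hB0⟩ : ∃ B0 : ℝ, B0 = C * (Φ / ((n : ℝ) + 1)) ^ A := ⟨_, rfl⟩
  obtain ⟨B1, hB1⟩ : ∃ B1 : ℝ, B1 = C * (201 * Φ / ((n : ℝ) + 1)) ^ A := ⟨_, rfl⟩
  have hB0p : 0 < B0 := by rw [hB0]; positivity
  have hB10 : B1 = 201 ^ A * B0 := by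
    rw [hB1, hB0, mul_div_assoc, mul_pow]
    ring
  have hB1p : 0 < B1 := by rw [hB1]; positivity
  -- the induction hypothesis for `vv`
  have hvB : ∀ i j : ℕ, 1 ≤ i + j → i + j ≤ n1 + L → vv S ξ a b i j ≤ B1 := by
    intro i j h1 h2
    refine vv_bound S ξ a b i j hB1p.le fun hi hj ξ' hξ' => ?_
    have h3 := hIH ξ' (a - i) (b - j) (by omega) (by rw [hξ']; exact hξ1) (by rw [hξ']; exact hξ2)
    refine h3.trans ?_
    rw [hB1]
    refine mul_le_mul_of_nonneg_left ?_ (by linarith)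
    refine pow_le_pow_left₀ (by positivity) ?_ A
    have h4 : n + 1 ≤ 201 * ((a - i) + (b - j) + 1) := by omega
    have h5 : (n : ℝ) + 1 ≤ 201 * (((a - i : ℕ) : ℝ) + ((b - j : ℕ) : ℝ) + 1) := by
      exact_mod_cast h4
    rw [div_le_div_iff₀ (by positivity) (by positivity)]
    nlinarith
  have hpp : 0 ≤ (S.a.1)⁻¹ := (inv_pos.2 (ap S)).le
  have hqq : 0 ≤ (S.b.1)⁻¹ := (inv_pos.2 (bp S)).le
  have hD := downset S e hN.2.1
  have hexit := exit_le hpp hqq hD (fun i j => vv S ξ a b i j) n1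
    (fun i j hij _ => vv_step S ξ a b i j (by omega))
  rw [vv_zero] at hexit
  -- the exits
  have hpt : ∀ m ∈ range (n1 + 1), ∀ y ∈ AD m,
      ex (S.a.1)⁻¹ (S.b.1)⁻¹ (fun i j => |e.1| * |(W S i j).1| ≤ 1 / 100) y.1 y.2 *
        vv S ξ a b y.1 y.2 ≤
      gam ^ J * B1 *
        ex (S.a.1)⁻¹ (S.b.1)⁻¹ (fun i j => |e.1| * |(W S i j).1| ≤ 1 / 100) y.1 y.2 +
      B1 * (if ∃ r < J, ∃ s t, s + t ≤ Ls H r ∧
            ∃ e', Near S e' (ξ * (W S (y.1 + s) (y.2 + t)).2.2) ∧ |e'.1| * S.a.1 ^ H r ≤ 1 / 100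
          then ex (S.a.1)⁻¹ (S.b.1)⁻¹ (fun i j => |e.1| * |(W S i j).1| ≤ 1 / 100) y.1 y.2
          else 0) := by
    intro m hm y hy
    rw [mem_range] at hm
    rw [mem_AD] at hy
    have hex0 := ex_nonneg hpp hqq (fun i j => |e.1| * |(W S i j).1| ≤ 1 / 100) y.1 y.2
    have hexz : y.1 + y.2 = 0 →
        ex (S.a.1)⁻¹ (S.b.1)⁻¹ (fun i j => |e.1| * |(W S i j).1| ≤ 1 / 100) y.1 y.2 = 0 := by
      intro h0
      have h01 : y.1 = 0 := by omega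
      have h02 : y.2 = 0 := by omega
      rw [h01, h02]
      unfold ex
      rw [if_pos hD.1]
    generalize ex (S.a.1)⁻¹ (S.b.1)⁻¹ (fun i j => |e.1| * |(W S i j).1| ≤ 1 / 100) y.1 y.2 = X
      at hex0 hexz ⊢
    by_cases hy0 : y.1 + y.2 = 0
    · rw [hexz hy0]
      simp
    have hg0 : 0 ≤ gam ^ J * B1 * X :=
      mul_nonneg (mul_nonneg (pow_nonneg Multi_gam_nonneg _) hB1p.le) hex0
    by_cases hb : ∃ r < J, ∃ s t, s + t ≤ Ls H r ∧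
            ∃ e', Near S e' (ξ * (W S (y.1 + s) (y.2 + t)).2.2) ∧ |e'.1| * S.a.1 ^ H r ≤ 1 / 100
    · rw [if_pos hb]
      have h1 := hvB y.1 y.2 (by omega) (by omega)
      have h2 := mul_le_mul_of_nonneg_left h1 hex0
      linarith
    · rw [if_neg hb, mul_zero, add_zero, mul_comm X]
      refine mul_le_mul_of_nonneg_right ?_ hex0
      by_cases hc : y.1 ≤ a ∧ y.2 ≤ b
      · have e1 : vv S ξ a b y.1 y.2 = V S 1 (ξ * (W S y.1 y.2).2.2) (a - y.1) (b - y.2) := by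
          unfold vv
          rw [if_pos hc]
        rw [e1]
        refine multi S (ξ * (W S y.1 y.2).2.2) (a - y.1) (b - y.2) H J hB1p.le ?_ ?_ ?_
        · rw [← hL]
          obtain ⟨hc1, hc2⟩ := hc
          omega
        · intro r hr s t hst e' he'
          by_contra hcon
          push Not at hcon
          refine hb ⟨r, hr, s, t, hst, e', ?_, hcon⟩
          have e2 : (W S (y.1 + s) (y.2 + t)).2.2 = (W S y.1 y.2).2.2 * (W S s t).2.2 := by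
            rw [W_add]
            rfl
          rw [e2, ← mul_assoc]
          exact he'
        · intro s t hst
          rw [vv_shift S ξ hc.1 hc.2 s t]
          rw [← hL] at hst
          exact hvB _ _ (by omega) (by omega)
      · have e1 : vv S ξ a b y.1 y.2 = 0 := by
          unfold vv
          rw [if_neg hc]
        rw [e1]
        exact mul_nonneg (pow_nonneg Multi_gam_nonneg _) hB1p.le
  have hsum1 := Finset.sum_le_sum fun m (hm : m ∈ range (n1 + 1)) =>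
    Finset.sum_le_sum fun y (hy : y ∈ AD m) => hpt m hm y hy
  simp only [Finset.sum_add_distrib, ← Finset.mul_sum] at hsum1
  have hex1 : ∑ m ∈ range (n1 + 1), ∑ y ∈ AD m,
      ex (S.a.1)⁻¹ (S.b.1)⁻¹ (fun i j => |e.1| * |(W S i j).1| ≤ 1 / 100) y.1 y.2 ≤ 1 :=
    sum_ex_le_one hpp hqq (pq S) hD n1
  have hbt := hbad n (by omega) ξ e hN he0 hle
  have hbt1 : ∑ m ∈ range (n1 + 1), ∑ y ∈ AD m,
        (if ∃ r < J, ∃ s t, s + t ≤ Ls H r ∧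
            ∃ e', Near S e' (ξ * (W S (y.1 + s) (y.2 + t)).2.2) ∧ |e'.1| * S.a.1 ^ H r ≤ 1 / 100
          then ex (S.a.1)⁻¹ (S.b.1)⁻¹ (fun i j => |e.1| * |(W S i j).1| ≤ 1 / 100) y.1 y.2
          else 0) ≤ 1 / (8 * 201 ^ A) := by
    refine le_trans ?_ hbt
    refine Finset.sum_le_sum_of_subset_of_nonneg ?_ ?_
    · intro m hm
      rw [mem_range] at hm ⊢
      omega
    · intro m _ _
      refine Finset.sum_nonneg fun y _ => ?_
      split_ifs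
      · exact ex_nonneg hpp hqq _ _ _
      · exact le_rfl
  -- the remainder
  have hrem1 : ∑ x ∈ AD n1, (if |e.1| * |(W S x.1 x.2).1| ≤ 1 / 100 then
      bin (S.a.1)⁻¹ (S.b.1)⁻¹ x.1 x.2 * vv S ξ a b x.1 x.2 else 0) ≤ 1 / 4 * B0 := by
    have h1 : ∑ x ∈ AD n1, (if |e.1| * |(W S x.1 x.2).1| ≤ 1 / 100 then
      bin (S.a.1)⁻¹ (S.b.1)⁻¹ x.1 x.2 * vv S ξ a b x.1 x.2 else 0) ≤
      ∑ x ∈ AD n1, (if |e.1| * |(W S x.1 x.2).1| ≤ 1 / 100 then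
      bin (S.a.1)⁻¹ (S.b.1)⁻¹ x.1 x.2 else 0) := by
      refine Finset.sum_le_sum fun x _ => ?_
      split_ifs
      · have h2 := bin_nonneg hpp hqq x.1 x.2
        have h3 := vv_le_one S ξ a b x.1 x.2
        calc _ ≤ bin (S.a.1)⁻¹ (S.b.1)⁻¹ x.1 x.2 * 1 := mul_le_mul_of_nonneg_left h3 h2
          _ = _ := mul_one _
      · exact le_rfl
    refine h1.trans ((rem_le S ξ e hN hξ n1).trans ?_)
    have h4 : ‖ξ‖ ^ 2 * 0.6966 ^ n ≤ Real.exp (2 * Φ) := by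
      have h5 := Long_W3_sq S a b
      rw [hab] at h5
      have h6 : (‖ξ‖ * ‖(W S a b).2.2‖) ^ 2 ≤ Real.exp Φ ^ 2 :=
        pow_le_pow_left₀ (by positivity) hξ2 2
      rw [mul_pow] at h6
      have h7 : Real.exp (2 * Φ) = Real.exp Φ ^ 2 := by
        rw [← Real.exp_nat_mul]
        norm_num
      rw [h7]
      refine le_trans ?_ h6
      exact mul_le_mul_of_nonneg_left h5 (by positivity)
    have h8 := Long_num n
    rw [← hn1] at h8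
    have h9 := hrem Φ n hΦ hnrn
    have h10 : (1 / ((n : ℝ) + 1)) ^ A ≤ B0 := by
      rw [hB0]
      have h11 : (1 / ((n : ℝ) + 1)) ^ A ≤ (Φ / ((n : ℝ) + 1)) ^ A :=
        pow_le_pow_left₀ (by positivity) (by gcongr) A
      have h12 : 0 ≤ (Φ / ((n : ℝ) + 1)) ^ A := by positivity
      nlinarith
    calc ‖ξ‖ ^ 2 * 0.6908 ^ n1 ≤ ‖ξ‖ ^ 2 * (1.5 * 0.64 ^ (n / 100) * 0.6966 ^ n) :=
          mul_le_mul_of_nonneg_left h8 (by positivity)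
      _ = ‖ξ‖ ^ 2 * 0.6966 ^ n * (1.5 * 0.64 ^ (n / 100)) := by ring
      _ ≤ Real.exp (2 * Φ) * (1.5 * 0.64 ^ (n / 100)) :=
          mul_le_mul_of_nonneg_right h4 (by positivity)
      _ ≤ 1 / 4 * (1 / ((n : ℝ) + 1)) ^ A := h9
      _ ≤ 1 / 4 * B0 := by linarith
  have hg1 : gam ^ J * B1 ≤ 1 / 8 * B0 := by
    rw [hB10, ← mul_assoc]
    exact mul_le_mul_of_nonneg_right hJ hB0p.le
  have hg2 : B1 * (1 / (8 * 201 ^ A)) = 1 / 8 * B0 := by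
    rw [hB10]
    have : (201 : ℝ) ^ A ≠ 0 := by positivity
    field_simp
  have hg3 := mul_le_mul_of_nonneg_left hex1
    (mul_nonneg (pow_nonneg Multi_gam_nonneg J) hB1p.le)
  have hg4 := mul_le_mul_of_nonneg_left hbt1 hB1p.le
  rw [← hB0]
  linarith

end Pool.Agent.H49.AB
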