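import Pool.Agent.H49.AB.Stage

/-!
# JOB AB-09. Several stages

Claim, by downward induction on `r ≤ J` (induction on `J - r`): `vv S ξ a b s t ≤ gam^(J-r) * B` for all `s + t ≤ Ls H r`. `r = J`: `hv`.
Step: if `s > a` or `t > b` then `vv = 0`. Otherwise `vv S ξ a b s t = V S 1 (ξ W_{st}) (a-s) (b-t)` (definition) and `stage` with
`h = H r` and `B' = gam^(J-r-1) * B` applies: by `vv_shift` its `vv` at `(i, j)` is `vv S ξ a b (s+i) (t+j)`, `s+i+t+j ≤ Ls H r + H r + 8 = Ls H (r+1)`;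
`H r + 8 ≤ (a-s) + (b-t)` because `Ls H (r+1) ≤ Ls H J ≤ a + b` (`Ls` is monotone).
-/

set_option autoImplicit false

namespace Pool.Agent.H49.AB

open Pool.Agent.H67.Tent Finset

theorem Ls_mono (H : ℕ → ℕ) {i j : ℕ} (h : i ≤ j) : Ls H i ≤ Ls H j := by
  induction j, h using Nat.le_induction with
  | base => exact le_rfl
  | succ n _ ih =>
    refine le_trans ih ?_
    show Ls H n ≤ Ls H n + H n + 8
    omega

theorem Multi_gam_nonneg : (0 : ℝ) ≤ gam := by
  unfold gam; norm_num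

theorem Multi_claim (S : Sys2) (ξ : ℂ) (a b : ℕ) (H : ℕ → ℕ) (J : ℕ) {B : ℝ} (hB : 0 ≤ B)
    (hlen : Ls H J ≤ a + b)
    (hgood : ∀ r < J, ∀ s t, s + t ≤ Ls H r → ∀ e, Near S e (ξ * (W S s t).2.2) →
      1 / 100 < |e.1| * S.a.1 ^ H r)
    (hv : ∀ s t, s + t ≤ Ls H J → vv S ξ a b s t ≤ B) (d : ℕ) :
    ∀ r, r + d = J → ∀ s t, s + t ≤ Ls H r → vv S ξ a b s t ≤ gam ^ d * B := by
  induction d with
  | zero =>
    intro r hr s t hst
    have hr' : r = J := by omega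
    subst hr'
    rw [pow_zero, one_mul]
    exact hv s t hst
  | succ d ih =>
    intro r hr s t hst
    have hBd : 0 ≤ gam ^ d * B := mul_nonneg (pow_nonneg Multi_gam_nonneg d) hB
    have hL : Ls H (r + 1) = Ls H r + H r + 8 := rfl
    have hLJ : Ls H (r + 1) ≤ Ls H J := Ls_mono H (by omega)
    by_cases hc : s ≤ a ∧ t ≤ b
    · have e1 : vv S ξ a b s t = V S 1 (ξ * (W S s t).2.2) (a - s) (b - t) := by
        unfold vv; rw [if_pos hc]
      rw [e1, pow_succ', mul_assoc]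
      have hh : H r + 8 ≤ (a - s) + (b - t) := by
        obtain ⟨h1, h2⟩ := hc
        omega
      apply stage S (ξ * (W S s t).2.2) (a - s) (b - t) (H r) hBd hh
        (hgood r (by omega) s t hst)
      intro i j _ hij
      rw [vv_shift S ξ hc.1 hc.2 i j]
      apply ih (r + 1) (by omega) (s + i) (t + j)
      omega
    · have e1 : vv S ξ a b s t = 0 := by
        unfold vv; rw [if_neg hc]
      rw [e1]
      exact mul_nonneg (pow_nonneg Multi_gam_nonneg _) hB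

theorem multi (S : Sys2) (ξ : ℂ) (a b : ℕ) (H : ℕ → ℕ) (J : ℕ) {B : ℝ} (hB : 0 ≤ B)
    (hlen : Ls H J ≤ a + b)
    (hgood : ∀ r < J, ∀ s t, s + t ≤ Ls H r → ∀ e, Near S e (ξ * (W S s t).2.2) →
      1 / 100 < |e.1| * S.a.1 ^ H r)
    (hv : ∀ s t, s + t ≤ Ls H J → vv S ξ a b s t ≤ B) : V S 1 ξ a b ≤ gam ^ J * B := by
  rw [← vv_zero S ξ a b]
  exact Multi_claim S ξ a b H J hB hlen hgood hv J 0 (by omega) 0 0 (by simp [Ls])

end Pool.Agent.H49.AB
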