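import Pool.Agent.H49.AB.Basic

/-!
# JOB AB-02. Not white implies near a lattice element

`exists_near`. Let `n_j = round (Re (ξ a3^(j+1)))`, `j = 0..4`, `δ_j = n_j - Re (ξ a3^(j+1))`, `|δ_j| ≤ 1/800`. Put
`e = n_0 (a³ - a) + n_1 (a² - 1) + n_2 (a - a⁻¹) + n_3 + n_4 a⁻¹ ∈ Lam` (`S.Lam` is an additive group, closed under `a`, `a⁻¹`,
`ainv_mem`). For roots `y, z` of `x⁵ - x³ - 1` one has, with `D(z, y) = (z³ - z) y + (z² - 1) y² + (z - z⁻¹) y³ + y⁴ + z⁻¹ y⁵`,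
`D(z, y) (y - z) = (y/z) (f(y) - f(z)) = 0`, so `D(z, y) = 0` if `y ≠ z`, and `D(z, z) = 5 z⁴ - 3 z²` (multiply by `z`: use
`z⁵ = z³ + 1`). As `Re (ξ a3^(j+1)) = (ξ a3^(j+1) + conj ξ conj a3^(j+1))/2`, the component of `e` at the place of `z`
(`z = a.1, a.2.1, a.2.2`) is `∑ δ_j d_j(z) + ξ/2 D(z, a3) + (conj ξ)/2 D(z, conj a3)`. Here `a3 = a.2.2` and `conj a3` are different
from `a.1` (real), `a.2.1` (`ne23`, signs of the imaginary parts `im2`, `im3`), and `conj a3 ≠ a3`; so the last two terms vanish for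
`z = a.1, a.2.1`, and for `z = a3` they give `ξ/2 (5 a3⁴ - 3 a3²) = kap3 S * ξ`. Finally `z³ (z² - 1) = 1`, so `|z² - 1| = |z|⁻³` and
`∑ |d_j(z)| ≤ |z|⁻² + |z|⁻³ + |z|⁻⁴ + 1 + |z|⁻¹ ≤ 8` (`‖a3‖² ≥ 0.7329` gives `6.99`; the other places `≤ 4.6`), `8/800 = 1/100`.

`kap3_bounds`: `|5 z⁴ - 3 z²| = |z|² |5 z² - 3|`, `|5 z² - 3|² = 25 |z|⁴ - 30 Re(z²) + 9`, `Re(z²) = 2 (Re z)² - |z|²`,
`2 Re z = 1 + |z|² - |z - 1|²` for `z = a3` (numerically `‖kap3‖ = 2.2431`; `Re z = 0.3408`, `Re(z²) = -0.5007`,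
`|5 z² - 3|² = 37.46`). From `a3l, a3u, c3l, c3u`.
-/

set_option autoImplicit false

namespace Pool.Agent.H49.AB

open Pool.Agent.H67.Tent Finset

theorem near_normSq (S : Sys2) : Complex.normSq (5 * S.a.2.2 ^ 4 - 3 * S.a.2.2 ^ 2) =
    (S.a.2.2.re ^ 2 + S.a.2.2.im ^ 2) ^ 2 *
      (25 * (S.a.2.2.re ^ 2 + S.a.2.2.im ^ 2) ^ 2
        - 30 * (S.a.2.2.re ^ 2 - S.a.2.2.im ^ 2) + 9) := by
  obtain ⟨x, y⟩ := S.a.2.2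
  have h : (5 * (⟨x, y⟩ : ℂ) ^ 4 - 3 * (⟨x, y⟩ : ℂ) ^ 2) = (⟨x, y⟩ : ℂ) ^ 2 * (5 * (⟨x, y⟩ : ℂ) ^ 2 - 3) := by
    ring
  rw [h, map_mul, map_pow]
  have h1 : Complex.normSq (⟨x, y⟩ : ℂ) = x ^ 2 + y ^ 2 := by
    rw [Complex.normSq_mk]; ring
  have h2 : Complex.normSq (5 * (⟨x, y⟩ : ℂ) ^ 2 - 3) =
      25 * (x ^ 2 + y ^ 2) ^ 2 - 30 * (x ^ 2 - y ^ 2) + 9 := by
    rw [Complex.normSq_apply]
    simp [sq]
    ring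
  rw [h1, h2]

theorem near_sq {z : ℂ} : ‖z‖ ^ 2 = z.re ^ 2 + z.im ^ 2 := by
  rw [← Complex.normSq_eq_norm_sq, Complex.normSq_apply]; ring

theorem kap3_bounds (S : Sys2) : 1 ≤ ‖kap3 S‖ ∧ ‖kap3 S‖ ≤ 2.3 := by
  have h1 := S.a3l
  have h2 := S.a3u
  have h3 := S.c3l
  have h4 := S.c3u
  rw [near_sq] at h1 h2 h3 h4
  simp only [Complex.sub_re, Complex.one_re, Complex.sub_im, Complex.one_im, sub_zero] at h3 h4
  have hk : (2 * ‖kap3 S‖) ^ 2 = (S.a.2.2.re ^ 2 + S.a.2.2.im ^ 2) ^ 2 *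
      (25 * (S.a.2.2.re ^ 2 + S.a.2.2.im ^ 2) ^ 2
        - 30 * (S.a.2.2.re ^ 2 - S.a.2.2.im ^ 2) + 9) := by
    rw [← near_normSq, Complex.normSq_eq_norm_sq]
    unfold kap3
    rw [norm_div]
    simp
    ring
  set x := S.a.2.2.re
  set y := S.a.2.2.im
  have hr : x ^ 2 + y ^ 2 = x ^ 2 + y ^ 2 := rfl
  generalize hR : x ^ 2 + y ^ 2 = R at *
  have hx1 : 0.34045 ≤ x := by nlinarith
  have hx2 : x ≤ 0.3411 := by nlinarith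
  have hxx1 : 0.1159 ≤ x ^ 2 := by nlinarith
  have hxx2 : x ^ 2 ≤ 0.11636 := by nlinarith
  have hd : x ^ 2 - y ^ 2 = 2 * x ^ 2 - R := by rw [← hR]; ring
  rw [hd] at hk
  have hR1 : 0.537 ≤ R ^ 2 := by nlinarith
  have hR2 : R ^ 2 ≤ 0.538 := by nlinarith
  have hF1 : 37 ≤ 25 * R ^ 2 - 30 * (2 * x ^ 2 - R) + 9 := by linarith
  have hF2 : 25 * R ^ 2 - 30 * (2 * x ^ 2 - R) + 9 ≤ 38 := by linarith
  have hn := norm_nonneg (kap3 S)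
  constructor
  · have : (4 : ℝ) ≤ (2 * ‖kap3 S‖) ^ 2 := by
      rw [hk]
      calc (4 : ℝ) ≤ 0.537 * 37 := by norm_num
        _ ≤ R ^ 2 * (25 * R ^ 2 - 30 * (2 * x ^ 2 - R) + 9) :=
          mul_le_mul hR1 hF1 (by norm_num) (by positivity)
    nlinarith
  · have : (2 * ‖kap3 S‖) ^ 2 ≤ 4 * 2.3 ^ 2 := by
      rw [hk]
      calc R ^ 2 * (25 * R ^ 2 - 30 * (2 * x ^ 2 - R) + 9) ≤ 0.538 * 38 :=
          mul_le_mul hR2 hF2 (by linarith) (by norm_num)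
        _ ≤ 4 * 2.3 ^ 2 := by norm_num
    nlinarith

theorem near_zero {z y : ℂ} (hz : z ≠ 0) (hz5 : z ^ 5 = z ^ 3 + 1) (hy5 : y ^ 5 = y ^ 3 + 1)
    (hne : y ≠ z) :
    (z ^ 3 - z) * y + (z ^ 2 - 1) * y ^ 2 + (z - z⁻¹) * y ^ 3 + y ^ 4 + z⁻¹ * y ^ 5 = 0 := by
  have h : z * (y - z) * ((z ^ 3 - z) * y + (z ^ 2 - 1) * y ^ 2 + (z - z⁻¹) * y ^ 3 + y ^ 4
      + z⁻¹ * y ^ 5) = 0 := by
    have hi : z * z⁻¹ = 1 := mul_inv_cancel₀ hz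
    linear_combination (y - z) * (y ^ 5 - y ^ 3) * hi + y * hy5 - y * hz5
  have h2 : z * (y - z) ≠ 0 := mul_ne_zero hz (sub_ne_zero.2 hne)
  exact (mul_eq_zero.1 h).resolve_left h2

theorem near_diag {z : ℂ} (hz : z ≠ 0) :
    (z ^ 3 - z) * z + (z ^ 2 - 1) * z ^ 2 + (z - z⁻¹) * z ^ 3 + z ^ 4 + z⁻¹ * z ^ 5
      = 5 * z ^ 4 - 3 * z ^ 2 := by
  have hi : z * z⁻¹ = 1 := mul_inv_cancel₀ hz
  linear_combination (z ^ 4 - z ^ 2) * hi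

theorem near_small {z : ℂ} (hz5 : z ^ 5 = z ^ 3 + 1) (hz : z ≠ 0)
    (hw : ‖z⁻¹‖ ≤ 1.17) {d0 d1 d2 d3 d4 : ℝ} (h0 : |d0| ≤ 1 / 800) (h1 : |d1| ≤ 1 / 800)
    (h2 : |d2| ≤ 1 / 800) (h3 : |d3| ≤ 1 / 800) (h4 : |d4| ≤ 1 / 800) :
    ‖(d0 : ℂ) * (z ^ 3 - z) + d1 * (z ^ 2 - 1) + d2 * (z - z⁻¹) + d3 + d4 * z⁻¹‖ ≤ 1 / 100 := by
  have hi : z * z⁻¹ = 1 := mul_inv_cancel₀ hz
  have e1 : z ^ 2 - 1 = z⁻¹ ^ 3 := by
    have : z ^ 3 * (z ^ 2 - 1) = 1 := by linear_combination hz5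
    calc z ^ 2 - 1 = (z * z⁻¹) ^ 3 * (z ^ 2 - 1) := by rw [hi]; ring
      _ = z⁻¹ ^ 3 * (z ^ 3 * (z ^ 2 - 1)) := by ring
      _ = _ := by rw [this, mul_one]
  have e0 : z ^ 3 - z = z⁻¹ ^ 2 := by
    calc z ^ 3 - z = z * (z ^ 2 - 1) := by ring
      _ = z * z⁻¹ * z⁻¹ ^ 2 := by rw [e1]; ring
      _ = _ := by rw [hi, one_mul]
  have e2 : z - z⁻¹ = z⁻¹ ^ 4 := by
    calc z - z⁻¹ = z⁻¹ * (z ^ 2 - 1) := by linear_combination -z * hi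
      _ = _ := by rw [e1]; ring
  rw [e0, e1, e2]
  have hw0 := norm_nonneg z⁻¹
  have b : ∀ (d : ℝ) (k : ℕ), |d| ≤ 1 / 800 → ‖(d : ℂ) * z⁻¹ ^ k‖ ≤ 1 / 800 * 1.17 ^ k := by
    intro d k hd
    rw [norm_mul, Complex.norm_real, Real.norm_eq_abs, norm_pow]
    exact mul_le_mul hd (pow_le_pow_left₀ hw0 hw k) (by positivity) (by norm_num)
  have b0 := b d0 2 h0
  have b1 := b d1 3 h1
  have b2 := b d2 4 h2
  have b3 := b d3 0 h3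
  have b4 := b d4 1 h4
  rw [pow_zero, mul_one] at b3
  rw [pow_one] at b4
  have := norm_add_le ((d0 : ℂ) * z⁻¹ ^ 2 + d1 * z⁻¹ ^ 3 + d2 * z⁻¹ ^ 4 + d3) (d4 * z⁻¹)
  have := norm_add_le ((d0 : ℂ) * z⁻¹ ^ 2 + d1 * z⁻¹ ^ 3 + d2 * z⁻¹ ^ 4) d3
  have := norm_add_le ((d0 : ℂ) * z⁻¹ ^ 2 + d1 * z⁻¹ ^ 3) (d2 * z⁻¹ ^ 4)
  have := norm_add_le ((d0 : ℂ) * z⁻¹ ^ 2) (d1 * z⁻¹ ^ 3)
  norm_num at *
  linarith

theorem near_re (c : ℂ) : (c.re : ℂ) = (c + (starRingEnd ℂ) c) / 2 := by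
  rw [Complex.add_conj]; push_cast; ring

/-- The component of the lattice element at one place. -/
theorem near_place {z y ξ : ℂ} (hz : z ≠ 0) (hz5 : z ^ 5 = z ^ 3 + 1) (hy5 : y ^ 5 = y ^ 3 + 1)
    (hne : (starRingEnd ℂ) y ≠ z) (n0 n1 n2 n3 n4 : ℤ) :
    (n0 : ℂ) * (z ^ 3 - z) + n1 * (z ^ 2 - 1) + n2 * (z - z⁻¹) + n3 + n4 * z⁻¹ =
      (((n0 : ℝ) - (ξ * y ^ 1).re : ℝ) : ℂ) * (z ^ 3 - z)
        + (((n1 : ℝ) - (ξ * y ^ 2).re : ℝ) : ℂ) * (z ^ 2 - 1)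
        + (((n2 : ℝ) - (ξ * y ^ 3).re : ℝ) : ℂ) * (z - z⁻¹)
        + (((n3 : ℝ) - (ξ * y ^ 4).re : ℝ) : ℂ)
        + (((n4 : ℝ) - (ξ * y ^ 5).re : ℝ) : ℂ) * z⁻¹
        + ξ / 2 * ((z ^ 3 - z) * y + (z ^ 2 - 1) * y ^ 2 + (z - z⁻¹) * y ^ 3 + y ^ 4
          + z⁻¹ * y ^ 5) := by
  have hc5 : ((starRingEnd ℂ) y) ^ 5 = ((starRingEnd ℂ) y) ^ 3 + 1 := by
    have := congrArg (starRingEnd ℂ) hy5
    simpa using this
  have h := near_zero hz hz5 hc5 hne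
  push_cast
  rw [near_re, near_re, near_re, near_re, near_re]
  simp only [map_mul, map_pow, pow_one]
  linear_combination (starRingEnd ℂ) ξ / 2 * h

theorem near_inv {z : ℂ} (h : 0.7329 ≤ ‖z‖ ^ 2) : z ≠ 0 ∧ ‖z⁻¹‖ ≤ 1.17 := by
  have h0 : z ≠ 0 := by
    rintro rfl
    norm_num at h
  have hp : 0 < ‖z‖ := norm_pos_iff.2 h0
  refine ⟨h0, ?_⟩
  rw [norm_inv, inv_le_comm₀ hp (by norm_num)]
  by_contra hc
  push Not at hc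
  have : ‖z‖ ^ 2 < ((1.17 : ℝ)⁻¹) ^ 2 := pow_lt_pow_left₀ hc hp.le (by norm_num)
  norm_num at this h
  linarith

theorem exists_near (S : Sys2) (ξ : ℂ) (h : ¬ White S ξ) : ∃ e, Near S e ξ := by
  have hw : ∀ j : ℕ, j < 5 →
      |(ξ * S.a.2.2 ^ (j + 1)).re - round (ξ * S.a.2.2 ^ (j + 1)).re| ≤ 1 / 800 := by
    intro j hj
    by_contra hc
    push Not at hc
    exact h ⟨j, hj, hc⟩
  have hw' : ∀ j : ℕ, j < 5 →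
      |((round (ξ * S.a.2.2 ^ (j + 1)).re : ℤ) : ℝ) - (ξ * S.a.2.2 ^ (j + 1)).re| ≤ 1 / 800 := by
    intro j hj
    rw [abs_sub_comm]
    exact hw j hj
  have d0 := hw' 0 (by norm_num)
  have d1 := hw' 1 (by norm_num)
  have d2 := hw' 2 (by norm_num)
  have d3 := hw' 3 (by norm_num)
  have d4 := hw' 4 (by norm_num)
  norm_num only at d0 d1 d2 d3 d4
  generalize hn0 : round (ξ * S.a.2.2 ^ 1).re = n0 at d0
  generalize hn1 : round (ξ * S.a.2.2 ^ 2).re = n1 at d1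
  generalize hn2 : round (ξ * S.a.2.2 ^ 3).re = n2 at d2
  generalize hn3 : round (ξ * S.a.2.2 ^ 4).re = n3 at d3
  generalize hn4 : round (ξ * S.a.2.2 ^ 5).re = n4 at d4
  have q1 : S.a.1 ^ 5 = S.a.1 ^ 3 + 1 := congrArg Prod.fst S.a5
  have q2 : S.a.2.1 ^ 5 = S.a.2.1 ^ 3 + 1 := congrArg (fun z : E => z.2.1) S.a5
  have q3 : S.a.2.2 ^ 5 = S.a.2.2 ^ 3 + 1 := congrArg (fun z : E => z.2.2) S.a5
  have q1' : (S.a.1 : ℂ) ^ 5 = (S.a.1 : ℂ) ^ 3 + 1 := by exact_mod_cast q1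
  have r1 : (0.7329 : ℝ) ≤ ‖(S.a.1 : ℂ)‖ ^ 2 := by
    rw [Complex.norm_real, Real.norm_eq_abs, sq_abs]
    have := S.a1l
    nlinarith
  have r2 : (0.7329 : ℝ) ≤ ‖S.a.2.1‖ ^ 2 := le_trans (by norm_num) S.a2l
  obtain ⟨z1, i1⟩ := near_inv r1
  obtain ⟨z2, i2⟩ := near_inv r2
  obtain ⟨z3, i3⟩ := near_inv S.a3l
  have hm : ∀ (n : ℤ) (z : E), z ∈ S.Lam → (n : E) * z ∈ S.Lam := by
    intro n z hz
    rw [← zsmul_eq_mul]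
    exact S.Lam.zsmul_mem hz n
  have m1 : S.a ∈ S.Lam := by simpa using S.a_mul_mem 1 S.one_mem
  have m2 : S.a ^ 2 ∈ S.Lam := by
    rw [sq]; exact S.a_mul_mem _ m1
  have m3 : S.a ^ 3 ∈ S.Lam := by
    rw [pow_succ']; exact S.a_mul_mem _ m2
  have mi : S.a⁻¹ ∈ S.Lam := by simpa using ainv_mem S S.one_mem
  refine ⟨(n0 : E) * (S.a ^ 3 - S.a) + n1 * (S.a ^ 2 - 1) + n2 * (S.a - S.a⁻¹) + n3 * 1
    + n4 * S.a⁻¹, ?_, ?_, ?_, ?_⟩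
  · refine S.Lam.add_mem (S.Lam.add_mem (S.Lam.add_mem (S.Lam.add_mem ?_ ?_) ?_) ?_) ?_
    · exact hm _ _ (S.Lam.sub_mem m3 m1)
    · exact hm _ _ (S.Lam.sub_mem m2 S.one_mem)
    · exact hm _ _ (S.Lam.sub_mem m1 mi)
    · exact hm _ _ S.one_mem
    · exact hm _ _ mi
  · have hp := near_place (z := (S.a.1 : ℂ)) (ξ := ξ) z1 q1' q3
      (by
        intro hc
        have := congrArg Complex.im hc
        simp at this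
        exact S.im3.ne' this) n0 n1 n2 n3 n4
    rw [near_zero z1 q1' q3 (by
        intro hc
        have := congrArg Complex.im hc
        simp at this
        exact S.im3.ne' this), mul_zero, add_zero] at hp
    have hs := near_small q1' z1 i1 d0 d1 d2 d3 d4
    rw [← hp] at hs
    have he : (((n0 : E) * (S.a ^ 3 - S.a) + n1 * (S.a ^ 2 - 1) + n2 * (S.a - S.a⁻¹) + n3 * 1
      + n4 * S.a⁻¹ : E).1 : ℂ) = (n0 : ℂ) * ((S.a.1 : ℂ) ^ 3 - S.a.1) + n1 * ((S.a.1 : ℂ) ^ 2 - 1)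
        + n2 * ((S.a.1 : ℂ) - (S.a.1 : ℂ)⁻¹) + n3 + n4 * (S.a.1 : ℂ)⁻¹ := by
      have : ((n0 : E) * (S.a ^ 3 - S.a) + n1 * (S.a ^ 2 - 1) + n2 * (S.a - S.a⁻¹) + n3 * 1
        + n4 * S.a⁻¹ : E).1 = (n0 : ℝ) * (S.a.1 ^ 3 - S.a.1) + n1 * (S.a.1 ^ 2 - 1)
          + n2 * (S.a.1 - S.a.1⁻¹) + n3 * 1 + n4 * S.a.1⁻¹ := rfl
      rw [this]
      push_cast
      ring
    rw [← he, Complex.norm_real, Real.norm_eq_abs] at hs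
    exact hs
  · have hp := near_place (z := S.a.2.1) (ξ := ξ) z2 q2 q3
      (by
        intro hc
        have := congrArg Complex.im hc
        simp only [Complex.conj_im] at this
        have := S.im2
        have := S.im3
        linarith) n0 n1 n2 n3 n4
    rw [near_zero z2 q2 q3 S.ne23.symm, mul_zero, add_zero] at hp
    have hs := near_small q2 z2 i2 d0 d1 d2 d3 d4
    rw [← hp] at hs
    have he : ((n0 : E) * (S.a ^ 3 - S.a) + n1 * (S.a ^ 2 - 1) + n2 * (S.a - S.a⁻¹) + n3 * 1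
      + n4 * S.a⁻¹ : E).2.1 = (n0 : ℂ) * (S.a.2.1 ^ 3 - S.a.2.1) + n1 * (S.a.2.1 ^ 2 - 1)
        + n2 * (S.a.2.1 - S.a.2.1⁻¹) + n3 * 1 + n4 * S.a.2.1⁻¹ := rfl
    rw [he, mul_one]
    exact hs
  · have hp := near_place (z := S.a.2.2) (ξ := ξ) z3 q3 q3
      (by
        intro hc
        have := congrArg Complex.im hc
        simp only [Complex.conj_im] at this
        have := S.im3
        linarith) n0 n1 n2 n3 n4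
    rw [near_diag z3] at hp
    have hs := near_small q3 z3 i3 d0 d1 d2 d3 d4
    have he : ((n0 : E) * (S.a ^ 3 - S.a) + n1 * (S.a ^ 2 - 1) + n2 * (S.a - S.a⁻¹) + n3 * 1
      + n4 * S.a⁻¹ : E).2.2 = (n0 : ℂ) * (S.a.2.2 ^ 3 - S.a.2.2) + n1 * (S.a.2.2 ^ 2 - 1)
        + n2 * (S.a.2.2 - S.a.2.2⁻¹) + n3 * 1 + n4 * S.a.2.2⁻¹ := rfl
    rw [he, mul_one, hp]
    have hk : kap3 S * ξ = ξ / 2 * (5 * S.a.2.2 ^ 4 - 3 * S.a.2.2 ^ 2) := by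
      unfold kap3; ring
    rw [hk, add_sub_cancel_right]
    exact hs

end Pool.Agent.H49.AB
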