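import Pool.Agent.H49.AB.GaussInt

/-!
# JOB AB-26. Finite combinations of Gaussians: Parseval

Expand both sides into finite double sums; the left one is `∑ c_i c_k ∫ Nd s_i (z - Z_i) Nd s_k (z - Z_k) = ∑ c_i c_k Nd √(s_i²+s_k²) (Z_i - Z_k)`
(`Nd_conv`), the right one (with `‖x‖² = Re (x * conj x)`, `conj_ec`, `ec_add`) is `∑ c_i c_k ∫ exp(-π(s_i²+s_k²)‖ξ‖²) ec (Re ξ (Z_i - Z_k))`, the same by
`gauss_fourier` with `t = √(s_i²+s_k²)`. Both functions are nonnegative and integrable, so `ofReal_integral_eq_lintegral_ofReal`.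
-/

set_option autoImplicit false

namespace Pool.Agent.H49.AB

open Pool.Agent.H67.Tent Finset MeasureTheory

theorem Parseval_left {ι : Type*} (I : Finset ι) (c s : ι → ℝ) (Z : ι → ℂ) (hs : ∀ i ∈ I, 0 < s i) :
    ∫⁻ z : ℂ, ENNReal.ofReal ((∑ i ∈ I, c i * Nd (s i) (z - Z i)) ^ 2) =
    ENNReal.ofReal (∑ i ∈ I, ∑ k ∈ I, c i * c k * Nd (Real.sqrt (s i ^ 2 + s k ^ 2)) (Z i - Z k)) := by
  have h1 : ∀ z : ℂ, (∑ i ∈ I, c i * Nd (s i) (z - Z i)) ^ 2 =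
      ∑ i ∈ I, ∑ k ∈ I, c i * c k * (Nd (s i) (z - Z i) * Nd (s k) (z - Z k)) := by
    intro z
    rw [sq, Finset.sum_mul_sum]
    refine Finset.sum_congr rfl fun i _ => Finset.sum_congr rfl fun k _ => ?_
    ring
  have hI : ∀ i ∈ I, ∀ k ∈ I, Integrable fun z : ℂ =>
      c i * c k * (Nd (s i) (z - Z i) * Nd (s k) (z - Z k)) := fun i hi k hk =>
    (Nd_mul_integrable (hs i hi) (hs k hk) (Z i) (Z k)).const_mul _
  have h2 : Integrable fun z : ℂ => (∑ i ∈ I, c i * Nd (s i) (z - Z i)) ^ 2 := by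
    simp only [h1]
    exact integrable_finsetSum _ fun i hi => integrable_finsetSum _ fun k hk => hI i hi k hk
  rw [← ofReal_integral_eq_lintegral_ofReal h2 (Filter.Eventually.of_forall fun z => sq_nonneg _)]
  congr 1
  simp only [h1]
  rw [integral_finsetSum _ fun i hi => integrable_finsetSum _ fun k hk => hI i hi k hk]
  refine Finset.sum_congr rfl fun i hi => ?_
  rw [integral_finsetSum _ fun k hk => hI i hi k hk]
  refine Finset.sum_congr rfl fun k hk => ?_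
  rw [integral_const_mul, Nd_conv (hs i hi) (hs k hk)]

theorem Parseval_right {ι : Type*} (I : Finset ι) (c s : ι → ℝ) (Z : ι → ℂ) (hs : ∀ i ∈ I, 0 < s i) :
    ∫⁻ ξ : ℂ, ENNReal.ofReal (‖∑ i ∈ I, ((c i * Real.exp (-(Real.pi * (s i ^ 2 * ‖ξ‖ ^ 2))) : ℝ) : ℂ) *
      ec (ξ * Z i).re‖ ^ 2) =
    ENNReal.ofReal (∑ i ∈ I, ∑ k ∈ I, c i * c k * Nd (Real.sqrt (s i ^ 2 + s k ^ 2)) (Z i - Z k)) := by
  set T : ι → ι → ℝ := fun i k => Real.sqrt (s i ^ 2 + s k ^ 2) with hT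
  have hTp : ∀ i ∈ I, ∀ k ∈ I, 0 < T i k := by
    intro i hi k hk
    have h1 := hs i hi
    exact Real.sqrt_pos.mpr (by positivity)
  have hT2 : ∀ i k, T i k ^ 2 = s i ^ 2 + s k ^ 2 := fun i k => Real.sq_sqrt (by positivity)
  have h1 : ∀ ξ : ℂ, ((‖∑ i ∈ I, ((c i * Real.exp (-(Real.pi * (s i ^ 2 * ‖ξ‖ ^ 2))) : ℝ) : ℂ) *
      ec (ξ * Z i).re‖ ^ 2 : ℝ) : ℂ) =
      ∑ i ∈ I, ∑ k ∈ I, ((c i * c k : ℝ) : ℂ) *
        ((Real.exp (-(Real.pi * (T i k ^ 2 * ‖ξ‖ ^ 2))) : ℂ) * ec (ξ * (Z i - Z k)).re) := by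
    intro ξ
    rw [← Complex.normSq_eq_norm_sq, Complex.normSq_eq_conj_mul_self, map_sum, mul_comm,
      Finset.sum_mul_sum]
    refine Finset.sum_congr rfl fun i _ => Finset.sum_congr rfl fun k _ => ?_
    rw [map_mul, Complex.conj_ofReal, conj_ec]
    have e1 : (ξ * (Z i - Z k)).re = (ξ * Z i).re + -(ξ * Z k).re := by
      rw [mul_sub, Complex.sub_re]
      ring
    have e2 : Real.exp (-(Real.pi * (T i k ^ 2 * ‖ξ‖ ^ 2))) =
        Real.exp (-(Real.pi * (s i ^ 2 * ‖ξ‖ ^ 2))) * Real.exp (-(Real.pi * (s k ^ 2 * ‖ξ‖ ^ 2))) := by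
      rw [← Real.exp_add, hT2]
      congr 1
      ring
    rw [e1, ec_add, e2]
    push_cast
    ring
  have hI : ∀ i ∈ I, ∀ k ∈ I, Integrable fun ξ : ℂ => ((c i * c k : ℝ) : ℂ) *
        ((Real.exp (-(Real.pi * (T i k ^ 2 * ‖ξ‖ ^ 2))) : ℂ) * ec (ξ * (Z i - Z k)).re) :=
    fun i hi k hk => (gauss_integrable (hTp i hi k hk) (Z i - Z k)).const_mul _
  have h2 : Integrable fun ξ : ℂ =>
      ((‖∑ i ∈ I, ((c i * Real.exp (-(Real.pi * (s i ^ 2 * ‖ξ‖ ^ 2))) : ℝ) : ℂ) *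
      ec (ξ * Z i).re‖ ^ 2 : ℝ) : ℂ) := by
    simp only [h1]
    exact integrable_finsetSum _ fun i hi => integrable_finsetSum _ fun k hk => hI i hi k hk
  have h3 : Integrable fun ξ : ℂ =>
      (‖∑ i ∈ I, ((c i * Real.exp (-(Real.pi * (s i ^ 2 * ‖ξ‖ ^ 2))) : ℝ) : ℂ) *
      ec (ξ * Z i).re‖ ^ 2 : ℝ) := by
    have := h2.re
    simpa only [RCLike.re_to_complex, Complex.ofReal_re] using this
  rw [← ofReal_integral_eq_lintegral_ofReal h3 (Filter.Eventually.of_forall fun z => sq_nonneg _)]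
  congr 1
  have h4 : ((∫ ξ : ℂ, (‖∑ i ∈ I, ((c i * Real.exp (-(Real.pi * (s i ^ 2 * ‖ξ‖ ^ 2))) : ℝ) : ℂ) *
      ec (ξ * Z i).re‖ ^ 2 : ℝ) : ℝ) : ℂ) =
      ((∑ i ∈ I, ∑ k ∈ I, c i * c k * Nd (T i k) (Z i - Z k) : ℝ) : ℂ) := by
    rw [← integral_complex_ofReal]
    simp only [h1]
    rw [integral_finsetSum _ fun i hi => integrable_finsetSum _ fun k hk => hI i hi k hk,
      Complex.ofReal_sum]
    refine Finset.sum_congr rfl fun i hi => ?_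
    rw [integral_finsetSum _ fun k hk => hI i hi k hk, Complex.ofReal_sum]
    refine Finset.sum_congr rfl fun k hk => ?_
    rw [integral_const_mul, gauss_fourier (hTp i hi k hk)]
    push_cast
    ring
  exact_mod_cast h4

theorem parseval {ι : Type*} (I : Finset ι) (c s : ι → ℝ) (Z : ι → ℂ) (hs : ∀ i ∈ I, 0 < s i) :
    ∫⁻ z : ℂ, ENNReal.ofReal ((∑ i ∈ I, c i * Nd (s i) (z - Z i)) ^ 2) =
    ∫⁻ ξ : ℂ, ENNReal.ofReal (‖∑ i ∈ I, ((c i * Real.exp (-(Real.pi * (s i ^ 2 * ‖ξ‖ ^ 2))) : ℝ) : ℂ) *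
      ec (ξ * Z i).re‖ ^ 2) := by
  rw [Parseval_left I c s Z hs, Parseval_right I c s Z hs]

end Pool.Agent.H49.AB
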