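import Pool.Agent.H49.AB.Lat
import Pool.Agent.H49.AB.GW

/-!
# AB: sums over lattice points, basic rules

`word_sum`: `gs_gw` and `lat_gauss` with `r2 = R ‖W_{ab}‖_2`, `r3 = Q ‖W_{ab}‖_3`; `‖W‖_2² ‖W‖_3² = 1/|W|_1` (`W_prod`).
-/

set_option autoImplicit false

namespace Pool.Agent.H49.AB

open Pool.Agent.H67.Tent Finset

variable (S : Sys2) (N : ℕ)

theorem SG_mono {f g : E → ENNReal} (h : ∀ z, G S.toSys N z → f z ≤ g z) : SG S N f ≤ SG S N g :=
  ENNReal.tsum_le_tsum fun z => h z.1 z.2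

theorem SG_congr {f g : E → ENNReal} (h : ∀ z, G S.toSys N z → f z = g z) : SG S N f = SG S N g :=
  tsum_congr fun z => h z.1 z.2

theorem SG_add (f g : E → ENNReal) : SG S N (fun z => f z + g z) = SG S N f + SG S N g :=
  ENNReal.tsum_add

theorem SG_const_mul (c : ENNReal) (f : E → ENNReal) :
    SG S N (fun z => c * f z) = c * SG S N f := ENNReal.tsum_mul_left

theorem SG_sum {ι : Type*} (I : Finset ι) (f : ι → E → ENNReal) :
    SG S N (fun z => ∑ i ∈ I, f i z) = ∑ i ∈ I, SG S N (f i) := by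
  classical
  induction I using Finset.induction_on with
  | empty => simp [SG]
  | insert a s ha ih =>
    rw [Finset.sum_insert ha, ← ih, ← SG_add]
    congr 1
    funext z
    rw [Finset.sum_insert ha]

theorem SG_ofReal_sum {ι : Type*} (I : Finset ι) (f : ι → E → ℝ) (hf : ∀ i ∈ I, ∀ z, 0 ≤ f i z) :
    SG S N (fun z => ENNReal.ofReal (∑ i ∈ I, f i z)) =
      ∑ i ∈ I, SG S N (fun z => ENNReal.ofReal (f i z)) := by
  rw [← SG_sum]
  congr 1
  funext z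
  exact ENNReal.ofReal_sum_of_nonneg fun i hi => hf i hi z

theorem gs_pos (R Q : ℝ) (z : E) : 0 < gs R Q z := Real.exp_pos _

theorem gs_le_one (R Q : ℝ) (z : E) : gs R Q z ≤ 1 := by
  unfold gs
  rw [Real.exp_le_one_iff, neg_nonpos]
  have := Real.pi_pos
  positivity

theorem word_sum (hN : 1 ≤ N) : ∃ C : ℝ, 1 ≤ C ∧ ∀ (a b : ℕ) (R Q : ℝ), 0 < R → 0 < Q →
    ∀ w ∈ cls a b, SG S N (fun y => ENNReal.ofReal (gs R Q (gw S N w y))) ≤
      ENNReal.ofReal (C * (1 + R ^ 2 * Q ^ 2 / |(W S a b).1|)) := by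
  obtain ⟨C, hC, h⟩ := lat_gauss S N hN
  refine ⟨C, hC, fun a b R Q hR hQ w hw => ?_⟩
  have h2 := W2_pos S a b
  have h3 := W3_pos S a b
  have h1 := W1_pos S a b
  have key := h (R * ‖(W S a b).2.1‖) (Q * ‖(W S a b).2.2‖) (off S.toSys N w).2.1
    (off S.toSys N w).2.2 (by positivity) (by positivity)
  have e : (fun y => ENNReal.ofReal (gs R Q (gw S N w y))) = fun y : E =>
      ENNReal.ofReal (Real.exp (-(Real.pi *
        (‖y.2.1 - (off S.toSys N w).2.1‖ ^ 2 / (R * ‖(W S a b).2.1‖) ^ 2 +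
          ‖y.2.2 - (off S.toSys N w).2.2‖ ^ 2 / (Q * ‖(W S a b).2.2‖) ^ 2)))) := by
    funext y
    rw [gs_gw S N R Q hw y]
  rw [e]
  refine key.trans (ENNReal.ofReal_le_ofReal ?_)
  refine mul_le_mul_of_nonneg_left ?_ (by linarith)
  have hp := W_prod S a b
  have e2 : (R * ‖(W S a b).2.1‖) ^ 2 * (Q * ‖(W S a b).2.2‖) ^ 2 =
      R ^ 2 * Q ^ 2 / |(W S a b).1| := by
    rw [eq_div_iff h1.ne']
    calc _ = R ^ 2 * Q ^ 2 * (|(W S a b).1| * ‖(W S a b).2.1‖ ^ 2 * ‖(W S a b).2.2‖ ^ 2) := by ring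
      _ = _ := by rw [hp, mul_one]
  rw [e2]

end Pool.Agent.H49.AB
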