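import Pool.Agent.H49.AB.Basic

/-!
# JOB AB-10. Two lattice elements: separation by the norm

`sep_far`: `e'' = e * W S (i+s) (j+t) ∈ Lam`. First coordinates: `|e''.1| ≥ |e.1| |W_{ij}|_1 > 1/100 ≥ |e'.1|`, so `e'' ≠ e'`, and
`|e''.1| ≤ (b.1/100) * b.1^L` (each of the `s + t ≤ L` letters multiplies by at most `b.1`; `b.1 ≤ 5.2285`). Second: `‖e''‖ ≤
(1/100) (1/6)^(L+1) (1.0505)^L` (`‖a2‖ ≤ 1.0505`, `‖b2‖ ≤ 1`). Third: both are within `1/100` of `kap3 ξ W` (`‖W‖_3 ≤ 1`). Norm `≥ 1`: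
`1 ≤ 2 (5.2285)^(L+1)/100 * (‖e'‖_2 + ‖e''‖_2)² * (2/100)²`, so `‖e'‖_2 + ‖e''‖_2 ≥ (1/3)^(L+1)` (`2.2866 ≤ 3`), and
`‖e''‖_2 ≤ (1/2) (1/3)^(L+1)`.

`sep_pair`: `i1 < i` (else `|W_{i1 j1}|_1 ≥ b.1 |W_{ij}|_1 > b.1 X`). Let `d = j1 - j`. Compare `f = e' * W S 0 d` and
`f1 = e1' * W S (i - i1) 0`, both at the position `(i + s, j1 + t)`. `|f.1| ≤ (1/100) α^(-h) β^d`, `|f1.1| ≤ (1/100) α^(-h) α^(i-i1)` and
`α^(i-i1) < β^(d+1)` (from `X < |W_{i1 j1}|_1`, `|W_{ij}|_1 ≤ β X`); `‖f‖_2 ≤ 1/100`, `‖f1‖_2² ≤ 10^(-4) ‖a2‖^(2(i-i1)) ≤ 10^(-4) α^(i-i1)`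
(`‖a2‖² ≤ 1.1034 ≤ α`); `‖f - f1‖_3 ≤ 2/100`. The norm of `f - f1` is at most
`(2/100) α^(-h) β^(d+1) * 4 * 10^(-4) β^(d+1) * 4 * 10^(-4) < 1`, because `β ≤ α^10` and `20 (d+1) ≤ h`. Hence `f = f1`, and at the second
place `‖e1'‖ ‖a2‖^(i-i1) = ‖e'‖ ‖b2‖^d ≤ (53/100)^d` (`‖b2‖² ≤ 0.2745 ≤ 0.53²`), `‖a2‖ ≥ 1`.
-/

set_option autoImplicit false

namespace Pool.Agent.H49.AB

open Pool.Agent.H67.Tent Finset

theorem sep_a_one (S : Sys2) : 1 ≤ S.a.1 := by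
  have := S.a1l
  linarith

theorem sep_b_one (S : Sys2) : 1 ≤ S.b.1 := by
  have := b1l S
  linarith

theorem sep_a2_le (S : Sys2) : ‖S.a.2.1‖ ≤ 1.0505 := by
  have := S.a2u
  by_contra hc
  push Not at hc
  nlinarith [norm_nonneg S.a.2.1]

theorem sep_b2_le (S : Sys2) : ‖S.b.2.1‖ ≤ 53 / 100 := by
  have := b2u S
  by_contra hc
  push Not at hc
  nlinarith [norm_nonneg S.b.2.1]

theorem sep_W3_le (S : Sys2) (i j : ℕ) : ‖(W S i j).2.2‖ ≤ 1 := by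
  have h1 : ‖S.a.2.2‖ ≤ 1 := by
    have := S.a3u
    by_contra hc
    push Not at hc
    nlinarith
  have h2 : ‖S.b.2.2‖ ≤ 1 := by
    have := b3u S
    by_contra hc
    push Not at hc
    nlinarith
  rw [W3]
  exact mul_le_one₀ (pow_le_one₀ (norm_nonneg _) h1) (by positivity)
    (pow_le_one₀ (norm_nonneg _) h2)

/-- The third coordinate: both are near the same multiple of `ξ`. -/
theorem sep_third (S : Sys2) {e : E} {ξ : ℂ} (he : Near S e ξ) (i j : ℕ) :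
    ‖(W S i j * e).2.2 - kap3 S * (ξ * (W S i j).2.2)‖ ≤ 1 / 100 := by
  have h : (W S i j * e).2.2 - kap3 S * (ξ * (W S i j).2.2) =
      (W S i j).2.2 * (e.2.2 - kap3 S * ξ) := by
    show (W S i j).2.2 * e.2.2 - kap3 S * (ξ * (W S i j).2.2) = _
    ring
  rw [h, norm_mul]
  calc _ ≤ 1 * (1 / 100) := mul_le_mul (sep_W3_le S i j) he.2.2.2 (norm_nonneg _) (by norm_num)
    _ = 1 / 100 := by norm_num

theorem sep_far (S : Sys2) (ξ : ℂ) (e e' : E) (i j s t L : ℕ) (he : Near S e ξ)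
    (h1 : 1 / 100 < |e.1| * |(W S i j).1|) (h1' : |e.1| * |(W S i j).1| ≤ S.b.1 * (1 / 100))
    (h2 : ‖(W S i j).2.1‖ ≤ (1 / 6) ^ (L + 1)) (hst : s + t ≤ L)
    (he' : Near S e' (ξ * (W S (i + s) (j + t)).2.2)) :
    1 / 2 * (1 / 3) ^ (L + 1) ≤ ‖e'.2.1‖ := by
  have ha1 := sep_a_one S
  have hb1 := sep_b_one S
  have hbu := b1u S
  have hab : S.a.1 ≤ S.b.1 := by
    have := b1l S
    have := S.a1u
    linarith
  have hmem : W S (i + s) (j + t) * e ∈ S.Lam := W_mul_mem S _ _ he.1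
  have hWst : 1 ≤ |(W S s t).1| := by
    rw [W1]
    exact one_le_mul_of_one_le_of_one_le (one_le_pow₀ ha1) (one_le_pow₀ hb1)
  have hWst' : |(W S s t).1| ≤ S.b.1 ^ L := by
    rw [W1]
    calc S.a.1 ^ s * S.b.1 ^ t ≤ S.b.1 ^ s * S.b.1 ^ t :=
          mul_le_mul_of_nonneg_right (pow_le_pow_left₀ (by linarith) hab s) (by positivity)
      _ = S.b.1 ^ (s + t) := by rw [pow_add]
      _ ≤ S.b.1 ^ L := pow_le_pow_right₀ hb1 hst
  have hf1 : |(W S (i + s) (j + t) * e).1| = |e.1| * |(W S i j).1| * |(W S s t).1| := by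
    rw [W_add]
    show |(W S i j).1 * (W S s t).1 * e.1| = _
    rw [abs_mul, abs_mul]
    ring
  have hlow : 1 / 100 < |(W S (i + s) (j + t) * e).1| := by
    rw [hf1]
    calc (1 / 100 : ℝ) < |e.1| * |(W S i j).1| := h1
      _ = |e.1| * |(W S i j).1| * 1 := by ring
      _ ≤ _ := mul_le_mul_of_nonneg_left hWst (by positivity)
  have hup : |(W S (i + s) (j + t) * e).1| ≤ 5.2285 ^ (L + 1) / 100 := by
    rw [hf1]
    calc |e.1| * |(W S i j).1| * |(W S s t).1| ≤ (S.b.1 * (1 / 100)) * S.b.1 ^ L :=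
          mul_le_mul h1' hWst' (abs_nonneg _) (by positivity)
      _ = S.b.1 ^ (L + 1) / 100 := by ring
      _ ≤ 5.2285 ^ (L + 1) / 100 := by
          have := pow_le_pow_left₀ (by linarith) hbu (L + 1)
          linarith
  have hne : W S (i + s) (j + t) * e - e' ≠ 0 := by
    intro h
    rw [sub_eq_zero] at h
    rw [h] at hlow
    exact absurd he'.2.1 (not_le.2 hlow)
  have hn := norm_ge' S (S.Lam.sub_mem hmem he'.1) hne
  have hz1 : |(W S (i + s) (j + t) * e - e').1| ≤ 2 * 5.2285 ^ (L + 1) / 100 := by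
    have h3 : (1 : ℝ) ≤ 5.2285 ^ (L + 1) := one_le_pow₀ (by norm_num)
    have h4 := he'.2.1
    have h5 : |(W S (i + s) (j + t) * e - e').1| ≤ |(W S (i + s) (j + t) * e).1| + |e'.1| :=
      abs_sub _ _
    linarith
  have hz3 : ‖(W S (i + s) (j + t) * e - e').2.2‖ ≤ 2 / 100 := by
    have h3 := sep_third S he (i + s) (j + t)
    have h4 := he'.2.2.2
    have h5 : (W S (i + s) (j + t) * e - e').2.2 =
        ((W S (i + s) (j + t) * e).2.2 - kap3 S * (ξ * (W S (i + s) (j + t)).2.2)) -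
        (e'.2.2 - kap3 S * (ξ * (W S (i + s) (j + t)).2.2)) := by
      show (W S (i + s) (j + t) * e).2.2 - e'.2.2 = _
      ring
    rw [h5]
    refine (norm_sub_le _ _).trans ?_
    linarith
  have hf2 : ‖(W S (i + s) (j + t) * e).2.1‖ ≤ 1 / 2 * (1 / 3) ^ (L + 1) := by
    have h3 : ‖(W S (i + s) (j + t) * e).2.1‖ =
        ‖(W S i j).2.1‖ * ‖(W S s t).2.1‖ * ‖e.2.1‖ := by
      rw [W_add]
      show ‖(W S i j).2.1 * (W S s t).2.1 * e.2.1‖ = _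
      rw [norm_mul, norm_mul]
    have h4 : ‖(W S s t).2.1‖ ≤ 1.0505 ^ (L + 1) := by
      rw [W2]
      calc ‖S.a.2.1‖ ^ s * ‖S.b.2.1‖ ^ t ≤ 1.0505 ^ s * 1.0505 ^ t := by
            refine mul_le_mul (pow_le_pow_left₀ (norm_nonneg _) (sep_a2_le S) s)
              (pow_le_pow_left₀ (norm_nonneg _) ((sep_b2_le S).trans (by norm_num)) t)
              (by positivity) (by positivity)
        _ = 1.0505 ^ (s + t) := by rw [pow_add]
        _ ≤ 1.0505 ^ (L + 1) := pow_le_pow_right₀ (by norm_num) (by omega)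
    have h5 := he.2.2.1
    rw [h3]
    calc ‖(W S i j).2.1‖ * ‖(W S s t).2.1‖ * ‖e.2.1‖ ≤
          (1 / 6) ^ (L + 1) * 1.0505 ^ (L + 1) * (1 / 100) :=
          mul_le_mul (mul_le_mul h2 h4 (norm_nonneg _) (by positivity)) h5 (norm_nonneg _)
            (by positivity)
      _ = (1.0505 / 6) ^ (L + 1) * (1 / 100) := by
          rw [← mul_pow]
          norm_num
      _ ≤ (1 / 3) ^ (L + 1) * (1 / 100) := by
          have := pow_le_pow_left₀ (by norm_num : (0 : ℝ) ≤ 1.0505 / 6)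
            (by norm_num : (1.0505 / 6 : ℝ) ≤ 1 / 3) (L + 1)
          linarith
      _ ≤ 1 / 2 * (1 / 3) ^ (L + 1) := by
          have : (0 : ℝ) < (1 / 3) ^ (L + 1) := by positivity
          linarith
  have hz2 : (1 / 3) ^ (L + 1) ≤ ‖(W S (i + s) (j + t) * e - e').2.1‖ := by
    by_contra hc
    push Not at hc
    set P : ℝ := 5.2285 ^ (L + 1) with hP
    set Q : ℝ := (1 / 3) ^ (L + 1) with hQ
    have hPQ : P * Q ^ 2 ≤ 1 := by
      rw [hP, hQ, ← pow_mul, mul_comm (L + 1) 2, pow_mul, ← mul_pow]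
      exact pow_le_one₀ (by norm_num) (by norm_num)
    have hPp : 0 < P := by positivity
    have hQp : 0 < Q := by positivity
    have h6 : ‖(W S (i + s) (j + t) * e - e').2.1‖ ^ 2 ≤ Q ^ 2 :=
      pow_le_pow_left₀ (norm_nonneg _) hc.le 2
    have h7 : ‖(W S (i + s) (j + t) * e - e').2.2‖ ^ 2 ≤ (2 / 100) ^ 2 :=
      pow_le_pow_left₀ (norm_nonneg _) hz3 2
    have h8 : |(W S (i + s) (j + t) * e - e').1| * ‖(W S (i + s) (j + t) * e - e').2.1‖ ^ 2 *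
        ‖(W S (i + s) (j + t) * e - e').2.2‖ ^ 2 ≤ (2 * P / 100) * Q ^ 2 * (2 / 100) ^ 2 :=
      mul_le_mul (mul_le_mul hz1 h6 (by positivity) (by positivity)) h7 (by positivity)
        (by positivity)
    have h9 : (2 * P / 100) * Q ^ 2 * (2 / 100) ^ 2 = P * Q ^ 2 * (8 / 1000000) := by ring
    rw [h9] at h8
    linarith
  have h10 : ‖(W S (i + s) (j + t) * e - e').2.1‖ ≤
      ‖(W S (i + s) (j + t) * e).2.1‖ + ‖e'.2.1‖ := norm_sub_le _ _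
  linarith

theorem sep_b_pow (S : Sys2) : S.b.1 ≤ S.a.1 ^ 10 := by
  have h1 := S.a1l
  have h2 : (1.2365 : ℝ) ^ 10 ≤ S.a.1 ^ 10 := pow_le_pow_left₀ (by norm_num) h1 10
  have h3 : (5.2285 : ℝ) ≤ 1.2365 ^ 10 := by norm_num
  have := b1u S
  linarith

theorem sep_pair (S : Sys2) (ξ : ℂ) (X : ℝ) (e' e1' : E) (i j i1 j1 s t h : ℕ) (hj : j < j1)
    (hX : 0 < X) (h1 : X < |(W S i j).1|) (h2 : |(W S i j).1| ≤ S.b.1 * X)
    (h3 : X < |(W S i1 j1).1|) (h4 : |(W S i1 j1).1| ≤ S.b.1 * X)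
    (he' : Near S e' (ξ * (W S (i + s) (j + t)).2.2))
    (he1' : Near S e1' (ξ * (W S (i1 + s) (j1 + t)).2.2))
    (hh : |e'.1| * S.a.1 ^ h ≤ 1 / 100) (hh1 : |e1'.1| * S.a.1 ^ h ≤ 1 / 100)
    (hd : 20 * (j1 - j + 1) ≤ h) : ‖e1'.2.1‖ ≤ (53 / 100) ^ (j1 - j) := by
  have ha1 := sep_a_one S
  have hb1 := sep_b_one S
  have ha0 := ap S
  have hb0 := bp S
  obtain ⟨d, rfl⟩ : ∃ d, j1 = j + d := ⟨j1 - j, by omega⟩
  rw [Nat.add_sub_cancel_left] at hd ⊢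
  have hi : i1 < i := by
    by_contra hc
    push Not at hc
    rw [W1] at h1 h4
    have h5 : S.a.1 ^ i * (S.b.1 ^ j * S.b.1) ≤ S.a.1 ^ i1 * S.b.1 ^ (j + d) := by
      refine mul_le_mul (pow_le_pow_right₀ ha1 hc) ?_ (by positivity) (by positivity)
      rw [← pow_succ]
      exact pow_le_pow_right₀ hb1 (by omega)
    have h6 : S.b.1 * X < S.b.1 * (S.a.1 ^ i * S.b.1 ^ j) := mul_lt_mul_of_pos_left h1 hb0
    have h7 : S.a.1 ^ i * (S.b.1 ^ j * S.b.1) = S.b.1 * (S.a.1 ^ i * S.b.1 ^ j) := by ring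
    linarith
  obtain ⟨m, rfl⟩ : ∃ m, i = i1 + m := ⟨i - i1, by omega⟩
  have ham : S.a.1 ^ m < S.b.1 ^ (d + 1) := by
    rw [W1] at h2 h3
    have h5 : S.a.1 ^ (i1 + m) * S.b.1 ^ j < S.b.1 * (S.a.1 ^ i1 * S.b.1 ^ (j + d)) :=
      lt_of_le_of_lt h2 (mul_lt_mul_of_pos_left h3 hb0)
    have h6 : S.a.1 ^ (i1 + m) * S.b.1 ^ j = S.a.1 ^ m * (S.a.1 ^ i1 * S.b.1 ^ j) := by
      rw [pow_add]; ring
    have h7 : S.b.1 * (S.a.1 ^ i1 * S.b.1 ^ (j + d)) =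
        S.b.1 ^ (d + 1) * (S.a.1 ^ i1 * S.b.1 ^ j) := by
      rw [pow_add, pow_succ]; ring
    rw [h6, h7] at h5
    exact lt_of_mul_lt_mul_right h5 (by positivity)
  set f : E := W S 0 d * e' with hf
  set f1 : E := W S m 0 * e1' with hf1
  have hfm : f ∈ S.Lam := W_mul_mem S _ _ he'.1
  have hf1m : f1 ∈ S.Lam := W_mul_mem S _ _ he1'.1
  have hfa : |f.1| = S.b.1 ^ d * |e'.1| := by
    have h5 : |f.1| = |(W S 0 d).1| * |e'.1| := abs_mul _ _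
    rw [h5, W1, pow_zero, one_mul]
  have hf1a : |f1.1| = S.a.1 ^ m * |e1'.1| := by
    have h5 : |f1.1| = |(W S m 0).1| * |e1'.1| := abs_mul _ _
    rw [h5, W1, pow_zero, mul_one]
  have hfb : ‖f.2.1‖ = ‖S.b.2.1‖ ^ d * ‖e'.2.1‖ := by
    have h5 : ‖f.2.1‖ = ‖(W S 0 d).2.1‖ * ‖e'.2.1‖ := norm_mul _ _
    rw [h5, W2, pow_zero, one_mul]
  have hf1b : ‖f1.2.1‖ = ‖S.a.2.1‖ ^ m * ‖e1'.2.1‖ := by
    have h5 : ‖f1.2.1‖ = ‖(W S m 0).2.1‖ * ‖e1'.2.1‖ := norm_mul _ _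
    rw [h5, W2, pow_zero, mul_one]
  have hfb' : ‖f.2.1‖ ≤ (53 / 100) ^ d * (1 / 100) := by
    rw [hfb]
    exact mul_le_mul (pow_le_pow_left₀ (norm_nonneg _) (sep_b2_le S) d) he'.2.2.1
      (norm_nonneg _) (by positivity)
  have hz3 : ‖(f - f1).2.2‖ ≤ 2 / 100 := by
    have h5 := sep_third S he' 0 d
    have h6 := sep_third S he1' m 0
    have e5 : (W S (i1 + m + s) (j + t)).2.2 * (W S 0 d).2.2 =
        (W S (i1 + s) (j + d + t)).2.2 * (W S m 0).2.2 := by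
      have e6 : W S (i1 + m + s) (j + t) * W S 0 d = W S (i1 + s) (j + d + t) * W S m 0 := by
        rw [← W_add, ← W_add]
        congr 1 <;> ring
      exact congrArg (fun z : E => z.2.2) e6
    have e7 : (f - f1).2.2 =
        (f.2.2 - kap3 S * (ξ * (W S (i1 + m + s) (j + t)).2.2 * (W S 0 d).2.2)) -
        (f1.2.2 - kap3 S * (ξ * (W S (i1 + s) (j + d + t)).2.2 * (W S m 0).2.2)) := by
      rw [mul_assoc ξ, mul_assoc ξ, e5]
      show f.2.2 - f1.2.2 = _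
      ring
    rw [e7]
    refine (norm_sub_le _ _).trans ?_
    linarith
  have hB : (1 : ℝ) ≤ S.b.1 ^ (d + 1) := one_le_pow₀ hb1
  have hA : 0 < S.a.1 ^ h := by positivity
  have hz1 : |(f - f1).1| * S.a.1 ^ h ≤ 2 * S.b.1 ^ (d + 1) / 100 := by
    have h5 : |(f - f1).1| ≤ |f.1| + |f1.1| := abs_sub _ _
    have h6 : S.b.1 ^ d ≤ S.b.1 ^ (d + 1) := pow_le_pow_right₀ hb1 (by omega)
    calc |(f - f1).1| * S.a.1 ^ h ≤ (|f.1| + |f1.1|) * S.a.1 ^ h :=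
          mul_le_mul_of_nonneg_right h5 hA.le
      _ = S.b.1 ^ d * (|e'.1| * S.a.1 ^ h) + S.a.1 ^ m * (|e1'.1| * S.a.1 ^ h) := by
          rw [hfa, hf1a]; ring
      _ ≤ S.b.1 ^ (d + 1) * (1 / 100) + S.b.1 ^ (d + 1) * (1 / 100) := by
          refine add_le_add ?_ ?_
          · exact mul_le_mul h6 hh (by positivity) (by positivity)
          · exact mul_le_mul ham.le hh1 (by positivity) (by positivity)
      _ = _ := by ring
  have hz2 : ‖(f - f1).2.1‖ ^ 2 ≤ 4 * S.b.1 ^ (d + 1) / 10000 := by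
    have h5 : ‖(f - f1).2.1‖ ≤ ‖f.2.1‖ + ‖f1.2.1‖ := norm_sub_le _ _
    have h6 : ‖f.2.1‖ ≤ 1 / 100 := by
      refine hfb'.trans ?_
      have : (53 / 100 : ℝ) ^ d ≤ 1 := pow_le_one₀ (by norm_num) (by norm_num)
      linarith
    have h7 : ‖f1.2.1‖ ^ 2 ≤ S.b.1 ^ (d + 1) / 10000 := by
      have h8 : (‖S.a.2.1‖ ^ m) ^ 2 ≤ S.a.1 ^ m := by
        rw [← pow_mul, mul_comm m 2, pow_mul]
        refine pow_le_pow_left₀ (by positivity) ?_ m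
        have := S.a2u
        have := S.a1l
        linarith
      have h9 : ‖e1'.2.1‖ ^ 2 ≤ (1 / 100) ^ 2 :=
        pow_le_pow_left₀ (norm_nonneg _) he1'.2.2.1 2
      rw [hf1b, mul_pow]
      calc (‖S.a.2.1‖ ^ m) ^ 2 * ‖e1'.2.1‖ ^ 2 ≤ S.b.1 ^ (d + 1) * (1 / 100) ^ 2 :=
            mul_le_mul (h8.trans ham.le) h9 (by positivity) (by positivity)
        _ = _ := by ring
    have h8 : ‖f.2.1‖ ^ 2 ≤ 1 / 10000 := by
      calc ‖f.2.1‖ ^ 2 ≤ (1 / 100) ^ 2 := pow_le_pow_left₀ (norm_nonneg _) h6 2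
        _ = _ := by norm_num
    have h9 : ‖(f - f1).2.1‖ ^ 2 ≤ (‖f.2.1‖ + ‖f1.2.1‖) ^ 2 :=
      pow_le_pow_left₀ (norm_nonneg _) h5 2
    nlinarith [sq_nonneg (‖f.2.1‖ - ‖f1.2.1‖)]
  have hbh : S.b.1 ^ (d + 1) * S.b.1 ^ (d + 1) ≤ S.a.1 ^ h := by
    have h5 : S.b.1 ^ (d + 1) ≤ S.a.1 ^ (10 * (d + 1)) := by
      rw [pow_mul]
      exact pow_le_pow_left₀ hb0.le (sep_b_pow S) (d + 1)
    calc S.b.1 ^ (d + 1) * S.b.1 ^ (d + 1) ≤
          S.a.1 ^ (10 * (d + 1)) * S.a.1 ^ (10 * (d + 1)) :=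
          mul_le_mul h5 h5 (by positivity) (by positivity)
      _ = S.a.1 ^ (10 * (d + 1) + 10 * (d + 1)) := by rw [pow_add]
      _ ≤ S.a.1 ^ h := pow_le_pow_right₀ ha1 (by omega)
  have hz : f - f1 = 0 := by
    by_contra hne
    have hn := norm_ge' S (S.Lam.sub_mem hfm hf1m) hne
    have h7 : ‖(f - f1).2.2‖ ^ 2 ≤ (2 / 100) ^ 2 :=
      pow_le_pow_left₀ (norm_nonneg _) hz3 2
    have h8 : (|(f - f1).1| * S.a.1 ^ h) * ‖(f - f1).2.1‖ ^ 2 * ‖(f - f1).2.2‖ ^ 2 ≤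
        (2 * S.b.1 ^ (d + 1) / 100) * (4 * S.b.1 ^ (d + 1) / 10000) * (2 / 100) ^ 2 :=
      mul_le_mul (mul_le_mul hz1 hz2 (by positivity) (by positivity)) h7 (by positivity)
        (by positivity)
    have h9 : S.a.1 ^ h ≤ (|(f - f1).1| * S.a.1 ^ h) * ‖(f - f1).2.1‖ ^ 2 *
        ‖(f - f1).2.2‖ ^ 2 := by
      calc S.a.1 ^ h = S.a.1 ^ h * 1 := (mul_one _).symm
        _ ≤ S.a.1 ^ h * (|(f - f1).1| * ‖(f - f1).2.1‖ ^ 2 * ‖(f - f1).2.2‖ ^ 2) :=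
            mul_le_mul_of_nonneg_left hn hA.le
        _ = _ := by ring
    nlinarith
  rw [sub_eq_zero] at hz
  have hm1 : 1 ≤ ‖S.a.2.1‖ ^ m := one_le_pow₀ S.a2_ge
  calc ‖e1'.2.1‖ = 1 * ‖e1'.2.1‖ := (one_mul _).symm
    _ ≤ ‖S.a.2.1‖ ^ m * ‖e1'.2.1‖ := mul_le_mul_of_nonneg_right hm1 (norm_nonneg _)
    _ = ‖f.2.1‖ := by rw [← hf1b, hz]
    _ ≤ (53 / 100) ^ d * (1 / 100) := hfb'
    _ ≤ (53 / 100) ^ d := by
        have : (0 : ℝ) < (53 / 100) ^ d := by positivity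
        linarith

end Pool.Agent.H49.AB
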