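import Pool.Agent.H49.AB.L2
import Pool.Agent.H49.AB.DecayN

/-!
# JOB AB-22. The integral of `V²` over one dyadic shell

Let `l` be the least natural number with `4 X² 0.6908^l ≤ 1`. `l ≤ r` for large `r`: a point `ξ` of the region has `X ≤ ‖ξ‖`,
`‖ξ‖ ‖W_{ab}‖_3 ≤ exp(r^(3/4))` and `‖W_{ab}‖_3² ≥ 0.6966^r` (`b3l`, `a3l`), so `X² ≤ exp(2 r^(3/4)) 0.6966^(-r)`, and `0.6908 < 0.6966`
(`0.6966^50 ≥ 0.6908^49`). (If the region is empty the integral is `0`.) By `V_conv`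
`V ξ a b ≤ ∑_{u ∈ AD l, u ≤ (a,b)} V ξ u.1 u.2 * V (ξ W_u) (a-u.1) (b-u.2)`. The second factor: `‖ξ W_u‖² ≥ X² 0.6966^l`, and by minimality
`X² 0.6908^(l-1) > 1/4` (if `l ≥ 1`), so `log ‖ξ W_u‖ ≥ (1/50) log X - 3 ≥ r/1000 - 3` (`ln 0.6966 ≥ (49/50) ln 0.6908`), in particular `‖ξ W_u‖ ≥ 1` for large
`r`. The end level does not change: `‖ξ W_u‖ ‖W_{a-u.1,b-u.2}‖_3 = ‖ξ‖ ‖W_{ab}‖_3 ≤ exp(r^(3/4))`. `decayN` with `Φ = r^(3/4)` and exponent `4 A + 8`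
gives: second factor `≤ C (r^(3/4)/(r/1000 - 2))^(4A+8) ≤ C' r^(-(A+2))`. Cauchy-Schwarz: `V² ≤ C'² r^(-2(A+2)) (l+1) ∑_u V ξ u.1 u.2²`. `l2_disc` with
`2 X`: `∑_u ∫ V² ≤ C (l + 1 + 4 X² ∑_u bin u/|W_u|_1) ≤ C (l + 2)` (`sum_bin` with `x = p`, `y = q`, `p² + q² ≤ 0.6908`). Total `≤ C'' r^(-2A-2)`.
-/

set_option autoImplicit false

namespace Pool.Agent.H49.AB

open Pool.Agent.H67.Tent Finset MeasureTheory

theorem sh_W3l (S : Sys2) (i j : ℕ) : (0.6966 : ℝ) ^ (i + j) ≤ ‖(W S i j).2.2‖ ^ 2 := by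
  rw [W3, mul_pow, ← pow_mul, ← pow_mul, mul_comm i 2, mul_comm j 2, pow_mul, pow_mul, pow_add]
  have h1 : (0.6966 : ℝ) ≤ ‖S.a.2.2‖ ^ 2 := le_trans (by norm_num) S.a3l
  have h2 := b3l S
  exact mul_le_mul (pow_le_pow_left₀ (by norm_num) h1 _) (pow_le_pow_left₀ (by norm_num) h2 _)
    (by positivity) (by positivity)

theorem sh_log (X n : ℝ) (l : ℕ) (hX : 1 ≤ X) (hl : 1 < 4 * X ^ 2 * 0.6908 ^ l) (hn : 0 ≤ n)
    (h : X ^ 2 * 0.6966 ^ (l + 1) ≤ n ^ 2) : Real.log X / 50 - 0.9 ≤ Real.log n := by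
  have hX0 : 0 < X := by linarith
  have hpos : 0 < X ^ 2 * (0.6966 : ℝ) ^ (l + 1) := by positivity
  have hn0 : 0 < n := by
    rcases hn.eq_or_lt with h0 | h0
    · rw [← h0] at h
      norm_num at h
      exact absurd h (not_le.2 (by positivity))
    · exact h0
  have h1 : Real.log 1 < Real.log (4 * X ^ 2 * 0.6908 ^ l) := Real.log_lt_log one_pos hl
  rw [Real.log_one, Real.log_mul (by positivity) (by positivity),
    Real.log_mul (by positivity) (by positivity), Real.log_pow, Real.log_pow] at h1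
  have h2 := Real.log_le_log hpos h
  rw [Real.log_mul (by positivity) (by positivity), Real.log_pow, Real.log_pow,
    Real.log_pow] at h2
  have h3 : Real.log ((0.6908 : ℝ) ^ 49) ≤ Real.log ((0.6966 : ℝ) ^ 50) :=
    Real.log_le_log (by positivity) (by norm_num)
  rw [Real.log_pow, Real.log_pow] at h3
  have h4 : Real.log 4 = 2 * Real.log 2 := by
    rw [show (4 : ℝ) = 2 ^ 2 by norm_num, Real.log_pow]
    norm_num
  have h5 := Real.log_two_lt_d9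
  have h6 := Real.one_sub_inv_le_log_of_pos (x := (0.6908 : ℝ)) (by norm_num)
  have h7 : (-0.4477 : ℝ) ≤ 1 - (0.6908 : ℝ)⁻¹ := by norm_num
  push_cast at h1 h2 h3
  have h8 : ((l : ℝ) + 1) * (49 * Real.log 0.6908) ≤ ((l : ℝ) + 1) * (50 * Real.log 0.6966) :=
    mul_le_mul_of_nonneg_left h3 (by positivity)
  nlinarith

theorem sh_rpow (r : ℕ) (hr : 10 ^ 12 ≤ r) : 1 ≤ (r : ℝ) ^ (3 / 4 : ℝ) ∧
    (r : ℝ) ^ (3 / 4 : ℝ) ≤ r / 1000 ∧ ((r : ℝ) ^ (3 / 4 : ℝ)) ^ 4 = (r : ℝ) ^ 3 := by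
  have hr' : (10 : ℝ) ^ 12 ≤ r := by exact_mod_cast hr
  have h0 : (0 : ℝ) < r := lt_of_lt_of_le (by positivity) hr'
  have h1 : (1 : ℝ) ≤ r := le_trans (by norm_num) hr'
  have h4 : ((r : ℝ) ^ (3 / 4 : ℝ)) ^ 4 = (r : ℝ) ^ 3 := by
    rw [← Real.rpow_natCast, ← Real.rpow_mul h0.le, ← Real.rpow_natCast]
    norm_num
  refine ⟨Real.one_le_rpow h1 (by norm_num), ?_, h4⟩
  have h5 : ((r : ℝ) ^ (3 / 4 : ℝ)) ^ 4 ≤ (r / 1000) ^ 4 := by
    rw [h4, div_pow, le_div_iff₀ (by positivity)]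
    have : (r : ℝ) ^ 4 = r ^ 3 * r := by ring
    rw [this]
    exact mul_le_mul_of_nonneg_left (le_trans (by norm_num) hr') (by positivity)
  exact le_of_pow_le_pow_left₀ (by norm_num) (by positivity) h5

theorem sh_len (r : ℕ) (X : ℝ) (hr : 10 ^ 12 ≤ r)
    (h : X ^ 2 * 0.6966 ^ r ≤ Real.exp (2 * (r : ℝ) ^ (3 / 4 : ℝ))) :
    4 * X ^ 2 * 0.6908 ^ r ≤ 1 := by
  obtain ⟨-, h2, -⟩ := sh_rpow r hr
  have hr' : (10 : ℝ) ^ 12 ≤ r := by exact_mod_cast hr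
  have h3 : (0.6908 : ℝ) ≤ 0.6966 * Real.exp (-0.0083) := by
    have := Real.add_one_le_exp (-0.0083 : ℝ)
    norm_num at this ⊢
    linarith
  have h4 : (0.6908 : ℝ) ^ r ≤ 0.6966 ^ r * Real.exp (-0.0083 * r) := by
    calc (0.6908 : ℝ) ^ r ≤ (0.6966 * Real.exp (-0.0083)) ^ r :=
          pow_le_pow_left₀ (by norm_num) h3 r
      _ = _ := by rw [mul_pow, ← Real.exp_nat_mul]; congr 2; ring
  have h5 : (4 : ℝ) ≤ Real.exp 2 := by
    have := Real.add_one_le_exp (1 : ℝ)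
    have h6 : Real.exp 2 = Real.exp 1 * Real.exp 1 := by rw [← Real.exp_add]; norm_num
    rw [h6]
    nlinarith
  calc 4 * X ^ 2 * 0.6908 ^ r ≤ 4 * X ^ 2 * (0.6966 ^ r * Real.exp (-0.0083 * r)) :=
        mul_le_mul_of_nonneg_left h4 (by positivity)
    _ = 4 * (X ^ 2 * 0.6966 ^ r) * Real.exp (-0.0083 * r) := by ring
    _ ≤ Real.exp 2 * Real.exp (2 * (r : ℝ) ^ (3 / 4 : ℝ)) * Real.exp (-0.0083 * r) := by
        gcongr
    _ = Real.exp (2 + 2 * (r : ℝ) ^ (3 / 4 : ℝ) - 0.0083 * r) := by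
        rw [← Real.exp_add, ← Real.exp_add]; congr 1; ring
    _ ≤ Real.exp 0 := by
        apply Real.exp_le_exp.2
        have h6 : (2000 : ℝ) ≤ r := le_trans (by norm_num) hr'
        linarith
    _ = 1 := Real.exp_zero

theorem sh_sum (S : Sys2) (l : ℕ) :
    ∑ u ∈ AD l, bin (S.a.1)⁻¹ (S.b.1)⁻¹ u.1 u.2 / |(W S u.1 u.2).1| ≤ 0.6908 ^ l := by
  have h1 : ∀ u ∈ AD l, bin (S.a.1)⁻¹ (S.b.1)⁻¹ u.1 u.2 / |(W S u.1 u.2).1| =
      bin (S.a.1)⁻¹ (S.b.1)⁻¹ u.1 u.2 * ((S.a.1)⁻¹ ^ u.1 * (S.b.1)⁻¹ ^ u.2) := by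
    intro u _
    rw [W1, div_eq_mul_inv, mul_inv, inv_pow, inv_pow]
  rw [Finset.sum_congr rfl h1, sum_bin]
  have h2 := pu S
  have h3 := qu S
  have h4 := inv_pos.2 (ap S)
  have h5 := inv_pos.2 (bp S)
  apply pow_le_pow_left₀ (by positivity)
  nlinarith

theorem shell (S : Sys2) (N : ℕ) (hN : 1 ≤ N) (A : ℕ) : ∃ (C : ℝ) (r0 : ℕ), 1 ≤ C ∧
    ∀ (a b r : ℕ) (X : ℝ), a + b = r → r0 ≤ r → Real.exp ((r : ℝ) / 20) ≤ X →
      ∫⁻ ξ in {ξ : ℂ | X ≤ ‖ξ‖ ∧ ‖ξ‖ ≤ 2 * X ∧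
        ‖ξ‖ * ‖(W S a b).2.2‖ ≤ Real.exp ((r : ℝ) ^ (3 / 4 : ℝ))},
        ENNReal.ofReal (V S N ξ a b ^ 2) ≤ ENNReal.ofReal (C / (r : ℝ) ^ A) := by
  obtain ⟨Cd, hCd, hd⟩ := decayN S N hN (4 * (A + 2))
  obtain ⟨Cl, hCl, hl2⟩ := l2_disc S N hN
  set K : ℝ := Cd * 1000 ^ (4 * (A + 2)) with hK
  have hK1 : 1 ≤ K := by
    rw [hK]
    exact one_le_mul_of_one_le_of_one_le hCd (one_le_pow₀ (by norm_num))
  refine ⟨6 * K ^ 2 * Cl, 10 ^ 12, ?_, ?_⟩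
  · nlinarith [one_le_pow₀ hK1 (n := 2)]
  intro a b r X hab hr hX
  obtain ⟨ht1, ht2, ht4⟩ := sh_rpow r hr
  have hr' : (10 : ℝ) ^ 12 ≤ r := by exact_mod_cast hr
  have hr0 : (0 : ℝ) < r := lt_of_lt_of_le (by positivity) hr'
  set t : ℝ := (r : ℝ) ^ (3 / 4 : ℝ) with ht
  set D : Set ℂ := {ξ : ℂ | X ≤ ‖ξ‖ ∧ ‖ξ‖ ≤ 2 * X ∧ ‖ξ‖ * ‖(W S a b).2.2‖ ≤ Real.exp t} with hD
  have hX1 : 1 ≤ X := le_trans (Real.one_le_exp (by positivity)) hX
  have hlogX : (r : ℝ) / 20 ≤ Real.log X := by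
    rw [Real.le_log_iff_exp_le (by linarith)]
    exact hX
  rcases D.eq_empty_or_nonempty with hE | ⟨ξ0, h01, -, h03⟩
  · rw [hE]
    simp
  have hex : ∃ l : ℕ, 4 * X ^ 2 * 0.6908 ^ l ≤ 1 := by
    refine ⟨r, sh_len r X hr ?_⟩
    have h1 := sh_W3l S a b
    rw [hab] at h1
    calc X ^ 2 * 0.6966 ^ r ≤ ‖ξ0‖ ^ 2 * ‖(W S a b).2.2‖ ^ 2 := by
          apply mul_le_mul _ h1 (by positivity) (by positivity)
          exact pow_le_pow_left₀ (by linarith) h01 2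
      _ = (‖ξ0‖ * ‖(W S a b).2.2‖) ^ 2 := by ring
      _ ≤ (Real.exp t) ^ 2 := pow_le_pow_left₀ (by positivity) h03 2
      _ = Real.exp (2 * t) := by rw [← Real.exp_nat_mul]; norm_num
  have hlr : Nat.find hex ≤ r := by
    apply Nat.find_min'
    refine sh_len r X hr ?_
    have h1 := sh_W3l S a b
    rw [hab] at h1
    calc X ^ 2 * 0.6966 ^ r ≤ ‖ξ0‖ ^ 2 * ‖(W S a b).2.2‖ ^ 2 := by
          apply mul_le_mul _ h1 (by positivity) (by positivity)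
          exact pow_le_pow_left₀ (by linarith) h01 2
      _ = (‖ξ0‖ * ‖(W S a b).2.2‖) ^ 2 := by ring
      _ ≤ (Real.exp t) ^ 2 := pow_le_pow_left₀ (by positivity) h03 2
      _ = Real.exp (2 * t) := by rw [← Real.exp_nat_mul]; norm_num
  obtain ⟨l, hl⟩ : ∃ l, Nat.find hex = l + 1 := by
    refine Nat.exists_eq_succ_of_ne_zero ?_
    intro h0
    have := Nat.find_spec hex
    rw [h0] at this
    nlinarith
  have hspec : 4 * X ^ 2 * 0.6908 ^ (l + 1) ≤ 1 := by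
    rw [← hl]
    exact Nat.find_spec hex
  have hmin : 1 < 4 * X ^ 2 * 0.6908 ^ l := by
    have := Nat.find_min hex (m := l) (by omega)
    exact not_le.1 this
  rw [hl] at hlr
  -- second factor
  have hsec : ∀ ξ ∈ D, ∀ u ∈ AD (l + 1), u.1 ≤ a ∧ u.2 ≤ b →
      V S N (ξ * (W S u.1 u.2).2.2) (a - u.1) (b - u.2) ≤ K / (r : ℝ) ^ (A + 2) := by
    rintro ξ ⟨h1, h2, h3⟩ u hu ⟨hu1, hu2⟩
    have hn2 : X ^ 2 * 0.6966 ^ (l + 1) ≤ ‖ξ * (W S u.1 u.2).2.2‖ ^ 2 := by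
      rw [norm_mul, mul_pow]
      have h4 := sh_W3l S u.1 u.2
      rw [mem_AD.1 hu] at h4
      exact mul_le_mul (pow_le_pow_left₀ (by linarith) h1 2) h4 (by positivity) (by positivity)
    have hlog := sh_log X ‖ξ * (W S u.1 u.2).2.2‖ l hX1 hmin (norm_nonneg _) hn2
    have hlog2 : (r : ℝ) / 1000 ≤ 1 + Real.log ‖ξ * (W S u.1 u.2).2.2‖ := by linarith
    have hlog3 : 0 < Real.log ‖ξ * (W S u.1 u.2).2.2‖ := by
      norm_num at hr'
      linarith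
    have hge1 : 1 ≤ ‖ξ * (W S u.1 u.2).2.2‖ := by
      by_contra hc
      push Not at hc
      exact absurd (Real.log_nonpos (norm_nonneg _) hc.le) (not_le.2 hlog3)
    have hend : ‖ξ * (W S u.1 u.2).2.2‖ * ‖(W S (a - u.1) (b - u.2)).2.2‖ ≤ Real.exp t := by
      have h5 := W_add S u.1 u.2 (a - u.1) (b - u.2)
      rw [Nat.add_sub_cancel' hu1, Nat.add_sub_cancel' hu2] at h5
      have h6 : (W S a b).2.2 = (W S u.1 u.2).2.2 * (W S (a - u.1) (b - u.2)).2.2 :=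
        congrArg (fun z : E => z.2.2) h5
      rw [h6, norm_mul] at h3
      rw [norm_mul, mul_assoc]
      exact h3
    refine (hd t _ (a - u.1) (b - u.2) ht1 hge1 hend).trans ?_
    rw [hK, mul_div_assoc]
    apply mul_le_mul_of_nonneg_left _ (by linarith)
    have h7 : t / (1 + Real.log ‖ξ * (W S u.1 u.2).2.2‖) ≤ 1000 * (t / r) := by
      calc t / (1 + Real.log ‖ξ * (W S u.1 u.2).2.2‖) ≤ t / ((r : ℝ) / 1000) := by
            gcongr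
        _ = _ := by field_simp
    calc (t / (1 + Real.log ‖ξ * (W S u.1 u.2).2.2‖)) ^ (4 * (A + 2))
        ≤ (1000 * (t / r)) ^ (4 * (A + 2)) := by
          apply pow_le_pow_left₀ _ h7
          positivity
      _ = 1000 ^ (4 * (A + 2)) / (r : ℝ) ^ (A + 2) := by
          rw [mul_pow, pow_mul (t / (r : ℝ)), div_pow t, ht4]
          have : (r : ℝ) ^ 3 / (r : ℝ) ^ 4 = 1 / r := by field_simp
          rw [this, one_div, inv_pow, div_eq_mul_inv]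
  set M : ℝ := (K / (r : ℝ) ^ (A + 2)) ^ 2 * (l + 2) with hM
  have hM0 : 0 ≤ M := by positivity
  have hpt : ∀ ξ ∈ D, ENNReal.ofReal (V S N ξ a b ^ 2) ≤
      ∑ u ∈ AD (l + 1), ENNReal.ofReal M * ENNReal.ofReal (V S N ξ u.1 u.2 ^ 2) := by
    intro ξ hξ
    have h1 : V S N ξ a b ≤ (K / (r : ℝ) ^ (A + 2)) * ∑ u ∈ AD (l + 1), V S N ξ u.1 u.2 := by
      refine (V_conv S N ξ a b (l + 1) (by omega)).trans ?_
      rw [Finset.mul_sum]
      apply Finset.sum_le_sum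
      intro u hu
      split_ifs with h2
      · rw [mul_comm]
        exact mul_le_mul_of_nonneg_right (hsec ξ hξ u hu h2) (V_nonneg S N ξ _ _)
      · have := V_nonneg S N ξ u.1 u.2
        positivity
    have h2 : V S N ξ a b ^ 2 ≤ ∑ u ∈ AD (l + 1), M * V S N ξ u.1 u.2 ^ 2 := by
      calc V S N ξ a b ^ 2 ≤ ((K / (r : ℝ) ^ (A + 2)) * ∑ u ∈ AD (l + 1), V S N ξ u.1 u.2) ^ 2 :=
            pow_le_pow_left₀ (V_nonneg S N ξ a b) h1 2
        _ = (K / (r : ℝ) ^ (A + 2)) ^ 2 * (∑ u ∈ AD (l + 1), V S N ξ u.1 u.2) ^ 2 := by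
            rw [mul_pow]
        _ ≤ (K / (r : ℝ) ^ (A + 2)) ^ 2 *
            (((AD (l + 1)).card : ℝ) * ∑ u ∈ AD (l + 1), V S N ξ u.1 u.2 ^ 2) := by
            apply mul_le_mul_of_nonneg_left _ (by positivity)
            exact sq_sum_le_card_mul_sum_sq
        _ = ∑ u ∈ AD (l + 1), M * V S N ξ u.1 u.2 ^ 2 := by
            rw [← Finset.mul_sum, hM, Finset.Nat.card_antidiagonal]
            push_cast
            ring
    calc ENNReal.ofReal (V S N ξ a b ^ 2)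
        ≤ ENNReal.ofReal (∑ u ∈ AD (l + 1), M * V S N ξ u.1 u.2 ^ 2) :=
          ENNReal.ofReal_le_ofReal h2
      _ = ∑ u ∈ AD (l + 1), ENNReal.ofReal (M * V S N ξ u.1 u.2 ^ 2) :=
          ENNReal.ofReal_sum_of_nonneg fun u _ => by positivity
      _ = _ := Finset.sum_congr rfl fun u _ => ENNReal.ofReal_mul hM0
  have hmeas : ∀ u : ℕ × ℕ, Measurable fun ξ : ℂ => ENNReal.ofReal (V S N ξ u.1 u.2 ^ 2) :=
    fun u => ((V_cont S N u.1 u.2).pow 2).measurable.ennreal_ofReal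
  have hmeas2 : ∀ u : ℕ × ℕ, Measurable fun ξ : ℂ =>
      ENNReal.ofReal M * ENNReal.ofReal (V S N ξ u.1 u.2 ^ 2) :=
    fun u => (hmeas u).const_mul _
  have hterm : ∀ u : ℕ × ℕ, 0 ≤ Cl * (1 + (2 * X) ^ 2 *
      (bin (S.a.1)⁻¹ (S.b.1)⁻¹ u.1 u.2 / |(W S u.1 u.2).1|)) := by
    intro u
    have h1 : 0 ≤ bin (S.a.1)⁻¹ (S.b.1)⁻¹ u.1 u.2 :=
      bin_nonneg (inv_pos.2 (ap S)).le (inv_pos.2 (bp S)).le _ _
    have h2 := W1_pos S u.1 u.2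
    positivity
  calc ∫⁻ ξ in D, ENNReal.ofReal (V S N ξ a b ^ 2)
      ≤ ∫⁻ ξ in D, ∑ u ∈ AD (l + 1), ENNReal.ofReal M * ENNReal.ofReal (V S N ξ u.1 u.2 ^ 2) :=
        setLIntegral_mono (Finset.measurable_fun_sum _ fun u _ => hmeas2 u) hpt
    _ = ∑ u ∈ AD (l + 1), ∫⁻ ξ in D,
          ENNReal.ofReal M * ENNReal.ofReal (V S N ξ u.1 u.2 ^ 2) :=
        lintegral_finsetSum _ fun u _ => hmeas2 u
    _ = ∑ u ∈ AD (l + 1), ENNReal.ofReal M * ∫⁻ ξ in D, ENNReal.ofReal (V S N ξ u.1 u.2 ^ 2) :=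
        Finset.sum_congr rfl fun u _ => lintegral_const_mul _ (hmeas u)
    _ ≤ ∑ u ∈ AD (l + 1), ENNReal.ofReal M * ENNReal.ofReal (Cl * (1 + (2 * X) ^ 2 *
          (bin (S.a.1)⁻¹ (S.b.1)⁻¹ u.1 u.2 / |(W S u.1 u.2).1|))) := by
        apply Finset.sum_le_sum
        intro u _
        apply mul_le_mul_right
        refine (lintegral_mono_set ?_).trans (hl2 u.1 u.2 (2 * X) (by linarith))
        exact fun ξ hξ => hξ.2.1
    _ = ENNReal.ofReal (∑ u ∈ AD (l + 1), M * (Cl * (1 + (2 * X) ^ 2 *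
          (bin (S.a.1)⁻¹ (S.b.1)⁻¹ u.1 u.2 / |(W S u.1 u.2).1|)))) := by
        rw [ENNReal.ofReal_sum_of_nonneg fun u _ => mul_nonneg hM0 (hterm u)]
        exact Finset.sum_congr rfl fun u _ => (ENNReal.ofReal_mul hM0).symm
    _ ≤ ENNReal.ofReal (6 * K ^ 2 * Cl / (r : ℝ) ^ A) := by
        apply ENNReal.ofReal_le_ofReal
        have h1 : ∑ u ∈ AD (l + 1), M * (Cl * (1 + (2 * X) ^ 2 *
            (bin (S.a.1)⁻¹ (S.b.1)⁻¹ u.1 u.2 / |(W S u.1 u.2).1|))) =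
            M * Cl * ((l + 2) + 4 * X ^ 2 * ∑ u ∈ AD (l + 1),
              bin (S.a.1)⁻¹ (S.b.1)⁻¹ u.1 u.2 / |(W S u.1 u.2).1|) := by
          rw [← Finset.mul_sum, ← Finset.mul_sum, Finset.sum_add_distrib, ← Finset.mul_sum,
            Finset.sum_const, Finset.Nat.card_antidiagonal, nsmul_eq_mul]
          push_cast
          ring
        rw [h1]
        have h2 := sh_sum S (l + 1)
        have h3 : (l + 2 : ℝ) + 4 * X ^ 2 * ∑ u ∈ AD (l + 1),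
              bin (S.a.1)⁻¹ (S.b.1)⁻¹ u.1 u.2 / |(W S u.1 u.2).1| ≤ l + 3 := by
          have : 4 * X ^ 2 * ∑ u ∈ AD (l + 1),
              bin (S.a.1)⁻¹ (S.b.1)⁻¹ u.1 u.2 / |(W S u.1 u.2).1| ≤ 1 :=
            (mul_le_mul_of_nonneg_left h2 (by positivity)).trans hspec
          linarith
        have hlr' : (l : ℝ) + 1 ≤ r := by exact_mod_cast hlr
        have hr1 : (1 : ℝ) ≤ r := le_trans (by norm_num) hr'
        calc M * Cl * _ ≤ M * Cl * (l + 3) :=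
              mul_le_mul_of_nonneg_left h3 (by positivity)
          _ = K ^ 2 * Cl * ((l + 2) * (l + 3)) / ((r : ℝ) ^ A * (r ^ 2 * (r : ℝ) ^ A * r ^ 2)) := by
              rw [hM, div_pow, ← pow_mul]
              field_simp
              ring
          _ ≤ K ^ 2 * Cl * (6 * r ^ 2) / ((r : ℝ) ^ A * (r ^ 2 * 1 * 1)) := by
              have e1 : (1 : ℝ) ≤ (r : ℝ) ^ A := one_le_pow₀ hr1
              have e2 : (1 : ℝ) ≤ (r : ℝ) ^ 2 := one_le_pow₀ hr1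
              have e3 : ((l : ℝ) + 2) * (l + 3) ≤ 6 * r ^ 2 := by nlinarith
              gcongr
          _ = 6 * K ^ 2 * Cl / (r : ℝ) ^ A := by
              field_simp

end Pool.Agent.H49.AB
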