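import Pool.Agent.H49.AB.VV
import Pool.Agent.H49.AB.Exit
import Pool.Agent.H49.AB.NearL

/-!
# JOB AB-08. One stage: cross a run of height `≤ h`, then one block with a gain

Case `White S ξ`: `V_block` (or `vv_block` at `(0,0)`, `vv_zero`): the positions used have `i + j = 6`.

Case not white: let `e` be near `ξ` (`exists_near`), so `1/100 < |e.1| α^h`. `P i j := |e.1| * |(W S i j).1| ≤ 1/100` is a down-set (`W1`,
`α, β ≥ 1`) containing the origin, and no point with `i + j = h` is in `P` (`|(W S i j).1| = α^i β^j ≥ α^h`, as `β ≥ α`). `exit_le`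
with `v = vv S ξ a b`, `n = h`: `V ≤ ∑_exits ex * vv`. For an exit `(i, j)` (`ex ≠ 0`, `ex_ne_zero`; so `1 ≤ i + j ≤ h`,
`1/100 < |e.1| |W_{ij}|_1 ≤ b.1/100`):
* if `‖(W S i j).2.1‖ ≤ 19000`, then `ξ W_{ij}` is white: otherwise there is `e'` near it; put `e'' = e W_{ij} ∈ Lam`; `e'' ≠ e'`
  (first coordinates), and `1 ≤ norm(e' - e'')` is at most `(1/100 + 5.2285/100) (1/100 + 190)² (2/100)² < 1`
  (third coordinates: both within `1/100` of `kap3 ξ W_{ij}`, `‖W_{ij}‖_3 ≤ 1`). Contradiction. So `vv_block` gives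
  `vv ≤ (1 - 10^(-6)) B` (positions with `i + j + 6 ≤ h + 8`).
* the exits with `‖(W S i j).2.1‖ > 19000` have total `ex` weight `≤ 19000^(-2)`: `exit_ge'` with `g i j = ‖(W S i j).2.1‖²`
  (`p ‖a2‖² + q ‖b2‖² ≤ 1`, `S.kap`), there use `vv ≤ B`.
Sum: `(1 - 10^(-6)) B + 19000^(-2) B ≤ gam * B` (`sum_ex_le_one`).
-/

set_option autoImplicit false

namespace Pool.Agent.H49.AB

open Pool.Agent.H67.Tent Finset

/-- An exit with moderate slope at the second place is white. -/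
theorem white_exit (S : Sys2) (ξ : ℂ) {e : E} (he : Near S e ξ) (i j : ℕ)
    (h1 : 1 / 100 < |e.1| * |(W S i j).1|) (h2 : |e.1| * |(W S i j).1| ≤ 5.2285 / 100)
    (h3 : ‖(W S i j).2.1‖ ≤ 19000) : White S (ξ * (W S i j).2.2) := by
  by_contra hw
  obtain ⟨e', he'⟩ := exists_near S _ hw
  obtain ⟨m1, m2, m3, m4⟩ := he
  obtain ⟨n1, n2, n3, n4⟩ := he'
  have hmem : e' - W S i j * e ∈ S.Lam := S.Lam.sub_mem n1 (W_mul_mem S i j m1)
  have e1 : (e' - W S i j * e).1 = e'.1 - (W S i j).1 * e.1 := rfl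
  have e2 : (e' - W S i j * e).2.1 = e'.2.1 - (W S i j).2.1 * e.2.1 := rfl
  have e3 : (e' - W S i j * e).2.2 = e'.2.2 - (W S i j).2.2 * e.2.2 := rfl
  have hne : e' - W S i j * e ≠ 0 := by
    intro h0
    have h0' : e'.1 - (W S i j).1 * e.1 = 0 := by rw [← e1, h0]; rfl
    have : |e'.1| = |e.1| * |(W S i j).1| := by
      rw [sub_eq_zero.1 h0', abs_mul, mul_comm]
    linarith
  have hN := norm_ge' S hmem hne
  rw [e1, e2, e3] at hN
  have b1 : |e'.1 - (W S i j).1 * e.1| ≤ 6.2285 / 100 := by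
    calc _ ≤ |e'.1| + |(W S i j).1 * e.1| := abs_sub _ _
      _ = |e'.1| + |e.1| * |(W S i j).1| := by rw [abs_mul, mul_comm |(W S i j).1|]
      _ ≤ _ := by linarith
  have b2 : ‖e'.2.1 - (W S i j).2.1 * e.2.1‖ ≤ 190.01 := by
    calc _ ≤ ‖e'.2.1‖ + ‖(W S i j).2.1 * e.2.1‖ := norm_sub_le _ _
      _ = ‖e'.2.1‖ + ‖(W S i j).2.1‖ * ‖e.2.1‖ := by rw [norm_mul]
      _ ≤ 1 / 100 + 19000 * (1 / 100) := by
        gcongr
      _ = 190.01 := by norm_num
  have hW3 : ‖(W S i j).2.2‖ ≤ 1 := by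
    rw [W3]
    have ha : ‖S.a.2.2‖ ≤ 1 := S.a3_le.trans (by norm_num)
    have hb : ‖S.b.2.2‖ ≤ 1 := S.b3_le.trans (by norm_num)
    exact mul_le_one₀ (pow_le_one₀ (norm_nonneg _) ha) (by positivity) (pow_le_one₀ (norm_nonneg _) hb)
  have b3 : ‖e'.2.2 - (W S i j).2.2 * e.2.2‖ ≤ 2 / 100 := by
    have hr : e'.2.2 - (W S i j).2.2 * e.2.2 =
        (e'.2.2 - kap3 S * (ξ * (W S i j).2.2)) - (W S i j).2.2 * (e.2.2 - kap3 S * ξ) := by ring
    rw [hr]
    calc _ ≤ ‖e'.2.2 - kap3 S * (ξ * (W S i j).2.2)‖ +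
          ‖(W S i j).2.2 * (e.2.2 - kap3 S * ξ)‖ := norm_sub_le _ _
      _ = ‖e'.2.2 - kap3 S * (ξ * (W S i j).2.2)‖ +
          ‖(W S i j).2.2‖ * ‖e.2.2 - kap3 S * ξ‖ := by rw [norm_mul]
      _ ≤ 1 / 100 + 1 * (1 / 100) := by gcongr
      _ = 2 / 100 := by norm_num
  have : |e'.1 - (W S i j).1 * e.1| * ‖e'.2.1 - (W S i j).2.1 * e.2.1‖ ^ 2 *
      ‖e'.2.2 - (W S i j).2.2 * e.2.2‖ ^ 2 ≤ 6.2285 / 100 * 190.01 ^ 2 * (2 / 100) ^ 2 := by
    gcongr
  have h4 : (6.2285 / 100 * 190.01 ^ 2 * (2 / 100) ^ 2 : ℝ) < 1 := by norm_num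
  linarith

theorem stage (S : Sys2) (ξ : ℂ) (a b h : ℕ) {B : ℝ} (hB : 0 ≤ B) (hh : h + 8 ≤ a + b)
    (hn : ∀ e, Near S e ξ → 1 / 100 < |e.1| * S.a.1 ^ h)
    (hv : ∀ i j, 1 ≤ i + j → i + j ≤ h + 8 → vv S ξ a b i j ≤ B) : V S 1 ξ a b ≤ gam * B := by
  classical
  rw [← vv_zero]
  by_cases hw : White S ξ
  · have hw' : White S (ξ * (W S 0 0).2.2) := by
      have : (W S 0 0).2.2 = 1 := by rw [W_zero]; rfl
      rw [this, mul_one]
      exact hw
    have h1 := vv_block S ξ a b 0 0 (by omega) hw' hB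
      (fun t ht => hv _ _ (by omega) (by omega))
    refine h1.trans (mul_le_mul_of_nonneg_right ?_ hB)
    unfold gam
    norm_num
  obtain ⟨e, he⟩ := exists_near S ξ hw
  have hne := hn e he
  have hap := ap S
  have hbp := bp S
  have ha1 : 1 ≤ S.a.1 := by have := S.a1_gt; linarith
  have hb1 : 1 ≤ S.b.1 := by have := S.b1_gt; linarith
  have hab : S.a.1 ≤ S.b.1 := by have := S.b1_gt; have := S.a1_lt; linarith
  set P : ℕ → ℕ → Prop := fun i j => |e.1| * |(W S i j).1| ≤ 1 / 100 with hPdef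
  have hl : ∀ i j, |(W S (i + 1) j).1| = S.a.1 * |(W S i j).1| := by
    intro i j
    rw [W1, W1, pow_succ]
    ring
  have hr : ∀ i j, |(W S i (j + 1)).1| = S.b.1 * |(W S i j).1| := by
    intro i j
    rw [W1, W1, pow_succ]
    ring
  have hP : DownSet P := by
    refine ⟨?_, fun i j hp => ?_, fun i j hp => ?_⟩
    · show |e.1| * |(W S 0 0).1| ≤ 1 / 100
      have : (W S 0 0).1 = 1 := by rw [W_zero]; rfl
      rw [this, abs_one, mul_one]
      exact he.2.1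
    · have hp' : |e.1| * |(W S (i + 1) j).1| ≤ 1 / 100 := hp
      rw [hl] at hp'
      show |e.1| * |(W S i j).1| ≤ 1 / 100
      refine le_trans ?_ hp'
      gcongr
      exact le_mul_of_one_le_left (abs_nonneg _) ha1
    · have hp' : |e.1| * |(W S i (j + 1)).1| ≤ 1 / 100 := hp
      rw [hr] at hp'
      show |e.1| * |(W S i j).1| ≤ 1 / 100
      refine le_trans ?_ hp'
      gcongr
      exact le_mul_of_one_le_left (abs_nonneg _) hb1
  have hnP : ∀ i j, i + j = h → ¬ P i j := by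
    intro i j hij hp
    have hp' : |e.1| * |(W S i j).1| ≤ 1 / 100 := hp
    rw [W1] at hp'
    have : S.a.1 ^ h ≤ S.a.1 ^ i * S.b.1 ^ j := by
      rw [← hij, pow_add]
      gcongr
    have h2 : |e.1| * S.a.1 ^ h ≤ |e.1| * (S.a.1 ^ i * S.b.1 ^ j) :=
      mul_le_mul_of_nonneg_left this (abs_nonneg _)
    linarith
  set p := (S.a.1)⁻¹ with hpdef
  set q := (S.b.1)⁻¹ with hqdef
  have hp0 : 0 ≤ p := by positivity
  have hq0 : 0 ≤ q := by positivity
  have hpq : p + q = 1 := pq S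
  have main := exit_le hp0 hq0 hP (vv S ξ a b) h
    (fun i j hij _ => vv_step S ξ a b i j (by omega))
  have hz : ∑ x ∈ AD h, (if P x.1 x.2 then bin p q x.1 x.2 * vv S ξ a b x.1 x.2 else 0) = 0 := by
    refine Finset.sum_eq_zero fun x hx => ?_
    rw [mem_AD] at hx
    rw [if_neg (hnP _ _ hx)]
  rw [hz, add_zero] at main
  have hg := exit_ge' hp0 hq0 hP (fun i j => ‖(W S i j).2.1‖ ^ 2) h (fun i j _ => by positivity)
    (fun i j _ _ => by
      show p * ‖(W S (i + 1) j).2.1‖ ^ 2 + q * ‖(W S i (j + 1)).2.1‖ ^ 2 ≤ ‖(W S i j).2.1‖ ^ 2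
      have e1 : ‖(W S (i + 1) j).2.1‖ = ‖S.a.2.1‖ * ‖(W S i j).2.1‖ := by
        rw [W2, W2, pow_succ]
        ring
      have e2 : ‖(W S i (j + 1)).2.1‖ = ‖S.b.2.1‖ * ‖(W S i j).2.1‖ := by
        rw [W2, W2, pow_succ]
        ring
      rw [e1, e2]
      have hk := S.kap
      have h5 : p * (‖S.a.2.1‖ * ‖(W S i j).2.1‖) ^ 2 + q * (‖S.b.2.1‖ * ‖(W S i j).2.1‖) ^ 2 =
          (p * ‖S.a.2.1‖ ^ 2 + q * ‖S.b.2.1‖ ^ 2) * ‖(W S i j).2.1‖ ^ 2 := by ring
      rw [h5]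
      refine mul_le_of_le_one_left (by positivity) (hk.trans (by norm_num)))
  have hg00 : ‖(W S 0 0).2.1‖ ^ 2 = 1 := by
    have : (W S 0 0).2.1 = 1 := by rw [W_zero]; rfl
    rw [this, norm_one, one_pow]
  simp only [hg00] at hg
  have hs := sum_ex_le_one hp0 hq0 hpq hP h
  -- pointwise bound
  have hpt : ∀ m ∈ range (h + 1), ∀ x ∈ AD m, ex p q P x.1 x.2 * vv S ξ a b x.1 x.2 ≤
      ex p q P x.1 x.2 * ((1 - 1 / 1000000) * B) +
      ex p q P x.1 x.2 * ‖(W S x.1 x.2).2.1‖ ^ 2 * (B / 19000 ^ 2) := by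
    intro m hm x hx
    rw [mem_AD] at hx
    rw [Finset.mem_range] at hm
    obtain ⟨i, j⟩ := x
    dsimp only at hx ⊢
    have hex := ex_nonneg hp0 hq0 P i j
    by_cases h0 : ex p q P i j = 0
    · rw [h0]
      simp
    obtain ⟨hnp, hpred⟩ := ex_ne_zero h0
    have hnp' : 1 / 100 < |e.1| * |(W S i j).1| := not_le.1 hnp
    have hij : 1 ≤ i + j := by
      rcases hpred with ⟨h1, -⟩ | ⟨h1, -⟩ <;> omega
    have hup : |e.1| * |(W S i j).1| ≤ 5.2285 / 100 := by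
      have hbu := b1u S
      have hau := S.a1u
      rcases hpred with ⟨h1, h2⟩ | ⟨h1, h2⟩
      · have h2' : |e.1| * |(W S (i - 1) j).1| ≤ 1 / 100 := h2
        have : |(W S i j).1| = S.a.1 * |(W S (i - 1) j).1| := by
          rw [← hl, Nat.sub_add_cancel h1]
        rw [this]
        have h3 : |e.1| * (S.a.1 * |(W S (i - 1) j).1|) = S.a.1 * (|e.1| * |(W S (i - 1) j).1|) := by
          ring
        rw [h3]
        calc S.a.1 * (|e.1| * |(W S (i - 1) j).1|) ≤ 5.2285 * (1 / 100) := by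
              gcongr
              linarith
          _ = 5.2285 / 100 := by norm_num
      · have h2' : |e.1| * |(W S i (j - 1)).1| ≤ 1 / 100 := h2
        have : |(W S i j).1| = S.b.1 * |(W S i (j - 1)).1| := by
          rw [← hr, Nat.sub_add_cancel h1]
        rw [this]
        have h3 : |e.1| * (S.b.1 * |(W S i (j - 1)).1|) = S.b.1 * (|e.1| * |(W S i (j - 1)).1|) := by
          ring
        rw [h3]
        calc S.b.1 * (|e.1| * |(W S i (j - 1)).1|) ≤ 5.2285 * (1 / 100) := by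
              gcongr
          _ = 5.2285 / 100 := by norm_num
    by_cases hbig : ‖(W S i j).2.1‖ ≤ 19000
    · have hwh := white_exit S ξ he i j hnp' hup hbig
      have hb := vv_block S ξ a b i j (by omega) hwh hB
        (fun t ht => hv _ _ (by omega) (by omega))
      have h6 : 0 ≤ ex p q P i j * ‖(W S i j).2.1‖ ^ 2 * (B / 19000 ^ 2) := by positivity
      have h7 := mul_le_mul_of_nonneg_left hb hex
      linarith
    · have hvB := hv i j hij (by omega)
      have h8 : (19000 : ℝ) ^ 2 ≤ ‖(W S i j).2.1‖ ^ 2 := by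
        have := not_le.1 hbig
        gcongr
      have h9 : B ≤ ‖(W S i j).2.1‖ ^ 2 * (B / 19000 ^ 2) := by
        calc B = 19000 ^ 2 * (B / 19000 ^ 2) := by ring
          _ ≤ _ := by gcongr
      have h10 : 0 ≤ ex p q P i j * ((1 - 1 / 1000000) * B) := by
        have : (0 : ℝ) ≤ 1 - 1 / 1000000 := by norm_num
        positivity
      have h11 : ex p q P i j * vv S ξ a b i j ≤ ex p q P i j * B :=
        mul_le_mul_of_nonneg_left hvB hex
      have h12 : ex p q P i j * B ≤ ex p q P i j * (‖(W S i j).2.1‖ ^ 2 * (B / 19000 ^ 2)) :=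
        mul_le_mul_of_nonneg_left h9 hex
      rw [← mul_assoc] at h12
      linarith
  have hsum := Finset.sum_le_sum fun m hm => Finset.sum_le_sum (hpt m hm)
  simp only [Finset.sum_add_distrib, ← Finset.sum_mul] at hsum
  have hf : (∑ m ∈ range (h + 1), ∑ x ∈ AD m, ex p q P x.1 x.2) * ((1 - 1 / 1000000) * B) ≤
      1 * ((1 - 1 / 1000000) * B) := by
    refine mul_le_mul_of_nonneg_right hs (mul_nonneg (by norm_num) hB)
  have hf2 : (∑ m ∈ range (h + 1), ∑ x ∈ AD m, ex p q P x.1 x.2 * ‖(W S x.1 x.2).2.1‖ ^ 2) *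
      (B / 19000 ^ 2) ≤ 1 * (B / 19000 ^ 2) :=
    mul_le_mul_of_nonneg_right hg (by positivity)
  have hfin : 1 * ((1 - 1 / 1000000) * B) + 1 * (B / 19000 ^ 2) ≤ gam * B := by
    unfold gam
    nlinarith
  linarith

end Pool.Agent.H49.AB
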