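import Pool.Agent.H49.AB.CmpLat
import Pool.Agent.H49.AB.Reidx
import Pool.Agent.H49.AB.Atyp

/-!
# JOB AB-35. One step of the descent

`pair_triv`: `AA` is a sum over the words `v ++ w`, `w ∈ cls a b`, `v ∈ cls a' b'`, all in `cls (a+a') (b+b')`; `word_sum` for each of them, `W_add`:
`≤ card card' C (1 + R² Q²/(w1 w1')) ≤ 2 C bin bin' R² Q²` since `card/w1 = bin`, `card'/w1' = bin'` and `w1 w1' ≤ 5.2285^(17 o) ≤ exp(80 o) ≤ R² Q²`.

`pair_BB`: for fixed `(a', b')` the sum over all `(a,b) ∈ AD (16 o)` of `SG (u * ofReal BB)` is (`sum_words_eq`)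
`κ * SG (u y * ∑_{w ∈ words (16 o)} φ (gw w y))`, `φ = ofReal (gs R' 1 ·)`, `R' = R ‖W_{a'b'}‖_2`, `κ = card' (Q ‖W_{a'b'}‖_3)²`, and by `rev` it is at most
`κ * Sm R' 1 (u ∘ T^[16 o]) ≤ κ B R'² = bin(a',b') B R² Q²` (`W_prod`, `card_cls`).

`step`: by `fwd` with `n = 17 o = o + 16 o`, `words_append o (16 o)`, `sum_words_eq`:
`Sm R Q (u ∘ T^[17 o]) ≤ ∑_{(a',b') ∈ AD o} ∑_{(a,b) ∈ AD (16 o)} SG (u y * ofReal (AA y))`.
* typical pairs: `exp(6.24 o) ≤ |W_{ab}|_1` and `‖W_{a'b'}‖_2 ≤ exp(-o/50)`: `u * ofReal AA ≤ u * ofReal BB + ofReal |AA - BB|` (`u ≤ 1`), `cmp_lat` with exponent `A + 2`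
  (there are at most `(16 o + 1)(o + 1) ≤ 34 o²` pairs); the `BB` sums: extend to all `(a,b) ∈ AD (16 o)`, `pair_BB`, `∑_{(a',b')} bin ≤ 1` (`sum_bin`).
* not typical: `SG (u * ofReal AA) ≤ SG (ofReal AA)`, `pair_triv`, and `atyp1`, `atyp2`: the sum over the pairs which are not typical of `bin bin'` is at most
  `exp(-o/5) + 0.984^o ≤ C/o^A`.
-/

set_option autoImplicit false

namespace Pool.Agent.H49.AB

open Pool.Agent.H67.Tent Finset MeasureTheory

theorem step_W_le (S : Sys2) (i j : ℕ) : |(W S i j).1| ≤ Real.exp (2 * ((i + j : ℕ) : ℝ)) := by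
  have h1 : S.a.1 ≤ Real.exp 2 := by
    have := S.a1u
    have h2 : (2 : ℝ) + 1 ≤ Real.exp 2 := Real.add_one_le_exp 2
    linarith
  have h2 : S.b.1 ≤ Real.exp 2 := by
    have := b1u S
    have h3 : (2.7182818283 : ℝ) < Real.exp 1 := Real.exp_one_gt_d9
    have h4 : Real.exp 2 = Real.exp 1 * Real.exp 1 := by
      rw [← Real.exp_add]
      norm_num
    nlinarith
  have h3 : Real.exp (2 * ((i + j : ℕ) : ℝ)) = Real.exp 2 ^ i * Real.exp 2 ^ j := by
    rw [← pow_add, ← Real.exp_nat_mul]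
    congr 1
    ring
  rw [W1, h3]
  exact mul_le_mul (pow_le_pow_left₀ (ap S).le h1 _) (pow_le_pow_left₀ (bp S).le h2 _)
    (pow_nonneg (bp S).le _) (by positivity)

theorem step_card_div (S : Sys2) (a b : ℕ) :
    ((cls a b).card : ℝ) / |(W S a b).1| = bin (S.a.1)⁻¹ (S.b.1)⁻¹ a b := by
  rw [card_cls, W1]
  unfold bin
  rw [inv_pow, inv_pow]
  field_simp

theorem pair_triv (S : Sys2) (N : ℕ) (hN : 1 ≤ N) : ∃ C : ℝ, 1 ≤ C ∧
    ∀ (a b a' b' o : ℕ) (R Q : ℝ), a + b = 16 * o → a' + b' = o → Real.exp (40 * o) ≤ R →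
      1 ≤ Q → SG S N (fun y => ENNReal.ofReal (AA S N a b a' b' R Q y)) ≤
      ENNReal.ofReal (C * (bin (S.a.1)⁻¹ (S.b.1)⁻¹ a b * bin (S.a.1)⁻¹ (S.b.1)⁻¹ a' b' *
        (R ^ 2 * Q ^ 2))) := by
  obtain ⟨C0, hC0, h⟩ := word_sum S N hN
  refine ⟨2 * C0, by linarith, fun a b a' b' o R Q hab hab' hR hQ => ?_⟩
  have hRpos : 0 < R := lt_of_lt_of_le (Real.exp_pos _) hR
  have hQpos : 0 < Q := lt_of_lt_of_le one_pos hQ
  have hw : ∀ w ∈ cls a b, ∀ v ∈ cls a' b', v ++ w ∈ cls (a' + a) (b' + b) := by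
    intro w hw v hv
    rw [mem_cls] at hw hv ⊢
    rw [List.count_append, List.count_append, hw.1, hw.2, hv.1, hv.2]
    exact ⟨rfl, rfl⟩
  have e1 : SG S N (fun y => ENNReal.ofReal (AA S N a b a' b' R Q y)) =
      ∑ w ∈ cls a b, ∑ v ∈ cls a' b',
        SG S N (fun y => ENNReal.ofReal (gs R Q (gw S N (v ++ w) y))) := by
    unfold AA
    rw [SG_ofReal_sum S N (cls a b) (fun w y => ∑ v ∈ cls a' b', gs R Q (gw S N (v ++ w) y))
      (fun w _ y => Finset.sum_nonneg fun v _ => (gs_pos R Q _).le)]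
    refine Finset.sum_congr rfl fun w _ => ?_
    exact SG_ofReal_sum S N (cls a' b') (fun v y => gs R Q (gw S N (v ++ w) y))
      (fun v _ y => (gs_pos R Q _).le)
  rw [e1]
  have hWm : W S (a' + a) (b' + b) = W S a' b' * W S a b := W_add S a' b' a b
  have hW1 : |(W S (a' + a) (b' + b)).1| = |(W S a' b').1| * |(W S a b).1| := by
    rw [hWm, Prod.fst_mul, abs_mul]
  have hX : |(W S (a' + a) (b' + b)).1| ≤ R ^ 2 * Q ^ 2 := by
    have h1 := step_W_le S (a' + a) (b' + b)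
    have h2 : Real.exp (2 * ((a' + a + (b' + b) : ℕ) : ℝ)) ≤ Real.exp (40 * o) := by
      rw [Real.exp_le_exp]
      have : a' + a + (b' + b) = 17 * o := by omega
      rw [this]
      push_cast
      have : (0 : ℝ) ≤ o := Nat.cast_nonneg o
      linarith
    have h3 : (1 : ℝ) ≤ R := by
      refine le_trans ?_ hR
      rw [Real.one_le_exp_iff]
      positivity
    have h4 : R ≤ R ^ 2 * Q ^ 2 := by
      have : R * 1 ≤ R * (R * Q ^ 2) := by
        apply mul_le_mul_of_nonneg_left _ hRpos.le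
        nlinarith
      nlinarith
    exact h1.trans (h2.trans (hR.trans h4))
  have hWpos := W1_pos S (a' + a) (b' + b)
  have hb : ∀ w ∈ cls a b, ∀ v ∈ cls a' b',
      SG S N (fun y => ENNReal.ofReal (gs R Q (gw S N (v ++ w) y))) ≤
      ENNReal.ofReal (2 * C0 * (R ^ 2 * Q ^ 2 / |(W S (a' + a) (b' + b)).1|)) := by
    intro w hw' v hv'
    refine (h (a' + a) (b' + b) R Q hRpos hQpos _ (hw w hw' v hv')).trans
      (ENNReal.ofReal_le_ofReal ?_)
    have : (1 : ℝ) ≤ R ^ 2 * Q ^ 2 / |(W S (a' + a) (b' + b)).1| := by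
      rw [le_div_iff₀ hWpos, one_mul]
      exact hX
    nlinarith
  refine (Finset.sum_le_sum fun w hw' => Finset.sum_le_sum fun v hv' => hb w hw' v hv').trans ?_
  rw [Finset.sum_const, Finset.sum_const, smul_smul, nsmul_eq_mul, ← ENNReal.ofReal_natCast,
    ← ENNReal.ofReal_mul (Nat.cast_nonneg _)]
  refine ENNReal.ofReal_le_ofReal (le_of_eq ?_)
  rw [← step_card_div S a b, ← step_card_div S a' b', hW1]
  have h1 := (W1_pos S a b).ne'
  have h2 := (W1_pos S a' b').ne'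
  push_cast
  field_simp

theorem pair_BB (S : Sys2) (N : ℕ) (a' b' n : ℕ) (R Q B : ℝ) (u : E → ENNReal) (hR : 0 < R)
    (hQ : 0 < Q) (hB : 0 ≤ B) (h0 : u 0 = 0) (hN : u (N : E) = 0)
    (h : Sm S N (R * ‖(W S a' b').2.1‖) 1 (fun z => u ((T S.toSys N)^[n] z)) ≤
      ENNReal.ofReal (B * (R * ‖(W S a' b').2.1‖) ^ 2)) :
    ∑ x ∈ AD n, SG S N (fun y => u y * ENNReal.ofReal (BB S N x.1 x.2 a' b' R Q y)) ≤
      ENNReal.ofReal (B * (bin (S.a.1)⁻¹ (S.b.1)⁻¹ a' b' * (R ^ 2 * Q ^ 2))) := by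
  set κ : ℝ := (cls a' b').card * (Q * ‖(W S a' b').2.2‖) ^ 2 with hκ
  have hκ0 : 0 ≤ κ := by positivity
  set R' : ℝ := R * ‖(W S a' b').2.1‖ with hR'
  have e1 : ∀ (x : ℕ × ℕ) (y : E), ENNReal.ofReal (BB S N x.1 x.2 a' b' R Q y) =
      ENNReal.ofReal κ * ∑ w ∈ cls x.1 x.2, ENNReal.ofReal (gs R' 1 (gw S N w y)) := by
    intro x y
    unfold BB
    rw [← hκ, ← hR', ENNReal.ofReal_mul hκ0, ENNReal.ofReal_sum_of_nonneg]
    intro w _
    exact (gs_pos R' 1 _).le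
  have e2 : ∑ x ∈ AD n, SG S N (fun y => u y * ENNReal.ofReal (BB S N x.1 x.2 a' b' R Q y)) =
      ENNReal.ofReal κ * SG S N (fun y => u y * ∑ w ∈ words n,
        ENNReal.ofReal (gs R' 1 (gw S N w y))) := by
    rw [← SG_const_mul, ← SG_sum]
    refine SG_congr S N fun y _ => ?_
    rw [sum_words_eq, Finset.mul_sum, Finset.mul_sum]
    refine Finset.sum_congr rfl fun x _ => ?_
    rw [e1]
    ring
  rw [e2]
  have e3 : SG S N (fun y => u y * ∑ w ∈ words n, ENNReal.ofReal (gs R' 1 (gw S N w y))) ≤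
      ENNReal.ofReal (B * R' ^ 2) :=
    (rev S N u (fun z => ENNReal.ofReal (gs R' 1 z)) h0 hN n).trans h
  refine (mul_le_mul_right e3 _).trans ?_
  rw [← ENNReal.ofReal_mul hκ0]
  refine ENNReal.ofReal_le_ofReal (le_of_eq ?_)
  have hp := W_prod S a' b'
  have h1 := (W1_pos S a' b').ne'
  rw [← step_card_div S a' b', hκ, hR']
  have h2 : ‖(W S a' b').2.1‖ ^ 2 * ‖(W S a' b').2.2‖ ^ 2 = 1 / |(W S a' b').1| := by
    rw [eq_div_iff h1, ← hp]
    ring
  calc _ = (cls a' b').card * B * (R ^ 2 * Q ^ 2) *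
        (‖(W S a' b').2.1‖ ^ 2 * ‖(W S a' b').2.2‖ ^ 2) := by ring
    _ = _ := by rw [h2]; ring

theorem step_decay (A : ℕ) : ∃ C : ℝ, 1 ≤ C ∧ ∀ o : ℕ, 1 ≤ o →
    Real.exp (-(o : ℝ) / 5) + 0.984 ^ o ≤ C / (o : ℝ) ^ A := by
  have h1 := tendsto_pow_const_mul_const_pow_of_abs_lt_one A (r := Real.exp (-(1 / 5)))
    (by
      rw [abs_of_pos (Real.exp_pos _), Real.exp_lt_one_iff]
      norm_num)
  have h2 := tendsto_pow_const_mul_const_pow_of_abs_lt_one A (r := (0.984 : ℝ))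
    (by rw [abs_of_pos (by norm_num)]; norm_num)
  obtain ⟨C1, hC1⟩ := h1.bddAbove_range
  obtain ⟨C2, hC2⟩ := h2.bddAbove_range
  refine ⟨max 1 (C1 + C2), le_max_left _ _, fun o ho => ?_⟩
  have ho' : (0 : ℝ) < o := by exact_mod_cast ho
  have g1 : (o : ℝ) ^ A * Real.exp (-(1 / 5)) ^ o ≤ C1 := hC1 ⟨o, rfl⟩
  have g2 : (o : ℝ) ^ A * 0.984 ^ o ≤ C2 := hC2 ⟨o, rfl⟩
  have g3 : Real.exp (-(o : ℝ) / 5) = Real.exp (-(1 / 5)) ^ o := by
    rw [← Real.exp_nat_mul]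
    congr 1
    ring
  rw [le_div_iff₀ (pow_pos ho' A), g3]
  refine le_trans ?_ (le_max_right _ _)
  calc _ = (o : ℝ) ^ A * Real.exp (-(1 / 5)) ^ o + (o : ℝ) ^ A * 0.984 ^ o := by ring
    _ ≤ _ := add_le_add g1 g2

theorem step_sum_bin (S : Sys2) (n : ℕ) :
    ∑ x ∈ AD n, bin (S.a.1)⁻¹ (S.b.1)⁻¹ x.1 x.2 = 1 := by
  have h := sum_bin (S.a.1)⁻¹ (S.b.1)⁻¹ 1 1 n
  simp only [one_pow, mul_one] at h
  rw [h, pq, one_pow]

theorem step_card_AD (n : ℕ) : (AD n).card = n + 1 := by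
  show (Finset.HasAntidiagonal.antidiagonal n).card = n + 1
  exact Finset.Nat.card_antidiagonal n

theorem step_expand (S : Sys2) (N : ℕ) (R Q : ℝ) (u : E → ENNReal) (o : ℕ) :
    Sm S N R Q (fun z => u ((T S.toSys N)^[17 * o] z)) ≤
      ∑ x' ∈ AD o, ∑ x ∈ AD (16 * o),
        SG S N (fun y => u y * ENNReal.ofReal (AA S N x.1 x.2 x'.1 x'.2 R Q y)) := by
  have e0 : 17 * o = o + 16 * o := by ring
  have h1 : Sm S N R Q (fun z => u ((T S.toSys N)^[17 * o] z)) ≤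
      SG S N (fun y => u y * ∑ w ∈ words (o + 16 * o), ENNReal.ofReal (gs R Q (gw S N w y))) := by
    unfold Sm
    rw [e0]
    exact fwd S N u (fun z => ENNReal.ofReal (gs R Q z)) (o + 16 * o)
  refine h1.trans (le_of_eq ?_)
  rw [← Finset.sum_congr rfl (fun x' (_ : x' ∈ AD o) => SG_sum S N (AD (16 * o))
    (fun x y => u y * ENNReal.ofReal (AA S N x.1 x.2 x'.1 x'.2 R Q y))), ← SG_sum]
  refine SG_congr S N fun y _ => ?_
  rw [words_append, sum_words_eq, Finset.mul_sum]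
  refine Finset.sum_congr rfl fun x' _ => ?_
  rw [← Finset.mul_sum]
  congr 1
  rw [Finset.sum_congr rfl (fun v (_ : v ∈ cls x'.1 x'.2) => sum_words_eq (16 * o)
    (fun w => ENNReal.ofReal (gs R Q (gw S N (v ++ w) y)))), Finset.sum_comm]
  refine Finset.sum_congr rfl fun x _ => ?_
  unfold AA
  rw [ENNReal.ofReal_sum_of_nonneg (fun w _ => Finset.sum_nonneg fun v _ => (gs_pos R Q _).le),
    Finset.sum_comm]
  refine Finset.sum_congr rfl fun w _ => ?_
  rw [ENNReal.ofReal_sum_of_nonneg (fun v _ => (gs_pos R Q _).le)]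

theorem step (S : Sys2) (N : ℕ) (hN : 1 ≤ N) (A : ℕ) : ∃ (C : ℝ) (o0 : ℕ), 1 ≤ C ∧ 1 ≤ o0 ∧
    ∀ (o : ℕ) (R Q B : ℝ) (u : E → ENNReal), o0 ≤ o → Real.exp (40 * o) ≤ R → 1 ≤ Q →
      Q ≤ (7 / 6) ^ o → 0 ≤ B → (∀ y, u y ≤ 1) → u 0 = 0 → u (N : E) = 0 →
      (∀ a' b', a' + b' = o → ‖(W S a' b').2.1‖ ≤ Real.exp (-(o : ℝ) / 50) →
        Sm S N (R * ‖(W S a' b').2.1‖) 1 (fun z => u ((T S.toSys N)^[16 * o] z)) ≤
          ENNReal.ofReal (B * (R * ‖(W S a' b').2.1‖) ^ 2)) →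
      Sm S N R Q (fun z => u ((T S.toSys N)^[17 * o] z)) ≤
        ENNReal.ofReal ((B + C / (o : ℝ) ^ A) * (R ^ 2 * Q ^ 2)) := by
  classical
  obtain ⟨C1, hC1, H1⟩ := pair_triv S N hN
  obtain ⟨C2, o2, hC2, H2⟩ := cmp_lat S N hN (A + 2)
  obtain ⟨C3, hC3, H3⟩ := step_decay A
  refine ⟨34 * C2 + C1 * C3, max 1 o2, by nlinarith, le_max_left _ _,
    fun o R Q B u ho hR hQ hQ' hB hu h0 hN' hS => ?_⟩
  have ho1 : 1 ≤ o := le_trans (le_max_left _ _) ho
  have ho2 : o2 ≤ o := le_trans (le_max_right _ _) ho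
  have hRpos : 0 < R := lt_of_lt_of_le (Real.exp_pos _) hR
  have hQpos : 0 < Q := lt_of_lt_of_le one_pos hQ
  set X : ℝ := R ^ 2 * Q ^ 2 with hX
  have hX0 : 0 ≤ X := by positivity
  have hp : 0 ≤ (S.a.1)⁻¹ := inv_nonneg.2 (ap S).le
  have hq : 0 ≤ (S.b.1)⁻¹ := inv_nonneg.2 (bp S).le
  let bn : ℕ × ℕ → ℝ := fun x => bin (S.a.1)⁻¹ (S.b.1)⁻¹ x.1 x.2
  have hbn : ∀ x, 0 ≤ bn x := fun x => bin_nonneg hp hq _ _
  let nw : ℕ × ℕ → ℝ := fun x => if Real.exp (6.24 * o) ≤ |(W S x.1 x.2).1| then 0 else bn x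
  let nv : ℕ × ℕ → ℝ := fun x =>
    if ‖(W S x.1 x.2).2.1‖ ≤ Real.exp (-(o : ℝ) / 50) then 0 else bn x
  have hnw : ∀ x, 0 ≤ nw x := by
    intro x
    simp only [nw]
    split_ifs
    · exact le_rfl
    · exact hbn x
  have hnv : ∀ x, 0 ≤ nv x := by
    intro x
    simp only [nv]
    split_ifs
    · exact le_rfl
    · exact hbn x
  let FB : ℕ × ℕ → ℕ × ℕ → ENNReal := fun x' x =>
    if ‖(W S x'.1 x'.2).2.1‖ ≤ Real.exp (-(o : ℝ) / 50) then
      SG S N (fun y => u y * ENNReal.ofReal (BB S N x.1 x.2 x'.1 x'.2 R Q y)) else 0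
  have key : ∀ x' ∈ AD o, ∀ x ∈ AD (16 * o),
      SG S N (fun y => u y * ENNReal.ofReal (AA S N x.1 x.2 x'.1 x'.2 R Q y)) ≤
      FB x' x + ENNReal.ofReal (C2 / (o : ℝ) ^ (A + 2) * X) +
        ENNReal.ofReal (C1 * ((nw x * bn x' + bn x * nv x') * X)) := by
    intro x' hx' x hx
    rw [mem_AD] at hx hx'
    by_cases hv : ‖(W S x'.1 x'.2).2.1‖ ≤ Real.exp (-(o : ℝ) / 50)
    · by_cases hw : Real.exp (6.24 * o) ≤ |(W S x.1 x.2).1|
      · refine le_trans ?_ le_self_add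
        have e1 : FB x' x =
            SG S N (fun y => u y * ENNReal.ofReal (BB S N x.1 x.2 x'.1 x'.2 R Q y)) := if_pos hv
        rw [e1]
        refine le_trans ?_ (add_le_add le_rfl (H2 x.1 x.2 x'.1 x'.2 o R Q hx hx' ho2 hw hR hQ hQ'))
        rw [← SG_add]
        refine SG_mono S N fun y _ => ?_
        have e2 : ENNReal.ofReal (AA S N x.1 x.2 x'.1 x'.2 R Q y) ≤
            ENNReal.ofReal (BB S N x.1 x.2 x'.1 x'.2 R Q y) +
            ENNReal.ofReal |AA S N x.1 x.2 x'.1 x'.2 R Q y - BB S N x.1 x.2 x'.1 x'.2 R Q y| := by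
          refine le_trans (ENNReal.ofReal_le_ofReal ?_) ENNReal.ofReal_add_le
          have := le_abs_self (AA S N x.1 x.2 x'.1 x'.2 R Q y - BB S N x.1 x.2 x'.1 x'.2 R Q y)
          linarith
        calc u y * ENNReal.ofReal (AA S N x.1 x.2 x'.1 x'.2 R Q y)
            ≤ u y * (ENNReal.ofReal (BB S N x.1 x.2 x'.1 x'.2 R Q y) +
            ENNReal.ofReal |AA S N x.1 x.2 x'.1 x'.2 R Q y - BB S N x.1 x.2 x'.1 x'.2 R Q y|) :=
              mul_le_mul_right e2 _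
          _ = u y * ENNReal.ofReal (BB S N x.1 x.2 x'.1 x'.2 R Q y) + u y *
            ENNReal.ofReal |AA S N x.1 x.2 x'.1 x'.2 R Q y - BB S N x.1 x.2 x'.1 x'.2 R Q y| :=
              mul_add _ _ _
          _ ≤ u y * ENNReal.ofReal (BB S N x.1 x.2 x'.1 x'.2 R Q y) + 1 *
            ENNReal.ofReal |AA S N x.1 x.2 x'.1 x'.2 R Q y - BB S N x.1 x.2 x'.1 x'.2 R Q y| :=
              add_le_add le_rfl (mul_le_mul_left (hu y) _)
          _ = _ := by rw [one_mul]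
      · refine le_trans ?_ le_add_self
        refine le_trans (SG_mono S N (g := fun y =>
          ENNReal.ofReal (AA S N x.1 x.2 x'.1 x'.2 R Q y)) fun y _ => ?_) ?_
        · calc _ ≤ 1 * ENNReal.ofReal (AA S N x.1 x.2 x'.1 x'.2 R Q y) :=
                mul_le_mul_left (hu y) _
            _ = _ := one_mul _
        refine (H1 x.1 x.2 x'.1 x'.2 o R Q hx hx' hR hQ).trans (ENNReal.ofReal_le_ofReal ?_)
        refine mul_le_mul_of_nonneg_left ?_ (by linarith)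
        refine mul_le_mul_of_nonneg_right ?_ hX0
        have e3 : nw x = bn x := if_neg hw
        rw [e3]
        have : 0 ≤ bn x * nv x' := mul_nonneg (hbn x) (hnv x')
        show bn x * bn x' ≤ _
        linarith
    · refine le_trans ?_ le_add_self
      refine le_trans (SG_mono S N (g := fun y =>
        ENNReal.ofReal (AA S N x.1 x.2 x'.1 x'.2 R Q y)) fun y _ => ?_) ?_
      · calc _ ≤ 1 * ENNReal.ofReal (AA S N x.1 x.2 x'.1 x'.2 R Q y) :=
              mul_le_mul_left (hu y) _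
          _ = _ := one_mul _
      refine (H1 x.1 x.2 x'.1 x'.2 o R Q hx hx' hR hQ).trans (ENNReal.ofReal_le_ofReal ?_)
      refine mul_le_mul_of_nonneg_left ?_ (by linarith)
      refine mul_le_mul_of_nonneg_right ?_ hX0
      have e3 : nv x' = bn x' := if_neg hv
      rw [e3]
      have : 0 ≤ nw x * bn x' := mul_nonneg (hnw x) (hbn x')
      show bn x * bn x' ≤ _
      linarith
  have s1 : ∑ x' ∈ AD o, ∑ x ∈ AD (16 * o), FB x' x ≤ ENNReal.ofReal (B * X) := by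
    have t1 : ∀ x' ∈ AD o, ∑ x ∈ AD (16 * o), FB x' x ≤ ENNReal.ofReal (B * (bn x' * X)) := by
      intro x' hx'
      rw [mem_AD] at hx'
      by_cases hv : ‖(W S x'.1 x'.2).2.1‖ ≤ Real.exp (-(o : ℝ) / 50)
      · have e1 : ∀ x ∈ AD (16 * o), FB x' x =
            SG S N (fun y => u y * ENNReal.ofReal (BB S N x.1 x.2 x'.1 x'.2 R Q y)) :=
          fun x _ => if_pos hv
        rw [Finset.sum_congr rfl e1]
        exact pair_BB S N x'.1 x'.2 (16 * o) R Q B u hRpos hQpos hB h0 hN' (hS _ _ hx' hv)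
      · have e1 : ∀ x ∈ AD (16 * o), FB x' x = 0 := fun x _ => if_neg hv
        rw [Finset.sum_congr rfl e1, Finset.sum_const_zero]
        exact zero_le
    refine (Finset.sum_le_sum t1).trans ?_
    rw [← ENNReal.ofReal_sum_of_nonneg (fun x' _ => by
      have := hbn x'
      positivity)]
    refine ENNReal.ofReal_le_ofReal (le_of_eq ?_)
    rw [← Finset.mul_sum, ← Finset.sum_mul]
    rw [show ∑ x' ∈ AD o, bn x' = 1 from step_sum_bin S o, one_mul]
  have s2 : ∑ x' ∈ AD o, ∑ x ∈ AD (16 * o), ENNReal.ofReal (C2 / (o : ℝ) ^ (A + 2) * X) ≤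
      ENNReal.ofReal (34 * C2 / (o : ℝ) ^ A * X) := by
    rw [Finset.sum_const, Finset.sum_const, step_card_AD, step_card_AD, smul_smul, nsmul_eq_mul,
      ← ENNReal.ofReal_natCast, ← ENNReal.ofReal_mul (Nat.cast_nonneg _)]
    refine ENNReal.ofReal_le_ofReal ?_
    have ho' : (1 : ℝ) ≤ o := by exact_mod_cast ho1
    have t1 : (((o + 1) * (16 * o + 1) : ℕ) : ℝ) ≤ 34 * (o : ℝ) ^ 2 := by
      push_cast
      nlinarith
    have t2 : 0 ≤ C2 / (o : ℝ) ^ (A + 2) * X := by positivity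
    refine (mul_le_mul_of_nonneg_right t1 t2).trans (le_of_eq ?_)
    rw [pow_add]
    field_simp
  have s3 : ∑ x' ∈ AD o, ∑ x ∈ AD (16 * o),
      ENNReal.ofReal (C1 * ((nw x * bn x' + bn x * nv x') * X)) ≤
      ENNReal.ofReal (C1 * C3 / (o : ℝ) ^ A * X) := by
    have t0 : ∀ x' x, 0 ≤ C1 * ((nw x * bn x' + bn x * nv x') * X) := by
      intro x' x
      have := hnw x
      have := hnv x'
      have := hbn x
      have := hbn x'
      positivity
    rw [Finset.sum_congr rfl (fun x' (_ : x' ∈ AD o) =>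
      (ENNReal.ofReal_sum_of_nonneg (fun x (_ : x ∈ AD (16 * o)) => t0 x' x)).symm),
      ← ENNReal.ofReal_sum_of_nonneg (fun x' _ => Finset.sum_nonneg fun x _ => t0 x' x)]
    refine ENNReal.ofReal_le_ofReal ?_
    have t1 : ∑ x' ∈ AD o, ∑ x ∈ AD (16 * o), C1 * ((nw x * bn x' + bn x * nv x') * X) =
        C1 * (((∑ x ∈ AD (16 * o), nw x) * (∑ x' ∈ AD o, bn x') +
          (∑ x ∈ AD (16 * o), bn x) * (∑ x' ∈ AD o, nv x')) * X) := by
      rw [Finset.sum_mul_sum, Finset.sum_mul_sum, Finset.sum_comm, ← Finset.sum_add_distrib,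
        Finset.sum_mul, Finset.mul_sum]
      refine Finset.sum_congr rfl fun x _ => ?_
      rw [← Finset.sum_add_distrib, Finset.sum_mul, Finset.mul_sum]
    rw [t1, show ∑ x' ∈ AD o, bn x' = 1 from step_sum_bin S o,
      show ∑ x ∈ AD (16 * o), bn x = 1 from step_sum_bin S (16 * o), mul_one, one_mul]
    have t2 : ∑ x ∈ AD (16 * o), nw x ≤ Real.exp (-(o : ℝ) / 5) := by
      refine le_trans (le_of_eq ?_) (atyp1 S o)
      refine Finset.sum_congr rfl fun x _ => ?_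
      simp only [nw, bn]
    have t3 : ∑ x' ∈ AD o, nv x' ≤ 0.984 ^ o := by
      refine le_trans (le_of_eq ?_) (atyp2 S o)
      refine Finset.sum_congr rfl fun x _ => ?_
      simp only [nv, bn]
    have t4 := H3 o ho1
    calc _ ≤ C1 * (C3 / (o : ℝ) ^ A * X) := by
          refine mul_le_mul_of_nonneg_left ?_ (by linarith)
          refine mul_le_mul_of_nonneg_right ?_ hX0
          linarith
      _ = _ := by ring
  refine (step_expand S N R Q u o).trans ?_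
  refine (Finset.sum_le_sum fun x' hx' => Finset.sum_le_sum fun x hx => key x' hx' x hx).trans ?_
  simp only [Finset.sum_add_distrib]
  refine (add_le_add (add_le_add s1 s2) s3).trans ?_
  have ho' : (0 : ℝ) < o := by exact_mod_cast ho1
  rw [← ENNReal.ofReal_add (by positivity) (by positivity),
    ← ENNReal.ofReal_add (by positivity) (by positivity)]
  refine ENNReal.ofReal_le_ofReal (le_of_eq ?_)
  ring

end Pool.Agent.H49.AB
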