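import Pool.Agent.H49.AB.Block

/-!
# JOB AB-05. The grid function `vv`

`vv S ξ a b i j = V S 1 (ξ W_{ij}) (a-i) (b-j)` for `i ≤ a`, `j ≤ b`, and `0` otherwise. `vv_step` is `V_step` at the position (`W_add`,
`W S (i+1) j = W S i j * W S 1 0`; subtractions of natural numbers), `vv_block` is `V_block`, `vv_shift` is `W_add`; `vv_bound`:
`‖W_{ij}‖ ‖W_{a-i,b-j}‖ = ‖W_{ab}‖` at the third place.
-/

set_option autoImplicit false

namespace Pool.Agent.H49.AB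

open Pool.Agent.H67.Tent Finset

theorem vv_nonneg (S : Sys2) (ξ : ℂ) (a b i j : ℕ) : 0 ≤ vv S ξ a b i j := by
  unfold vv
  split_ifs
  · exact V_nonneg _ _ _ _ _
  · exact le_refl _

theorem vv_le_one (S : Sys2) (ξ : ℂ) (a b i j : ℕ) : vv S ξ a b i j ≤ 1 := by
  unfold vv
  split_ifs
  · exact V_le_one _ _ _ _ _
  · exact zero_le_one

theorem vv_zero (S : Sys2) (ξ : ℂ) (a b : ℕ) : vv S ξ a b 0 0 = V S 1 ξ a b := by
  unfold vv
  rw [if_pos ⟨Nat.zero_le _, Nat.zero_le _⟩, W_zero]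
  show V S 1 (ξ * 1) (a - 0) (b - 0) = _
  rw [mul_one, Nat.sub_zero, Nat.sub_zero]

theorem vv_W3_add (S : Sys2) (i j i' j' : ℕ) :
    (W S (i + i') (j + j')).2.2 = (W S i j).2.2 * (W S i' j').2.2 := by
  rw [W_add]
  rfl

theorem vv_step (S : Sys2) (ξ : ℂ) (a b i j : ℕ) (h : i + j < a + b) :
    vv S ξ a b i j ≤ (S.a.1)⁻¹ * vv S ξ a b (i + 1) j + (S.b.1)⁻¹ * vv S ξ a b i (j + 1) := by
  have hp : 0 ≤ (S.a.1)⁻¹ := inv_nonneg.2 (ap S).le
  have hq : 0 ≤ (S.b.1)⁻¹ := inv_nonneg.2 (bp S).le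
  by_cases hij : i ≤ a ∧ j ≤ b
  · have e : vv S ξ a b i j = V S 1 (ξ * (W S i j).2.2) (a - i) (b - j) := if_pos hij
    rw [e]
    obtain ⟨h1, h2⟩ := hij
    refine (V_step S 1 _ (a - i) (b - j) (by omega)).trans (add_le_add ?_ ?_)
    · by_cases h3 : 1 ≤ a - i
      · rw [if_pos h3]
        unfold vv
        rw [if_pos ⟨by omega, h2⟩]
        have e1 := vv_W3_add S i j 1 0
        rw [add_zero] at e1
        rw [e1, mul_assoc, Nat.sub_sub]
      · rw [if_neg h3]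
        exact mul_nonneg hp (vv_nonneg _ _ _ _ _ _)
    · by_cases h3 : 1 ≤ b - j
      · rw [if_pos h3]
        unfold vv
        rw [if_pos ⟨h1, by omega⟩]
        have e1 := vv_W3_add S i j 0 1
        rw [add_zero] at e1
        rw [e1, mul_assoc, Nat.sub_sub]
      · rw [if_neg h3]
        exact mul_nonneg hq (vv_nonneg _ _ _ _ _ _)
  · have e : vv S ξ a b i j = 0 := if_neg hij
    rw [e]
    exact add_nonneg (mul_nonneg hp (vv_nonneg _ _ _ _ _ _)) (mul_nonneg hq (vv_nonneg _ _ _ _ _ _))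

theorem vv_block (S : Sys2) (ξ : ℂ) (a b i j : ℕ) (h : i + j + 6 ≤ a + b)
    (hw : White S (ξ * (W S i j).2.2)) {B : ℝ} (hB : 0 ≤ B)
    (hv : ∀ t ≤ 6, vv S ξ a b (i + (6 - t)) (j + t) ≤ B) :
    vv S ξ a b i j ≤ (1 - 1 / 1000000) * B := by
  by_cases hij : i ≤ a ∧ j ≤ b
  · have e : vv S ξ a b i j = V S 1 (ξ * (W S i j).2.2) (a - i) (b - j) := if_pos hij
    rw [e]
    obtain ⟨h1, h2⟩ := hij
    refine V_block S _ (a - i) (b - j) (by omega) hw hB fun t ht h3 h4 => ?_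
    refine le_trans (le_of_eq ?_) (hv t ht)
    unfold vv
    rw [if_pos ⟨by omega, by omega⟩, vv_W3_add, mul_assoc, Nat.sub_sub, Nat.sub_sub]
  · have e : vv S ξ a b i j = 0 := if_neg hij
    rw [e]
    exact mul_nonneg (by norm_num) hB

theorem vv_shift (S : Sys2) (ξ : ℂ) {a b i0 j0 : ℕ} (hi : i0 ≤ a) (hj : j0 ≤ b) (i j : ℕ) :
    vv S (ξ * (W S i0 j0).2.2) (a - i0) (b - j0) i j = vv S ξ a b (i0 + i) (j0 + j) := by
  unfold vv
  by_cases h : i ≤ a - i0 ∧ j ≤ b - j0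
  · rw [if_pos h, if_pos ⟨by omega, by omega⟩, vv_W3_add, mul_assoc, Nat.sub_sub, Nat.sub_sub]
  · rw [if_neg h, if_neg (by omega)]

/-- Transfer of a bound for `V` to `vv` (the quantity `‖ξ‖ ‖W_{ab}‖_3` does not change). -/
theorem vv_bound (S : Sys2) (ξ : ℂ) (a b i j : ℕ) {B : ℝ} (hB : 0 ≤ B)
    (h : i ≤ a → j ≤ b → ∀ ξ' : ℂ,
      ‖ξ'‖ * ‖(W S (a - i) (b - j)).2.2‖ = ‖ξ‖ * ‖(W S a b).2.2‖ → V S 1 ξ' (a - i) (b - j) ≤ B) :
    vv S ξ a b i j ≤ B := by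
  unfold vv
  split_ifs with hij
  · refine h hij.1 hij.2 _ ?_
    have e := vv_W3_add S i j (a - i) (b - j)
    rw [Nat.add_sub_cancel' hij.1, Nat.add_sub_cancel' hij.2] at e
    rw [e, norm_mul, norm_mul]
    ring
  · exact hB

end Pool.Agent.H49.AB
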